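import Pool.Agent.Helper23.SM.Met

set_option autoImplicit false
set_option linter.unreachableTactic false
set_option linter.unusedTactic false

/-!
# The generic sets
-/

universe u v w

namespace Pool.Agent.Helper23.SM

open WT (iffV bElim bOr bMP bImp bNot bAbs bAll bEx bIff bIff_mp bIff_mpr bLeft bRight bCases bContra eq_of_forall iffV_self iffV_eq_top)
open WT (Fm ZF IsUPair IsOPair App IsFun IsOmega IsInductive ZM IsFn isFun_iff app_iff opair ap)

namespace HN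

/-- a coding of the complex numbers by sets of natural numbers -/
theorem exists_code : ∃ f : ℂ → Set ℕ, Function.Injective f := by
  have h : Cardinal.mk ℂ ≤ Cardinal.mk (Set ℕ) := by
    rw [Cardinal.mk_complex, Cardinal.mk_set, Cardinal.mk_nat, Cardinal.two_power_aleph0]
  obtain ⟨f⟩ := h
  exact ⟨f, f.injective⟩

/-- names of complex numbers -/
noncomputable def cn (c : ℂ) : HN.{0} := sub (exists_code.choose c)

theorem supp_cn (c : ℂ) (E : Set Ix) : Supp E (cn c) := supp_sub _ E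

theorem cn_ne {c d : ℂ} (h : c ≠ d) : eq (cn c) (cn d) = ⊥ :=
  sub_ne fun e => h (exists_code.choose_spec e)

/-- names of real numbers -/
noncomputable def rn (r : ℝ) : HN.{0} := cn r

theorem supp_rn (r : ℝ) (E : Set Ix) : Supp E (rn r) := supp_cn _ E

theorem rn_ne {c d : ℝ} (h : c ≠ d) : eq (rn c) (rn d) = ⊥ :=
  cn_ne fun e => h (Complex.ofReal_injective e)

theorem eq_act_of_supp {x : HN.{0}} (h : Supp ∅ x) (g : Gp) : eq (act g x) x = ⊤ :=
  h g fun _ hx => hx.elim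

/-- equality of names from their elements -/
theorem eq_top_of {x y : HN.{0}} (h : ∀ w, mem w x = mem w y) : eq x y = ⊤ :=
  eq_top_iff.2 (bExt (fun w _ _ h1 => by rw [← h]; exact h1) (fun w _ _ h1 => by rw [h]; exact h1))

theorem eq_symm_top {x y : HN.{0}} (h : eq x y = ⊤) : eq y x = ⊤ := by rw [eq_symm]; exact h

/-! ### the generic subsets of the reals -/

theorem exists_c (i : Ix) : ∃ z : HN.{0}, (∀ w, mem w z = ⨆ κ : ℝ, bit i κ ⊓ eq w (rn κ)) ∧
    Supp {i} z :=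
  exists_of_char rn (bit i) (fun w => ⨆ κ : ℝ, bit i κ ⊓ eq w (rn κ)) (fun _ => rfl) {i}
    ⟨Set.countable_singleton i, i.1 + 1, fun x hx => by rw [Set.mem_singleton_iff.1 hx]; omega⟩
    (fun g hg w => by
      rw [OrderIso.map_iSup]
      refine iSup_congr fun κ => ?_
      rw [map_inf, ρ_bit, hg i rfl, (supp_rn κ {i}).eq_act hg])

/-- the generic sets of real numbers -/
noncomputable def c (i : Ix) : HN.{0} := (exists_c i).choose

theorem mem_c (i : Ix) (w : HN.{0}) : mem w (c i) = ⨆ κ : ℝ, bit i κ ⊓ eq w (rn κ) :=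
  (exists_c i).choose_spec.1 w

theorem act_c (g : Gp) (i : Ix) : eq (act g (c i)) (c (g.ap i)) = ⊤ := by
  refine eq_top_of fun w => ?_
  obtain ⟨w, rfl⟩ := act_surj g w
  rw [mem_act, mem_c, mem_c, OrderIso.map_iSup]
  refine iSup_congr fun κ => ?_
  rw [map_inf, ρ_bit, (supp_rn κ ∅).eq_act (fun x hx => hx.elim)]

theorem mem_rn_c (i : Ix) (κ : ℝ) : mem (rn κ) (c i) = bit i κ := by
  rw [mem_c]
  refine le_antisymm (iSup_le fun κ' => ?_) (bEx κ (le_inf le_rfl (bRefl _)))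
  by_cases h : κ = κ'
  · rw [h]; exact inf_le_left
  · rw [rn_ne h, inf_bot_eq]; exact bot_le

theorem c_ne {i j : Ix} (h : i ≠ j) : eq (c i) (c j) = ⊥ := by
  rw [eq_bot_iff]
  refine le_of_frc fun p hp => ?_
  obtain ⟨q, hq, κ, h1, h2⟩ := bit_sep h p
  rw [← mem_rn_c] at h1
  have h3 : Frc q (mem (rn κ) (c j)) := Frc.mono (bMemR inf_le_left inf_le_right)
    (frc_inf.2 ⟨hp.lower hq, h1⟩)
  rw [mem_rn_c] at h3
  exact (frc_absurd h3 h2).elim

/-! ### the sets of generic sets -/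

theorem supp_c {i : Ix} {E : Set Ix} (h : i ∈ E) : Supp E (c i) := by
  intro g hg
  have := act_c g i
  rwa [hg i h] at this

theorem isSp_single (i : Ix) : IsSp {i} :=
  ⟨Set.countable_singleton i, i.1 + 1, fun x hx => by rw [Set.mem_singleton_iff.1 hx]; omega⟩

theorem exists_xn (n : ℕ) (q : ℚ) : ∃ z : HN.{0}, (∀ w, mem w z = ⨆ j : ℝ, eq w (c (n, q, j))) ∧
    Supp {(n, 0, 0)} z :=
  exists_family (fun j : ℝ => c (n, q, j)) {(n, 0, 0)} (isSp_single _) (fun g hg => by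
    have htr : g.tr n = 0 := Gp.Fix_tr hg (x := (n, 0, 0)) rfl
    have hap : ∀ (h : Gp) (_ : h.tr n = 0) (j : ℝ), h.ap (n, q, j) = (n, q, (h.ap (n, q, j)).2.2) := by
      intro h hh j
      refine Prod.ext (Gp.ap_fst _ _) (Prod.ext ?_ rfl)
      rw [Gp.ap_snd]
      show q + h.tr n = q
      rw [hh, add_zero]
    have htr' : g⁻¹.tr n = 0 := by rw [Gp.tr_inv]; simp [htr]
    refine ⟨fun j => (g.ap (n, q, j)).2.2, fun j => ⟨(g⁻¹.ap (n, q, j)).2.2, ?_⟩, fun j => ?_⟩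
    · simp only
      rw [← hap g⁻¹ htr' j, Gp.ap_inv_ap]
    · simp only
      rw [← hap g htr j]
      exact act_c g _)

/-- the sets `x_{n, q}` -/
noncomputable def xn (n : ℕ) (q : ℚ) : HN.{0} := (exists_xn n q).choose

theorem mem_xn (n : ℕ) (q : ℚ) (w : HN.{0}) : mem w (xn n q) = ⨆ j : ℝ, eq w (c (n, q, j)) :=
  (exists_xn n q).choose_spec.1 w

theorem supp_xn (n : ℕ) (q : ℚ) : Supp {(n, 0, 0)} (xn n q) := (exists_xn n q).choose_spec.2

theorem act_xn (g : Gp) (n : ℕ) (q : ℚ) : eq (act g (xn n q)) (xn n (q + g.tr n)) = ⊤ := by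
  refine eq_top_of fun w => ?_
  obtain ⟨w, rfl⟩ := act_surj g w
  rw [mem_act, mem_xn, mem_xn, OrderIso.map_iSup]
  have hap : ∀ (h : Gp) (q : ℚ) (j : ℝ), h.ap (n, q, j) = (n, q + h.tr n, (h.ap (n, q, j)).2.2) := by
    intro h q j
    refine Prod.ext (Gp.ap_fst _ _) (Prod.ext ?_ rfl)
    rw [Gp.ap_snd]
  have hs : Function.Surjective (fun j : ℝ => (g.ap (n, q, j)).2.2) := fun j => by
    refine ⟨(g⁻¹.ap (n, q + g.tr n, j)).2.2, ?_⟩
    simp only
    have h1 := hap g⁻¹ (q + g.tr n) j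
    have h2 : q + g.tr n + g⁻¹.tr n = q := by rw [Gp.tr_inv]; simp
    rw [h2] at h1
    rw [← h1, Gp.ap_inv_ap]
  conv_rhs => rw [← hs.iSup_comp]
  refine iSup_congr fun j => ?_
  rw [← HN.eq_act]
  have h3 := act_c g (n, q, j)
  rw [hap g q j] at h3
  exact eq_congr_top h3

theorem xn_ne {n n' : ℕ} {q q' : ℚ} (h : ¬ (n = n' ∧ q = q')) : eq (xn n q) (xn n' q') = ⊥ := by
  have h1 : eq (xn n q) (xn n' q') ≤ mem (c (n, q, 0)) (xn n' q') := by
    refine bMemR le_rfl ?_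
    rw [mem_xn]
    exact bEx 0 (bRefl _)
  rw [eq_bot_iff]
  refine h1.trans ?_
  rw [mem_xn]
  refine iSup_le fun j => ?_
  rw [c_ne]
  intro e
  exact h ⟨congrArg Prod.fst e, congrArg (fun x => x.2.1) e⟩

theorem exists_tn (n : ℕ) : ∃ z : HN.{0}, (∀ w, mem w z = ⨆ q : ℚ, eq w (xn n q)) ∧ Supp ∅ z :=
  exists_family (fun q : ℚ => xn n q) ∅ isSp_empty (fun g _ =>
    ⟨fun q => q + g.tr n, fun q => ⟨q - g.tr n, by simp⟩, fun q => act_xn g n q⟩)

/-- the sets `t_n` -/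
noncomputable def tn (n : ℕ) : HN.{0} := (exists_tn n).choose

theorem mem_tn (n : ℕ) (w : HN.{0}) : mem w (tn n) = ⨆ q : ℚ, eq w (xn n q) :=
  (exists_tn n).choose_spec.1 w

theorem supp_tn (n : ℕ) (E : Set Ix) : Supp E (tn n) :=
  (exists_tn n).choose_spec.2.anti (Set.empty_subset E)

theorem tn_ne {n m : ℕ} (h : n ≠ m) : eq (tn n) (tn m) = ⊥ := by
  have h1 : eq (tn n) (tn m) ≤ mem (xn n 0) (tn m) := by
    refine bMemR le_rfl ?_
    rw [mem_tn]
    exact bEx 0 (bRefl _)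
  rw [eq_bot_iff]
  refine h1.trans ?_
  rw [mem_tn]
  refine iSup_le fun q => ?_
  rw [xn_ne]
  intro e
  exact h e.1

/-! ### the circles -/

/-- rotation by a rational angle -/
noncomputable def rot (q : ℚ) : ℂ := Complex.exp (Complex.I * (q : ℝ))

theorem rot_add (q r : ℚ) : rot (q + r) = rot q * rot r := by
  unfold rot
  rw [← Complex.exp_add]
  congr 1
  push_cast
  ring

theorem rot_zero : rot 0 = 1 := by
  unfold rot
  simp

theorem norm_rot (q : ℚ) : ‖rot q‖ = 1 := by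
  unfold rot
  rw [mul_comm, Complex.norm_exp_ofReal_mul_I]

theorem rot_ne_zero (q : ℚ) : rot q ≠ 0 := Complex.exp_ne_zero _

theorem rot_one_ne : rot (-1) ≠ 1 := by
  unfold rot
  intro h
  rw [Complex.exp_eq_one_iff] at h
  obtain ⟨n, hn⟩ := h
  have h1 : Complex.I * ((-1 : ℚ) : ℝ) = Complex.I * ((n : ℝ) * (2 * Real.pi) : ℝ) := by
    rw [hn]
    push_cast
    ring
  have h2 := mul_left_cancel₀ Complex.I_ne_zero h1
  have h3 : (((-1 : ℚ) : ℝ)) = (n : ℝ) * (2 * Real.pi) := by exact_mod_cast h2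
  have hn0 : n ≠ 0 := by
    rintro rfl
    simp at h3
  have h4 : Real.pi = ((-1 / (2 * n) : ℚ) : ℝ) := by
    have : (n : ℝ) ≠ 0 := by exact_mod_cast hn0
    push_cast at h3 ⊢
    field_simp
    linarith
  exact irrational_pi ⟨_, h4.symm⟩

theorem exists_un (n : ℕ) (a : ℂ) : ∃ z : HN.{0},
    (∀ w, mem w z = ⨆ q : ℚ, eq w (opair (xn n q) (cn (rot q * a)))) ∧ Supp {(n, 0, 0)} z :=
  exists_family' (fun q : ℚ => opair (xn n q) (cn (rot q * a))) {(n, 0, 0)} (isSp_single _)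
    (fun q => (supp_xn n q).opair (supp_cn _ _))

/-- the points of the circles -/
noncomputable def un (n : ℕ) (a : ℂ) : HN.{0} := (exists_un n a).choose

theorem mem_un (n : ℕ) (a : ℂ) (w : HN.{0}) :
    mem w (un n a) = ⨆ q : ℚ, eq w (opair (xn n q) (cn (rot q * a))) :=
  (exists_un n a).choose_spec.1 w

theorem supp_un (n : ℕ) (a : ℂ) : Supp {(n, 0, 0)} (un n a) := (exists_un n a).choose_spec.2

theorem act_un (g : Gp) (n : ℕ) (a : ℂ) : eq (act g (un n a)) (un n (rot (- g.tr n) * a)) = ⊤ := by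
  refine eq_top_of fun w => ?_
  obtain ⟨w, rfl⟩ := act_surj g w
  rw [mem_act, mem_un, mem_un, OrderIso.map_iSup]
  have hs : Function.Surjective (fun q : ℚ => q + g.tr n) := fun q => ⟨q - g.tr n, by simp⟩
  conv_rhs => rw [← hs.iSup_comp]
  refine iSup_congr fun q => ?_
  rw [← HN.eq_act]
  refine eq_congr_top (trans_top (act_opair g _ _) (opair_congr_top (act_xn g n q) ?_))
  have : rot (q + g.tr n) * (rot (- g.tr n) * a) = rot q * a := by
    rw [← mul_assoc, ← rot_add]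
    congr 2
    ring
  rw [this]
  exact eq_act_of_supp (supp_cn _ _) g

theorem un_ne {n n' : ℕ} {a a' : ℂ} (h : ¬ (n = n' ∧ a = a')) : eq (un n a) (un n' a') = ⊥ := by
  have h1 : eq (un n a) (un n' a') ≤ mem (opair (xn n 0) (cn (rot 0 * a))) (un n' a') := by
    refine bMemR le_rfl ?_
    rw [mem_un]
    exact bEx 0 (bRefl _)
  rw [eq_bot_iff]
  refine h1.trans ?_
  rw [mem_un]
  refine iSup_le fun q => ?_
  by_cases h2 : n = n' ∧ (0 : ℚ) = q
  · obtain ⟨rfl, rfl⟩ := h2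
    have h3 : rot 0 * a ≠ rot 0 * a' := by
      rw [rot_zero, one_mul, one_mul]
      exact fun e => h ⟨rfl, e⟩
    exact (bOpairSnd le_rfl).trans (cn_ne h3).le
  · exact (bOpairFst le_rfl).trans (xn_ne h2).le

end HN

end Pool.Agent.Helper23.SM
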