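import Pool.Agent.Helper23.SM.LS

set_option autoImplicit false

/-!
# The axioms of ZF
-/

universe u v w

namespace Pool.Agent.Helper23.SM

open WT (iffV bElim bOr bMP bImp bNot bAbs bAll bEx bIff bIff_mp bIff_mpr bLeft bRight bCases bContra eq_of_forall iffV_self iffV_eq_top)
open WT (Fm)

namespace HN

theorem eq_congr_top {x y z : HN.{u}} (h : eq x y = ⊤) : eq z x = eq z y :=
  eq_of_forall fun _ => ⟨fun h' => bTrans h' (le_top.trans h.ge),
    fun h' => bTrans h' (bSymm (le_top.trans h.ge))⟩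

theorem mem_congr_top {x y z : HN.{u}} (h : eq x y = ⊤) : mem z x = mem z y :=
  eq_of_forall fun _ => ⟨fun h' => bMemR (le_top.trans h.ge) h',
    fun h' => bMemR (bSymm (le_top.trans h.ge)) h'⟩

theorem mem_congr_top' {x y z : HN.{u}} (h : eq x y = ⊤) : mem x z = mem y z :=
  eq_of_forall fun _ => ⟨fun h' => bMemL (le_top.trans h.ge) h',
    fun h' => bMemL (bSymm (le_top.trans h.ge)) h'⟩

theorem cases_name (x : HN.{u}) : ∃ (ι : Type u) (a : ι → HN.{u}) (v : ι → BB),
    ∀ w, mem w x = ⨆ i, v i ⊓ eq w (a i) := by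
  obtain ⟨x, hx⟩ := x
  cases x with
  | mk ι a v => exact ⟨ι, fun i => ⟨a i, hx.1 i⟩, v, fun w => rfl⟩

theorem exists_of_fm {κ : Type w} {ι : Type u} (a : ι → HN.{u}) (v : ι → BB) (e : κ → HN.{u})
    (f : Fm κ 1) (hf : ∀ x, vl e f ![x] = ⨆ i, v i ⊓ eq x (a i)) :
    ∃ z : HN.{u}, ∀ x, mem x z = vl e f ![x] := by
  obtain ⟨F, hsp, hF⟩ := vl_act e f
  obtain ⟨z, hz, _⟩ := exists_of_char a v (fun x => vl e f ![x]) hf F hsp (fun g hg x => by
    rw [← hF g hg]
    congr 1
    funext i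
    fin_cases i
    rfl)
  exact ⟨z, hz⟩

theorem exists_ins (a x : HN.{u}) : ∃ z : HN.{u}, ∀ w, mem w z = eq w a ⊔ mem w x := by
  obtain ⟨ι, b, v, h⟩ := cases_name x
  have := exists_of_fm (κ := Bool) (fun o : Option ι => o.elim a b) (fun o => o.elim ⊤ v)
    (fun c => cond c a x) ((Fm.eq (.inl 0) (.inr true)).or (Fm.mem (.inl 0) (.inr false)))
    (fun w => by
      rw [iSup_option]
      simp [h])
  simpa using this

theorem exists_union (x : HN.{u}) : ∃ z : HN.{u}, ∀ w, mem w z = ⨆ y, mem y x ⊓ mem w y := by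
  obtain ⟨ι, a, u, h⟩ := cases_name x
  have h2 := fun i => cases_name (a i)
  choose κ b v h2 using h2
  have := exists_of_fm (κ := Unit) (fun p : Σ i, κ i => b p.1 p.2) (fun p => u p.1 ⊓ v p.1 p.2)
    (fun _ => x) (Fm.ex ((Fm.mem (.inl 0) (.inr ())).and (Fm.mem (.inl 1) (.inl 0))))
    (fun w => by
      simp only [vl_ex, vl_and, vl_mem, Sum.elim_inl, Sum.elim_inr, Matrix.cons_val_zero,
        Matrix.cons_val_one]
      refine le_antisymm (iSup_le fun y => ?_) (iSup_le fun p => ?_)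
      · rw [h]
        refine bElim (bLeft le_rfl) fun i Δ h3 h4 => ?_
        have h5 : Δ ≤ mem w (a i) := bMemR (bRight h4) (bRight h3)
        rw [h2] at h5
        refine bElim h5 fun j Δ' h6 h7 => ?_
        exact bEx ⟨i, j⟩ (le_inf (le_inf (bLeft (h6.trans h4)) (bLeft h7)) (bRight h7))
      · refine bEx (a p.1) (le_inf ?_ ?_)
        · rw [h]
          exact bEx p.1 (le_inf (bLeft (bLeft le_rfl)) (bRefl _))
        · rw [h2]
          exact bEx p.2 (le_inf (bRight (bLeft le_rfl)) (bRight le_rfl)))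
  simpa using this

theorem exists_sep {κ : Type w} (e : κ → HN.{u}) (f : Fm κ 1) (x : HN.{u}) :
    ∃ z : HN.{u}, ∀ w, mem w z = mem w x ⊓ vl e f ![w] := by
  obtain ⟨ι, a, u, h⟩ := cases_name x
  have := exists_of_fm (κ := Option κ) a (fun i => u i ⊓ vl e f ![a i])
    (fun o => o.elim x e) ((Fm.mem (.inl 0) (.inr none)).and (f.map some))
    (fun w => by
      simp only [vl_and, vl_mem, Sum.elim_inl, Sum.elim_inr, vl_map, Option.elim,
        Matrix.cons_val_zero]
      rw [h, iSup_inf_eq]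
      refine iSup_congr fun i => ?_
      have key : ∀ Γ ≤ eq w (a i), (Γ ≤ vl e f ![w] ↔ Γ ≤ vl e f ![a i]) := by
        intro Γ hΓ
        constructor
        · exact vl_congr f (fun c => bRefl _) (fun j => by fin_cases j; exact hΓ)
        · exact vl_congr f (fun c => bRefl _) (fun j => by fin_cases j; exact bSymm hΓ)
      refine eq_of_forall fun Γ => ⟨fun h' => ?_, fun h' => ?_⟩
      · exact le_inf (le_inf (bLeft (bLeft h')) ((key Γ (bRight (bLeft h'))).1 (bRight h')))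
          (bRight (bLeft h'))
      · exact le_inf (le_inf (bLeft (bLeft h')) (bRight h'))
          ((key Γ (bRight h')).2 (bRight (bLeft h'))))
  simpa [vl_map, Function.comp_def] using this

theorem exists_inter (w x : HN.{u}) : ∃ z : HN.{u}, ∀ y, mem y z = mem y x ⊓ mem y w := by
  simpa using exists_sep (κ := Unit) (fun _ => w) (Fm.mem (.inl 0) (.inr ())) x

theorem exists_power (x : HN.{u}) : ∃ z : HN.{u}, ∀ w, mem w z = ⨅ y, mem y w ⇨ mem y x := by
  obtain ⟨ι, a, u, h⟩ := cases_name x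
  let I := {v : ι → BB // (∀ i, v i ≤ u i) ∧ ∃ z : HN.{u}, ∀ w, mem w z = ⨆ i, v i ⊓ eq w (a i)}
  have := exists_of_fm (κ := Unit) (fun p : I => p.2.2.choose) (fun _ => ⊤)
    (fun _ => x) (Fm.all ((Fm.mem (.inl 0) (.inl 1)).imp (Fm.mem (.inl 0) (.inr ()))))
    (fun w => by
      simp only [vl_all, vl_imp, vl_mem, Sum.elim_inl, Sum.elim_inr, Matrix.cons_val_zero,
        Matrix.cons_val_one, top_inf_eq]
      refine le_antisymm ?_ (iSup_le fun p => le_iInf fun y => bImp fun Δ h1 h2 => ?_)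
      · obtain ⟨w', hw'⟩ := exists_inter w x
        have hI : (∀ i, mem (a i) w ⊓ u i ≤ u i) ∧ ∃ z : HN.{u}, ∀ y, mem y z =
            ⨆ i, (mem (a i) w ⊓ u i) ⊓ eq y (a i) := by
          refine ⟨fun i => inf_le_right, w', fun y => ?_⟩
          rw [hw', h, iSup_inf_eq]
          refine iSup_congr fun i => eq_of_forall fun Γ => ⟨fun h' => ?_, fun h' => ?_⟩
          · exact le_inf (le_inf (bMemL (bRight (bLeft h')) (bRight h')) (bLeft (bLeft h')))
              (bRight (bLeft h'))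
          · exact le_inf (le_inf (bRight (bLeft h')) (bRight h'))
              (bMemL (bSymm (bRight h')) (bLeft (bLeft h')))
        refine bEx ⟨_, hI⟩ ?_
        have hz := hI.2.choose_spec
        set z := hI.2.choose with hzdef
        have hzw : ∀ y, mem y z = mem y w' := fun y => by
          rw [hz, hw', h, iSup_inf_eq]
          refine iSup_congr fun i => eq_of_forall fun Γ => ⟨fun h' => ?_, fun h' => ?_⟩
          · exact le_inf (le_inf (bRight (bLeft h')) (bRight h'))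
              (bMemL (bSymm (bRight h')) (bLeft (bLeft h')))
          · exact le_inf (le_inf (bMemL (bRight (bLeft h')) (bRight h')) (bLeft (bLeft h')))
              (bRight (bLeft h'))
        refine bExt (fun y Δ h1 h2 => ?_) (fun y Δ h1 h2 => ?_)
        · rw [hzw, hw']
          exact le_inf (bMP (bAll h1 y) h2) h2
        · rw [hzw, hw'] at h2
          exact bRight h2
      · have hz := p.2.2.choose_spec
        have h3 := bMemR h1 h2
        rw [hz] at h3
        rw [h]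
        exact h3.trans (iSup_mono fun i => inf_le_inf_right _ (p.2.1 i)))
  simpa using this

theorem foundation (x : HN.{u}) {Γ : BB} (y : HN.{u}) (h : Γ ≤ mem y x) :
    Γ ≤ ⨆ y, mem y x ⊓ ⨅ z, mem z y ⇨ (mem z x)ᶜ := by
  obtain ⟨y, hy⟩ := y
  induction y generalizing Γ with
  | mk ι a v ih =>
    refine bCases (⨅ z, mem z ⟨Nm.mk ι a v, hy⟩ ⇨ (mem z x)ᶜ) (fun Δ h1 h2 => ?_)
      (fun Δ h1 h2 => ?_)
    · exact bEx _ (le_inf (h1.trans h) h2)
    · rw [compl_iInf] at h2
      refine bElim h2 fun z Δ' h3 h4 => ?_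
      simp only [himp_eq, compl_sup, compl_compl] at h4
      have h5 : Δ' ≤ ⨆ i, v i ⊓ eq z ⟨a i, hy.1 i⟩ := bRight h4
      refine bElim h5 fun i Δ'' h6 h7 => ?_
      exact ih i (hy.1 i) (bMemL (bRight h7) (bLeft (h6.trans h4)))

theorem exists_coll {I : Type u} (F : I → HN.{u} → BB) :
    ∃ z : HN.{u}, ∀ i, ⨆ y, F i y ≤ ⨆ y, mem y z ⊓ F i y := by
  classical
  let Y : I → BB → HN.{u} := fun i b => if h : ∃ y, F i y = b then h.choose else emp0
  have hY : ∀ i y, F i (Y i (F i y)) = F i y := by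
    intro i y
    have h : ∃ y', F i y' = F i y := ⟨y, rfl⟩
    have : Y i (F i y) = h.choose := dif_pos h
    rw [this]
    exact h.choose_spec
  let ι := ULift.{u} Gp × I × ULift.{u} BB
  obtain ⟨z, hz, _⟩ := exists_of_char (ι := ι) (fun p => act p.1.down (Y p.2.1 p.2.2.down))
    (fun _ => ⊤) (fun x => ⨆ p : ι, eq x (act p.1.down (Y p.2.1 p.2.2.down)))
    (fun x => by simp) ∅ isSp_empty (fun g _ x => by
      rw [OrderIso.map_iSup]
      simp only [← eq_act, act_act]
      let s : ι → ι := fun p => (⟨g * p.1.down⟩, p.2)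
      have hs : Function.Surjective s := fun p => ⟨(⟨g⁻¹ * p.1.down⟩, p.2), by
        simp only [s, mul_inv_cancel_left]
        rfl⟩
      exact (hs.iSup_comp (fun p : ι => eq (act g x) (act p.1.down (Y p.2.1 p.2.2.down)))).symm)
  refine ⟨z, fun i => iSup_le fun y => bEx (Y i (F i y)) (le_inf ?_ ?_)⟩
  · rw [hz]
    refine bEx (⟨1⟩, i, ⟨F i y⟩) ?_
    have : act 1 (Y i (F i y)) = Y i (F i y) := Subtype.ext (Nm.act_one _)
    simp only [this]
    exact bRefl _
  · rw [hY]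

/-! ### particular names -/

/-- the empty name -/
noncomputable def emp : HN.{u} := emp0

theorem mem_emp (x : HN.{u}) : mem x emp = ⊥ := by
  show (⨆ j : PEmpty, _) = ⊥
  exact iSup_of_empty _

/-- `{a} ∪ x` -/
noncomputable def ins (a x : HN.{u}) : HN.{u} := (exists_ins a x).choose

theorem mem_ins (a x w : HN.{u}) : mem w (ins a x) = eq w a ⊔ mem w x :=
  (exists_ins a x).choose_spec w

/-- the unordered pair -/
noncomputable def upair (x y : HN.{u}) : HN.{u} := ins x (ins y emp)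

theorem mem_upair (z x y : HN.{u}) : mem z (upair x y) = eq z x ⊔ eq z y := by
  unfold upair
  rw [mem_ins, mem_ins, mem_emp, sup_bot_eq]

/-- the ordered pair -/
noncomputable def opair (x y : HN.{u}) : HN.{u} := upair (upair x x) (upair x y)

theorem bUpairCongr {Γ : BB} {x y x' y' : HN.{u}} (h : Γ ≤ eq x x') (h' : Γ ≤ eq y y') :
    Γ ≤ eq (upair x y) (upair x' y') := by
  refine bExt (fun z Δ hΔ hm => ?_) (fun z Δ hΔ hm => ?_)
  · rw [mem_upair] at hm ⊢
    refine bOr hm (fun Δ₁ h1 h2 => ?_) (fun Δ₁ h1 h2 => ?_)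
    · exact (bTrans h2 ((h1.trans hΔ).trans h)).trans le_sup_left
    · exact (bTrans h2 ((h1.trans hΔ).trans h')).trans le_sup_right
  · rw [mem_upair] at hm ⊢
    refine bOr hm (fun Δ₁ h1 h2 => ?_) (fun Δ₁ h1 h2 => ?_)
    · exact (bTrans h2 (bSymm ((h1.trans hΔ).trans h))).trans le_sup_left
    · exact (bTrans h2 (bSymm ((h1.trans hΔ).trans h'))).trans le_sup_right

theorem bOpairCongr {Γ : BB} {x y x' y' : HN.{u}} (h : Γ ≤ eq x x') (h' : Γ ≤ eq y y') :
    Γ ≤ eq (opair x y) (opair x' y') :=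
  bUpairCongr (bUpairCongr h h) (bUpairCongr h h')

theorem bMem1 {Γ : BB} (x y : HN.{u}) : Γ ≤ mem x (upair x y) := by
  rw [mem_upair]; exact (bRefl x).trans le_sup_left

theorem bMem2 {Γ : BB} (x y : HN.{u}) : Γ ≤ mem y (upair x y) := by
  rw [mem_upair]; exact (bRefl y).trans le_sup_right

theorem bOpairFst {Γ : BB} {x y x' y' : HN.{u}} (h : Γ ≤ eq (opair x y) (opair x' y')) :
    Γ ≤ eq x x' := by
  have h1 : Γ ≤ mem (upair x x) (opair x' y') := bMemR h (bMem1 _ _)
  unfold opair at h1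
  rw [mem_upair] at h1
  refine bOr h1 (fun Δ _ h2 => ?_) (fun Δ _ h2 => ?_)
  · have h3 : Δ ≤ mem x (upair x' x') := bMemR h2 (bMem1 _ _)
    rw [mem_upair, sup_idem] at h3
    exact h3
  · have h3 : Δ ≤ mem x' (upair x x) := bMemR (bSymm h2) (bMem1 _ _)
    rw [mem_upair, sup_idem] at h3
    exact bSymm h3

theorem bOpairSnd {Γ : BB} {x y x' y' : HN.{u}} (h : Γ ≤ eq (opair x y) (opair x' y')) :
    Γ ≤ eq y y' := by
  have hx := bOpairFst h
  have key : ∀ Δ ≤ Γ, Δ ≤ eq y x' → Δ ≤ mem (upair x' y') (opair x y) → Δ ≤ eq y y' := by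
    intro Δ hΔ h1 h2
    unfold opair at h2
    rw [mem_upair] at h2
    refine bOr h2 (fun Δ₁ h3 h4 => ?_) (fun Δ₁ h3 h4 => ?_)
    · have h5 : Δ₁ ≤ mem y' (upair x x) := bMemR h4 (bMem2 _ _)
      rw [mem_upair, sup_idem] at h5
      exact bTrans (h3.trans h1) (bTrans (bSymm ((h3.trans hΔ).trans hx)) (bSymm h5))
    · have h5 : Δ₁ ≤ mem y' (upair x y) := bMemR h4 (bMem2 _ _)
      rw [mem_upair] at h5
      refine bOr h5 (fun Δ₂ h6 h7 => ?_) (fun Δ₂ h6 h7 => bSymm h7)
      exact bTrans ((h6.trans h3).trans h1) (bTrans (bSymm (((h6.trans h3).trans hΔ).trans hx)) (bSymm h7))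
  have hL : Γ ≤ mem (upair x' y') (opair x y) := bMemR (bSymm h) (bMem2 _ _)
  have h1 : Γ ≤ mem (upair x y) (opair x' y') := bMemR h (bMem2 _ _)
  unfold opair at h1
  rw [mem_upair] at h1
  refine bOr h1 (fun Δ hΔ h2 => ?_) (fun Δ hΔ h2 => ?_)
  · have h3 : Δ ≤ mem y (upair x' x') := bMemR h2 (bMem2 _ _)
    rw [mem_upair, sup_idem] at h3
    exact key Δ hΔ h3 (hΔ.trans hL)
  · have h3 : Δ ≤ mem y (upair x' y') := bMemR h2 (bMem2 _ _)
    rw [mem_upair] at h3
    refine bOr h3 (fun Δ₁ h4 h5 => ?_) (fun Δ₁ h4 h5 => h5)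
    exact key Δ₁ (h4.trans hΔ) h5 ((h4.trans hΔ).trans hL)

/-- natural numbers -/
noncomputable def nat : ℕ → HN.{u}
  | 0 => emp
  | n + 1 => ins (nat n) (nat n)

theorem mem_nat_succ (x : HN.{u}) (n : ℕ) : mem x (nat (n + 1)) = eq x (nat n) ⊔ mem x (nat n) :=
  mem_ins _ _ _

theorem Supp.mem_act {E : Set Ix} {x : HN.{u}} (h : Supp E x) {g : Gp} (hg : g ∈ Gp.Fix E)
    (w : HN.{u}) : HN.mem (act g w) x = ρ g (HN.mem w x) := by
  rw [← HN.mem_act]
  exact (mem_congr_top (h g hg)).symm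

theorem Supp.act_mem {E : Set Ix} {x : HN.{u}} (h : Supp E x) {g : Gp} (hg : g ∈ Gp.Fix E)
    (w : HN.{u}) : HN.mem x (act g w) = ρ g (HN.mem x w) := by
  rw [← HN.mem_act]
  exact (mem_congr_top' (h g hg)).symm

theorem Supp.eq_act {E : Set Ix} {x : HN.{u}} (h : Supp E x) {g : Gp} (hg : g ∈ Gp.Fix E)
    (w : HN.{u}) : HN.eq (act g w) x = ρ g (HN.eq w x) := by
  rw [← HN.eq_act]
  exact (eq_congr_top (h g hg)).symm

theorem supp_emp (E : Set Ix) : Supp E (emp : HN.{u}) :=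
  supp_of_mem fun g _ w => by simp [mem_emp]

theorem Supp.ins {E : Set Ix} {a x : HN.{u}} (ha : Supp E a) (hx : Supp E x) :
    Supp E (ins a x) :=
  supp_of_mem fun g hg w => by rw [mem_ins, mem_ins, map_sup, ha.eq_act hg, hx.mem_act hg]

theorem supp_nat (E : Set Ix) (n : ℕ) : Supp E (nat n : HN.{u}) := by
  induction n with
  | zero => exact supp_emp E
  | succ n ih => exact ih.ins ih

theorem Supp.upair {E : Set Ix} {x y : HN.{u}} (hx : Supp E x) (hy : Supp E y) :
    Supp E (upair x y) := hx.ins (hy.ins (supp_emp E))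

theorem Supp.opair {E : Set Ix} {x y : HN.{u}} (hx : Supp E x) (hy : Supp E y) :
    Supp E (opair x y) := (hx.upair hx).upair (hx.upair hy)

/-! ### irreflexivity and transitivity -/

theorem mem_irrefl (x : HN.{u}) : mem x x = ⊥ := by
  obtain ⟨x, hx⟩ := x
  show Nm.mem x x = ⊥
  clear hx
  have key : ∀ x y : Nm.{u}, ∀ Γ : BB, Γ ≤ Nm.eq x y → Γ ≤ Nm.mem x y → Γ ≤ ⊥ := by
    intro x
    induction x with
    | mk ι a v ih =>
      intro y Γ h1 h2
      have h3 : Γ ≤ Nm.mem (Nm.mk ι a v) (Nm.mk ι a v) := Nm.bMemR (Nm.bSymm h1) h2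
      rw [Nm.mem_mk] at h3
      refine bElim h3 fun i Δ _ h4 => ?_
      refine ih i (a i) Δ (Nm.bRefl _) ?_
      have h5 : Δ ≤ Nm.mem (a i) (Nm.mk ι a v) := by
        rw [Nm.mem_mk]
        exact bEx i (le_inf (bLeft h4) (Nm.bRefl _))
      exact Nm.bMemR (bRight h4) h5
  exact le_bot_iff.1 (key x x _ (Nm.bRefl _) le_rfl)

theorem nat_irrefl (n : ℕ) : mem (nat n : HN.{u}) (nat n) = ⊥ ∧
    ∀ m < n, mem (nat m : HN.{u}) (nat n) = ⊤ ∧ mem (nat n : HN.{u}) (nat m) = ⊥ ∧
      eq (nat m : HN.{u}) (nat n) = ⊥ := by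
  induction n with
  | zero => exact ⟨mem_emp _, fun m hm => absurd hm (Nat.not_lt_zero m)⟩
  | succ n ih =>
    have hlt : ∀ m < n + 1, mem (nat m : HN.{u}) (nat (n + 1)) = ⊤ := by
      intro m hm
      rw [mem_nat_succ]
      rcases Nat.lt_succ_iff_lt_or_eq.1 hm with h | rfl
      · rw [(ih.2 m h).1]; simp
      · rw [eq_refl]; simp
    -- transitivity
    have htr : ∀ (k : ℕ) (x y : HN.{u}) (Γ : BB), Γ ≤ mem x y → Γ ≤ mem y (nat k) →
        Γ ≤ mem x (nat k) := by
      intro k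
      induction k with
      | zero =>
        intro x y Γ _ h2
        change Γ ≤ mem y emp at h2
        rw [mem_emp] at h2
        exact h2.trans bot_le
      | succ k ihk =>
        intro x y Γ h1 h2
        rw [mem_nat_succ] at h2 ⊢
        refine bOr h2 (fun Δ h3 h4 => ?_) (fun Δ h3 h4 => ?_)
        · exact (bMemR h4 (h3.trans h1)).trans le_sup_right
        · exact (ihk x y Δ (h3.trans h1) h4).trans le_sup_right
    have h1 : mem (nat (n + 1) : HN.{u}) (nat n) = ⊥ := by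
      rw [eq_bot_iff, ← ih.1]
      exact htr n _ _ _ (le_top.trans (hlt n (Nat.lt_succ_self n)).ge) le_rfl
    have h2 : mem (nat (n + 1) : HN.{u}) (nat (n + 1)) = ⊥ := by
      rw [mem_nat_succ, h1, sup_bot_eq, eq_bot_iff, ← ih.1]
      exact bMemR le_rfl (le_top.trans (hlt n (Nat.lt_succ_self n)).ge)
    refine ⟨h2, fun m hm => ⟨hlt m hm, ?_, ?_⟩⟩
    · rw [eq_bot_iff, ← h2]
      exact htr _ _ _ _ le_rfl (le_top.trans (hlt m hm).ge)
    · rw [eq_bot_iff, ← h2]
      exact bMemL le_rfl (le_top.trans (hlt m hm).ge)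

theorem nat_ne {i j : ℕ} (h : i ≠ j) : eq (nat i : HN.{u}) (nat j) = ⊥ := by
  rcases Nat.lt_or_gt_of_ne h with h | h
  · exact ((nat_irrefl j).2 i h).2.2
  · rw [eq_symm]; exact ((nat_irrefl i).2 j h).2.2

theorem mem_nat_nat (i j : ℕ) : mem (nat i : HN.{u}) (nat j) = if i < j then ⊤ else ⊥ := by
  split_ifs with h
  · exact ((nat_irrefl j).2 i h).1
  · rcases Nat.lt_or_eq_of_le (not_lt.1 h) with h' | h'
    · exact ((nat_irrefl i).2 j h').2.1
    · rw [h']; exact (nat_irrefl i).1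

/-- a name given by a family of names -/
theorem exists_family {I : Type u} (a : I → HN.{u}) (E : Set Ix) (hsp : IsSp E)
    (hI : ∀ g ∈ Gp.Fix E, ∃ s : I → I, Function.Surjective s ∧
      ∀ i, eq (act g (a i)) (a (s i)) = ⊤) :
    ∃ z : HN.{u}, (∀ w, mem w z = ⨆ i, eq w (a i)) ∧ Supp E z := by
  have key : ∀ g ∈ Gp.Fix E, ∀ w, (⨆ i, eq (act g w) (a i)) = ρ g (⨆ i, eq w (a i)) := by
    intro g hg w
    obtain ⟨s, hs, h⟩ := hI g hg
    rw [OrderIso.map_iSup, ← hs.iSup_comp]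
    refine iSup_congr fun i => ?_
    rw [← eq_act]
    exact (eq_congr_top (h i)).symm
  exact exists_of_char a (fun _ => ⊤) (fun w => ⨆ i, eq w (a i)) (fun w => by simp) E hsp key

theorem exists_family' {I : Type u} (a : I → HN.{u}) (E : Set Ix) (hsp : IsSp E)
    (hI : ∀ i, Supp E (a i)) :
    ∃ z : HN.{u}, (∀ w, mem w z = ⨆ i, eq w (a i)) ∧ Supp E z :=
  exists_family a E hsp fun g hg => ⟨id, Function.surjective_id, fun i => hI i g hg⟩

/-- the set of natural numbers -/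
noncomputable def omg : HN.{0} := (exists_family' (nat : ℕ → HN.{0}) ∅ isSp_empty (supp_nat ∅)).choose

theorem mem_omg (x : HN.{0}) : mem x omg = ⨆ n, eq x (nat n) :=
  (exists_family' (nat : ℕ → HN.{0}) ∅ isSp_empty (supp_nat ∅)).choose_spec.1 x

theorem supp_omg (E : Set Ix) : Supp E omg :=
  (exists_family' (nat : ℕ → HN.{0}) ∅ isSp_empty (supp_nat ∅)).choose_spec.2.anti
    (Set.empty_subset E)

end HN

end Pool.Agent.Helper23.SM
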