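import Pool.Agent.Helper23.WT.BA
import Pool.Agent.Helper70.TypedPerm

set_option autoImplicit false

/-!
# The algebra of countable conditions with its group of automorphisms
-/

namespace Pool.Agent.Helper23.SM

open WT Pool.Agent.Helper70.TypedPerm

/-- indices -/
abbrev Ix := ℕ × ℚ × ℝ

/-- countable conditions -/
structure Cond where
  f : Ix × ℝ → Option Bool
  cnt : {x | f x ≠ none}.Countable

namespace Cond

theorem ext' {p q : Cond} (h : ∀ x, p.f x = q.f x) : p = q := by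
  cases p; cases q
  congr
  exact funext h

instance : Preorder Cond where
  le q p := ∀ x b, p.f x = some b → q.f x = some b
  le_refl _ _ _ h := h
  le_trans _ _ _ h h' x b hb := h x b (h' x b hb)

theorem le_def {p q : Cond} : q ≤ p ↔ ∀ x b, p.f x = some b → q.f x = some b := Iff.rfl

instance : Nonempty Cond := ⟨⟨fun _ => none, by simp⟩⟩

/-- the indices used by a condition -/
def dI (p : Cond) : Set Ix := {i | ∃ κ, p.f (i, κ) ≠ none}

theorem dI_countable (p : Cond) : p.dI.Countable := by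
  refine (p.cnt.image Prod.fst).mono ?_
  rintro i ⟨κ, h⟩
  exact ⟨(i, κ), h, rfl⟩

theorem dI_anti {p q : Cond} (h : q ≤ p) : p.dI ⊆ q.dI := by
  rintro i ⟨κ, hκ⟩
  obtain ⟨b, hb⟩ := Option.ne_none_iff_exists'.1 hκ
  exact ⟨κ, by rw [h _ _ hb]; simp⟩

open Classical in
/-- restriction to a set of indices -/
noncomputable def res (p : Cond) (e : Set Ix) : Cond where
  f x := if x.1 ∈ e then p.f x else none
  cnt := by
    refine p.cnt.mono fun x hx => ?_
    have hx' : (if x.1 ∈ e then p.f x else none) ≠ none := hx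
    by_cases h : x.1 ∈ e
    · rw [if_pos h] at hx'; exact hx'
    · rw [if_neg h] at hx'; exact (hx' rfl).elim

theorem res_mem {p : Cond} {e : Set Ix} {x : Ix × ℝ} (h : x.1 ∈ e) : (p.res e).f x = p.f x :=
  if_pos h

theorem res_not {p : Cond} {e : Set Ix} {x : Ix × ℝ} (h : x.1 ∉ e) : (p.res e).f x = none :=
  if_neg h

theorem res_some {p : Cond} {e : Set Ix} {x : Ix × ℝ} {b : Bool} :
    (p.res e).f x = some b ↔ x.1 ∈ e ∧ p.f x = some b := by
  by_cases h : x.1 ∈ e
  · rw [res_mem h]; simp [h]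
  · rw [res_not h]; simp [h]

theorem le_res (p : Cond) (e : Set Ix) : p ≤ p.res e := fun _ _ h => (res_some.1 h).2

theorem res_mono {p q : Cond} (h : q ≤ p) (e : Set Ix) : q.res e ≤ p.res e := fun x b hb =>
  res_some.2 ⟨(res_some.1 hb).1, h x b (res_some.1 hb).2⟩

theorem res_le_res (p : Cond) {e e' : Set Ix} (h : e ⊆ e') : p.res e' ≤ p.res e := fun _ _ hb =>
  res_some.2 ⟨h (res_some.1 hb).1, (res_some.1 hb).2⟩

theorem dI_res (p : Cond) (e : Set Ix) : (p.res e).dI ⊆ e := by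
  rintro i ⟨κ, h⟩
  by_contra hi
  exact h (res_not hi)

/-- compatible conditions -/
def Comp (p q : Cond) : Prop := ∀ x b b', p.f x = some b → q.f x = some b' → b = b'

theorem Comp.symm {p q : Cond} (h : Comp p q) : Comp q p := fun x b b' h1 h2 => (h x b' b h2 h1).symm

/-- union -/
def un (p q : Cond) : Cond where
  f x := (p.f x).orElse fun _ => q.f x
  cnt := by
    refine (p.cnt.union q.cnt).mono fun x hx => ?_
    have hx' : ((p.f x).orElse fun _ => q.f x) ≠ none := hx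
    cases h : p.f x with
    | none =>
      rw [h] at hx'
      exact Or.inr hx'
    | some b => exact Or.inl (by show p.f x ≠ none; rw [h]; simp)

theorem un_some {p q : Cond} {x : Ix × ℝ} {b : Bool} :
    (un p q).f x = some b ↔ p.f x = some b ∨ (p.f x = none ∧ q.f x = some b) := by
  show ((p.f x).orElse fun _ => q.f x) = some b ↔ _
  cases h : p.f x <;> simp

theorem un_le_left (p q : Cond) : un p q ≤ p := fun _ _ h => un_some.2 (Or.inl h)

theorem un_le_right {p q : Cond} (h : Comp p q) : un p q ≤ q := fun x b hb => by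
  cases hp : p.f x with
  | none => exact un_some.2 (Or.inr ⟨hp, hb⟩)
  | some b' =>
    have := h x b' b hp hb
    rw [← this]
    exact un_some.2 (Or.inl hp)

theorem comp_of_le {p q r : Cond} (h : r ≤ p) (h' : r ≤ q) : Comp p q := fun x b b' h1 h2 => by
  have h3 := h x b h1
  have h4 := h' x b' h2
  rw [h3] at h4
  exact Option.some.inj h4

theorem dI_un (p q : Cond) : (un p q).dI ⊆ p.dI ∪ q.dI := by
  rintro i ⟨κ, h⟩
  obtain ⟨b, hb⟩ := Option.ne_none_iff_exists'.1 h
  rcases un_some.1 hb with h1 | h1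
  · exact Or.inl ⟨κ, by rw [h1]; simp⟩
  · exact Or.inr ⟨κ, by rw [h1.2]; simp⟩

/-- the union of a decreasing sequence -/
theorem exists_limit (p : ℕ → Cond) (h : ∀ n, p (n + 1) ≤ p n) : ∃ q, ∀ n, q ≤ p n := by
  have hanti : ∀ n m, n ≤ m → p m ≤ p n := fun n m hnm => antitone_nat_of_succ_le h hnm
  classical
  refine ⟨⟨fun x => if hx : ∃ n, (p n).f x ≠ none then (p hx.choose).f x else none, ?_⟩, ?_⟩
  · refine (Set.countable_iUnion fun n => (p n).cnt).mono fun x hx => ?_
    have hx' : (if hx : ∃ n, (p n).f x ≠ none then (p hx.choose).f x else none) ≠ none := hx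
    by_cases h1 : ∃ n, (p n).f x ≠ none
    · exact Set.mem_iUnion.2 h1
    · rw [dif_neg h1] at hx'
      exact (hx' rfl).elim
  · intro n x b hb
    have h1 : ∃ n, (p n).f x ≠ none := ⟨n, by rw [hb]; simp⟩
    show (if hx : ∃ n, (p n).f x ≠ none then (p hx.choose).f x else none) = some b
    rw [dif_pos h1]
    obtain ⟨b', hb'⟩ := Option.ne_none_iff_exists'.1 h1.choose_spec
    rw [hb']
    rcases le_total n h1.choose with h2 | h2
    · have := hanti _ _ h2 x b hb
      rw [hb'] at this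
      exact this
    · have := hanti _ _ h2 x b' hb'
      rw [hb] at this
      exact this.symm

end Cond

/-- fusion: countably many dense open sets have a dense intersection -/
theorem fusion (D : ℕ → Cond → Prop) (hD : ∀ n p q, q ≤ p → D n p → D n q) (p : Cond)
    (h : ∀ n, ∀ q ≤ p, ∃ r ≤ q, D n r) : ∃ q ≤ p, ∀ n, D n q := by
  have h' : ∀ (n : ℕ) (q : {q // q ≤ p}), ∃ r : {q // q ≤ p}, r.1 ≤ q.1 ∧ D n r.1 := fun n q => by
    obtain ⟨r, hr, hr'⟩ := h n q.1 q.2
    exact ⟨⟨r, hr.trans q.2⟩, hr, hr'⟩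
  choose nx h1 h2 using h'
  let s : ℕ → {q // q ≤ p} := fun n => Nat.rec ⟨p, le_rfl⟩ (fun k q => nx k q) n
  have hs : ∀ n, s (n + 1) = nx n (s n) := fun n => rfl
  obtain ⟨q, hq⟩ := Cond.exists_limit (fun n => (s n).1) (fun n => by
    show (s (n + 1)).1 ≤ (s n).1
    rw [hs]
    exact h1 _ _)
  refine ⟨q, (hq 0), fun n => hD n _ _ (hq (n + 1)) ?_⟩
  show D n (s (n + 1)).1
  rw [hs]
  exact h2 _ _

/-- the group -/
def GpS : Subgroup (Equiv.Perm Ix × Multiplicative (ℕ → ℚ)) where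
  carrier := {g | ∀ x, (g.1 x).1 = x.1 ∧ (g.1 x).2.1 = x.2.1 + g.2.toAdd x.1}
  mul_mem' := by
    rintro a b ha hb x
    have h1 := ha (b.1 x)
    have h2 := hb x
    refine ⟨h1.1.trans h2.1, ?_⟩
    show (a.1 (b.1 x)).2.1 = x.2.1 + (a.2.toAdd x.1 + b.2.toAdd x.1)
    rw [h1.2, h2.1, h2.2]
    ring
  one_mem' := fun x => ⟨rfl, by
    show x.2.1 = x.2.1 + 0
    rw [add_zero]⟩
  inv_mem' := by
    rintro a ha x
    have h1 := ha (a.1⁻¹ x)
    have e : a.1 (a.1⁻¹ x) = x := by simp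
    rw [e] at h1
    refine ⟨h1.1.symm, ?_⟩
    show (a.1⁻¹ x).2.1 = x.2.1 + - a.2.toAdd x.1
    rw [h1.2, h1.1]
    ring

/-- the group -/
def Gp : Type := GpS

noncomputable instance : Group Gp := inferInstanceAs (Group GpS)

namespace Gp

/-- action on indices -/
def ap (g : Gp) (x : Ix) : Ix := g.1.1 x

/-- translations -/
def tr (g : Gp) : ℕ → ℚ := g.1.2.toAdd

theorem ap_fst (g : Gp) (x : Ix) : (g.ap x).1 = x.1 := (g.2 x).1
theorem ap_snd (g : Gp) (x : Ix) : (g.ap x).2.1 = x.2.1 + g.tr x.1 := (g.2 x).2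
theorem ap_mul (g h : Gp) (x : Ix) : (g * h).ap x = g.ap (h.ap x) := rfl
theorem ap_one (x : Ix) : (1 : Gp).ap x = x := rfl
theorem ap_inv_ap (g : Gp) (x : Ix) : g.ap (g⁻¹.ap x) = x := by
  rw [← ap_mul, mul_inv_cancel]; rfl
theorem inv_ap_ap (g : Gp) (x : Ix) : g⁻¹.ap (g.ap x) = x := by
  rw [← ap_mul, inv_mul_cancel]; rfl
theorem ap_inj {g : Gp} {x y : Ix} : g.ap x = g.ap y ↔ x = y :=
  ⟨fun h => by rw [← inv_ap_ap g x, h, inv_ap_ap], fun h => by rw [h]⟩
theorem tr_mul (g h : Gp) : (g * h).tr = g.tr + h.tr := rfl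
theorem tr_one : (1 : Gp).tr = 0 := rfl
theorem tr_inv (g : Gp) : g⁻¹.tr = - g.tr := rfl

/-- the pointwise stabiliser -/
def Fix (e : Set Ix) : Set Gp := {g | ∀ x ∈ e, g.ap x = x}

theorem Fix_anti {e f : Set Ix} (h : e ⊆ f) : Fix f ⊆ Fix e := fun _ hg x hx => hg x (h hx)

theorem Fix_mul {e : Set Ix} {g h : Gp} (hg : g ∈ Fix e) (hh : h ∈ Fix e) : g * h ∈ Fix e :=
  fun x hx => by rw [ap_mul, hh x hx, hg x hx]

theorem Fix_inv {e : Set Ix} {g : Gp} (hg : g ∈ Fix e) : g⁻¹ ∈ Fix e :=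
  fun x hx => by
    conv_lhs => rw [← hg x hx]
    rw [inv_ap_ap]

theorem Fix_one (e : Set Ix) : (1 : Gp) ∈ Fix e := fun x _ => ap_one x

theorem Fix_tr {e : Set Ix} {g : Gp} (hg : g ∈ Fix e) {x : Ix} (hx : x ∈ e) : g.tr x.1 = 0 := by
  have := ap_snd g x
  rw [hg x hx] at this
  linarith

theorem Fix_conj {e : Set Ix} {g h : Gp} (hh : h ∈ Fix (g.ap '' e)) : g⁻¹ * h * g ∈ Fix e :=
  fun x hx => by
    rw [ap_mul, ap_mul, hh _ ⟨x, hx, rfl⟩, inv_ap_ap]

theorem exists_move (e A F : Set Ix) (he : e.Countable) (hA : A.Countable) (hF : F.Countable)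
    (hd : Disjoint A e) (r : ℕ → ℚ) (hr : ∀ x ∈ e, r x.1 = 0) :
    ∃ g : Gp, g.tr = r ∧ g ∈ Fix e ∧ ∀ x ∈ A, g.ap x ∉ F := by
  classical
  obtain ⟨φ, h1, h2, h3⟩ := exists_fresh A (F ∪ e) hA (hF.union he) r
  have hne : ∀ x ∈ A, x ∉ e := fun x hx hx' => Set.disjoint_left.1 hd hx hx'
  obtain ⟨g, hg1, hg2⟩ := exists_ext (A ∪ e) (hA.union he) r (fun x => if x ∈ e then x else φ x) (by
    intro x hx y hy hxy
    simp only at hxy
    by_cases hxe : x ∈ e
    · rw [if_pos hxe] at hxy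
      by_cases hye : y ∈ e
      · rwa [if_pos hye] at hxy
      · rw [if_neg hye] at hxy
        have hy' : y ∈ A := hy.resolve_right hye
        exact (h3 y hy' (Or.inr (hxy ▸ hxe))).elim
    · rw [if_neg hxe] at hxy
      have hx' : x ∈ A := hx.resolve_right hxe
      by_cases hye : y ∈ e
      · rw [if_pos hye] at hxy
        exact (h3 x hx' (Or.inr (hxy ▸ hye))).elim
      · rw [if_neg hye] at hxy
        exact h1 hx' (hy.resolve_right hye) hxy) (by
    intro x hx
    by_cases hxe : x ∈ e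
    · simp only [if_pos hxe]
      exact ⟨trivial, by rw [hr x hxe, add_zero]⟩
    · simp only [if_neg hxe]
      exact h2 x (hx.resolve_right hxe))
  refine ⟨⟨(g, Multiplicative.ofAdd r), hg1⟩, rfl, fun x hx => ?_, fun x hx => ?_⟩
  · show g x = x
    rw [hg2 x (Or.inr hx), if_pos hx]
  · show g x ∉ F
    rw [hg2 x (Or.inl hx), if_neg (hne x hx)]
    exact fun h => h3 x hx (Or.inl h)

/-- action on conditions -/
noncomputable def onC (g : Gp) : Cond ≃o Cond where
  toFun p := ⟨fun x => p.f (g⁻¹.ap x.1, x.2), by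
    refine (p.cnt.image (fun x => (g.ap x.1, x.2))).mono fun x hx => ?_
    exact ⟨(g⁻¹.ap x.1, x.2), hx, Prod.ext (ap_inv_ap g x.1) rfl⟩⟩
  invFun p := ⟨fun x => p.f (g.ap x.1, x.2), by
    refine (p.cnt.image (fun x => (g⁻¹.ap x.1, x.2))).mono fun x hx => ?_
    exact ⟨(g.ap x.1, x.2), hx, Prod.ext (inv_ap_ap g x.1) rfl⟩⟩
  left_inv p := Cond.ext' fun x => by
    show p.f (g⁻¹.ap (g.ap x.1), x.2) = _
    rw [inv_ap_ap]
  right_inv p := Cond.ext' fun x => by
    show p.f (g.ap (g⁻¹.ap x.1), x.2) = _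
    rw [ap_inv_ap]
  map_rel_iff' := by
    intro p q
    constructor
    · intro h x b hb
      have := h (g.ap x.1, x.2) b (by
        show q.f (g⁻¹.ap (g.ap x.1), x.2) = _
        rw [inv_ap_ap]; exact hb)
      change p.f (g⁻¹.ap (g.ap x.1), x.2) = _ at this
      rw [inv_ap_ap] at this
      exact this
    · intro h x b hb
      exact h _ _ hb

theorem onC_f (g : Gp) (p : Cond) (x : Ix × ℝ) : (g.onC p).f x = p.f (g⁻¹.ap x.1, x.2) := rfl

theorem onC_mul (g h : Gp) (p : Cond) : (g * h).onC p = g.onC (h.onC p) := Cond.ext' fun x => by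
  rw [onC_f, onC_f, onC_f, mul_inv_rev, ap_mul]

theorem onC_one (p : Cond) : (1 : Gp).onC p = p := Cond.ext' fun x => by
  rw [onC_f, inv_one, ap_one]

theorem onC_inv_onC (g : Gp) (p : Cond) : g.onC (g⁻¹.onC p) = p := by
  rw [← onC_mul, mul_inv_cancel, onC_one]

theorem inv_onC_onC (g : Gp) (p : Cond) : g⁻¹.onC (g.onC p) = p := by
  rw [← onC_mul, inv_mul_cancel, onC_one]

theorem dI_onC (g : Gp) (p : Cond) : (g.onC p).dI = g.ap '' p.dI := by
  ext i
  constructor
  · rintro ⟨κ, h⟩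
    exact ⟨g⁻¹.ap i, ⟨κ, h⟩, ap_inv_ap g i⟩
  · rintro ⟨j, ⟨κ, h⟩, rfl⟩
    exact ⟨κ, by rw [onC_f, inv_ap_ap]; exact h⟩

theorem onC_res (g : Gp) (p : Cond) (e : Set Ix) : g.onC (p.res e) = (g.onC p).res (g.ap '' e) := by
  refine Cond.ext' fun x => ?_
  rw [onC_f]
  by_cases h : x.1 ∈ g.ap '' e
  · rw [Cond.res_mem h, onC_f, Cond.res_mem]
    obtain ⟨y, hy, hyx⟩ := h
    show g⁻¹.ap x.1 ∈ e
    rw [← hyx, inv_ap_ap]
    exact hy
  · rw [Cond.res_not h, Cond.res_not]
    intro h'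
    exact h ⟨g⁻¹.ap x.1, h', ap_inv_ap g _⟩

theorem onC_res_fix {g : Gp} {e : Set Ix} (hg : g ∈ Fix e) (p : Cond) :
    (g.onC p).res e = p.res e := by
  refine Cond.ext' fun x => ?_
  by_cases h : x.1 ∈ e
  · rw [Cond.res_mem h, Cond.res_mem h, onC_f, Fix_inv hg _ h]
  · rw [Cond.res_not h, Cond.res_not h]

end Gp

/-- the algebra -/
def BB : Type := RegOpen Cond

noncomputable instance : CompleteBooleanAlgebra BB :=
  inferInstanceAs (CompleteBooleanAlgebra (RegOpen Cond))

/-- `p` forces `b` -/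
def Frc (p : Cond) (b : BB) : Prop := p ∈ b.carrier

theorem Frc.lower {p q : Cond} {b : BB} (h : q ≤ p) (hp : Frc p b) : Frc q b := RegOpen.lower b h hp
theorem Frc.mono {p : Cond} {a b : BB} (h : a ≤ b) (hp : Frc p a) : Frc p b := h hp
theorem frc_inf {p : Cond} {a b : BB} : Frc p (a ⊓ b) ↔ Frc p a ∧ Frc p b := Iff.rfl
theorem frc_top {p : Cond} : Frc p ⊤ := trivial
theorem not_frc_bot {p : Cond} : ¬ Frc p ⊥ := fun h => h
theorem frc_compl {p : Cond} {b : BB} : Frc p bᶜ ↔ ∀ q ≤ p, ¬ Frc q b := Iff.rfl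
theorem frc_iSup {ι : Sort*} {f : ι → BB} {p : Cond} :
    Frc p (⨆ i, f i) ↔ ∀ q ≤ p, ∃ r ≤ q, ∃ i, Frc r (f i) :=
  RegOpen.mem_iSup (C := Cond) (f := f)
theorem frc_iInf {ι : Sort*} {f : ι → BB} {p : Cond} :
    Frc p (⨅ i, f i) ↔ ∀ i, Frc p (f i) :=
  RegOpen.mem_iInf (C := Cond) (f := f)
theorem frc_dense {p : Cond} {b : BB} (h : ∀ q ≤ p, ∃ r ≤ q, Frc r b) : Frc p b :=
  (RegOpen.regular b p).2 h
theorem frc_sup {p : Cond} {a b : BB} (h : Frc p (a ⊔ b)) : ∃ q ≤ p, Frc q a ∨ Frc q b :=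
  h p le_rfl
theorem le_of_frc {a b : BB} (h : ∀ p, Frc p a → ∃ q ≤ p, Frc q b) : a ≤ b := fun p hp =>
  frc_dense fun q hq => h q (Frc.lower hq hp)
theorem frc_decide (p : Cond) (b : BB) : ∃ q ≤ p, Frc q b ∨ Frc q bᶜ := by
  by_cases h : Frc p bᶜ
  · exact ⟨p, le_rfl, Or.inr h⟩
  · rw [frc_compl] at h
    push Not at h
    obtain ⟨q, hq, h⟩ := h
    exact ⟨q, hq, Or.inl h⟩
theorem frc_absurd {p : Cond} {b : BB} (h : Frc p b) (h' : Frc p bᶜ) : False := h' p le_rfl h
theorem frc_himp {p : Cond} {a b : BB} (h : Frc p (a ⇨ b)) (h' : Frc p a) : Frc p b :=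
  Frc.mono himp_inf_le (frc_inf.2 ⟨h, h'⟩)
theorem frc_himp_intro {p : Cond} {a b : BB} (h : ∀ q ≤ p, Frc q a → Frc q b) : Frc p (a ⇨ b) := by
  refine frc_dense fun q hq => ?_
  by_cases h1 : ∃ r ≤ q, Frc r a
  · obtain ⟨r, hr, hra⟩ := h1
    refine ⟨r, hr, ?_⟩
    have h2 : b ≤ a ⇨ b := le_himp
    exact Frc.mono h2 (h r (hr.trans hq) hra)
  · refine ⟨q, le_rfl, ?_⟩
    have h2 : aᶜ ≤ a ⇨ b := by rw [himp_eq]; exact le_sup_right
    refine Frc.mono h2 (frc_compl.2 fun r hr hra => h1 ⟨r, hr, hra⟩)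

/-- the action on the algebra -/
noncomputable def ρ (g : Gp) : BB ≃o BB := RegOpen.mapIso (g⁻¹).onC

theorem frc_ρ {g : Gp} {p : Cond} {b : BB} : Frc p (ρ g b) ↔ Frc (g⁻¹.onC p) b := Iff.rfl

theorem frc_ρ' {g : Gp} {p : Cond} {b : BB} : Frc (g.onC p) (ρ g b) ↔ Frc p b := by
  rw [frc_ρ, Gp.inv_onC_onC]

theorem ρ_mul (g h : Gp) (b : BB) : ρ g (ρ h b) = ρ (g * h) b := by
  refine RegOpen.ext' ?_
  ext p
  show Frc p (ρ g (ρ h b)) ↔ Frc p (ρ (g * h) b)
  rw [frc_ρ, frc_ρ, frc_ρ, mul_inv_rev, Gp.onC_mul]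

theorem ρ_one (b : BB) : ρ 1 b = b := by
  refine RegOpen.ext' ?_
  ext p
  show Frc p (ρ 1 b) ↔ Frc p b
  rw [frc_ρ, inv_one, Gp.onC_one]

/-- the value `b` only depends on the indices in `e` -/
def Dep (e : Set Ix) (b : BB) : Prop := ∀ g ∈ Gp.Fix e, ρ g b = b

/-- homogeneity -/
theorem Dep.res {e : Set Ix} (he : e.Countable) {b : BB} (hb : Dep e b) {p : Cond} (hp : Frc p b) :
    Frc (p.res e) b := by
  refine frc_dense fun q hq => ?_
  obtain ⟨g, -, hg, hg'⟩ := Gp.exists_move e (q.dI \ e) p.dI he (q.dI_countable.mono Set.sdiff_subset)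
    p.dI_countable Set.disjoint_sdiff_left 0 (fun _ _ => rfl)
  have hc : Cond.Comp p (g.onC q) := by
    intro x b b' h1 h2
    rw [Gp.onC_f] at h2
    by_cases h : g⁻¹.ap x.1 ∈ e
    · have h3 : g⁻¹.ap x.1 = x.1 := by
        have := hg _ h
        rw [Gp.ap_inv_ap] at this
        exact this.symm
      rw [h3] at h h2
      have h4 := hq x b (Cond.res_some.2 ⟨h, h1⟩)
      rw [h4] at h2
      exact Option.some.inj h2
    · exfalso
      refine hg' (g⁻¹.ap x.1) ⟨⟨x.2, by rw [h2]; simp⟩, h⟩ ?_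
      rw [Gp.ap_inv_ap]
      exact ⟨x.2, by rw [h1]; simp⟩
  refine ⟨g⁻¹.onC (Cond.un p (g.onC q)), ?_, ?_⟩
  · have h1 := (g⁻¹.onC).monotone (Cond.un_le_right hc)
    rwa [Gp.inv_onC_onC] at h1
  · rw [← frc_ρ, hb g hg]
    exact Frc.lower (Cond.un_le_left _ _) hp

/-- the value of `κ ∈ c_i` -/
noncomputable def bit (i : Ix) (κ : ℝ) : BB where
  carrier := {p | p.f (i, κ) = some true}
  regular p := by
    constructor
    · intro h q hq
      exact ⟨q, le_rfl, hq _ _ h⟩
    · intro h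
      have h1 : p.f (i, κ) ≠ some false := by
        intro h1
        obtain ⟨r, hr, hr'⟩ := h p le_rfl
        have h2 := hr _ _ h1
        have h3 : r.f (i, κ) = some true := hr'
        rw [h2] at h3
        exact absurd h3 (by simp)
      have h2 : p.f (i, κ) ≠ none := by
        intro h2
        classical
        let s : Cond := ⟨fun x => if x = (i, κ) then some false else none, by
          refine (Set.countable_singleton (i, κ)).mono fun x hx => ?_
          have hx' : (if x = (i, κ) then some false else none) ≠ none := hx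
          by_contra hc
          exact hx' (if_neg hc)⟩
        have hc : Cond.Comp s p := by
          intro x b b' h3 h4
          have h5 : (if x = (i, κ) then some false else none) = some b := h3
          by_cases hx : x = (i, κ)
          · rw [hx, h2] at h4
            exact absurd h4 (by simp)
          · rw [if_neg hx] at h5
            exact absurd h5 (by simp)
        obtain ⟨r, hr, hr'⟩ := h (Cond.un s p) (Cond.un_le_right hc)
        have h3 := hr (i, κ) false (Cond.un_le_left s p _ _ (if_pos rfl))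
        have h4 : r.f (i, κ) = some true := hr'
        rw [h3] at h4
        exact absurd h4 (by simp)
      show p.f (i, κ) = some true
      cases h3 : p.f (i, κ) with
      | none => exact (h2 h3).elim
      | some b =>
        cases b with
        | false => exact (h1 h3).elim
        | true => rfl

theorem ρ_bit (g : Gp) (i : Ix) (κ : ℝ) : ρ g (bit i κ) = bit (g.ap i) κ := by
  refine RegOpen.ext' ?_
  ext p
  show (g⁻¹.onC p).f (i, κ) = some true ↔ p.f (g.ap i, κ) = some true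
  rw [Gp.onC_f, inv_inv]

theorem bit_sep {i j : Ix} (h : i ≠ j) (p : Cond) : ∃ q ≤ p, ∃ κ, Frc q (bit i κ) ∧ Frc q (bit j κ)ᶜ := by
  classical
  have hc : (Prod.snd '' {x | p.f x ≠ none}).Countable := p.cnt.image _
  obtain ⟨κ, hκ⟩ : ∃ κ, κ ∉ Prod.snd '' {x | p.f x ≠ none} := by
    by_contra hall
    push Not at hall
    have : (Set.univ : Set ℝ).Countable := hc.mono fun x _ => hall x
    exact Set.not_countable_univ this
  have hn : ∀ l : Ix, p.f (l, κ) = none := by
    intro l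
    by_contra hl
    exact hκ ⟨(l, κ), hl, rfl⟩
  let s : Cond := ⟨fun x => if x = (i, κ) then some true else if x = (j, κ) then some false else none, by
    refine ((Set.countable_singleton (i, κ)).union (Set.countable_singleton (j, κ))).mono fun x hx => ?_
    have hx' : (if x = (i, κ) then some true else if x = (j, κ) then some false else none) ≠ none := hx
    by_contra hcc
    rw [Set.mem_union, not_or] at hcc
    exact hx' ((if_neg (fun e => hcc.1 e)).trans (if_neg (fun e => hcc.2 e)))⟩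
  have hcomp : Cond.Comp s p := by
    intro x b b' h3 h4
    have h5 : (if x = (i, κ) then some true else if x = (j, κ) then some false else none) = some b := h3
    by_cases hx : x = (i, κ)
    · rw [hx, hn] at h4
      exact absurd h4 (by simp)
    · by_cases hx' : x = (j, κ)
      · rw [hx', hn] at h4
        exact absurd h4 (by simp)
      · rw [if_neg hx, if_neg hx'] at h5
        exact absurd h5 (by simp)
  have hs1 : s.f (i, κ) = some true := if_pos rfl
  have hs2 : s.f (j, κ) = some false := by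
    show (if (j, κ) = (i, κ) then some true else if (j, κ) = (j, κ) then some false else none) = _
    rw [if_neg (by intro e; exact h (congrArg Prod.fst e).symm), if_pos rfl]
  refine ⟨Cond.un s p, Cond.un_le_right hcomp, κ, ?_, ?_⟩
  · exact Cond.un_le_left s p _ _ hs1
  · refine frc_compl.2 fun q hq hq' => ?_
    have h1 := hq _ _ (Cond.un_le_left s p _ _ hs2)
    have h2 : q.f (j, κ) = some true := hq'
    rw [h1] at h2
    exact absurd h2 (by simp)

end Pool.Agent.Helper23.SM
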