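import Pool.Agent.Helper23.SM.ZFm

set_option autoImplicit false

/-!
# Classes of names, restrictions, definable names
-/

namespace Pool.Agent.Helper23.SM

open WT (iffV bElim bOr bMP bImp bNot bAbs bAll bEx bIff bIff_mp bIff_mpr bLeft bRight bCases bContra eq_of_forall iffV_self iffV_eq_top)
open WT (Fm ZF)

namespace HN

theorem act_mul (g h : Gp) (x : HN.{0}) : act (g * h) x = act g (act h x) := (act_act g h x).symm

theorem Supp.act {e : Set Ix} {x : HN.{0}} (h : Supp e x) (g : Gp) : Supp (g.ap '' e) (act g x) := by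
  intro k hk
  have h1 := h _ (Gp.Fix_conj hk)
  have h2 : HN.act k (HN.act g x) = HN.act g (HN.act (g⁻¹ * k * g) x) := by
    rw [act_act, act_act]
    congr 1
    group
  rw [h2, HN.eq_act, h1, map_top]

/-- the value of `x` being equal to an element of the class -/
noncomputable def inC (𝒞 : Set HN.{0}) (x : HN.{0}) : BB := ⨆ ζ : 𝒞, eq x ζ.1

theorem inC_congr {𝒞 : Set HN.{0}} {x y : HN.{0}} {Γ : BB} (h : Γ ≤ eq x y) (h' : Γ ≤ inC 𝒞 x) :
    Γ ≤ inC 𝒞 y :=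
  bElim h' fun ζ _ h1 h2 => bEx ζ (bTrans (bSymm (h1.trans h)) h2)

theorem inC_top {𝒞 : Set HN.{0}} {x : HN.{0}} (h : x ∈ 𝒞) : inC 𝒞 x = ⊤ :=
  eq_top_iff.2 (bEx ⟨x, h⟩ (bRefl x))

theorem exists_restr (X : HN.{0}) (𝒞 : Set HN.{0}) (E : Set Ix) (hsp : IsSp E) (hX : Supp E X)
    (h𝒞 : ∀ g ∈ Gp.Fix E, ∀ x, inC 𝒞 (act g x) = ρ g (inC 𝒞 x)) :
    ∃ Y : HN.{0}, (∀ w, mem w Y = mem w X ⊓ inC 𝒞 w) ∧ Supp E Y := by
  classical
  obtain ⟨ι, a, v, h⟩ := cases_name X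
  let z : ι × BB → HN.{0} := fun p => if h : ∃ ζ ∈ 𝒞, eq (a p.1) ζ = p.2 then h.choose else emp0
  let u : ι × BB → BB := fun p => if ∃ ζ ∈ 𝒞, eq (a p.1) ζ = p.2 then v p.1 ⊓ p.2 else ⊥
  refine exists_of_char z u (fun w => mem w X ⊓ inC 𝒞 w) (fun w => ?_) E hsp (fun g hg w => ?_)
  · refine le_antisymm ?_ (iSup_le fun p => ?_)
    · have h1 : mem w X ⊓ inC 𝒞 w ≤ ⨆ i, v i ⊓ eq w (a i) := by rw [← h]; exact inf_le_left
      refine bElim h1 fun i Δ h2 h3 => ?_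
      refine bElim (bRight h2) fun ζ Δ' h4 h5 => ?_
      have hex : ∃ ζ' ∈ 𝒞, eq (a i) ζ' = eq (a i) ζ.1 := ⟨ζ.1, ζ.2, rfl⟩
      have hz : z (i, eq (a i) ζ.1) = hex.choose := dif_pos hex
      have hu : u (i, eq (a i) ζ.1) = v i ⊓ eq (a i) ζ.1 := if_pos hex
      have h6 : Δ' ≤ eq (a i) ζ.1 := bTrans (bSymm (bRight (h4.trans h3))) h5
      refine bEx (i, eq (a i) ζ.1) (le_inf ?_ ?_)
      · rw [hu]
        exact le_inf (bLeft (h4.trans h3)) h6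
      · rw [hz]
        refine bTrans (bRight (h4.trans h3)) ?_
        rw [hex.choose_spec.2]
        exact h6
    · by_cases hex : ∃ ζ' ∈ 𝒞, eq (a p.1) ζ' = p.2
      · have hz : z p = hex.choose := dif_pos hex
        have hu : u p = v p.1 ⊓ p.2 := if_pos hex
        rw [hz, hu]
        refine le_inf ?_ ?_
        · rw [h]
          refine bEx p.1 (le_inf (bLeft (bLeft le_rfl)) (bTrans (bRight le_rfl) (bSymm ?_)))
          rw [hex.choose_spec.2]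
          exact bRight (bLeft le_rfl)
        · exact bEx ⟨hex.choose, hex.choose_spec.1⟩ (bRight le_rfl)
      · have hu : u p = ⊥ := if_neg hex
        rw [hu, bot_inf_eq]
        exact bot_le
  · rw [map_inf, hX.mem_act hg, h𝒞 g hg]

/-- names supported by `e` -/
def We (e : Set Ix) : Set HN.{0} := {ζ | Supp e ζ}

/-- names supported in the first `k` blocks -/
def Wk (k : ℕ) : Set HN.{0} := {ζ | ∃ e : Set Ix, e.Countable ∧ (∀ x ∈ e, x.1 < k) ∧ Supp e ζ}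

theorem inC_We_act {e : Set Ix} {g : Gp} (hg : g ∈ Gp.Fix e) (x : HN.{0}) :
    inC (We e) (act g x) = ρ g (inC (We e) x) := by
  unfold inC
  rw [OrderIso.map_iSup]
  refine iSup_congr fun ζ => ?_
  exact Supp.eq_act ζ.2 hg x

theorem inC_Wk_act {k : ℕ} (g : Gp) (x : HN.{0}) :
    inC (Wk k) (act g x) = ρ g (inC (Wk k) x) := by
  unfold inC
  rw [OrderIso.map_iSup]
  have hW : ∀ (g : Gp) (ζ : HN.{0}), ζ ∈ Wk k → act g ζ ∈ Wk k := by
    rintro g ζ ⟨e, h1, h2, h3⟩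
    refine ⟨g.ap '' e, h1.image _, ?_, h3.act g⟩
    rintro _ ⟨x, hx, rfl⟩
    rw [Gp.ap_fst]
    exact h2 x hx
  let s : Wk k → Wk k := fun ζ => ⟨act g ζ.1, hW g _ ζ.2⟩
  have hs : Function.Surjective s := fun ζ => ⟨⟨act g⁻¹ ζ.1, hW _ _ ζ.2⟩, Subtype.ext (act_inv_act g ζ.1)⟩
  rw [← hs.iSup_comp]
  refine iSup_congr fun ζ => ?_
  rw [← HN.eq_act]

theorem We_sub_Wk {e : Set Ix} {k : ℕ} (h1 : e.Countable) (h2 : ∀ x ∈ e, x.1 < k) : We e ⊆ Wk k :=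
  fun _ hζ => ⟨e, h1, h2, hζ⟩

theorem Wk_mono {k l : ℕ} (h : k ≤ l) : Wk k ⊆ Wk l := fun _ ⟨e, h1, h2, h3⟩ =>
  ⟨e, h1, fun x hx => lt_of_lt_of_le (h2 x hx) h, h3⟩

theorem inC_mono {𝒞 𝒟 : Set HN.{0}} (h : 𝒞 ⊆ 𝒟) (x : HN.{0}) : inC 𝒞 x ≤ inC 𝒟 x :=
  iSup_le fun ζ => bEx ⟨ζ.1, h ζ.2⟩ le_rfl

theorem exists_Wk (x : HN.{0}) : ∃ k, ∀ l ≥ k, x ∈ Wk l := by
  obtain ⟨e, ⟨h1, k, hk⟩, h⟩ := exists_supp x
  exact ⟨k, fun l hl => ⟨e, h1, fun y hy => lt_of_lt_of_le (hk y hy) hl, h⟩⟩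

/-- the elements of `X` in the first `k` blocks -/
theorem exists_Xk (X : HN.{0}) (E : Set Ix) (hsp : IsSp E) (hX : Supp E X) (k : ℕ) :
    ∃ Y : HN.{0}, (∀ w, mem w Y = mem w X ⊓ inC (Wk k) w) ∧ Supp E Y :=
  exists_restr X (Wk k) E hsp hX fun g _ x => inC_Wk_act g x

/-- the elements of `X` supported by `E` -/
theorem exists_Xe (X : HN.{0}) (E : Set Ix) (hsp : IsSp E) (hX : Supp E X) :
    ∃ Y : HN.{0}, (∀ w, mem w Y = mem w X ⊓ inC (We E) w) ∧ Supp E Y :=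
  exists_restr X (We E) E hsp hX fun _ hg x => inC_We_act hg x

/-- the elements of `X` not supported by `E` -/
theorem exists_Xn (X : HN.{0}) (E : Set Ix) (hsp : IsSp E) (hX : Supp E X) :
    ∃ Y : HN.{0}, (∀ w, mem w Y = mem w X ⊓ (inC (We E) w)ᶜ) ∧ Supp E Y := by
  obtain ⟨ι, a, v, h⟩ := cases_name X
  refine exists_of_char a (fun i => v i ⊓ (inC (We E) (a i))ᶜ)
    (fun w => mem w X ⊓ (inC (We E) w)ᶜ) (fun w => ?_) E hsp (fun g hg w => ?_)
  · simp only [h, iSup_inf_eq]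
    refine iSup_congr fun i => eq_of_forall fun Γ => ⟨fun h1 => ?_, fun h1 => ?_⟩
    · refine le_inf (le_inf (bLeft (bLeft h1)) (bNot fun Δ h2 h3 => ?_)) (bRight (bLeft h1))
      exact bAbs (bRight (h2.trans h1)) (inC_congr (bSymm (bRight (bLeft (h2.trans h1)))) h3)
    · refine le_inf (le_inf (bLeft (bLeft h1)) (bRight h1)) (bNot fun Δ h2 h3 => ?_)
      exact bAbs (bRight (bLeft (h2.trans h1))) (inC_congr (bRight (h2.trans h1)) h3)
  · rw [map_inf, hX.mem_act hg, inC_We_act hg, map_compl']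

/-! ### definable names -/

section defn

variable {κ : Type*}

/-- value of `∃! x, f x` -/
noncomputable def exuV (F : HN.{0} → BB) : BB := ⨆ x, F x ⊓ ⨅ y, F y ⇨ eq y x

theorem exists_defF (F : HN.{0} → BB)
    (hFc : ∀ {Γ : BB} {x y : HN.{0}}, Γ ≤ eq x y → Γ ≤ F x → Γ ≤ F y) {E : Set Ix} (hsp : IsSp E)
    (hFa : ∀ g ∈ Gp.Fix E, ∀ x, F (act g x) = ρ g (F x)) :
    ∃ η : HN.{0}, Supp E η ∧ exuV F ≤ F η := by
  set u := exuV F with hu
  have hua : ∀ g ∈ Gp.Fix E, ρ g u = u := by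
    intro g hg
    rw [hu]
    unfold exuV
    rw [OrderIso.map_iSup]
    conv_rhs => rw [← (act_surj g).iSup_comp]
    refine iSup_congr fun x => ?_
    rw [map_inf, OrderIso.map_iInf, hFa g hg]
    conv_rhs => rw [← (act_surj g).iInf_comp]
    congr 1
    refine iInf_congr fun y => ?_
    rw [map_himp, hFa g hg, HN.eq_act]
  obtain ⟨z, hz⟩ := exists_coll (I := Unit) (fun _ => F)
  obtain ⟨z1, hz1⟩ := exists_union z
  obtain ⟨ι, a, v, h⟩ := cases_name z1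
  let Φ : HN.{0} → BB := fun y => u ⊓ ⨆ w, F w ⊓ mem y w
  have hΦc : ∀ {Γ : BB} {x y : HN.{0}}, Γ ≤ eq x y → Γ ≤ Φ x → Γ ≤ Φ y := by
    intro Γ x y h h'
    refine le_inf (bLeft h') (bElim (bRight h') fun w Δ h1 h2 => bEx w (le_inf (bLeft h2) ?_))
    exact bMemL (h1.trans h) (bRight h2)
  have hΦz : ∀ y, Φ y ≤ mem y z1 := by
    intro y
    refine bElim (bRight le_rfl) fun w Δ h1 h2 => ?_
    have h3 : Δ ≤ ⨆ w, F w := bEx w (bLeft h2)
    refine bElim (h3.trans (hz ())) fun w' Δ' h4 h5 => ?_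
    refine bElim (bLeft (h4.trans h1)) fun x Δ₁ h6 h7 => ?_
    have e1 : Δ₁ ≤ eq w x := bMP (bAll (bRight h7) w) (bLeft ((h6.trans h4).trans h2))
    have e2 : Δ₁ ≤ eq w' x := bMP (bAll (bRight h7) w') (bRight (h6.trans h5))
    rw [hz1]
    refine bEx w' (le_inf (bLeft (h6.trans h5)) ?_)
    exact bMemR (bTrans e1 (bSymm e2)) (bRight ((h6.trans h4).trans h2))
  obtain ⟨η, h1, h2⟩ := exists_of_char a (fun i => v i ⊓ Φ (a i)) Φ (fun y => by
    refine le_antisymm ?_ (iSup_le fun i => ?_)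
    · have h3 : Φ y ≤ ⨆ i, v i ⊓ eq y (a i) := by rw [← h]; exact hΦz y
      refine bElim h3 fun i Δ h4 h5 => bEx i (le_inf (le_inf (bLeft h5) ?_) (bRight h5))
      exact hΦc (bRight h5) h4
    · exact hΦc (bSymm (bRight le_rfl)) (bRight (bLeft le_rfl))) E hsp (fun g hg y => by
    show u ⊓ (⨆ w, F w ⊓ mem (act g y) w) = ρ g (u ⊓ ⨆ w, F w ⊓ mem y w)
    rw [map_inf, hua g hg, OrderIso.map_iSup, ← (act_surj g).iSup_comp]
    congr 1
    refine iSup_congr fun w => ?_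
    rw [map_inf, hFa g hg, HN.mem_act])
  refine ⟨η, h2, ?_⟩
  refine bElim (le_refl u) fun x Δ h3 h4 => ?_
  refine hFc (bSymm ?_) (bLeft h4)
  refine bExt (fun y Δ' h5 h6 => ?_) (fun y Δ' h5 h6 => ?_)
  · rw [h1] at h6
    refine bElim (bRight h6) fun w Δ₁ h7 h8 => ?_
    exact bMemR (bMP (bAll (bRight ((h7.trans h5).trans h4)) w) (bLeft h8)) (bRight h8)
  · rw [h1]
    exact le_inf (h5.trans h3) (bEx x (le_inf (bLeft (h5.trans h4)) h6))

theorem exists_def (e : κ → HN.{0}) {E : Set Ix} (hsp : IsSp E) (hE : ∀ c, Supp E (e c))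
    (f : Fm κ 1) : ∃ η : HN.{0}, Supp E η ∧ exuV (fun x => vl e f ![x]) ≤ vl e f ![η] := by
  refine exists_defF (fun x => vl e f ![x]) (fun {Γ x y} h h' => ?_) hsp (fun g hg x => ?_)
  · exact vl_congr f (fun c => bRefl _) (fun i => by fin_cases i; exact h) h'
  · rw [← vl_act_of e hE f hg]
    congr 1
    funext i
    fin_cases i
    rfl

end defn

end HN

end Pool.Agent.Helper23.SM
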