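import Pool.Agent.Helper23.SM.Re

set_option autoImplicit false
set_option linter.unreachableTactic false
set_option linter.unusedTactic false

/-!
# The spaces `TT`: compactness
-/

universe u v w

namespace Pool.Agent.Helper23.SM

open WT (iffV bElim bOr bMP bImp bNot bAbs bAll bEx bIff bIff_mp bIff_mpr bLeft bRight bCases bContra eq_of_forall iffV_self iffV_eq_top)
open WT (Fm ZF IsUPair IsOPair App IsFun IsOmega IsInductive ZM IsFn isFun_iff app_iff opair ap)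
open HN (TT un RI WW DD)

section

variable {𝒢 : ℕ → HN.{0} → Set BB} {p : Cond} {𝔐 : Mod 𝒢 p}

theorem Mod.R_un_inj {z : 𝔐.G.M} {n m : ℕ} {a b : ℂ} (h : 𝔐.G.R z (un n a)) (h' : 𝔐.G.R z (un m b)) :
    n = m ∧ a = b := by
  by_contra hrs
  have := (GModel.R_eq h h').1 rfl
  rw [HN.un_ne hrs] at this
  exact 𝔐.G.bot this

theorem Mod.mem_TT_iff {k : ℕ} (h0 : ∀ x, 𝒢 k x = Set.range fun p : ℕ × ℂ => HN.eq x (un p.1 p.2))
    {C : Set ℂ} {hC : RI C} {n : ℕ} {X z : 𝔐.G.M} (hX : 𝔐.G.R X (TT hC n)) :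
    ZM.E z X ↔ ∃ a ∈ C, 𝔐.G.R z (un n a) := by
  classical
  rw [Mod.E_def, GModel.R_mem (GModel.R_refl z) hX, HN.mem_TT]
  constructor
  · intro h
    obtain ⟨⟨m, a⟩, hp⟩ := 𝔐.gen_range h0 (GModel.R_refl z) (𝔐.G.up _ h _ (by
      refine iSup_le fun a => ?_
      exact bEx (n, a.1) le_rfl))
    simp only at hp
    have h1 : HN.mem (un m a) (TT hC n) ∈ 𝔐.G.U := by
      rw [← GModel.R_mem hp hX, GModel.R_mem (GModel.R_refl z) hX, HN.mem_TT]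
      exact h
    rw [HN.mem_un_TT] at h1
    by_cases h2 : m = n ∧ a ∈ C
    · obtain ⟨rfl, h2⟩ := h2
      exact ⟨a, h2, hp⟩
    · rw [if_neg h2] at h1
      exact (𝔐.G.bot h1).elim
  · rintro ⟨a, ha, haz⟩
    exact 𝔐.G.up _ haz _ (bEx ⟨a, ha⟩ le_rfl)

theorem Mod.vv_WW_iff {W x y : 𝔐.G.M} {n m : ℕ} {a b : ℂ} (hW : 𝔐.G.R W WW)
    (hx : 𝔐.G.R x (un n a)) (hy : 𝔐.G.R y (un n b)) :
    vv 𝔐.N W m x y ↔ ‖a - b‖ < 1 / ((m : ℝ) + 1) := by
  classical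
  unfold vv
  rw [Mod.E_def, GModel.R_mem (GModel.R_opair (𝔐.hN m) (GModel.R_opair hx hy)) hW, HN.mem_un_WW]
  split_ifs with h
  · exact ⟨fun _ => h.2, fun _ => 𝔐.G.top⟩
  · exact ⟨fun h' => (𝔐.G.bot h').elim, fun h' => (h ⟨rfl, h'⟩).elim⟩

end

/-- `𝒰` is an open cover of `X` without a finite subcover -/
theorem ud_nc : UD (n := 4) (fun _ E v => (∀ U x, E U (v 0) → E x U → E x (v 2) → ∃ m, E m (v 1) ∧
    ∀ y, E y (v 2) → Vr E (v 3) m x y → E y U) ∧ (∀ x, E x (v 2) → ∃ U, E U (v 0) ∧ E x U) ∧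
    ¬ ∃ D, Sub E D (v 0) ∧ IsFin E D ∧ ∀ x, E x (v 2) → ∃ U, E U D ∧ E x U) := by
  unfold Sub Vr IsFin CardEq IsInj IsFun IsOmega IsInductive App IsOPair IsUPair
  (repeat' first
    | with_reducible exact UD.mem _ _ | with_reducible exact UD.eq _ _
    | with_reducible exact UD.tru | with_reducible exact UD.fls
    | with_reducible apply UD.not | with_reducible apply UD.and | with_reducible apply UD.or
    | with_reducible apply UD.iff | with_reducible apply UD.imp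
    | with_reducible apply UD.exu
    | with_reducible apply UD.ex | with_reducible apply UD.all)

theorem ud_bt : UD (n := 5) (fun _ E v => ∃ U, E U (v 0) ∧ ∀ y, E y (v 1) →
    Vr E (v 2) (v 3) (v 4) y → E y U) := by
  unfold Vr IsOPair IsUPair
  (repeat' first
    | with_reducible exact UD.mem _ _ | with_reducible exact UD.eq _ _
    | with_reducible exact UD.tru | with_reducible exact UD.fls
    | with_reducible apply UD.not | with_reducible apply UD.and | with_reducible apply UD.or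
    | with_reducible apply UD.iff | with_reducible apply UD.imp
    | with_reducible apply UD.exu
    | with_reducible apply UD.ex | with_reducible apply UD.all)

theorem vec5 {α : Type*} {Q : α → HN.{0} → Prop} {x y z t s : α} {a b c d e : HN.{0}} (h : Q x a)
    (h' : Q y b) (h'' : Q z c) (h3 : Q t d) (h4 : Q s e) :
    ∀ i : Fin 5, Q ((![x, y, z, t, s] : Fin 5 → α) i) ((![a, b, c, d, e] : Fin 5 → HN.{0}) i) :=
  fun i => Fin.cases h (fun i => vec4 (Q := Q) h' h'' h3 h4 i) i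

theorem comp_frc {C : Set ℂ} (hC : RI C) (hcomp : IsCompact C) (n : ℕ) (q : Cond) (U : HN.{0}) :
    ¬ Frc q (ud_nc.val ![U, HN.omg, TT hC n, WW]) := by
  intro hq
  classical
  let cc : ℕ → ℂ := TopologicalSpace.denseSeq ℂ
  obtain ⟨q', hq', h1⟩ := fusion (fun j q => Frc q (ud_bt.val ![U, TT hC n, WW,
      HN.nat (Nat.unpair j).2, un n (cc (Nat.unpair j).1)]) ∨ Frc q (ud_bt.val ![U, TT hC n, WW,
      HN.nat (Nat.unpair j).2, un n (cc (Nat.unpair j).1)])ᶜ)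
    (fun n p q hqp h => h.imp (fun h => h.lower hqp) (fun h => h.lower hqp)) q
    (fun n q _ => frc_decide q _)
  set G : Set (ℕ × ℕ) := {j | Frc q' (ud_bt.val ![U, TT hC n, WW, HN.nat j.2, un n (cc j.1)])} with hG
  have h2 : ∀ j : ℕ × ℕ, Frc q' (ud_bt.val ![U, TT hC n, WW, HN.nat j.2, un n (cc j.1)]) ∨
      Frc q' (ud_bt.val ![U, TT hC n, WW, HN.nat j.2, un n (cc j.1)])ᶜ := by
    intro j
    have := h1 (Nat.pair j.1 j.2)
    simpa using this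
  -- the models
  let 𝒢 : ℕ → HN.{0} → Set BB := fun _ x => Set.range fun p : ℕ × ℂ => HN.eq x (un p.1 p.2)
  have key : ∀ 𝔐 : Mod 𝒢 q', (∀ a ∈ ({U, TT hC n, WW} : Set HN.{0}) ∪
      Set.range (fun i => un n (cc i)), ∃ m : 𝔐.G.M, 𝔐.G.R m a) →
      ∃ (u x w : 𝔐.G.M) (ci : ℕ → 𝔐.G.M), 𝔐.G.R u U ∧ 𝔐.G.R x (TT hC n) ∧ 𝔐.G.R w WW ∧
        (∀ i, 𝔐.G.R (ci i) (un n (cc i))) ∧
        (∀ V t, ZM.E V u → ZM.E t V → ZM.E t x → ∃ m : ℕ, ∀ y, ZM.E y x → vv 𝔐.N w m t y → ZM.E y V) ∧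
        (∀ t, ZM.E t x → ∃ V, ZM.E V u ∧ ZM.E t V) ∧
        (¬ ∃ D, Sub ZM.E D u ∧ IsFin ZM.E D ∧ ∀ t, ZM.E t x → ∃ V, ZM.E V D ∧ ZM.E t V) ∧
        ∀ j : ℕ × ℕ, j ∈ G ↔ ∃ V, ZM.E V u ∧ ∀ y, ZM.E y x → vv 𝔐.N w j.2 (ci j.1) y → ZM.E y V := by
    intro 𝔐 h𝔐
    obtain ⟨u, hu⟩ := h𝔐 U (by simp)
    obtain ⟨x, hx⟩ := h𝔐 (TT hC n) (by simp)
    obtain ⟨w, hw⟩ := h𝔐 WW (by simp)
    have hci : ∀ i, ∃ m : 𝔐.G.M, 𝔐.G.R m (un n (cc i)) := fun i => h𝔐 _ (Or.inr ⟨i, rfl⟩)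
    choose ci hci using hci
    obtain ⟨g1, g2, g3⟩ := (GModel.los_ud ud_nc (vec4 (Q := 𝔐.G.R) hu 𝔐.ho hx hw)).2
      (𝔐.gen _ (hq.lower hq'))
    refine ⟨u, x, w, ci, hu, hx, hw, hci, fun V t hV ht htx => ?_, g2, g3, fun j => ?_⟩
    · obtain ⟨m, hm, h⟩ := g1 V t hV ht htx
      obtain ⟨m, rfl⟩ := (𝔐.std.NO m).1 hm
      exact ⟨m, fun y hy hty => h y hy (vr_iff.2 hty)⟩
    · have h3 := GModel.los_ud ud_bt (vec5 (Q := 𝔐.G.R) hu hx hw (𝔐.hN j.2) (hci j.1))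
      have h4 : j ∈ G ↔ ud_bt.val ![U, TT hC n, WW, HN.nat j.2, un n (cc j.1)] ∈ 𝔐.G.U := by
        rcases h2 j with h3 | h3
        · exact ⟨fun _ => 𝔐.gen _ h3, fun _ => h3⟩
        · exact ⟨fun h4 => (frc_absurd h4 h3).elim, fun h4 => (GModel.not_both h4 (𝔐.gen _ h3)).elim⟩
      rw [h4, ← h3]
      refine exists_congr fun V => and_congr Iff.rfl (forall_congr' fun y => imp_congr Iff.rfl
        (imp_congr ?_ Iff.rfl))
      exact vr_iff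
  -- the balls cover C
  have hcov : C ⊆ ⋃ j : G, Metric.ball (cc j.1.1) (1 / ((j.1.2 : ℝ) + 1)) := by
    intro a ha
    obtain ⟨𝔐, h𝔐⟩ := exists_mod ((({U, TT hC n, WW} : Set HN.{0}) ∪
      Set.range (fun i => un n (cc i))) ∪ {un n a})
      (((Set.to_countable _).union (Set.countable_range _)).union (Set.countable_singleton _)) 𝒢 q'
    obtain ⟨u, x, w, ci, hu, hx, hw, hci, g1, g2, g3, g4⟩ := key 𝔐 (fun a ha => h𝔐 a (Or.inl ha))
    obtain ⟨t, ht⟩ := h𝔐 (un n a) (Or.inr rfl)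
    have htx : ZM.E t x := (Mod.mem_TT_iff (k := 0) (fun _ => rfl) hx).2 ⟨a, ha, ht⟩
    obtain ⟨V, hV, htV⟩ := g2 t htx
    obtain ⟨m, hm⟩ := g1 V t hV htV htx
    have hpos : (0 : ℝ) < 1 / (((2 * m + 1 : ℕ) : ℝ) + 1) := by positivity
    obtain ⟨i, hi⟩ : ∃ i, dist a (cc i) < 1 / (((2 * m + 1 : ℕ) : ℝ) + 1) := by
      have := (TopologicalSpace.denseRange_denseSeq ℂ).exists_dist_lt a hpos
      exact this
    have hG' : ((i, 2 * m + 1) : ℕ × ℕ) ∈ G := by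
      rw [g4]
      refine ⟨V, hV, fun y hy hyw => hm y hy ?_⟩
      obtain ⟨b, hb, hyb⟩ := (Mod.mem_TT_iff (k := 0) (fun _ => rfl) hx).1 hy
      simp only at hyw
      rw [Mod.vv_WW_iff hw (hci i) hyb] at hyw
      rw [Mod.vv_WW_iff hw ht hyb]
      have h3 : ‖a - b‖ ≤ ‖a - cc i‖ + ‖cc i - b‖ := by
        have : a - b = (a - cc i) + (cc i - b) := by ring
        rw [this]
        exact norm_add_le _ _
      rw [Complex.dist_eq] at hi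
      have h4 : 1 / (((2 * m + 1 : ℕ) : ℝ) + 1) + 1 / (((2 * m + 1 : ℕ) : ℝ) + 1) =
          1 / ((m : ℝ) + 1) := by
        push_cast
        field_simp
        ring
      linarith
    refine Set.mem_iUnion.2 ⟨⟨_, hG'⟩, ?_⟩
    exact hi
  obtain ⟨T, hT⟩ := hcomp.elim_finite_subcover _ (fun j => Metric.isOpen_ball) hcov
  -- a finite subcover
  obtain ⟨𝔐, h𝔐⟩ := exists_mod ((({U, TT hC n, WW} : Set HN.{0}) ∪
      Set.range (fun i => un n (cc i)))) (((Set.to_countable _).union (Set.countable_range _))) 𝒢 q'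
  obtain ⟨u, x, w, ci, hu, hx, hw, hci, g1, g2, g3, g4⟩ := key 𝔐 h𝔐
  have hV : ∀ j : G, ∃ V, ZM.E V u ∧ ∀ y, ZM.E y x → vv 𝔐.N w j.1.2 (ci j.1.1) y → ZM.E y V :=
    fun j => (g4 j.1).1 j.2
  choose V hV1 hV2 using hV
  obtain ⟨D, hD⟩ := exists_finite (M := 𝔐.G.M) (S := V '' (T : Set G)) (T.finite_toSet.image V)
  refine g3 ⟨D, fun z hz => ?_, 𝔐.std.isFin_iff.2 ?_, fun t ht => ?_⟩
  · obtain ⟨j, _, rfl⟩ := (hD z).1 hz
    exact hV1 j
  · have : {z | ZM.E z D} = V '' (T : Set G) := Set.ext fun z => hD z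
    rw [this]
    exact T.finite_toSet.image V
  · obtain ⟨a, ha, hta⟩ := (Mod.mem_TT_iff (k := 0) (fun _ => rfl) hx).1 ht
    obtain ⟨j, hj⟩ := Set.mem_iUnion.1 (hT ha)
    obtain ⟨hjT, hj⟩ := Set.mem_iUnion.1 hj
    refine ⟨V j, (hD _).2 ⟨j, hjT, rfl⟩, hV2 j t ht ?_⟩
    rw [Mod.vv_WW_iff hw (hci _) hta]
    rw [Metric.mem_ball, dist_comm, Complex.dist_eq] at hj
    exact hj

/-- compactness in the models -/
theorem Mod.isComp {𝒢 : ℕ → HN.{0} → Set BB} {p : Cond} (𝔐 : Mod 𝒢 p) {C : Set ℂ} (hC : RI C)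
    (hcomp : IsCompact C) {n : ℕ} {x w τ : 𝔐.G.M} (hx : 𝔐.G.R x (TT hC n)) (hw : 𝔐.G.R w WW)
    (hτ : ∀ U, ZM.E U τ ↔ Sub ZM.E U x ∧ ∀ t, ZM.E t U → ∃ m, ∀ y, ZM.E y x → vv 𝔐.N w m t y →
      ZM.E y U) : IsComp 𝔐.G.E x τ := by
  intro U hU hcov
  by_contra hcon
  have h1 := (GModel.los_ud ud_nc (vec4 (Q := 𝔐.G.R) (GModel.R_refl U) 𝔐.ho hx hw)).1
    ⟨fun V t hV ht htx => by
      obtain ⟨m, hm⟩ := ((hτ V).1 (hU V hV)).2 t ht
      exact ⟨𝔐.N m, 𝔐.std.N_mem m, fun y hy hty => hm y hy (vr_iff.1 hty)⟩, hcov, hcon⟩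
  obtain ⟨q, -, h6⟩ := 𝔐.den _ h1
  exact comp_frc hC hcomp n q _ h6

end Pool.Agent.Helper23.SM
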