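import Pool.Agent.Helper23.WT.Defs

set_option autoImplicit false

/-!
# The choice principles in a model of ZF

All definitions are statements about elements of a model `(M, E)` of ZF (`E` is the membership
relation of the model); `App E f x y` says `(x, y) ∈ f`, `IsFun E f A B` that `f` is a function
from `A` to `B`, and `IsOmega E o` that `o = ω` in the sense of the model.
-/

universe v

namespace Pool.Agent.Helper23.SM

open WT (IsOPair App IsFun IsOmega ZF)

section

variable {M : Type v} (E : M → M → Prop)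

/-- the elements of `x` in the sense of the model -/
abbrev El (x : M) : Type v := {z : M // E z x}

/-- `A ⊆ B` -/
def Sub (A B : M) : Prop := ∀ x, E x A → E x B

/-- `f` is an injection from `A` to `B` -/
def IsInj (f A B : M) : Prop := IsFun E f A B ∧ ∀ x x' y, App E f x y → App E f x' y → x = x'

/-- `|A| ≤ |B|` -/
def CardLe (A B : M) : Prop := ∃ f, IsInj E f A B

/-- `|A| = |B|` -/
def CardEq (A B : M) : Prop := ∃ f, IsInj E f A B ∧ ∀ y, E y B → ∃ x, App E f x y

/-- `A` is finite: equinumerous with an element of `ω` -/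
def IsFin (A : M) : Prop := ∃ o n, IsOmega E o ∧ E n o ∧ CardEq E n A

/-- `A` is denumerable -/
def IsDen (A : M) : Prop := ∃ o, IsOmega E o ∧ CardEq E o A

/-- `A` is countable -/
def IsCnt (A : M) : Prop := IsFin E A ∨ IsDen E A

/-- IDI: every infinite set is Dedekind-infinite -/
def IDI : Prop := ∀ A, ¬ IsFin E A → ∃ o, IsOmega E o ∧ CardLe E o A

/-- the set of pairs `R` well-orders `A` (`(x, y) ∈ R` means `x ≤ y`) -/
def IsWO (R A : M) : Prop :=
  (∀ x y, E x A → E y A → App E R x y → App E R y x → x = y) ∧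
  (∀ x y z, E x A → E y A → E z A → App E R x y → App E R y z → App E R x z) ∧
  ∀ B, Sub E B A → (∃ x, E x B) → ∃ x, E x B ∧ ∀ y, E y B → App E R x y

/-- `f` is a choice function of the family `F` -/
def IsChoice (f F : M) : Prop :=
  (∀ p, E p f → ∃ x y, E x F ∧ E y x ∧ IsOPair E p x y) ∧ ∀ x, E x F → ∃! y, App E f x y

/-- WOAC_fin: every non-empty well-orderable family of non-empty finite sets has a choice
function -/
def WOACfin : Prop := ∀ F, (∃ x, E x F) → (∀ x, E x F → IsFin E x ∧ ∃ y, E y x) →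
  (∃ R, IsWO E R F) → ∃ f, IsChoice E f F

/-- `((x, y), z) ∈ f`, that is `f(x, y) = z` if `f` is a function of two variables -/
def App2 (f x y z : M) : Prop := ∃ p, IsOPair E p x y ∧ App E f p z

/-- `τ` is the topology on `X` of a real valued metric: `R` with the addition `a`, the
multiplication `m` and the order `l` is a Dedekind complete ordered field in the model,
`d : X × X → R` is a metric, and `τ` is the set of all open sets of `d` -/
def IsMetrizable (X τ : M) : Prop :=
  ∃ (R a m l d : M) (_ : Field (El E R)) (_ : LinearOrder (El E R)) (δ : El E X → El E X → El E R),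
    IsStrictOrderedRing (El E R) ∧
    (∀ x y z : El E R, App2 E a x y z ↔ x + y = z) ∧
    (∀ x y z : El E R, App2 E m x y z ↔ x * y = z) ∧
    (∀ x y : El E R, App E l x y ↔ x ≤ y) ∧
    (∀ S, Sub E S R → (∃ x, E x S) → (∃ b : El E R, ∀ x : El E R, E x S → x ≤ b) →
      ∃ b : El E R, (∀ x : El E R, E x S → x ≤ b) ∧
        ∀ c : El E R, (∀ x : El E R, E x S → x ≤ c) → b ≤ c) ∧
    (∀ (x y : El E X) (r : El E R), App2 E d x y r ↔ δ x y = r) ∧
    (∀ x y, δ x y = 0 ↔ x = y) ∧ (∀ x y, δ x y = δ y x) ∧
    (∀ x y z, δ x z ≤ δ x y + δ y z) ∧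
    ∀ U, E U τ ↔ Sub E U X ∧ ∀ x : El E X, E x U → ∃ ε > 0, ∀ y : El E X, δ x y < ε → E y U

/-- the space `(X, τ)` is compact -/
def IsComp (X τ : M) : Prop := ∀ C, Sub E C τ → (∀ x, E x X → ∃ U, E U C ∧ E x U) →
  ∃ D, Sub E D C ∧ IsFin E D ∧ ∀ x, E x X → ∃ U, E U D ∧ E x U

/-- M(C(≰ ℵ_0), ≥ 2^{ℵ_0}): for every uncountable compact metrizable space `X`, the power set of
`ω` injects into `X` -/
def MCuncountable : Prop := ∀ X τ, IsMetrizable E X τ → IsComp E X τ → ¬ IsCnt E X →
  ∃ o P, IsOmega E o ∧ (∀ w, E w P ↔ Sub E w o) ∧ CardLe E P X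

/-- `s` is a family indexed by `I` -/
def IsFam (s I : M) : Prop := ∀ i, E i I → ∃! x, App E s i x

/-- CAC(C, M_le): for every sequence of non-empty compact metrizable spaces `(X_i, τ_i)` there is
a choice function of the sequence of the `X_i` -/
def CACle : Prop := ∀ o X T, IsOmega E o → IsFam E X o → IsFam E T o →
  (∀ i x t, E i o → App E X i x → App E T i t → (∃ y, E y x) ∧ IsMetrizable E x t ∧ IsComp E x t) →
  ∃ f, IsFam E f o ∧ ∀ i x y, E i o → App E X i x → App E f i y → E y x

/-- `P` is the product of the family `X` indexed by `I` -/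
def IsProd (I X P : M) : Prop := ∀ f, E f P ↔
  (∀ p, E p f → ∃ i x y, E i I ∧ App E X i x ∧ E y x ∧ IsOPair E p i y) ∧ IsFam E f I

/-- `σ` is the product topology on the product `P` of a family of spaces with the topologies
`T i`, `i ∈ I`: a subset `U` of `P` is open iff for every `f ∈ U` there are a finite `F ⊆ I` and
open sets `O i ∋ f i`, `i ∈ F`, such that all `h ∈ P` with `h i ∈ O i` for all `i ∈ F` are
in `U` -/
def IsProdTop (I T P σ : M) : Prop := ∀ U, E U σ ↔ Sub E U P ∧ ∀ f, E f U →
  ∃ F O, Sub E F I ∧ IsFin E F ∧ IsFam E O F ∧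
    (∀ i V, E i F → App E O i V → (∃ t, App E T i t ∧ E V t) ∧ ∃ y, App E f i y ∧ E y V) ∧
    ∀ h, E h P → (∀ i V, E i F → App E O i V → ∃ y, App E h i y ∧ E y V) → E h U

/-- CPM_le(C, C): every product of countably many compact metrizable spaces is compact -/
def CPMle : Prop := ∀ I X T, IsCnt E I → IsFam E X I → IsFam E T I →
  (∀ i x t, E i I → App E X i x → App E T i t → IsMetrizable E x t ∧ IsComp E x t) →
  ∀ P σ, IsProd E I X P → IsProdTop E I T P σ → IsComp E P σ

/-- CMC_ω: every denumerable family of denumerable sets has a multiple choice function -/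
def CMComega : Prop := ∀ F, IsDen E F → (∀ x, E x F → IsDen E x) →
  ∃ f, IsFam E f F ∧ ∀ x y, E x F → App E f x y → IsFin E y ∧ (∃ z, E z y) ∧ Sub E y x

end

end Pool.Agent.Helper23.SM
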