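import Pool.Agent.Helper23.SM.ML

set_option autoImplicit false
set_option linter.unreachableTactic false
set_option linter.unusedTactic false

/-!
# Products in a model of ZF with standard natural numbers
-/

universe u v w

namespace Pool.Agent.Helper23.SM

open WT

variable {M : Type} [ZM M]

theorem isFam_of_isFn {f A B : M} (h : IsFn f A B) : IsFam ZM.E f A := fun i hi => by
  simp only [app_iff]
  exact h.2 i hi

theorem exists_prod {o X Z : M} (hX : ∀ i x, ZM.E i o → App ZM.E X i x → Sub ZM.E x Z) :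
    ∃ P : M, IsProd ZM.E o X P := by
  have hD : D1 (fun f : M => (∀ p, ZM.E p f → ∃ i x y, ZM.E i o ∧ App ZM.E X i x ∧ ZM.E y x ∧
      IsOPair ZM.E p i y) ∧ IsFam ZM.E f o) := by
    unfold IsFam App IsOPair IsUPair
    (repeat' first
    | with_reducible apply DF.lam | with_reducible apply DF.ap
    | with_reducible apply Dfn.isFn | with_reducible apply DF.prod
    | with_reducible apply DF.funs
    | with_reducible apply DF.pow | with_reducible apply DF.opair
    | with_reducible apply DF.upair | with_reducible assumption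
    | with_reducible exact DF.var _ | with_reducible exact DF.const _
    | with_reducible exact Dfn.const _ | with_reducible apply DF.the
    | with_reducible apply DF.mkS | with_reducible apply Dfn.mem
    | with_reducible apply Dfn.eq | with_reducible apply Dfn.and
    | with_reducible apply Dfn.or | with_reducible apply Dfn.iff
    | with_reducible apply Dfn.imp | with_reducible apply Dfn.not
    | with_reducible apply Dfn.exu | with_reducible apply Dfn.ex
    | with_reducible apply Dfn.all)
  obtain ⟨P, hP⟩ := exists_sep hD (pow (prod o Z))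
  refine ⟨P, fun f => ?_⟩
  rw [hP]
  refine and_iff_right_of_imp ?_
  rintro ⟨h, -⟩
  rw [mem_pow]
  intro p hp
  obtain ⟨i, x, y, hi, hx, hy, h1⟩ := h p hp
  rw [isOPair_iff] at h1
  rw [h1]
  exact opair_mem_prod.2 ⟨hi, hX i x hi hx y hy⟩

theorem exists_prodTop (I T P : M) : ∃ σ : M, IsProdTop ZM.E I T P σ := by
  have hD : D1 (fun U : M => ∀ f, ZM.E f U →
    ∃ F O, Sub ZM.E F I ∧ IsFin ZM.E F ∧ IsFam ZM.E O F ∧
    (∀ i V, ZM.E i F → App ZM.E O i V → (∃ t, App ZM.E T i t ∧ ZM.E V t) ∧
      ∃ y, App ZM.E f i y ∧ ZM.E y V) ∧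
    ∀ h, ZM.E h P → (∀ i V, ZM.E i F → App ZM.E O i V → ∃ y, App ZM.E h i y ∧ ZM.E y V) →
      ZM.E h U) := by
    unfold IsFam Sub IsFin CardEq IsInj IsFun IsOmega IsInductive App IsOPair IsUPair
    (repeat' first
    | with_reducible apply DF.lam | with_reducible apply DF.ap
    | with_reducible apply Dfn.isFn | with_reducible apply DF.prod
    | with_reducible apply DF.funs
    | with_reducible apply DF.pow | with_reducible apply DF.opair
    | with_reducible apply DF.upair | with_reducible assumption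
    | with_reducible exact DF.var _ | with_reducible exact DF.const _
    | with_reducible exact Dfn.const _ | with_reducible apply DF.the
    | with_reducible apply DF.mkS | with_reducible apply Dfn.mem
    | with_reducible apply Dfn.eq | with_reducible apply Dfn.and
    | with_reducible apply Dfn.or | with_reducible apply Dfn.iff
    | with_reducible apply Dfn.imp | with_reducible apply Dfn.not
    | with_reducible apply Dfn.exu | with_reducible apply Dfn.ex
    | with_reducible apply Dfn.all)
  obtain ⟨σ, hσ⟩ := exists_sep hD (pow P)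
  exact ⟨σ, fun U => by rw [hσ, mem_pow]; rfl⟩

theorem exists_idFn (A : M) : ∃ g : M, IsFn g A A ∧ ∀ x, ZM.E x A → ap g x = x := by
  have hF : F1 (fun x : M => x) := DF.var 0
  exact ⟨lam A (fun x => x), lam_isFn hF (fun x hx => hx), fun x hx => ap_lam hF (fun x hx => hx) hx⟩

namespace Std

variable {o : M} {N : ℕ → M} (S : Std M o N)

include S

theorem exists_modify1 {st Z : M} (hst : IsFn st o Z) (K : ℕ) (v : M) (hv : ZM.E v Z) :
    ∃ h : M, IsFn h o Z ∧ ap h (N K) = v ∧ ∀ n, n ≠ K → ap h (N n) = ap st (N n) := by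
  have hD : D1 (fun p : M => ¬ ∃ y, p = opair (N K) y) := by
    (repeat' first
    | with_reducible apply DF.lam | with_reducible apply DF.ap
    | with_reducible apply Dfn.isFn | with_reducible apply DF.prod
    | with_reducible apply DF.funs
    | with_reducible apply DF.pow | with_reducible apply DF.opair
    | with_reducible apply DF.upair | with_reducible assumption
    | with_reducible exact DF.var _ | with_reducible exact DF.const _
    | with_reducible exact Dfn.const _ | with_reducible apply DF.the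
    | with_reducible apply DF.mkS | with_reducible apply Dfn.mem
    | with_reducible apply Dfn.eq | with_reducible apply Dfn.and
    | with_reducible apply Dfn.or | with_reducible apply Dfn.iff
    | with_reducible apply Dfn.imp | with_reducible apply Dfn.not
    | with_reducible apply Dfn.exu | with_reducible apply Dfn.ex
    | with_reducible apply Dfn.all)
  obtain ⟨c, hc⟩ := exists_sep hD st
  obtain ⟨h, hh⟩ := exists_adj c (opair (N K) v)
  have hmem : ∀ i y, ZM.E (opair i y) h ↔ (i ≠ N K ∧ ZM.E (opair i y) st) ∨ (i = N K ∧ y = v) := by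
    intro i y
    rw [hh, hc, opair_inj]
    refine or_congr ?_ Iff.rfl
    rw [and_comm]
    refine and_congr ⟨fun h1 h2 => h1 ⟨y, by rw [h2]⟩, fun h1 ⟨y', h2⟩ => h1 (opair_inj.1 h2).1⟩ Iff.rfl
  have hfn : IsFn h o Z := by
    refine ⟨fun p hp => ?_, fun x hx => ?_⟩
    · rcases (hh p).1 hp with h1 | rfl
      · exact hst.1 p ((hc p).1 h1).1
      · exact ⟨N K, v, S.N_mem K, hv, rfl⟩
    · by_cases hxK : x = N K
      · refine ⟨v, (hmem _ _).2 (Or.inr ⟨hxK, rfl⟩), fun y hy => ?_⟩
        rcases (hmem _ _).1 hy with h1 | h1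
        · exact (h1.1 hxK).elim
        · exact h1.2
      · refine ⟨ap st x, (hmem _ _).2 (Or.inl ⟨hxK, (hst.mem_iff hx).2 rfl⟩), fun y hy => ?_⟩
        rcases (hmem _ _).1 hy with h1 | h1
        · exact (hst.mem_iff hx).1 h1.2
        · exact (hxK h1.1).elim
  refine ⟨h, hfn, ?_, fun n hn => ?_⟩
  · exact ((hfn.mem_iff (S.N_mem K)).1 ((hmem _ _).2 (Or.inr ⟨rfl, rfl⟩))).symm
  · refine ((hfn.mem_iff (S.N_mem n)).1 ((hmem _ _).2 (Or.inl ⟨fun e => hn (S.inj _ _ e), ?_⟩))).symm
    exact (hst.mem_iff (S.N_mem n)).2 rfl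

theorem exists_modify {st Z : M} (hst : IsFn st o Z) (K : ℕ) (v : ℕ → M) (hv : ∀ n, ZM.E (v n) Z) :
    ∃ h : M, IsFn h o Z ∧ (∀ n < K, ap h (N n) = v n) ∧ ∀ n, K ≤ n → ap h (N n) = ap st (N n) := by
  induction K with
  | zero => exact ⟨st, hst, fun n hn => (Nat.not_lt_zero n hn).elim, fun n _ => rfl⟩
  | succ K ih =>
    obtain ⟨h, h1, h2, h3⟩ := ih
    obtain ⟨h', h1', h2', h3'⟩ := S.exists_modify1 h1 K (v K) (hv K)
    refine ⟨h', h1', fun n hn => ?_, fun n hn => ?_⟩
    · rcases Nat.lt_succ_iff_lt_or_eq.1 hn with h | rfl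
      · rw [h3' n (by omega), h2 n h]
      · exact h2'
    · rw [h3' n (by omega), h3 n (by omega)]

/-- a countable product without the axiom of choice is not compact -/
theorem not_compact {X T Z P σ st : M} (hX : IsFn X o (pow Z)) (hT : IsFn T o (pow (pow Z)))
    (hP : IsProd ZM.E o X P) (hσ : IsProdTop ZM.E o T P σ) (hst : IsFn st o Z)
    (hstX : ∀ n, ZM.E (ap st (N n)) (ap X (N n)))
    (hsing : ∀ n U, (∀ t, ZM.E t U ↔ t = ap st (N n)) → ZM.E U (ap T (N n)))
    (v : ℕ → M) (hv : ∀ n, ZM.E (v n) (ap X (N n))) (hne : ∀ n, v n ≠ ap st (N n))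
    (hno : ∀ f, ZM.E f P → ∃ n, ZM.E (opair (N n) (ap st (N n))) f) : ¬ IsComp ZM.E P σ := by
  classical
  intro hcomp
  have hXZ : ∀ n t, ZM.E t (ap X (N n)) → ZM.E t Z := fun n t ht =>
    (mem_pow.1 (hX.ap_mem (S.N_mem n))) t ht
  have hD1 : D1 (fun U : M => ∃ n, ZM.E n o ∧ ∀ f, ZM.E f U ↔ ZM.E f P ∧
      ZM.E (opair n (ap st n)) f) := by
    (repeat' first
    | with_reducible apply DF.lam | with_reducible apply DF.ap
    | with_reducible apply Dfn.isFn | with_reducible apply DF.prod
    | with_reducible apply DF.funs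
    | with_reducible apply DF.pow | with_reducible apply DF.opair
    | with_reducible apply DF.upair | with_reducible assumption
    | with_reducible exact DF.var _ | with_reducible exact DF.const _
    | with_reducible exact Dfn.const _ | with_reducible apply DF.the
    | with_reducible apply DF.mkS | with_reducible apply Dfn.mem
    | with_reducible apply Dfn.eq | with_reducible apply Dfn.and
    | with_reducible apply Dfn.or | with_reducible apply Dfn.iff
    | with_reducible apply Dfn.imp | with_reducible apply Dfn.not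
    | with_reducible apply Dfn.exu | with_reducible apply Dfn.ex
    | with_reducible apply Dfn.all)
  obtain ⟨C, hC⟩ := exists_sep hD1 σ
  -- the open sets
  have hV : ∀ n, ∃ U, ZM.E U σ ∧ ∀ f, ZM.E f U ↔ ZM.E f P ∧ ZM.E (opair (N n) (ap st (N n))) f := by
    intro n
    have hB : D1 (fun f : M => ZM.E (opair (N n) (ap st (N n))) f) := by
      (repeat' first
    | with_reducible apply DF.lam | with_reducible apply DF.ap
    | with_reducible apply Dfn.isFn | with_reducible apply DF.prod
    | with_reducible apply DF.funs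
    | with_reducible apply DF.pow | with_reducible apply DF.opair
    | with_reducible apply DF.upair | with_reducible assumption
    | with_reducible exact DF.var _ | with_reducible exact DF.const _
    | with_reducible exact Dfn.const _ | with_reducible apply DF.the
    | with_reducible apply DF.mkS | with_reducible apply Dfn.mem
    | with_reducible apply Dfn.eq | with_reducible apply Dfn.and
    | with_reducible apply Dfn.or | with_reducible apply Dfn.iff
    | with_reducible apply Dfn.imp | with_reducible apply Dfn.not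
    | with_reducible apply Dfn.exu | with_reducible apply Dfn.ex
    | with_reducible apply Dfn.all)
    obtain ⟨B, hB⟩ := exists_sep hB P
    refine ⟨B, (hσ B).2 ⟨fun f hf => ((hB f).1 hf).1, fun f hf => ?_⟩, hB⟩
    obtain ⟨hfP, hfn⟩ := (hB f).1 hf
    have hFst : ∀ t : M, ZM.E t (upair (N n) (N n)) ↔ t = N n := fun t => by
      rw [mem_upair, or_self]
    have hsing' : ∀ t : M, ZM.E t (upair (ap st (N n)) (ap st (N n))) ↔ t = ap st (N n) := fun t => by
      rw [mem_upair, or_self]
    have hO : ∀ t : M, ZM.E t (upair (opair (N n) (upair (ap st (N n)) (ap st (N n))))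
        (opair (N n) (upair (ap st (N n)) (ap st (N n))))) ↔
        t = opair (N n) (upair (ap st (N n)) (ap st (N n))) := fun t => by
      rw [mem_upair, or_self]
    have hOm : ∀ i V, App ZM.E (upair (opair (N n) (upair (ap st (N n)) (ap st (N n))))
        (opair (N n) (upair (ap st (N n)) (ap st (N n))))) i V ↔
        i = N n ∧ V = upair (ap st (N n)) (ap st (N n)) := fun i V => by
      rw [app_iff, hO, opair_inj]
    refine ⟨upair (N n) (N n), upair (opair (N n) (upair (ap st (N n)) (ap st (N n))))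
        (opair (N n) (upair (ap st (N n)) (ap st (N n)))), fun t ht => ?_, ?_, fun i hi => ?_,
        fun i V hi hiV => ?_, fun h hh h' => ?_⟩
    · rw [(hFst t).1 ht]
      exact S.N_mem n
    · rw [S.isFin_iff]
      have : {z : M | ZM.E z (upair (N n) (N n))} = {N n} := Set.ext fun z => hFst z
      rw [this]
      exact Set.finite_singleton _
    · rw [(hFst i).1 hi]
      exact ⟨_, (hOm _ _).2 ⟨rfl, rfl⟩, fun V hV => ((hOm _ _).1 hV).2⟩
    · obtain ⟨rfl, rfl⟩ := (hOm _ _).1 hiV
      refine ⟨⟨ap T (N n), app_iff.2 ((hT.mem_iff (S.N_mem n)).2 rfl), hsing n _ hsing'⟩,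
        ap st (N n), app_iff.2 hfn, (hsing' _).2 rfl⟩
    · obtain ⟨y, hy, hy'⟩ := h' (N n) _ ((hFst _).2 rfl) ((hOm _ _).2 ⟨rfl, rfl⟩)
      rw [(hsing' y).1 hy', app_iff] at hy
      exact (hB h).2 ⟨hh, hy⟩
  obtain ⟨D, hD1, hD2, hD3⟩ := hcomp C (fun U hU => ((hC U).1 hU).1) (fun f hf => by
    obtain ⟨n, hn⟩ := hno f hf
    obtain ⟨U, hU, hU'⟩ := hV n
    exact ⟨U, (hC U).2 ⟨hU, N n, S.N_mem n, hU'⟩, (hU' f).2 ⟨hf, hn⟩⟩)
  rw [S.isFin_iff] at hD2
  have hidx : ∀ U, ∃ n : ℕ, ZM.E U D → ∀ f, ZM.E f U ↔ ZM.E f P ∧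
      ZM.E (opair (N n) (ap st (N n))) f := by
    intro U
    by_cases hUD : ZM.E U D
    · obtain ⟨-, n, hn, h⟩ := (hC U).1 (hD1 U hUD)
      obtain ⟨n, rfl⟩ := (S.NO n).1 hn
      exact ⟨n, fun _ => h⟩
    · exact ⟨0, fun h => (hUD h).elim⟩
  choose idx hidx using hidx
  obtain ⟨K, hK⟩ := (hD2.image idx).bddAbove
  obtain ⟨h, h1, h2, h3⟩ := S.exists_modify hst (K + 1) v (fun n => hXZ n _ (hv n))
  have hhX : ∀ n, ZM.E (ap h (N n)) (ap X (N n)) := by
    intro n
    by_cases hn : n < K + 1
    · rw [h2 n hn]; exact hv n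
    · rw [h3 n (by omega)]; exact hstX n
  have hhP : ZM.E h P := by
    refine (hP h).2 ⟨fun p hp => ?_, isFam_of_isFn h1⟩
    obtain ⟨i, y, hi, hy, rfl⟩ := h1.1 p hp
    obtain ⟨n, rfl⟩ := (S.NO i).1 hi
    rw [h1.mem_iff hi] at hp
    refine ⟨N n, ap X (N n), y, hi, app_iff.2 ((hX.mem_iff hi).2 rfl), ?_, isOPair_iff.2 rfl⟩
    rw [hp]
    exact hhX n
  obtain ⟨U, hUD, hU⟩ := hD3 h hhP
  have h4 := ((hidx U hUD h).1 hU).2
  rw [h1.mem_iff (S.N_mem _)] at h4
  have hle : idx U ≤ K := hK ⟨U, hUD, rfl⟩
  rw [h2 (idx U) (by omega)] at h4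
  exact hne _ h4.symm

end Std

end Pool.Agent.Helper23.SM
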