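import Pool.Agent.Helper23.SM.Tr
import Pool.Agent.Helper23.SM.ML2

set_option autoImplicit false
set_option linter.unreachableTactic false
set_option linter.unusedTactic false

/-!
# Metrizability; failure of choice for compact metrizable spaces
-/

universe u v w

namespace Pool.Agent.Helper23.SM

open WT (iffV bElim bOr bMP bImp bNot bAbs bAll bEx bIff bIff_mp bIff_mpr bLeft bRight bCases bContra eq_of_forall iffV_self iffV_eq_top)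
open WT (Fm ZF IsUPair IsOPair App IsFun IsOmega IsInductive ZM IsFn isFun_iff app_iff opair ap)
open HN (TT un RI WW DD xn tn)

section

variable {𝒢 : ℕ → HN.{0} → Set BB} {p : Cond} {𝔐 : Mod 𝒢 p}

theorem Mod.mem_DD_iff {d x y z : 𝔐.G.M} {n : ℕ} {a b : ℂ} (hd : 𝔐.G.R d DD)
    (hx : 𝔐.G.R x (un n a)) (hy : 𝔐.G.R y (un n b)) :
    ZM.E (opair (opair x y) z) d ↔ 𝔐.G.R z (HN.rn ‖a - b‖) := by
  rw [Mod.E_def, GModel.R_mem (GModel.R_opair (GModel.R_opair hx hy) (GModel.R_refl z)) hd,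
    HN.mem_un_DD]
  rfl

theorem Mod.isMet (H : RS 𝔐) (h1 : ∀ x, 𝒢 1 x = Set.range fun p : ℕ × ℂ => HN.eq x (un p.1 p.2))
    {C : Set ℂ} (hC : RI C) {n : ℕ} {x w d τ : 𝔐.G.M} (hx : 𝔐.G.R x (TT hC n)) (hw : 𝔐.G.R w WW)
    (hd : 𝔐.G.R d DD)
    (hτ : ∀ U, ZM.E U τ ↔ Sub ZM.E U x ∧ ∀ t, ZM.E t U → ∃ m, ∀ y, ZM.E y x → vv 𝔐.N w m t y →
      ZM.E y U) : IsMetrizable 𝔐.G.E x τ := by
  obtain ⟨R, hR⟩ := H.hall HN.RR (by simp [AR])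
  obtain ⟨a, ha⟩ := H.hall (HN.gr2 (fun r s => r + s)) (by simp [AR])
  obtain ⟨m, hm⟩ := H.hall (HN.gr2 (fun r s => r * s)) (by simp [AR])
  obtain ⟨l, hl⟩ := H.hall HN.LE (by simp [AR])
  obtain ⟨e, he⟩ := H.exists_e hR
  have hcx : ∀ z : El (ZM.E : 𝔐.G.M → 𝔐.G.M → Prop) x, ∃ a : ℂ, 𝔐.G.R z.1 (un n a) := fun z => by
    obtain ⟨a, _, ha⟩ := (Mod.mem_TT_iff h1 hx).1 z.2
    exact ⟨a, ha⟩
  choose cx hcx using hcx
  refine isMetrizable_of (a := a) (m := m) (l := l) (d := d) H.K e (fun x y z => ?_)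
    (fun x y z => ?_) (fun x y => ?_) (fun S g1 g2 g3 => ?_) (fun x y => ‖cx x - cx y‖)
    (fun x y => ?_) (fun x y r => ?_) (fun x y => ?_) (fun x y => ?_) (fun x y z => ?_) (fun U => ?_)
  · rw [Mod.mem_gr2_iff ha (he x) (he y)]
    exact ⟨fun h => Mod.R_rn_inj h (he z), fun h => by rw [h]; exact he z⟩
  · rw [Mod.mem_gr2_iff hm (he x) (he y)]
    exact ⟨fun h => Mod.R_rn_inj h (he z), fun h => by rw [h]; exact he z⟩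
  · exact Mod.mem_LE_iff hl (he x) (he y)
  · obtain ⟨b, hb⟩ := g3
    obtain ⟨c, hcR, hc1, hc2⟩ := 𝔐.sup hR hl g1 g2 ⟨b.1, b.2, fun x hx => app_iff.2
      ((Mod.mem_LE_iff hl (he ⟨x, g1 x hx⟩) (he b)).2 (hb ⟨x, g1 x hx⟩ hx))⟩
    refine ⟨⟨c, hcR⟩, fun x hx => ?_, fun y hy => ?_⟩
    · exact (Mod.mem_LE_iff hl (he x) (he ⟨c, hcR⟩)).1 (app_iff.1 (hc1 x.1 hx))
    · exact (Mod.mem_LE_iff hl (he ⟨c, hcR⟩) (he y)).1 (app_iff.1 (hc2 y.1 y.2 fun x hx =>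
        app_iff.2 ((Mod.mem_LE_iff hl (he ⟨x, g1 x hx⟩) (he y)).2 (hy ⟨x, g1 x hx⟩ hx))))
  · obtain ⟨z, hz⟩ := GModel.exists_app hd (GModel.R_opair (hcx x) (hcx y)) (𝔐.G.up _ 𝔐.G.top _
      (bEx (HN.rn ‖cx x - cx y‖) (by rw [HN.mem_un_DD]; exact HN.bRefl _)))
    exact ⟨z, (Mod.mem_DD_iff hd (hcx x) (hcx y)).1 hz⟩
  · rw [Mod.mem_DD_iff hd (hcx x) (hcx y)]
    exact ⟨fun h => Mod.R_rn_inj h (he r), fun h => by rw [h]; exact he r⟩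
  · rw [norm_eq_zero, sub_eq_zero]
    constructor
    · intro h
      have h3 := hcx y
      rw [← h] at h3
      exact Subtype.ext (Mod.R_eq_of (hcx x) h3)
    · intro h
      rw [h]
  · exact norm_sub_rev _ _
  · have : cx x - cx z = (cx x - cx y) + (cx y - cx z) := by ring
    rw [this]
    exact norm_add_le _ _
  · rw [hτ]
    constructor
    · rintro ⟨g1, g2⟩
      refine ⟨g1, fun t ht => ?_⟩
      obtain ⟨m, hm⟩ := g2 t.1 ht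
      refine ⟨⟨1 / ((m : ℝ) + 1), ?_⟩, ?_, fun y hy => hm y.1 y.2 ?_⟩
      · exact div_mem (one_mem _) (add_mem (natCast_mem _ m) (one_mem _))
      · show (0 : ℝ) < 1 / ((m : ℝ) + 1)
        positivity
      · rw [Mod.vv_WW_iff hw (hcx t) (hcx y)]
        exact hy
    · rintro ⟨g1, g2⟩
      refine ⟨g1, fun t ht => ?_⟩
      obtain ⟨ε, hε, h⟩ := g2 ⟨t, g1 t ht⟩ ht
      obtain ⟨m, hm⟩ := exists_nat_one_div_lt hε
      refine ⟨m, fun y hy hty => h ⟨y, hy⟩ ?_⟩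
      rw [Mod.vv_WW_iff hw (hcx ⟨t, g1 t ht⟩) (hcx ⟨y, hy⟩)] at hty
      exact hty.trans hm

end

section final

variable {p : Cond} (𝔐 : Mod FG p) (hall : ∀ a ∈ FA, ∃ m : 𝔐.G.M, 𝔐.G.R m a)

include hall

theorem Mod.rs : RS 𝔐 := ⟨fun _ => rfl, fun a ha => hall a (Or.inl ha)⟩

/-- the sequences of the spaces and of the topologies -/
theorem Mod.exists_spaces {C : Set ℂ} (hC : RI C) (hcomp : IsCompact C) {k : ℕ}
    (hk : ∀ x, FG k x = Set.range fun n => HN.eq x (HN.opair (HN.nat n) (TT hC n)))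
    (hX : ∃ X : 𝔐.G.M, 𝔐.G.R X (HN.sq (TT hC) (fun n => HN.supp_TT hC n ∅))) :
    ∃ X T Z W : 𝔐.G.M, IsFn X 𝔐.o (WT.pow Z) ∧ IsFn T 𝔐.o (WT.pow (WT.pow Z)) ∧
      𝔐.G.R Z HN.ZZ ∧ 𝔐.G.R W WW ∧
      (∀ n, 𝔐.G.R (ap X (𝔐.N n)) (TT hC n)) ∧
      (∀ n, IsMetrizable 𝔐.G.E (ap X (𝔐.N n)) (ap T (𝔐.N n)) ∧
        IsComp 𝔐.G.E (ap X (𝔐.N n)) (ap T (𝔐.N n))) ∧
      ∀ n, ∀ U, ZM.E U (ap T (𝔐.N n)) ↔ Sub ZM.E U (ap X (𝔐.N n)) ∧ ∀ t, ZM.E t U → ∃ m,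
        ∀ y, ZM.E y (ap X (𝔐.N n)) → vv 𝔐.N W m t y → ZM.E y U := by
  obtain ⟨X, hX⟩ := hX
  obtain ⟨Z, hZ⟩ := hall HN.ZZ (by simp [FA])
  obtain ⟨W, hW⟩ := hall WW (by simp [FA])
  obtain ⟨d, hd⟩ := hall DD (by simp [FA])
  have h1 : ∀ x, FG 1 x = Set.range fun p : ℕ × ℂ => HN.eq x (un p.1 p.2) := fun _ => rfl
  obtain ⟨h3, h4⟩ := 𝔐.seq (HN.mem_sq _ _) (k := k) hk hX (A := WT.pow Z) (fun n y hy => by
    rw [WT.mem_pow]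
    intro t ht
    obtain ⟨a, _, hta⟩ := (Mod.mem_TT_iff h1 hy).1 ht
    rw [Mod.E_def, GModel.R_mem hta hZ, HN.mem_ZZ]
    exact 𝔐.G.up _ 𝔐.G.top _ (bEx (n, a) (HN.bRefl _)))
  obtain ⟨T, hT, hT'⟩ := exists_tops (M := 𝔐.G.M) (o := 𝔐.o) (X := X) (w := W) (Z := Z)
    (fun i hi t ht => (WT.mem_pow.1 (h3.ap_mem hi)) t ht)
  have hτ : ∀ n, ∀ U, ZM.E U (ap T (𝔐.N n)) ↔ Sub ZM.E U (ap X (𝔐.N n)) ∧ ∀ t, ZM.E t U → ∃ m,
        ∀ y, ZM.E y (ap X (𝔐.N n)) → vv 𝔐.N W m t y → ZM.E y U := by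
    intro n U
    rw [hT' _ (𝔐.std.N_mem n)]
    refine and_congr Iff.rfl (forall_congr' fun t => imp_congr Iff.rfl ⟨?_, ?_⟩)
    · rintro ⟨m, hm, h⟩
      obtain ⟨m, rfl⟩ := (𝔐.std.NO m).1 hm
      exact ⟨m, h⟩
    · rintro ⟨m, h⟩
      exact ⟨𝔐.N m, 𝔐.std.N_mem m, h⟩
  exact ⟨X, T, Z, W, h3, hT, hZ, hW, h4, fun n => ⟨Mod.isMet (𝔐.rs hall) h1 hC (h4 n) hW hd (hτ n),
    𝔐.isComp hC hcomp (h4 n) hW (hτ n)⟩, hτ⟩

omit hall in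
theorem ud_uq : UD (n := 3) (fun _ E v => App E (v 0) (v 1) (v 2) ∧ ∀ y', App E (v 0) (v 1) y' → y' = v 2) := by
  unfold App IsOPair IsUPair
  (repeat' first
    | with_reducible exact UD.mem _ _ | with_reducible exact UD.eq _ _
    | with_reducible exact UD.tru | with_reducible exact UD.fls
    | with_reducible apply UD.not | with_reducible apply UD.and | with_reducible apply UD.or
    | with_reducible apply UD.iff | with_reducible apply UD.imp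
    | with_reducible apply UD.exu
    | with_reducible apply UD.ex | with_reducible apply UD.all)

omit hall in
/-- the values of functions outside the support -/
theorem Mod.choice_zero {f y : 𝔐.G.M} {E : Set Ix} (hE : E.Countable) {k : ℕ} (hk : ∀ x ∈ E, x.1 < k)
    (hfE : HN.Supp E (𝔐.G.rep f)) {a : ℂ} (hy : 𝔐.G.R y (un k a)) (h : App 𝔐.G.E f (𝔐.N k) y)
    (hu : ∀ y', App 𝔐.G.E f (𝔐.N k) y' → y' = y) : a = 0 := by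
  have h5 := (GModel.los_ud ud_uq (vec3 (Q := 𝔐.G.R) (GModel.R_refl f) (𝔐.hN k) hy)).1 ⟨h, hu⟩
  obtain ⟨p', -, h6⟩ := 𝔐.den _ h5
  obtain ⟨g, q', hg⟩ := exists_shift hE hk p'
  have h7 : ∀ i : ℕ, Frc q' (ud_uq.val ![𝔐.G.rep f, HN.nat k, un k (HN.rot (-(i : ℚ)) * a)]) := by
    intro i
    obtain ⟨h8, h9, h10⟩ := hg i
    refine (shift_val ud_uq (vec3 (Q := fun x y => HN.eq (HN.act (g i) x) y = ⊤)
      (hfE _ h8) (HN.supp_nat ∅ k _ fun x hx => hx.elim) ?_) h6).lower h10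
    have := HN.act_un (g i) k a
    rwa [h9] at this
  by_contra ha
  refine frc_of_mod' ({𝔐.G.rep f, un k (HN.rot (-((0 : ℕ) : ℚ)) * a),
    un k (HN.rot (-((1 : ℕ) : ℚ)) * a)} : Set HN.{0})
    (Set.to_countable _) noG (fun r hr 𝔐' h𝔐' _ => ?_) (h7 0)
  obtain ⟨f', hf'⟩ := h𝔐' (𝔐.G.rep f) (by simp)
  obtain ⟨y0, hy0⟩ := h𝔐' (un k (HN.rot (-((0 : ℕ) : ℚ)) * a)) (by simp)
  obtain ⟨y1, hy1⟩ := h𝔐' (un k (HN.rot (-((1 : ℕ) : ℚ)) * a)) (by simp)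
  obtain ⟨g0, g0'⟩ := (GModel.los_ud ud_uq (vec3 (Q := 𝔐'.G.R) hf' (𝔐'.hN k) hy0)).2
    (𝔐'.gen _ ((h7 0).lower hr))
  obtain ⟨g1, g1'⟩ := (GModel.los_ud ud_uq (vec3 (Q := 𝔐'.G.R) hf' (𝔐'.hN k) hy1)).2
    (𝔐'.gen _ ((h7 1).lower hr))
  have heq : y0 = y1 := g1' y0 g0
  rw [heq] at hy0
  have h8 := (Mod.R_un_inj hy0 hy1).2
  simp only [Nat.cast_zero, neg_zero, HN.rot_zero, Nat.cast_one] at h8
  exact HN.rot_one_ne (mul_right_cancel₀ ha h8).symm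

theorem Mod.not_cac : ¬ CACle 𝔐.G.E := by
  intro hC
  obtain ⟨X, T, Z, W, h1, h2, -, -, h3, h4, -⟩ := 𝔐.exists_spaces hall hC₁ compact_C₁ (k := 4)
    (fun _ => rfl) (hall _ (by simp [FA]))
  have hu1 : ∀ x, FG 1 x = Set.range fun p : ℕ × ℂ => HN.eq x (un p.1 p.2) := fun _ => rfl
  obtain ⟨f, hf, hf'⟩ := hC 𝔐.o X T 𝔐.isOmega (isFam_of_isFn h1) (isFam_of_isFn h2)
    (fun i x t hi hx ht => by
      obtain ⟨n, rfl⟩ := (𝔐.std.NO i).1 hi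
      have hx' := (h1.mem_iff hi).1 (app_iff.1 hx)
      have ht' := (h2.mem_iff hi).1 (app_iff.1 ht)
      subst hx' ht'
      refine ⟨?_, h4 n⟩
      obtain ⟨y, hy⟩ := hall (un n 1) (by simp [FA])
      exact ⟨y, (Mod.mem_TT_iff hu1 (h3 n)).2 ⟨1, by simp [C₁], hy⟩⟩)
  obtain ⟨E, ⟨hEc, k, hEk⟩, hfE⟩ := HN.exists_supp (𝔐.G.rep f)
  obtain ⟨y, hy, hyu⟩ := hf _ (𝔐.std.N_mem k)
  have h5 := hf' _ _ y (𝔐.std.N_mem k) (app_iff.2 ((h1.mem_iff (𝔐.std.N_mem k)).2 rfl)) hy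
  obtain ⟨a, ha, hya⟩ := (Mod.mem_TT_iff hu1 (h3 k)).1 h5
  have h6 := 𝔐.choice_zero hEc hEk hfE hya hy hyu
  rw [h6] at ha
  simp [C₁] at ha

theorem Mod.not_cpm : ¬ CPMle 𝔐.G.E := by
  intro hC
  obtain ⟨X, T, Z, W, h1, h2, hZ, hW, h3, h4, h5⟩ := 𝔐.exists_spaces hall hC₂ compact_C₂ (k := 5)
    (fun _ => rfl) (hall _ (by simp [FA]))
  have hu1 : ∀ x, FG 1 x = Set.range fun p : ℕ × ℂ => HN.eq x (un p.1 p.2) := fun _ => rfl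
  obtain ⟨st, hst⟩ := hall (HN.sq (fun n => un n 0) (fun n => HN.supp_un_zero n ∅)) (by simp [FA])
  obtain ⟨h6, h7⟩ := 𝔐.seq (HN.mem_sq _ _) (k := 6) (fun _ => rfl) hst (A := Z) (fun n y hy => by
    rw [Mod.E_def, GModel.R_mem hy hZ, HN.mem_ZZ]
    exact 𝔐.G.up _ 𝔐.G.top _ (bEx (n, 0) (HN.bRefl _)))
  obtain ⟨P, hP⟩ := exists_prod (M := 𝔐.G.M) (o := 𝔐.o) (X := X) (Z := Z) (fun i x hi hx => by
    rw [app_iff, h1.mem_iff hi] at hx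
    rw [hx]
    exact WT.mem_pow.1 (h1.ap_mem hi))
  obtain ⟨σ, hσ⟩ := exists_prodTop (M := 𝔐.G.M) 𝔐.o T P
  have hcnt : IsCnt 𝔐.G.E 𝔐.o := by
    refine Or.inr ⟨𝔐.o, 𝔐.isOmega, ?_⟩
    obtain ⟨g, hg, hg'⟩ := exists_idFn 𝔐.o
    exact ⟨g, isInj_iff.2 ⟨hg, fun x x' hx hx' he => by rwa [hg' x hx, hg' x' hx'] at he⟩,
      fun y hy => ⟨y, app_iff.2 ((hg.mem_iff hy).2 (hg' y hy).symm)⟩⟩
  have hv : ∀ n, ∃ y, 𝔐.G.R y (un n 1) := fun n => hall (un n 1) (by simp [FA])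
  choose v hv using hv
  refine 𝔐.std.not_compact h1 h2 hP hσ h6 (fun n => ?_) (fun n U hU => ?_) v (fun n => ?_)
    (fun n => ?_) (fun f hf => ?_) (hC 𝔐.o X T hcnt (isFam_of_isFn h1) (isFam_of_isFn h2)
    (fun i x t hi hx ht => ?_) P σ hP hσ)
  · exact (Mod.mem_TT_iff hu1 (h3 n)).2 ⟨0, Set.mem_insert _ _, h7 n⟩
  · refine (h5 n U).2 ⟨fun t ht => ?_, fun t ht => ⟨0, fun y hy hty => ?_⟩⟩
    · rw [(hU t).1 ht]
      exact (Mod.mem_TT_iff hu1 (h3 n)).2 ⟨0, Set.mem_insert _ _, h7 n⟩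
    · obtain ⟨b, hb, hyb⟩ := (Mod.mem_TT_iff hu1 (h3 n)).1 hy
      rw [(hU t).1 ht, Mod.vv_WW_iff hW (h7 n) hyb] at hty
      have hb0 : b = 0 := by
        rcases Set.mem_insert_iff.1 hb with h | h
        · exact h
        · have h8 : ‖b‖ = 1 := by simpa using h
          simp [h8] at hty
      rw [hb0] at hyb
      exact (hU y).2 (Mod.R_eq_of hyb (h7 n))
  · exact (Mod.mem_TT_iff hu1 (h3 n)).2 ⟨1, Set.mem_insert_of_mem _ (by simp), hv n⟩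
  · intro he
    have h8 := hv n
    rw [he] at h8
    exact one_ne_zero (Mod.R_un_inj h8 (h7 n)).2
  · obtain ⟨g1, g2⟩ := (hP f).1 hf
    obtain ⟨E, ⟨hEc, k, hEk⟩, hfE⟩ := HN.exists_supp (𝔐.G.rep f)
    obtain ⟨y, hy, hyu⟩ := g2 _ (𝔐.std.N_mem k)
    obtain ⟨i, x, y', hi, hx, hyx, hpr⟩ := g1 _ (app_iff.1 hy)
    rw [WT.isOPair_iff, WT.opair_inj] at hpr
    obtain ⟨rfl, rfl⟩ := hpr
    rw [app_iff, h1.mem_iff hi] at hx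
    subst hx
    obtain ⟨a, ha, hya⟩ := (Mod.mem_TT_iff hu1 (h3 k)).1 hyx
    have h8 := 𝔐.choice_zero hEc hEk hfE hya hy hyu
    rw [h8] at hya
    refine ⟨k, ?_⟩
    rw [Mod.R_eq_of (h7 k) hya]
    exact app_iff.1 hy
  · obtain ⟨n, rfl⟩ := (𝔐.std.NO i).1 hi
    have hx' := (h1.mem_iff hi).1 (app_iff.1 hx)
    have ht' := (h2.mem_iff hi).1 (app_iff.1 ht)
    subst hx' ht'
    exact h4 n

end final

end Pool.Agent.Helper23.SM
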