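import Pool.Agent.Helper23.SM.Cls

set_option autoImplicit false

/-!
# The finite lemma
-/

namespace Pool.Agent.Helper23.SM

open WT (iffV bElim bOr bMP bImp bNot bAbs bAll bEx bIff bIff_mp bIff_mpr bLeft bRight bCases bContra eq_of_forall iffV_self iffV_eq_top)

namespace Cond

/-- a common extension of a condition and of a moved condition -/
theorem comp_move {q p' : Cond} {E : Set Ix} {m : Gp} (hq : q ≤ p'.res E) (hm : m ∈ Gp.Fix E)
    (hd : ∀ x ∈ p'.dI, x ∉ E → m.ap x ∉ q.dI) : Comp q (m.onC p') := by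
  intro x b b' h1 h2
  rw [Gp.onC_f] at h2
  have hx : m⁻¹.ap x.1 ∈ p'.dI := ⟨x.2, by rw [h2]; simp⟩
  by_cases h : m⁻¹.ap x.1 ∈ E
  · have h3 : m⁻¹.ap x.1 = x.1 := by
      have := hm _ h
      rw [Gp.ap_inv_ap] at this
      exact this.symm
    rw [h3] at h h2
    have h4 := hq x b' (res_some.2 ⟨h, h2⟩)
    rw [h1] at h4
    exact Option.some.inj h4
  · exact (hd _ hx h (by rw [Gp.ap_inv_ap]; exact ⟨x.2, by rw [h1]; simp⟩)).elim

theorem le_res_un {q p' : Cond} {E F : Set Ix} {m : Gp} (hq : q ≤ p'.res E) (hm : m ∈ Gp.Fix E)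
    (hd : ∀ x ∈ p'.dI, x ∉ E → m.ap x ∉ F) : q ≤ (un q (m.onC p')).res F := by
  intro x b h
  obtain ⟨hxF, h⟩ := res_some.1 h
  rcases un_some.1 h with h | ⟨_, h⟩
  · exact h
  · rw [Gp.onC_f] at h
    have hx : m⁻¹.ap x.1 ∈ p'.dI := ⟨x.2, by rw [h]; simp⟩
    by_cases hE : m⁻¹.ap x.1 ∈ E
    · have h3 : m⁻¹.ap x.1 = x.1 := by
        have := hm _ hE
        rw [Gp.ap_inv_ap] at this
        exact this.symm
      rw [h3] at hE h
      exact hq x b (res_some.2 ⟨hE, h⟩)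
    · exact (hd _ hx hE (by rw [Gp.ap_inv_ap]; exact hxF)).elim

/-- a common extension of countably many pairwise compatible conditions -/
theorem exists_join (p : ℕ → Cond) (h : ∀ i j, Comp (p i) (p j)) : ∃ q, ∀ n, q ≤ p n := by
  classical
  refine ⟨⟨fun x => if hx : ∃ n, (p n).f x ≠ none then (p hx.choose).f x else none, ?_⟩, ?_⟩
  · refine (Set.countable_iUnion fun n => (p n).cnt).mono fun x hx => ?_
    have hx' : (if hx : ∃ n, (p n).f x ≠ none then (p hx.choose).f x else none) ≠ none := hx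
    by_cases h1 : ∃ n, (p n).f x ≠ none
    · exact Set.mem_iUnion.2 h1
    · rw [dif_neg h1] at hx'
      exact (hx' rfl).elim
  · intro n x b hb
    have h1 : ∃ n, (p n).f x ≠ none := ⟨n, by rw [hb]; simp⟩
    show (if hx : ∃ n, (p n).f x ≠ none then (p hx.choose).f x else none) = some b
    rw [dif_pos h1]
    obtain ⟨b', hb'⟩ := Option.ne_none_iff_exists'.1 h1.choose_spec
    rw [hb', h _ _ x b' b hb' hb]

end Cond

theorem fresh_rem {E F A G : Set Ix} (hE : E.Countable) (hF : F.Countable) (hA : A.Countable)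
    (hG : G.Countable) {q p' : Cond} (hq : q ≤ p'.res E) {b : BB} (hb : Dep F b) (t : ℕ → ℚ)
    (ht : ∀ x ∈ E, t x.1 = 0)
    (H : ∀ m ∈ Gp.Fix E, m.tr = t → (∀ x ∈ A, x ∉ E → m.ap x ∉ G) →
      ∀ r ≤ q, r ≤ m.onC p' → Frc r b) : Frc q b := by
  obtain ⟨m, hm1, hm2, hm3⟩ := Gp.exists_move E ((p'.dI ∪ A) \ E) ((q.dI ∪ F) ∪ G) hE
    ((p'.dI_countable.union hA).mono Set.sdiff_subset) ((q.dI_countable.union hF).union hG)
    Set.disjoint_sdiff_left t ht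
  have h1 := H m hm2 hm1 (fun x hx hxE h => hm3 x ⟨Or.inr hx, hxE⟩ (Or.inr h))
    (Cond.un q (m.onC p')) (Cond.un_le_left _ _)
    (Cond.un_le_right (Cond.comp_move hq hm2 fun x hx hxE h =>
      hm3 x ⟨Or.inl hx, hxE⟩ (Or.inl (Or.inl h))))
  exact (hb.res hF h1).lower (Cond.le_res_un hq hm2 fun x hx hxE h =>
    hm3 x ⟨Or.inl hx, hxE⟩ (Or.inl (Or.inr h)))

/-- countably many disjoint copies -/
theorem exists_copies {E A : Set Ix} (hE : E.Countable) (hA : A.Countable) (hd : Disjoint A E)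
    (t : ℕ → ℕ → ℚ) (ht : ∀ i, ∀ x ∈ E, t i x.1 = 0) :
    ∃ g : ℕ → Gp, (∀ i, (g i).tr = t i ∧ g i ∈ Gp.Fix E) ∧
      ∀ i j, i < j → ∀ x ∈ A, ∀ y ∈ A, (g i).ap x ≠ (g j).ap y := by
  have step : ∀ (i : ℕ) (F : {F : Set Ix // F.Countable}), ∃ g : Gp, g.tr = t i ∧ g ∈ Gp.Fix E ∧
      ∀ x ∈ A, g.ap x ∉ F.1 := fun i F => Gp.exists_move E A F.1 hE hA F.2 hd (t i) (ht i)
  choose G h1 h2 h3 using step
  let F : ℕ → {F : Set Ix // F.Countable} := fun n => Nat.rec ⟨∅, Set.countable_empty⟩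
    (fun i F => ⟨F.1 ∪ (G i F).ap '' A, F.2.union (hA.image _)⟩) n
  have hF : ∀ i, (F (i + 1)).1 = (F i).1 ∪ (G i (F i)).ap '' A := fun i => rfl
  have hmono : ∀ i j, i ≤ j → (F i).1 ⊆ (F j).1 := fun i j hij =>
    monotone_nat_of_le_succ (f := fun i => (F i).1) (fun i => by
      show (F i).1 ⊆ (F (i + 1)).1
      rw [hF]; exact Set.subset_union_left) hij
  refine ⟨fun i => G i (F i), fun i => ⟨h1 _ _, h2 _ _⟩, fun i j hij x hx y hy he => ?_⟩
  refine h3 j (F j) y hy (hmono (i + 1) j hij ?_)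
  rw [hF]
  exact Or.inr ⟨x, hx, he⟩

theorem exists_lower (p : Cond) {E : Set Ix} (g : ℕ → Gp) (hg : ∀ i, g i ∈ Gp.Fix E)
    (hd : ∀ i j, i < j → ∀ x ∈ p.dI \ E, ∀ y ∈ p.dI \ E, (g i).ap x ≠ (g j).ap y) :
    ∃ q, ∀ i, q ≤ (g i).onC p := by
  refine Cond.exists_join _ fun i j => ?_
  intro x b b' h1 h2
  rw [Gp.onC_f] at h1 h2
  have hx1 : (g i)⁻¹.ap x.1 ∈ p.dI := ⟨x.2, by rw [h1]; simp⟩
  have hx2 : (g j)⁻¹.ap x.1 ∈ p.dI := ⟨x.2, by rw [h2]; simp⟩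
  have key : ∀ i, (g i)⁻¹.ap x.1 ∈ E → x.1 ∈ E ∧ (g i)⁻¹.ap x.1 = x.1 := by
    intro i h
    have := hg i _ h
    rw [Gp.ap_inv_ap] at this
    exact ⟨this ▸ h, this.symm⟩
  have key' : ∀ i, x.1 ∈ E → (g i)⁻¹.ap x.1 = x.1 := fun i h => Gp.Fix_inv (hg i) _ h
  by_cases hE : x.1 ∈ E
  · rw [key' i hE] at h1
    rw [key' j hE] at h2
    rw [h1] at h2
    exact Option.some.inj h2
  · have e1 : (g i)⁻¹.ap x.1 ∉ E := fun h => hE (key i h).1
    have e2 : (g j)⁻¹.ap x.1 ∉ E := fun h => hE (key j h).1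
    rcases lt_trichotomy i j with h | h | h
    · exact (hd i j h _ ⟨hx1, e1⟩ _ ⟨hx2, e2⟩ (by rw [Gp.ap_inv_ap, Gp.ap_inv_ap])).elim
    · subst h
      rw [h1] at h2
      exact Option.some.inj h2
    · exact (hd j i h _ ⟨hx2, e2⟩ _ ⟨hx1, e1⟩ (by rw [Gp.ap_inv_ap, Gp.ap_inv_ap])).elim

/-- the principal value -/
def pr (p : Cond) : BB := WT.RegOpen.hull {q | q ≤ p} fun _ _ h h' => h.trans h'

theorem frc_pr {p q : Cond} : Frc q (pr p) ↔ ∀ q' ≤ q, ∃ r ≤ q', r ≤ p := Iff.rfl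

theorem frc_pr_self (p : Cond) : Frc p (pr p) := frc_pr.2 fun q hq => ⟨q, le_rfl, hq⟩

theorem pr_le {p : Cond} {b : BB} (h : Frc p b) : pr p ≤ b := le_of_frc fun q hq => by
  obtain ⟨r, hr, hrp⟩ := frc_pr.1 hq q le_rfl
  exact ⟨r, hr, h.lower hrp⟩

theorem ρ_pr (g : Gp) (p : Cond) : ρ g (pr p) = pr (g.onC p) := by
  refine WT.RegOpen.ext' ?_
  ext q
  show Frc q (ρ g (pr p)) ↔ Frc q (pr (g.onC p))
  rw [frc_ρ, frc_pr, frc_pr]
  constructor
  · intro h q' hq'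
    obtain ⟨r, hr, hrp⟩ := h (g⁻¹.onC q') ((g⁻¹.onC).monotone hq')
    refine ⟨g.onC r, ?_, g.onC.monotone hrp⟩
    have := g.onC.monotone hr
    rwa [Gp.onC_inv_onC] at this
  · intro h q' hq'
    obtain ⟨r, hr, hrp⟩ := h (g.onC q') (by
      have := g.onC.monotone hq'
      rwa [Gp.onC_inv_onC] at this)
    refine ⟨g⁻¹.onC r, ?_, ?_⟩
    · have := g⁻¹.onC.monotone hr
      rwa [Gp.inv_onC_onC] at this
    · have := g⁻¹.onC.monotone hrp
      rwa [Gp.inv_onC_onC] at this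

namespace HN

/-- `X` has at most `s` elements -/
noncomputable def atMost (s : ℕ) (X : HN.{0}) : BB :=
  ⨅ ξ : ℕ → HN.{0}, (⨅ i, mem (ξ i) X) ⇨ ⨆ (i : ℕ) (j : ℕ) (_ : i < j ∧ j ≤ s), eq (ξ i) (ξ j)

theorem atMost_act {s : ℕ} {X : HN.{0}} {E : Set Ix} (hX : Supp E X) {g : Gp} (hg : g ∈ Gp.Fix E) :
    ρ g (atMost s X) = atMost s X := by
  unfold atMost
  rw [OrderIso.map_iInf]
  let S : (ℕ → HN.{0}) → (ℕ → HN.{0}) := fun ξ i => act g (ξ i)
  have hS : Function.Surjective S := fun ξ => ⟨fun i => act g⁻¹ (ξ i), funext fun i => act_inv_act g _⟩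
  conv_rhs => rw [← hS.iInf_comp]
  refine iInf_congr fun ξ => ?_
  simp only [S, map_himp, OrderIso.map_iInf, OrderIso.map_iSup, ← HN.eq_act, hX.mem_act hg]

theorem dep_eq {x y : HN.{0}} {e f : Set Ix} (hx : Supp e x) (hy : Supp f y) :
    Dep (e ∪ f) (eq x y) := by
  intro g hg
  rw [← HN.eq_act, eq_congr_top (hy g (Gp.Fix_anti Set.subset_union_right hg)), eq_symm,
    eq_congr_top (hx g (Gp.Fix_anti Set.subset_union_left hg)), eq_symm]

theorem frc_eq_act {p : Cond} {x y : HN.{0}} (g : Gp) (h : Frc p (eq x y)) :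
    Frc (g.onC p) (eq (act g x) (act g y)) := by
  rw [HN.eq_act, frc_ρ']
  exact h

theorem frc_eq_act' {p : Cond} {x y : HN.{0}} (g : Gp) (h : Frc (g⁻¹.onC p) (eq x y)) :
    Frc p (eq (act g x) (act g y)) := by
  have := frc_eq_act g h
  rwa [Gp.onC_inv_onC] at this

theorem frc_trans {p : Cond} {x y z : HN.{0}} (h : Frc p (eq x y)) (h' : Frc p (eq y z)) :
    Frc p (eq x z) :=
  Frc.mono (bTrans inf_le_left inf_le_right) (frc_inf.2 ⟨h, h'⟩)

theorem frc_symm {p : Cond} {x y : HN.{0}} (h : Frc p (eq x y)) : Frc p (eq y x) := by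
  rwa [eq_symm]

/-- equal on the support -/
theorem act_eq_of {ζ : HN.{0}} {E : Set Ix} (hζ : Supp E ζ) {g h : Gp}
    (hgh : ∀ x ∈ E, g.ap x = h.ap x) : eq (act g ζ) (act h ζ) = ⊤ := by
  have h1 : h⁻¹ * g ∈ Gp.Fix E := fun x hx => by
    rw [Gp.ap_mul, hgh x hx, Gp.inv_ap_ap]
  have h2 := hζ _ h1
  have h3 : act g ζ = act h (act (h⁻¹ * g) ζ) := by
    rw [act_act]
    congr 1
    group
  rw [h3, HN.eq_act, h2, map_top]

section finite

variable {ζ X : HN.{0}} {E E1 : Set Ix} {s : ℕ}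

/-- the data of the finite lemma -/
structure FD (ζ X : HN.{0}) (E E1 : Set Ix) (s : ℕ) (p0 : Cond) : Prop where
  sp : IsSp E1
  sub : E ⊆ E1
  hX : Supp E X
  hζ : Supp E1 ζ
  f1 : Frc p0 (mem ζ X)
  f2 : Frc p0 (atMost s X)
  dom : p0.dI ⊆ E1

theorem FD.cE {p0 : Cond} (h : FD ζ X E E1 s p0) : E.Countable := h.sp.1.mono h.sub

/-- pigeonhole -/
theorem FD.pigeon {p0 : Cond} (h : FD ζ X E E1 s p0) {p : Cond} (hp : p ≤ p0)
    {D : Set Ix} (hD : D.Countable) (t : ℕ → ℕ → ℚ)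
    (ht : ∀ i, ∀ x ∈ E, t i x.1 = 0) :
    ∃ (g : ℕ → Gp) (i j : ℕ) (q : Cond), (∀ i, (g i).tr = t i ∧ g i ∈ Gp.Fix E) ∧
      (∀ i j, i < j → ∀ x ∈ D, x ∉ E → ∀ y ∈ D, y ∉ E → (g i).ap x ≠ (g j).ap y) ∧
      i < j ∧ j ≤ s ∧ q ≤ (g i).onC p ∧ q ≤ (g j).onC p ∧
      Frc q (eq (act (g i) ζ) (act (g j) ζ)) := by
  obtain ⟨g, hg1, hg2⟩ := exists_copies h.cE ((p.dI_countable.union hD).mono
    (Set.sdiff_subset (t := E))) Set.disjoint_sdiff_left t ht
  obtain ⟨q0, hq0⟩ := exists_lower p g (fun i => (hg1 i).2) (fun i j hij x hx y hy =>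
    hg2 i j hij x ⟨Or.inl hx.1, hx.2⟩ y ⟨Or.inl hy.1, hy.2⟩)
  have h1 : Frc q0 (⨅ i, mem (act (g i) ζ) X) := frc_iInf.2 fun i => by
    rw [h.hX.mem_act (hg1 i).2]
    exact Frc.lower (hq0 i) (frc_ρ'.2 (h.f1.lower hp))
  have h2 : Frc q0 (atMost s X) := by
    rw [← atMost_act h.hX (hg1 0).2]
    exact Frc.lower (hq0 0) (frc_ρ'.2 (h.f2.lower hp))
  have h3 := frc_himp (frc_iInf.1 h2 (fun i => act (g i) ζ)) h1
  obtain ⟨q1, hq1, i, h4⟩ := frc_iSup.1 h3 q0 le_rfl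
  obtain ⟨q2, hq2, j, h5⟩ := frc_iSup.1 h4 q1 le_rfl
  obtain ⟨q3, hq3, hij, h6⟩ := frc_iSup.1 h5 q2 le_rfl
  have hq : q3 ≤ q0 := (hq3.trans hq2).trans hq1
  exact ⟨g, i, j, q3, hg1, fun i j hij x hx hxE y hy hyE => hg2 i j hij x ⟨Or.inr hx, hxE⟩ y
    ⟨Or.inr hy, hyE⟩, hij.1, hij.2, hq.trans (hq0 i), hq.trans (hq0 j), h6⟩

/-- lower level invariance -/
theorem FD.lower {p0 : Cond} (h : FD ζ X E E1 s p0) : ∃ p2 ≤ p0, p2.dI ⊆ E1 ∧
    ∀ l ∈ Gp.Fix E, l.tr = 0 → ∀ r ≤ p2, r ≤ l.onC p2 → Frc r (eq ζ (act l ζ)) := by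
  classical
  obtain ⟨g, i, j, q1, hg, hd, hij, hjs, hqi, hqj, hq1⟩ := h.pigeon le_rfl h.sp.1 (fun _ => 0)
    (fun _ _ _ => rfl)
  -- move back
  set k := (g i)⁻¹ * g j with hk
  have hkE : k ∈ Gp.Fix E := Gp.Fix_mul (Gp.Fix_inv (hg i).2) (hg j).2
  have hktr : k.tr = 0 := by rw [hk, Gp.tr_mul, Gp.tr_inv, (hg i).1, (hg j).1]; simp
  have hkd : ∀ x ∈ E1, x ∉ E → k.ap x ∉ E1 := by
    intro x hx hxE hkx
    have hxE' : k.ap x ∉ E := fun h' => hxE (by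
      have := Gp.Fix_inv hkE _ h'
      rw [Gp.inv_ap_ap] at this
      rwa [← this] at h')
    refine hd i j hij (k.ap x) hkx hxE' x hx hxE ?_
    rw [hk, Gp.ap_mul, Gp.ap_inv_ap]
  set q := (g i)⁻¹.onC q1 with hq
  have hq0 : q ≤ p0 := by
    have := (g i)⁻¹.onC.monotone hqi
    rwa [Gp.inv_onC_onC] at this
  have hqk : q ≤ k.onC p0 := by
    have := (g i)⁻¹.onC.monotone hqj
    rwa [← Gp.onC_mul] at this
  have hqe : Frc q (eq ζ (act k ζ)) := by
    have := frc_eq_act (g i)⁻¹ hq1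
    rwa [inv_act_act, act_act] at this
  set p1 := q.res E1 with hp1
  set p2 := (k⁻¹.onC q).res E1 with hp2
  have hres : p1.res E = p2.res E := by
    refine Cond.ext' fun x => ?_
    by_cases hx : x.1 ∈ E
    · rw [Cond.res_mem hx, Cond.res_mem hx, hp1, hp2, Cond.res_mem (h.sub hx),
        Cond.res_mem (h.sub hx), Gp.onC_f k⁻¹ q x, Gp.Fix_inv (Gp.Fix_inv hkE) _ hx]
    · rw [Cond.res_not hx, Cond.res_not hx]
  have hp20 : p2 ≤ p0 := by
    intro x b hb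
    have hxE : x.1 ∈ E1 := h.dom ⟨x.2, by rw [hb]; simp⟩
    rw [hp2, Cond.res_mem hxE, Gp.onC_f k⁻¹ q x, inv_inv]
    refine hqk _ _ ?_
    rw [Gp.onC_f k p0]
    simp only [Gp.inv_ap_ap]
    exact hb
  -- the statement (2)
  have key2 : ∀ l ∈ Gp.Fix E, l.tr = 0 → (∀ x ∈ E1, x ∉ E → l.ap x ∉ E1) →
      ∀ r ≤ p1, r ≤ l.onC p2 → Frc r (eq ζ (act l ζ)) := by
    intro l hl hltr hld r hr1 hr2
    obtain ⟨m, hm1, hm2⟩ := Pool.Agent.Helper70.TypedPerm.exists_ext (E1 ∪ k.ap '' E1) (h.sp.1.union (h.sp.1.image _)) 0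
      (fun x => if x ∈ E1 then x else l.ap (k⁻¹.ap x)) (by
        intro x hx y hy hxy
        simp only at hxy
        by_cases hxE : x ∈ E1
        · rw [if_pos hxE] at hxy
          by_cases hyE : y ∈ E1
          · rwa [if_pos hyE] at hxy
          · rw [if_neg hyE] at hxy
            obtain ⟨y', hy', rfl⟩ := hy.resolve_left hyE
            rw [Gp.inv_ap_ap] at hxy
            have hy'E : y' ∉ E := fun h' => hyE (by rw [hkE y' h']; exact hy')
            exact (hld y' hy' hy'E (hxy ▸ hxE)).elim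
        · rw [if_neg hxE] at hxy
          obtain ⟨x', hx', rfl⟩ := hx.resolve_left hxE
          rw [Gp.inv_ap_ap] at hxy
          have hx'E : x' ∉ E := fun h' => hxE (by rw [hkE x' h']; exact hx')
          by_cases hyE : y ∈ E1
          · rw [if_pos hyE] at hxy
            exact (hld x' hx' hx'E (hxy ▸ hyE)).elim
          · rw [if_neg hyE] at hxy
            obtain ⟨y', hy', rfl⟩ := hy.resolve_left hyE
            rw [Gp.inv_ap_ap, Gp.ap_inj] at hxy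
            rw [hxy]) (by
        intro x hx
        by_cases hxE : x ∈ E1
        · simp only [if_pos hxE]
          exact ⟨trivial, by simp⟩
        · simp only [if_neg hxE]
          rw [Gp.ap_fst, Gp.ap_snd, Gp.ap_fst, Gp.ap_snd, hltr, Gp.tr_inv, hktr]
          simp)
    let mg : Gp := ⟨(m, 1), hm1⟩
    have hmg : ∀ x, mg.ap x = m x := fun x => rfl
    have hmE : mg ∈ Gp.Fix E1 := fun x hx => by
      rw [hmg, hm2 x (Or.inl hx), if_pos hx]
    have hmk : ∀ x ∈ E1, (mg * k).ap x = l.ap x := by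
      intro x hx
      rw [Gp.ap_mul, hmg, hm2 _ (Or.inr ⟨x, hx, rfl⟩)]
      by_cases hxE : x ∈ E
      · rw [hkE x hxE, if_pos hx, hl x hxE]
      · rw [if_neg (hkd x hx hxE), Gp.inv_ap_ap]
    have hdep : Dep (E1 ∪ k.ap '' E1) (eq ζ (act k ζ)) := dep_eq h.hζ (h.hζ.act k)
    have h1 := frc_eq_act mg (hdep.res (h.sp.1.union (h.sp.1.image _)) hqe)
    have h2 : Frc (mg.onC (q.res (E1 ∪ k.ap '' E1))) (eq ζ (act l ζ)) := by
      refine frc_trans (y := act mg ζ) ?_ (frc_trans h1 ?_)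
      · exact Frc.mono (bSymm (h.hζ mg hmE).ge) frc_top
      · rw [act_act]
        exact Frc.mono (act_eq_of h.hζ hmk).ge frc_top
    refine h2.lower ?_
    intro x b hb
    rw [Gp.onC_f] at hb
    obtain ⟨hx1, hb⟩ := Cond.res_some.1 hb
    rcases hx1 with hx1 | hx1
    · have e : mg⁻¹.ap x.1 = x.1 := by
        have := hmE _ hx1
        simp only [Gp.ap_inv_ap] at this
        exact this.symm
      simp only at hx1 hb
      rw [e] at hx1 hb
      exact hr1 x b (Cond.res_some.2 ⟨hx1, hb⟩)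
    · obtain ⟨y, hy, hyx⟩ := hx1
      simp only at hyx hb
      have e : x.1 = l.ap y := by
        have h3 : mg.ap (k.ap y) = x.1 := by rw [hyx, Gp.ap_inv_ap]
        rw [← h3, ← Gp.ap_mul, hmk y hy]
      refine hr2 x b ?_
      rw [Gp.onC_f l p2, e, Gp.inv_ap_ap, hp2, Cond.res_mem hy, Gp.onC_f k⁻¹ q, inv_inv, hyx]
      exact hb
  refine ⟨p2, hp20, Cond.dI_res _ _, fun l hl hltr r hr1 hr2 => ?_⟩
  refine fresh_rem (E := E) (F := E1 ∪ l.ap '' E1) (A := E1) (G := E1 ∪ l.ap '' E1)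
    h.cE (h.sp.1.union (h.sp.1.image _)) h.sp.1 (h.sp.1.union (h.sp.1.image _)) (p' := p1) ?_
    (dep_eq h.hζ (h.hζ.act l)) 0 (fun _ _ => rfl) (fun m hm hmtr hmd r' hr' hrm => ?_)
  · rw [hres]
    exact hr1.trans (Cond.le_res _ _)
  · have hmE1 : ∀ x ∈ E1, x ∉ E → m⁻¹.ap x ∉ E1 := by
      intro x hx hxE hx'
      have hxE' : m⁻¹.ap x ∉ E := fun h' => hxE (by
        have := hm _ h'
        rw [Gp.ap_inv_ap] at this
        rwa [← this] at h')
      refine hmd _ hx' hxE' (Or.inl ?_)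
      rw [Gp.ap_inv_ap]
      exact hx
    have h1 : Frc r' (eq (act m ζ) ζ) := by
      have h2 := key2 m⁻¹ (Gp.Fix_inv hm) (by rw [Gp.tr_inv, hmtr, neg_zero]) hmE1 (m⁻¹.onC r')
        (by
          have := m⁻¹.onC.monotone hrm
          rwa [Gp.inv_onC_onC] at this) (m⁻¹.onC.monotone (hr'.trans hr1))
      have h3 := frc_eq_act m h2
      rwa [Gp.onC_inv_onC, act_inv_act] at h3
    have h2 : Frc r' (eq (act m ζ) (act l ζ)) := by
      have h3 := key2 (m⁻¹ * l) (Gp.Fix_mul (Gp.Fix_inv hm) hl)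
        (by rw [Gp.tr_mul, Gp.tr_inv, hmtr, hltr]; simp) (fun x hx hxE hx' => by
          rw [Gp.ap_mul] at hx'
          have hlx : l.ap x ∉ E := fun h' => hxE (by
            have := Gp.Fix_inv hl _ h'
            rw [Gp.inv_ap_ap] at this
            rwa [← this] at h')
          have hxE' : m⁻¹.ap (l.ap x) ∉ E := fun h' => hlx (by
            have := hm _ h'
            rw [Gp.ap_inv_ap] at this
            rwa [← this] at h')
          refine hmd _ hx' hxE' (Or.inr ?_)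
          rw [Gp.ap_inv_ap]
          exact ⟨x, hx, rfl⟩) (m⁻¹.onC r')
        (by
          have := m⁻¹.onC.monotone hrm
          rwa [Gp.inv_onC_onC] at this) (by
          rw [Gp.onC_mul]
          exact m⁻¹.onC.monotone (hr'.trans hr2))
      have h4 := frc_eq_act m h3
      rwa [Gp.onC_inv_onC, act_act, mul_inv_cancel_left] at h4
    exact frc_trans (frc_symm h1) h2

end finite

end HN

end Pool.Agent.Helper23.SM
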