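import Pool.Agent.Helper23.SM.Fin

set_option autoImplicit false

/-!
# The finite lemma, second part
-/

namespace Pool.Agent.Helper23.SM

open WT (iffV bElim bOr bMP bImp bNot bAbs bAll bEx bIff bIff_mp bIff_mpr bLeft bRight bCases bContra eq_of_forall iffV_self iffV_eq_top)

/-- cut off an element of the group -/
noncomputable def Gp.cut (g : Gp) (k : ℕ) : Gp :=
  ⟨(⟨fun x => if x.1 < k then g.ap x else x, fun x => if x.1 < k then g⁻¹.ap x else x,
    fun x => by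
      by_cases h : x.1 < k
      · simp only [if_pos h]
        rw [if_pos (by rw [Gp.ap_fst]; exact h), Gp.inv_ap_ap]
      · simp only [if_neg h],
    fun x => by
      by_cases h : x.1 < k
      · simp only [if_pos h]
        rw [if_pos (by rw [Gp.ap_fst]; exact h), Gp.ap_inv_ap]
      · simp only [if_neg h]⟩, Multiplicative.ofAdd fun n => if n < k then g.tr n else 0), by
    intro x
    show (if x.1 < k then g.ap x else x).1 = x.1 ∧ (if x.1 < k then g.ap x else x).2.1 =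
      x.2.1 + (if x.1 < k then g.tr x.1 else 0)
    by_cases h : x.1 < k
    · simp only [if_pos h]
      exact ⟨Gp.ap_fst g x, Gp.ap_snd g x⟩
    · simp only [if_neg h, add_zero, and_self]⟩

theorem Gp.cut_ap (g : Gp) (k : ℕ) (x : Ix) : (g.cut k).ap x = if x.1 < k then g.ap x else x := rfl
theorem Gp.cut_inv_ap (g : Gp) (k : ℕ) (x : Ix) :
    (g.cut k)⁻¹.ap x = if x.1 < k then g⁻¹.ap x else x := rfl
theorem Gp.cut_tr (g : Gp) (k : ℕ) : (g.cut k).tr = fun n => if n < k then g.tr n else 0 := rfl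

namespace HN

variable {ζ X : HN.{0}} {E E1 : Set Ix} {s : ℕ}

/-- some pair of copies with difference of translations `r` is identified -/
def CC (ζ : HN.{0}) (E : Set Ix) (p2 : Cond) (r : ℕ → ℚ) (q : Cond) : Prop :=
  ∃ g ∈ Gp.Fix E, ∃ g' ∈ Gp.Fix E, g'.tr = g.tr + r ∧ q ≤ g.onC p2 ∧ q ≤ g'.onC p2 ∧
    Frc q (eq (act g ζ) (act g' ζ))

theorem FD.main {p0 : Cond} (h : FD ζ X E E1 s p0) : ∃ p4 ≤ p0, ∀ g ∈ Gp.Fix E,
    ∀ q ≤ p4, q ≤ g.onC p4 → Frc q (eq ζ (act g ζ)) := by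
  classical
  obtain ⟨p2, hp20, hdom, key3⟩ := h.lower
  have hcE := h.cE
  have key3' : ∀ g ∈ Gp.Fix E, ∀ g' ∈ Gp.Fix E, g.tr = g'.tr → ∀ r ≤ g.onC p2, r ≤ g'.onC p2 →
      Frc r (eq (act g ζ) (act g' ζ)) := by
    intro g hg g' hg' htr r hr hr'
    have h1 := key3 (g⁻¹ * g') (Gp.Fix_mul (Gp.Fix_inv hg) hg')
      (by rw [Gp.tr_mul, Gp.tr_inv, htr]; simp) (g⁻¹.onC r) (by
        have := g⁻¹.onC.monotone hr
        rwa [Gp.inv_onC_onC] at this) (by
        rw [Gp.onC_mul]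
        exact g⁻¹.onC.monotone hr')
    have h2 := frc_eq_act' g h1
    rwa [act_act, mul_inv_cancel_left] at h2
  have CClow : ∀ r q q', q' ≤ q → CC ζ E p2 r q → CC ζ E p2 r q' := by
    rintro r q q' hq ⟨g, hg, g', hg', h1, h2, h3, h4⟩
    exact ⟨g, hg, g', hg', h1, hq.trans h2, hq.trans h3, h4.lower hq⟩
  obtain ⟨en, hen⟩ := exists_surjective_nat (ℕ →₀ ℚ)
  obtain ⟨p3, hp32, hp3⟩ := fusion (fun n q => CC ζ E p2 (en n) q ∨ ∀ q' ≤ q, ¬ CC ζ E p2 (en n) q')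
    (by
      rintro n p q hqp (h1 | h1)
      · exact Or.inl (CClow _ _ _ hqp h1)
      · exact Or.inr fun q' hq' => h1 q' (hq'.trans hqp)) p2 (by
      intro n q _
      by_cases h1 : ∃ q' ≤ q, CC ζ E p2 (en n) q'
      · obtain ⟨q', hq', h1⟩ := h1
        exact ⟨q', hq', Or.inl h1⟩
      · push Not at h1
        exact ⟨q, le_rfl, Or.inr h1⟩)
  have hDec : ∀ r : ℕ →₀ ℚ, (∃ q' ≤ p3, CC ζ E p2 r q') → CC ζ E p2 r p3 := by
    rintro r ⟨q', hq', h1⟩
    obtain ⟨n, rfl⟩ := hen r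
    rcases hp3 n with h2 | h2
    · exact h2
    · exact (h2 q' hq' h1).elim
  obtain ⟨k, hk⟩ := h.sp.2
  set B : Set Ix := {x | x.1 < k} with hB
  set p4 := p3.res B with hp4
  have hp34 : p3 ≤ p4 := Cond.le_res _ _
  have hp42 : p4 ≤ p2 := by
    intro x b hb
    exact Cond.res_some.2 ⟨hk _ (hdom ⟨x.2, by rw [hb]; simp⟩), hp32 x b hb⟩
  have hEB : E ⊆ B := fun x hx => hk x (h.sub hx)
  -- (D+)
  have hDp : ∀ (r : ℕ → ℚ), CC ζ E p2 r p3 → ∀ g ∈ Gp.Fix E, g.tr = r → ∀ q ≤ p4, q ≤ g.onC p4 →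
      Frc q (eq ζ (act g ζ)) := by
    rintro r ⟨a, ha, a', ha', h1, h2, h3, h4⟩ g hg hgr q hq hqg
    refine fresh_rem (E := E) (F := E1 ∪ g.ap '' E1) (A := ∅) (G := ∅) hcE
      (h.sp.1.union (h.sp.1.image _)) Set.countable_empty Set.countable_empty (p' := p3)
      (hq.trans (Cond.res_le_res _ hEB)) (dep_eq h.hζ (h.hζ.act g)) (- a.tr)
      (fun x hx => by
        show - a.tr x.1 = 0
        rw [Gp.Fix_tr ha hx, neg_zero]) (fun m hm hmtr _ r' hr' hrm => ?_)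
    have e1 : Frc r' (eq ζ (act (m * a) ζ)) := by
      have := key3' 1 (Gp.Fix_one E) (m * a) (Gp.Fix_mul hm ha)
        (by rw [Gp.tr_one, Gp.tr_mul, hmtr]; simp) r'
        (by rw [Gp.onC_one]; exact (hr'.trans hq).trans hp42)
        (by rw [Gp.onC_mul]; exact hrm.trans (m.onC.monotone h2))
      rwa [act_one] at this
    have e2 : Frc r' (eq (act (m * a) ζ) (act (m * a') ζ)) := by
      have := (frc_eq_act m h4).lower hrm
      rwa [act_act, act_act] at this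
    have e3 : Frc r' (eq (act (m * a') ζ) (act g ζ)) :=
      key3' _ (Gp.Fix_mul hm ha') g hg (by rw [Gp.tr_mul, hmtr, h1, hgr]; simp) r'
        (by rw [Gp.onC_mul]; exact hrm.trans (m.onC.monotone h3))
        ((hr'.trans hqg).trans (g.onC.monotone hp42))
    exact frc_trans e1 (frc_trans e2 e3)
  -- pigeonhole
  have hpig : ∀ t : ℕ → (ℕ →₀ ℚ), (∀ i, ∀ x ∈ E, t i x.1 = 0) →
      ∃ i j, i < j ∧ j ≤ s ∧ CC ζ E p2 (t j - t i : ℕ →₀ ℚ) p3 := by
    intro t ht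
    obtain ⟨g, i, j, q, hg, -, hij, hjs, hqi, hqj, hq⟩ := h.pigeon (hp32.trans hp20)
      Set.countable_empty (fun i => t i) ht
    refine ⟨i, j, hij, hjs, hDec _ ⟨(g i)⁻¹.onC q, ?_, 1, Gp.Fix_one E, (g i)⁻¹ * g j,
      Gp.Fix_mul (Gp.Fix_inv (hg i).2) (hg j).2, ?_, ?_, ?_, ?_⟩⟩
    · have := (g i)⁻¹.onC.monotone hqi
      rwa [Gp.inv_onC_onC] at this
    · rw [Gp.tr_mul, Gp.tr_inv, Gp.tr_one, (hg i).1, (hg j).1, Finsupp.coe_sub]
      ring
    · rw [Gp.onC_one]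
      have := (g i)⁻¹.onC.monotone hqi
      rw [Gp.inv_onC_onC] at this
      exact this.trans hp32
    · rw [Gp.onC_mul]
      exact (g i)⁻¹.onC.monotone (hqj.trans ((g j).onC.monotone hp32))
    · have := frc_eq_act (g i)⁻¹ hq
      rw [inv_act_act, act_act] at this
      rwa [act_one]
  -- sums
  have hadd : ∀ r r' : ℕ →₀ ℚ, (∀ x ∈ E, r x.1 = 0) → (∀ x ∈ E, r' x.1 = 0) →
      CC ζ E p2 r p3 → CC ζ E p2 r' p3 → CC ζ E p2 (r + r' : ℕ →₀ ℚ) p3 := by
    intro r r' hr hr' h1 h2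
    obtain ⟨g, hg1, hg2, hg3⟩ := Gp.exists_move E (p3.dI \ E) p3.dI hcE
      (p3.dI_countable.mono Set.sdiff_subset) p3.dI_countable Set.disjoint_sdiff_left r hr
    have hc1 : Cond.Comp p3 (g.onC p3) := Cond.comp_move (Cond.le_res _ _) hg2
      fun x hx hxE => hg3 x ⟨hx, hxE⟩
    set q := Cond.un p3 (g.onC p3) with hq
    have hq1 : q ≤ p3 := Cond.un_le_left _ _
    have hq2 : q ≤ g.onC p3 := Cond.un_le_right hc1
    obtain ⟨g', hg1', hg2', hg3'⟩ := Gp.exists_move E (p3.dI \ E) q.dI hcE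
      (p3.dI_countable.mono Set.sdiff_subset) q.dI_countable Set.disjoint_sdiff_left
      (r + r' : ℕ →₀ ℚ) (fun x hx => by
        rw [Finsupp.coe_add, Pi.add_apply, hr x hx, hr' x hx, add_zero])
    have hc2 : Cond.Comp q (g'.onC p3) := Cond.comp_move (hq1.trans (Cond.le_res _ _)) hg2'
      fun x hx hxE => hg3' x ⟨hx, hxE⟩
    set q2 := Cond.un q (g'.onC p3) with hq2d
    have hq21 : q2 ≤ q := Cond.un_le_left _ _
    have hq22 : q2 ≤ g'.onC p3 := Cond.un_le_right hc2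
    have e1 : Frc q2 (eq ζ (act g ζ)) := (hDp r h1 g hg2 hg1 q (hq1.trans hp34)
      (hq2.trans (g.onC.monotone hp34))).lower hq21
    have e2 : Frc q2 (eq (act g ζ) (act g' ζ)) := by
      have h3 := hDp r' h2 (g⁻¹ * g') (Gp.Fix_mul (Gp.Fix_inv hg2) hg2')
        (by rw [Gp.tr_mul, Gp.tr_inv, hg1, hg1', Finsupp.coe_add]; ring) (g⁻¹.onC q2)
        (by
          have := g⁻¹.onC.monotone (hq21.trans hq2)
          rw [Gp.inv_onC_onC] at this
          exact this.trans hp34)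
        (by
          rw [Gp.onC_mul]
          exact g⁻¹.onC.monotone (hq22.trans (g'.onC.monotone hp34)))
      have h4 := frc_eq_act' g h3
      rwa [act_act, mul_inv_cancel_left] at h4
    refine hDec _ ⟨q2, hq21.trans hq1, 1, Gp.Fix_one E, g', hg2', ?_, ?_, ?_, ?_⟩
    · rw [Gp.tr_one, hg1', zero_add]
    · rw [Gp.onC_one]
      exact (hq21.trans hq1).trans hp32
    · exact hq22.trans (g'.onC.monotone hp32)
    · rw [act_one]
      exact frc_trans e1 e2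
  have hzero : CC ζ E p2 (0 : ℕ →₀ ℚ) p3 := ⟨1, Gp.Fix_one E, 1, Gp.Fix_one E, by simp,
    by rw [Gp.onC_one]; exact hp32, by rw [Gp.onC_one]; exact hp32, by
      rw [eq_refl]; exact frc_top⟩
  have hnsmul : ∀ (r : ℕ →₀ ℚ), (∀ x ∈ E, r x.1 = 0) → CC ζ E p2 r p3 → ∀ n : ℕ,
      CC ζ E p2 (n • r : ℕ →₀ ℚ) p3 := by
    intro r hr h1 n
    induction n with
    | zero => rw [zero_smul]; exact hzero
    | succ n ih =>
      rw [succ_nsmul]
      refine hadd _ _ (fun x hx => ?_) hr ih h1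
      rw [Finsupp.smul_apply, hr x hx, smul_zero]
  have hall : ∀ (r : ℕ →₀ ℚ), (∀ x ∈ E, r x.1 = 0) → CC ζ E p2 r p3 := by
    intro r hr
    obtain ⟨i, j, hij, hjs, h1⟩ := hpig (fun i => ((i : ℚ) / (s.factorial : ℚ)) • r)
      (fun i x hx => by rw [Finsupp.smul_apply, hr x hx, smul_zero])
    obtain ⟨N, hN⟩ : (j - i) ∣ s.factorial := Nat.dvd_factorial (by omega) (by omega)
    have h2 := hnsmul _ (fun x hx => by
      rw [Finsupp.sub_apply, Finsupp.smul_apply, Finsupp.smul_apply, hr x hx, smul_zero,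
        smul_zero, sub_zero])
      h1 N
    have h3 : N • ((((j : ℕ) : ℚ) / (s.factorial : ℚ)) • r - (((i : ℕ) : ℚ) / (s.factorial : ℚ)) • r)
        = r := by
      rw [← sub_smul, ← Nat.cast_smul_eq_nsmul ℚ, smul_smul]
      have h4 : (s.factorial : ℚ) ≠ 0 := by exact_mod_cast Nat.factorial_ne_zero s
      have h5 : (s.factorial : ℚ) = ((j : ℚ) - (i : ℚ)) * N := by
        rw [hN, Nat.cast_mul, Nat.cast_sub hij.le]
      have h6 : (N : ℚ) * (((j : ℕ) : ℚ) / (s.factorial : ℚ) - ((i : ℕ) : ℚ) / (s.factorial : ℚ)) = 1 := by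
        rw [div_sub_div_same, ← mul_div_assoc, mul_comm (N : ℚ), ← h5, div_self h4]
      rw [h6, one_smul]
    rwa [h3] at h2
  refine ⟨p4, hp42.trans hp20, fun g hg q hq hqg => ?_⟩
  -- cut off
  have hgc : ∀ x ∈ E1, (g.cut k).ap x = g.ap x := fun x hx => by
    rw [Gp.cut_ap, if_pos (hk x hx)]
  have hcE' : g.cut k ∈ Gp.Fix E := fun x hx => by
    rw [hgc x (h.sub hx), hg x hx]
  have hpe : (g.cut k).onC p4 = g.onC p4 := by
    refine Cond.ext' fun x => ?_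
    rw [Gp.onC_f, Gp.onC_f, Gp.cut_inv_ap]
    by_cases hx : x.1.1 < k
    · rw [if_pos hx]
    · rw [if_neg hx, hp4, Cond.res_not, Cond.res_not]
      · show ¬ (g⁻¹.ap x.1).1 < k
        rw [Gp.ap_fst]; exact hx
      · exact hx
  set r : ℕ →₀ ℚ := Finsupp.onFinset (Finset.range k) (fun n => if n < k then g.tr n else 0)
    (fun n hn => by
      by_contra hc
      rw [Finset.mem_range] at hc
      exact hn (if_neg hc)) with hr
  have hrr : (r : ℕ → ℚ) = (g.cut k).tr := by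
    rw [Gp.cut_tr]
    rfl
  have h1 := hDp r (hall r (fun x hx => by
    rw [hrr, Gp.Fix_tr hcE' hx])) (g.cut k) hcE' hrr.symm q hq (by rw [hpe]; exact hqg)
  refine frc_trans h1 (Frc.mono ?_ frc_top)
  exact (act_eq_of h.hζ hgc).ge

theorem finite_lemma (hE : IsSp E) (hX : Supp E X) (ζ : HN.{0}) (s : ℕ) :
    mem ζ X ⊓ atMost s X ≤ inC (We E) ζ := by
  refine le_of_frc fun p hp => ?_
  obtain ⟨E', hE', hζ⟩ := exists_supp ζ
  set E1 := E ∪ E' with hE1
  have hsp : IsSp E1 := hE.union hE'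
  have hζ1 : Supp E1 ζ := hζ.anti Set.subset_union_right
  have hX1 : Supp E1 X := hX.anti Set.subset_union_left
  have hd1 : Dep E1 (mem ζ X) := fun g hg => by
    rw [← HN.mem_act, mem_congr_top (hX1 g hg), mem_congr_top' (hζ1 g hg)]
  have hd2 : Dep E1 (atMost s X) := fun g hg => atMost_act hX1 hg
  have h : FD ζ X E E1 s (p.res E1) := ⟨hsp, Set.subset_union_left, hX, hζ1,
    hd1.res hsp.1 hp.1, hd2.res hsp.1 hp.2, Cond.dI_res _ _⟩
  obtain ⟨p4, hp4, hmain⟩ := h.main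
  -- the name
  obtain ⟨ι, a, v, hz⟩ := cases_name ζ
  have hzg : ∀ g y, mem y (act g ζ) = ⨆ i, ρ g (v i) ⊓ eq y (act g (a i)) := by
    intro g y
    obtain ⟨y, rfl⟩ := act_surj g y
    rw [HN.mem_act, hz, OrderIso.map_iSup]
    refine iSup_congr fun i => ?_
    rw [map_inf, HN.eq_act]
  let Φ : HN.{0} → BB := fun y => ⨆ g : {g : Gp // g ∈ Gp.Fix E}, pr (g.1.onC p4) ⊓ mem y (act g.1 ζ)
  obtain ⟨η, h1, h2⟩ := exists_of_char (ι := {g : Gp // g ∈ Gp.Fix E} × ι)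
    (fun t => act t.1.1 (a t.2)) (fun t => pr (t.1.1.onC p4) ⊓ ρ t.1.1 (v t.2)) Φ (fun y => by
      rw [iSup_prod]
      refine iSup_congr fun g => ?_
      rw [hzg, inf_iSup_eq]
      refine iSup_congr fun i => ?_
      rw [inf_assoc]) E hE (fun g hg y => by
      show (⨆ g' : {g : Gp // g ∈ Gp.Fix E}, pr (g'.1.onC p4) ⊓ mem (act g y) (act g'.1 ζ)) =
        ρ g (⨆ g' : {g : Gp // g ∈ Gp.Fix E}, pr (g'.1.onC p4) ⊓ mem y (act g'.1 ζ))
      rw [OrderIso.map_iSup]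
      let S : {g : Gp // g ∈ Gp.Fix E} → {g : Gp // g ∈ Gp.Fix E} :=
        fun g' => ⟨g * g'.1, Gp.Fix_mul hg g'.2⟩
      have hS : Function.Surjective S := fun g' =>
        ⟨⟨g⁻¹ * g'.1, Gp.Fix_mul (Gp.Fix_inv hg) g'.2⟩, Subtype.ext (mul_inv_cancel_left _ _)⟩
      rw [← hS.iSup_comp]
      refine iSup_congr fun g' => ?_
      rw [map_inf, ρ_pr, ← HN.mem_act, act_act, ← Gp.onC_mul])
  have h3 : Frc p4 (eq ζ η) := by
    refine Frc.mono ?_ (frc_pr_self p4)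
    refine bExt (fun y Δ h4 h5 => ?_) (fun y Δ h4 h5 => ?_)
    · rw [h1]
      refine bEx ⟨1, Gp.Fix_one E⟩ (le_inf ?_ ?_)
      · rw [Gp.onC_one]; exact h4
      · rw [act_one]; exact h5
    · rw [h1] at h5
      refine bElim h5 fun g Δ' h6 h7 => ?_
      have h8 : pr p4 ⊓ pr (g.1.onC p4) ≤ eq ζ (act g.1 ζ) := by
        refine le_of_frc fun q hq => ?_
        obtain ⟨r, hr, hrp⟩ := frc_pr.1 hq.1 q le_rfl
        obtain ⟨r', hr', hrp'⟩ := frc_pr.1 hq.2 r hr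
        exact ⟨r', hr'.trans hr, hmain g.1 g.2 r' (hr'.trans hrp) hrp'⟩
      exact bMemR (bSymm ((le_inf (h6.trans h4) (bLeft h7)).trans h8)) (bRight h7)
  have h4 : Frc p4 (inC (We E) ζ) := h3.mono (bEx ⟨η, h2⟩ le_rfl)
  have hd : Dep E1 (inC (We E) ζ) := fun g hg => by
    rw [← inC_We_act (Gp.Fix_anti Set.subset_union_left hg)]
    refine eq_of_forall fun Γ => ⟨fun h => inC_congr (le_top.trans (hζ1 g hg).ge) h,
      fun h => inC_congr (bSymm (le_top.trans (hζ1 g hg).ge)) h⟩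
  have h5 := hd.res hsp.1 h4
  have hc : Cond.Comp (p4.res E1) p := by
    intro x b b' e1 e2
    obtain ⟨hx, e1⟩ := Cond.res_some.1 e1
    have e3 := hp4 x b' (Cond.res_some.2 ⟨hx, e2⟩)
    rw [e1] at e3
    exact Option.some.inj e3
  exact ⟨Cond.un (p4.res E1) p, Cond.un_le_right hc, h5.lower (Cond.un_le_left _ _)⟩

end HN

end Pool.Agent.Helper23.SM
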