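import Pool.Agent.Helper23.WT.Fmla
import Pool.Agent.Helper23.SM.BV

set_option autoImplicit false

/-!
# Formulas: values, congruence, equivariance
-/

universe u v w

namespace Pool.Agent.Helper23.SM

open WT (iffV bElim bOr bMP bImp bNot bAbs bAll bEx bIff bIff_mp bIff_mpr bLeft bRight bCases bContra eq_of_forall iffV_self iffV_eq_top)
open WT (Fm)

variable {κ : Type w} {n : ℕ}

/-- the Boolean value of a formula -/
noncomputable def vl (e : κ → HN.{u}) : {n : ℕ} → Fm κ n → (Fin n → HN.{u}) → BB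
  | _, .mem s t, v => HN.mem (Sum.elim v e s) (Sum.elim v e t)
  | _, .eq s t, v => HN.eq (Sum.elim v e s) (Sum.elim v e t)
  | _, .fls, _ => ⊥
  | _, .imp f g, v => vl e f v ⇨ vl e g v
  | _, .all f, v => ⨅ x, vl e f (Matrix.vecCons x v)

section val
variable (e : κ → HN.{u})

@[simp] lemma vl_mem (s t : Fin n ⊕ κ) (v) :
    vl e (Fm.mem s t) v = HN.mem (Sum.elim v e s) (Sum.elim v e t) := rfl
@[simp] lemma vl_eq (s t : Fin n ⊕ κ) (v) :
    vl e (Fm.eq s t) v = HN.eq (Sum.elim v e s) (Sum.elim v e t) := rfl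
@[simp] lemma vl_fls (v : Fin n → HN.{u}) : vl e (Fm.fls : Fm κ n) v = ⊥ := rfl
@[simp] lemma vl_imp (f g : Fm κ n) (v) :
    vl e (Fm.imp f g) v = (vl e f v ⇨ vl e g v) := rfl
@[simp] lemma vl_all (f : Fm κ (n + 1)) (v) :
    vl e (Fm.all f) v = ⨅ x, vl e f (Matrix.vecCons x v) := rfl
@[simp] lemma vl_neg (f : Fm κ n) (v) : vl e f.neg v = (vl e f v)ᶜ := by
  simp [Fm.neg]
@[simp] lemma vl_and (f g : Fm κ n) (v) :
    vl e (f.and g) v = vl e f v ⊓ vl e g v := by
  simp [Fm.and, himp_eq, inf_comm]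
@[simp] lemma vl_or (f g : Fm κ n) (v) : vl e (f.or g) v = vl e f v ⊔ vl e g v := by
  simp [Fm.or, himp_eq, sup_comm]
@[simp] lemma vl_iff (f g : Fm κ n) (v) :
    vl e (f.iff g) v = iffV (vl e f v) (vl e g v) := by
  simp [Fm.iff, iffV]
@[simp] lemma vl_ex (f : Fm κ (n + 1)) (v) :
    vl e (Fm.ex f) v = ⨆ x, vl e f (Matrix.vecCons x v) := by
  simp [Fm.ex, compl_iInf]

end val

/-! ### congruence -/

theorem term_congr {e e' : κ → HN.{u}} {Γ : BB} (he : ∀ c, Γ ≤ HN.eq (e c) (e' c))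
    {v v' : Fin n → HN.{u}} (hv : ∀ i, Γ ≤ HN.eq (v i) (v' i)) (s : Fin n ⊕ κ) :
    Γ ≤ HN.eq (Sum.elim v e s) (Sum.elim v' e' s) := by
  cases s with
  | inl i => exact hv i
  | inr c => exact he c

theorem vl_congr (f : Fm κ n) {e e' : κ → HN.{u}} {Γ : BB} (he : ∀ c, Γ ≤ HN.eq (e c) (e' c))
    {v v' : Fin n → HN.{u}} (hv : ∀ i, Γ ≤ HN.eq (v i) (v' i)) (h : Γ ≤ vl e f v) :
    Γ ≤ vl e' f v' := by
  induction f generalizing Γ e e' with
  | mem s t =>
    exact HN.bMemL (term_congr he hv s) (HN.bMemR (term_congr he hv t) h)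
  | eq s t =>
    exact HN.bTrans (HN.bSymm (term_congr he hv s)) (HN.bTrans h (term_congr he hv t))
  | fls => exact h
  | imp f g hf hg =>
    refine bImp fun Δ hΔ h' => ?_
    refine hg (fun c => hΔ.trans (he c)) (fun i => hΔ.trans (hv i)) (bMP (hΔ.trans h) ?_)
    exact hf (fun c => HN.bSymm (hΔ.trans (he c))) (fun i => HN.bSymm (hΔ.trans (hv i))) h'
  | all f hf =>
    refine le_iInf fun x => hf he (fun i => ?_) (bAll h x)
    refine Fin.cases ?_ (fun j => ?_) i
    · exact HN.bRefl x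
    · exact hv j

/-! ### equivariance -/

theorem vl_act_of (e : κ → HN.{u}) {E : Set Ix} (hE : ∀ c, HN.Supp E (e c)) (f : Fm κ n)
    {g : Gp} (hg : g ∈ Gp.Fix E) (v : Fin n → HN.{u}) :
    vl e f (fun i => HN.act g (v i)) = ρ g (vl e f v) := by
  have hterm : ∀ {n : ℕ} (v : Fin n → HN.{u}) (s : Fin n ⊕ κ),
      HN.eq (Sum.elim (fun i => HN.act g (v i)) e s) (HN.act g (Sum.elim v e s)) = ⊤ := by
    intro n v s
    cases s with
    | inl i => exact HN.eq_refl _
    | inr c => rw [HN.eq_symm]; exact hE c g hg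
  induction f with
  | mem s t =>
    have h1 := hterm v s
    have h2 := hterm v t
    simp only [vl_mem]
    rw [← HN.mem_act]
    refine eq_of_forall fun Γ => ⟨fun h => ?_, fun h => ?_⟩
    · exact HN.bMemL (le_top.trans h1.ge) (HN.bMemR (le_top.trans h2.ge) h)
    · exact HN.bMemL (HN.bSymm (le_top.trans h1.ge)) (HN.bMemR (HN.bSymm (le_top.trans h2.ge)) h)
  | eq s t =>
    have h1 := hterm v s
    have h2 := hterm v t
    simp only [vl_eq]
    rw [← HN.eq_act]
    refine eq_of_forall fun Γ => ⟨fun h => ?_, fun h => ?_⟩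
    · exact HN.bTrans (HN.bSymm (le_top.trans h1.ge)) (HN.bTrans h (le_top.trans h2.ge))
    · exact HN.bTrans (le_top.trans h1.ge) (HN.bTrans h (HN.bSymm (le_top.trans h2.ge)))
  | fls => simp
  | imp f g hf hg =>
    simp only [vl_imp]
    rw [hf, hg, map_himp]
  | all f hf =>
    simp only [vl_all]
    rw [OrderIso.map_iInf, ← (HN.act_surj g).iInf_comp]
    refine iInf_congr fun x => ?_
    rw [← hf]
    congr 1
    funext i
    refine Fin.cases ?_ (fun j => ?_) i <;> simp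

theorem term_act (e : κ → HN.{u}) (s : Fin n ⊕ κ) : ∃ F : Set Ix, IsSp F ∧ ∀ g ∈ Gp.Fix F,
    ∀ v : Fin n → HN.{u}, HN.eq (Sum.elim (fun i => HN.act g (v i)) e s)
      (HN.act g (Sum.elim v e s)) = ⊤ := by
  cases s with
  | inl i => exact ⟨∅, isSp_empty, fun g _ v => HN.eq_refl _⟩
  | inr c =>
    obtain ⟨F, hsp, hF⟩ := (e c).sym
    exact ⟨F, hsp, fun g hg v => by rw [HN.eq_symm]; exact hF g hg⟩

theorem vl_act (e : κ → HN.{u}) (f : Fm κ n) : ∃ F : Set Ix, IsSp F ∧ ∀ g ∈ Gp.Fix F,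
    ∀ v : Fin n → HN.{u}, vl e f (fun i => HN.act g (v i)) = ρ g (vl e f v) := by
  induction f with
  | mem s t =>
    obtain ⟨F, hsp, hF⟩ := term_act e s
    obtain ⟨F', hsp', hF'⟩ := term_act e t
    refine ⟨F ∪ F', hsp.union hsp', fun g hg v => ?_⟩
    have h1 := hF g (Gp.Fix_anti Set.subset_union_left hg) v
    have h2 := hF' g (Gp.Fix_anti Set.subset_union_right hg) v
    simp only [vl_mem]
    rw [← HN.mem_act]
    refine eq_of_forall fun Γ => ⟨fun h => ?_, fun h => ?_⟩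
    · exact HN.bMemL (le_top.trans h1.ge) (HN.bMemR (le_top.trans h2.ge) h)
    · exact HN.bMemL (HN.bSymm (le_top.trans h1.ge)) (HN.bMemR (HN.bSymm (le_top.trans h2.ge)) h)
  | eq s t =>
    obtain ⟨F, hsp, hF⟩ := term_act e s
    obtain ⟨F', hsp', hF'⟩ := term_act e t
    refine ⟨F ∪ F', hsp.union hsp', fun g hg v => ?_⟩
    have h1 := hF g (Gp.Fix_anti Set.subset_union_left hg) v
    have h2 := hF' g (Gp.Fix_anti Set.subset_union_right hg) v
    simp only [vl_eq]
    rw [← HN.eq_act]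
    refine eq_of_forall fun Γ => ⟨fun h => ?_, fun h => ?_⟩
    · exact HN.bTrans (HN.bSymm (le_top.trans h1.ge)) (HN.bTrans h (le_top.trans h2.ge))
    · exact HN.bTrans (le_top.trans h1.ge) (HN.bTrans h (HN.bSymm (le_top.trans h2.ge)))
  | fls => exact ⟨∅, isSp_empty, fun g _ v => by simp⟩
  | imp f g hf hg =>
    obtain ⟨F, hsp, hF⟩ := hf
    obtain ⟨F', hsp', hF'⟩ := hg
    refine ⟨F ∪ F', hsp.union hsp', fun g hg v => ?_⟩
    simp only [vl_imp]
    rw [hF g (Gp.Fix_anti Set.subset_union_left hg) v,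
      hF' g (Gp.Fix_anti Set.subset_union_right hg) v, map_himp]
  | all f hf =>
    obtain ⟨F, hsp, hF⟩ := hf
    refine ⟨F, hsp, fun g hg v => ?_⟩
    simp only [vl_all]
    rw [OrderIso.map_iInf, ← (HN.act_surj g).iInf_comp]
    refine iInf_congr fun x => ?_
    rw [← hF g hg]
    congr 1
    funext i
    refine Fin.cases ?_ (fun j => ?_) i <;> simp

/-! ### change of parameters, renaming of variables -/

theorem vl_map {κ' : Type v} (r : κ → κ') (e : κ' → HN.{u}) (f : Fm κ n) (v) :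
    vl e (f.map r) v = vl (e ∘ r) f v := by
  induction f with
  | mem s t => cases s <;> cases t <;> rfl
  | eq s t => cases s <;> cases t <;> rfl
  | fls => rfl
  | imp f g hf hg => simp only [Fm.map, vl_imp, hf, hg]
  | all f hf => simp only [Fm.map, vl_all, hf]

@[simp] theorem vl_ren {m : ℕ} (r : Fin n → Fin m) (e : κ → HN.{u}) (f : Fm κ n)
    (v : Fin m → HN.{u}) : vl e (f.ren r) v = vl e f (fun i => v (r i)) := by
  induction f generalizing m with
  | mem s t => cases s <;> cases t <;> rfl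
  | eq s t => cases s <;> cases t <;> rfl
  | fls => rfl
  | imp f g hf hg => simp only [Fm.ren, vl_imp, hf, hg]
  | all f hf => simp only [Fm.ren, vl_all, hf, Fm.vecCons_liftRen]

end Pool.Agent.Helper23.SM
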