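import Pool.Agent.Helper23.SM.At

set_option autoImplicit false
set_option linter.unreachableTactic false
set_option linter.unusedTactic false

/-!
# Names of ground model objects
-/

universe u v w

namespace Pool.Agent.Helper23.SM

open WT (iffV bElim bOr bMP bImp bNot bAbs bAll bEx bIff bIff_mp bIff_mpr bLeft bRight bCases bContra eq_of_forall iffV_self iffV_eq_top)
open WT (Fm ZF IsUPair IsOPair App IsFun IsOmega IsInductive ZM IsFn isFun_iff app_iff)

namespace HN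

/-- families of names with empty support -/
noncomputable def fam {I : Type} (a : I → HN.{0}) (h : ∀ i, Supp ∅ (a i)) : HN.{0} :=
  (exists_family' a ∅ isSp_empty h).choose

theorem mem_fam {I : Type} (a : I → HN.{0}) (h : ∀ i, Supp ∅ (a i)) (w : HN.{0}) :
    mem w (fam a h) = ⨆ i, eq w (a i) :=
  (exists_family' a ∅ isSp_empty h).choose_spec.1 w

theorem supp_fam {I : Type} (a : I → HN.{0}) (h : ∀ i, Supp ∅ (a i)) (E : Set Ix) :
    Supp E (fam a h) :=
  (exists_family' a ∅ isSp_empty h).choose_spec.2.anti (Set.empty_subset E)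

/-- the reals -/
noncomputable def RR : HN.{0} := fam rn (fun r => supp_rn r ∅)

theorem mem_RR (w : HN.{0}) : mem w RR = ⨆ r, eq w (rn r) := mem_fam _ _ w

/-- the graph of a function of two variables -/
noncomputable def gr2 (f : ℝ → ℝ → ℝ) : HN.{0} :=
  fam (fun p : ℝ × ℝ => opair (opair (rn p.1) (rn p.2)) (rn (f p.1 p.2)))
    (fun p => ((supp_rn _ _).opair (supp_rn _ _)).opair (supp_rn _ _))

theorem rn_eq_cases {r s : ℝ} {Γ : BB} {P : Prop} (h : Γ ≤ eq (rn r) (rn s)) (hP : r = s → P)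
    (hΓ : P → Γ ≤ ⊥) : Γ ≤ ⊥ := by
  by_cases hrs : r = s
  · exact hΓ (hP hrs)
  · rw [rn_ne hrs] at h
    exact h

theorem mem_gr2 (f : ℝ → ℝ → ℝ) (r s : ℝ) (w : HN.{0}) :
    mem (opair (opair (rn r) (rn s)) w) (gr2 f) = eq w (rn (f r s)) := by
  unfold gr2
  rw [mem_fam]
  refine le_antisymm (iSup_le fun p => ?_) (bEx (r, s) (bOpairCongr (bRefl _) le_rfl))
  have h1 := bOpairFst (le_refl (eq (opair (opair (rn r) (rn s)) w)
    (opair (opair (rn p.1) (rn p.2)) (rn (f p.1 p.2)))))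
  by_cases hr : r = p.1
  · by_cases hs : s = p.2
    · rw [← hr, ← hs]
      exact bOpairSnd le_rfl
    · exact ((bOpairSnd h1).trans (rn_ne hs).le).trans bot_le
  · exact ((bOpairFst h1).trans (rn_ne hr).le).trans bot_le

/-- the order of the reals -/
noncomputable def LE : HN.{0} :=
  fam (fun p : {p : ℝ × ℝ // p.1 ≤ p.2} => opair (rn p.1.1) (rn p.1.2))
    (fun p => (supp_rn _ _).opair (supp_rn _ _))

theorem mem_LE (r s : ℝ) [Decidable (r ≤ s)] :
    mem (opair (rn r) (rn s)) LE = if r ≤ s then ⊤ else ⊥ := by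
  unfold LE
  rw [mem_fam]
  split_ifs with h
  · exact eq_top_iff.2 (bEx ⟨(r, s), h⟩ (bRefl _))
  · rw [eq_bot_iff]
    refine iSup_le fun p => ?_
    by_cases hr : r = p.1.1
    · by_cases hs : s = p.1.2
      · exact (h (hr ▸ hs ▸ p.2)).elim
      · exact (bOpairSnd le_rfl).trans (rn_ne hs).le
    · exact (bOpairFst le_rfl).trans (rn_ne hr).le

/-! ### the circles -/

/-- sets invariant under the rotations -/
def RI (C : Set ℂ) : Prop := ∀ q, ∀ a ∈ C, rot q * a ∈ C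

theorem exists_TT {C : Set ℂ} (hC : RI C) (n : ℕ) : ∃ z : HN.{0},
    (∀ w, mem w z = ⨆ a : C, eq w (un n a.1)) ∧ Supp ∅ z :=
  exists_family (fun a : C => un n a.1) ∅ isSp_empty (fun g _ =>
    ⟨fun a => ⟨rot (- g.tr n) * a.1, hC _ _ a.2⟩, fun a => ⟨⟨rot (g.tr n) * a.1, hC _ _ a.2⟩, by
      apply Subtype.ext
      show rot (- g.tr n) * (rot (g.tr n) * a.1) = a.1
      rw [← mul_assoc, ← rot_add]
      simp [rot_zero]⟩, fun a => act_un g n a.1⟩)

/-- the spaces -/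
noncomputable def TT {C : Set ℂ} (hC : RI C) (n : ℕ) : HN.{0} := (exists_TT hC n).choose

theorem mem_TT {C : Set ℂ} (hC : RI C) (n : ℕ) (w : HN.{0}) :
    mem w (TT hC n) = ⨆ a : C, eq w (un n a.1) := (exists_TT hC n).choose_spec.1 w

theorem supp_TT {C : Set ℂ} (hC : RI C) (n : ℕ) (E : Set Ix) : Supp E (TT hC n) :=
  (exists_TT hC n).choose_spec.2.anti (Set.empty_subset E)

theorem mem_un_TT {C : Set ℂ} (hC : RI C) (n m : ℕ) (a : ℂ) [Decidable (n = m ∧ a ∈ C)] :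
    mem (un n a) (TT hC m) = if n = m ∧ a ∈ C then ⊤ else ⊥ := by
  rw [mem_TT]
  split_ifs with h
  · obtain ⟨rfl, h⟩ := h
    exact eq_top_iff.2 (bEx ⟨a, h⟩ (bRefl _))
  · rw [eq_bot_iff]
    refine iSup_le fun b => (un_ne ?_).le
    rintro ⟨rfl, rfl⟩
    exact h ⟨rfl, b.2⟩

theorem exists_ZZ : ∃ z : HN.{0}, (∀ w, mem w z = ⨆ p : ℕ × ℂ, eq w (un p.1 p.2)) ∧ Supp ∅ z :=
  exists_family (fun p : ℕ × ℂ => un p.1 p.2) ∅ isSp_empty (fun g _ =>
    ⟨fun p => (p.1, rot (- g.tr p.1) * p.2), fun p => ⟨(p.1, rot (g.tr p.1) * p.2), by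
      refine Prod.ext rfl ?_
      show rot (- g.tr p.1) * (rot (g.tr p.1) * p.2) = p.2
      rw [← mul_assoc, ← rot_add]
      simp [rot_zero]⟩, fun p => act_un g p.1 p.2⟩)

/-- the set of all points -/
noncomputable def ZZ : HN.{0} := exists_ZZ.choose

theorem mem_ZZ (w : HN.{0}) : mem w ZZ = ⨆ p : ℕ × ℂ, eq w (un p.1 p.2) := exists_ZZ.choose_spec.1 w

theorem supp_ZZ : Supp ∅ ZZ := exists_ZZ.choose_spec.2

/-- the index set of the entourages -/
def WI : Type := {p : ℕ × ℕ × ℂ × ℂ // ‖p.2.2.1 - p.2.2.2‖ < 1 / ((p.2.1 : ℝ) + 1)}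

theorem norm_rot_sub (q : ℚ) (a b : ℂ) : ‖rot q * a - rot q * b‖ = ‖a - b‖ := by
  rw [← mul_sub, norm_mul, norm_rot, one_mul]

theorem exists_WW : ∃ z : HN.{0}, (∀ w, mem w z = ⨆ p : WI,
    eq w (opair (nat p.1.2.1) (opair (un p.1.1 p.1.2.2.1) (un p.1.1 p.1.2.2.2)))) ∧ Supp ∅ z :=
  exists_family (fun p : WI => opair (nat p.1.2.1) (opair (un p.1.1 p.1.2.2.1) (un p.1.1 p.1.2.2.2)))
    ∅ isSp_empty (fun g _ => by
      refine ⟨fun p => ⟨(p.1.1, p.1.2.1, rot (- g.tr p.1.1) * p.1.2.2.1, rot (- g.tr p.1.1) * p.1.2.2.2), ?_⟩,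
        fun p => ⟨⟨(p.1.1, p.1.2.1, rot (g.tr p.1.1) * p.1.2.2.1, rot (g.tr p.1.1) * p.1.2.2.2), ?_⟩, ?_⟩,
        fun p => ?_⟩
      · show ‖rot (- g.tr p.1.1) * p.1.2.2.1 - rot (- g.tr p.1.1) * p.1.2.2.2‖ < _
        rw [norm_rot_sub]
        exact p.2
      · show ‖rot (g.tr p.1.1) * p.1.2.2.1 - rot (g.tr p.1.1) * p.1.2.2.2‖ < _
        rw [norm_rot_sub]
        exact p.2
      · have h1 : ∀ a, rot (- g.tr p.1.1) * (rot (g.tr p.1.1) * a) = a := fun a => by
          rw [← mul_assoc, ← rot_add]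
          simp [rot_zero]
        apply Subtype.ext
        refine Prod.ext rfl (Prod.ext rfl (Prod.ext (h1 _) (h1 _)))
      · refine trans_top (act_opair g _ _) (opair_congr_top (eq_act_of_supp (supp_nat _ _) g)
          (trans_top (act_opair g _ _) (opair_congr_top (act_un g _ _) (act_un g _ _)))))

/-- the entourages -/
noncomputable def WW : HN.{0} := exists_WW.choose

theorem mem_WW (w : HN.{0}) : mem w WW = ⨆ p : WI,
    eq w (opair (nat p.1.2.1) (opair (un p.1.1 p.1.2.2.1) (un p.1.1 p.1.2.2.2))) :=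
  exists_WW.choose_spec.1 w

theorem supp_WW : Supp ∅ WW := exists_WW.choose_spec.2

theorem mem_un_WW (m n n' : ℕ) (a b : ℂ) [Decidable (n = n' ∧ ‖a - b‖ < 1 / ((m : ℝ) + 1))] :
    mem (opair (nat m) (opair (un n a) (un n' b))) WW =
      if n = n' ∧ ‖a - b‖ < 1 / ((m : ℝ) + 1) then ⊤ else ⊥ := by
  rw [mem_WW]
  split_ifs with h
  · obtain ⟨rfl, h⟩ := h
    exact eq_top_iff.2 (bEx (⟨(n, m, a, b), h⟩ : WI) (bRefl _))
  · rw [eq_bot_iff]
    refine iSup_le fun p => ?_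
    obtain ⟨⟨n1, m1, a1, b1⟩, hp⟩ := p
    simp only at hp ⊢
    by_cases h1 : m = m1
    · have h0 := bOpairSnd (le_refl (eq (opair (nat m) (opair (un n a) (un n' b)))
        (opair (nat m1) (opair (un n1 a1) (un n1 b1)))))
      by_cases h2 : n = n1 ∧ a = a1
      · by_cases h3 : n' = n1 ∧ b = b1
        · obtain ⟨rfl, rfl⟩ := h2
          obtain ⟨rfl, rfl⟩ := h3
          subst h1
          exact (h ⟨rfl, hp⟩).elim
        · exact (bOpairSnd h0).trans (un_ne h3).le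
      · exact (bOpairFst h0).trans (un_ne h2).le
    · exact (bOpairFst le_rfl).trans (nat_ne h1).le

theorem exists_DD : ∃ z : HN.{0}, (∀ w, mem w z = ⨆ p : ℕ × ℂ × ℂ,
    eq w (opair (opair (un p.1 p.2.1) (un p.1 p.2.2)) (rn ‖p.2.1 - p.2.2‖))) ∧ Supp ∅ z :=
  exists_family (fun p : ℕ × ℂ × ℂ => opair (opair (un p.1 p.2.1) (un p.1 p.2.2)) (rn ‖p.2.1 - p.2.2‖))
    ∅ isSp_empty (fun g _ => by
      refine ⟨fun p => (p.1, rot (- g.tr p.1) * p.2.1, rot (- g.tr p.1) * p.2.2),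
        fun p => ⟨(p.1, rot (g.tr p.1) * p.2.1, rot (g.tr p.1) * p.2.2), ?_⟩,
        fun p => ?_⟩
      · have h1 : ∀ a, rot (- g.tr p.1) * (rot (g.tr p.1) * a) = a := fun a => by
          rw [← mul_assoc, ← rot_add]
          simp [rot_zero]
        refine Prod.ext rfl (Prod.ext (h1 _) (h1 _))
      · simp only [norm_rot_sub]
        exact trans_top (act_opair g _ _) (opair_congr_top
          (trans_top (act_opair g _ _) (opair_congr_top (act_un g _ _) (act_un g _ _)))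
          (eq_act_of_supp (supp_rn _ _) g)))

/-- the distance -/
noncomputable def DD : HN.{0} := exists_DD.choose

theorem mem_DD (w : HN.{0}) : mem w DD = ⨆ p : ℕ × ℂ × ℂ,
    eq w (opair (opair (un p.1 p.2.1) (un p.1 p.2.2)) (rn ‖p.2.1 - p.2.2‖)) :=
  exists_DD.choose_spec.1 w

theorem supp_DD : Supp ∅ DD := exists_DD.choose_spec.2

theorem mem_un_DD (n : ℕ) (a b : ℂ) (w : HN.{0}) :
    mem (opair (opair (un n a) (un n b)) w) DD = eq w (rn ‖a - b‖) := by
  rw [mem_DD]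
  refine le_antisymm (iSup_le fun p => ?_) (bEx (n, a, b) (bOpairCongr (bRefl _) le_rfl))
  obtain ⟨n1, a1, b1⟩ := p
  simp only
  have h0 := bOpairFst (le_refl (eq (opair (opair (un n a) (un n b)) w)
        (opair (opair (un n1 a1) (un n1 b1)) (rn ‖a1 - b1‖))))
  by_cases h2 : n = n1 ∧ a = a1
  · by_cases h3 : n = n1 ∧ b = b1
    · obtain ⟨rfl, rfl⟩ := h2
      obtain ⟨-, rfl⟩ := h3
      exact bOpairSnd le_rfl
    · exact ((bOpairSnd h0).trans (un_ne h3).le).trans bot_le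
  · exact ((bOpairFst h0).trans (un_ne h2).le).trans bot_le

theorem supp_un_zero (n : ℕ) (E : Set Ix) : Supp E (un n 0) := by
  intro g _
  have := act_un g n 0
  rwa [mul_zero] at this

/-- sequences of names with empty support -/
noncomputable def sq (a : ℕ → HN.{0}) (h : ∀ n, Supp ∅ (a n)) : HN.{0} :=
  fam (fun n => opair (nat n) (a n)) (fun n => (supp_nat _ _).opair (h n))

theorem mem_sq (a : ℕ → HN.{0}) (h : ∀ n, Supp ∅ (a n)) (w : HN.{0}) :
    mem w (sq a h) = ⨆ n, eq w (opair (nat n) (a n)) := mem_fam _ _ w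

theorem exists_SX (en : ℕ → ℚ) (n : ℕ) : ∃ f : HN.{0},
    (∀ w, mem w f = ⨆ i, eq w (opair (nat i) (xn n (en i)))) ∧ Supp {(n, 0, 0)} f :=
  exists_seq (fun i => xn n (en i)) (isSp_single _) (fun _ => supp_xn n _)

end HN

end Pool.Agent.Helper23.SM
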