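import Pool.Agent.Helper23.SM.Nm2

set_option autoImplicit false
set_option linter.unreachableTactic false
set_option linter.unusedTactic false

/-!
# Every infinite set is Dedekind infinite
-/

universe u v w

namespace Pool.Agent.Helper23.SM

open WT (iffV bElim bOr bMP bImp bNot bAbs bAll bEx bIff bIff_mp bIff_mpr bLeft bRight bCases bContra eq_of_forall iffV_self iffV_eq_top)
open WT (Fm ZF IsUPair IsOPair App IsFun IsOmega IsInductive ZM IsFn isFun_iff app_iff opair ap)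

theorem ud_cardEq : UD (n := 2) (fun _ E v => CardEq E (v 0) (v 1)) := by
  unfold CardEq IsInj IsFun App IsOPair IsUPair
  (repeat' first
    | with_reducible exact UD.mem _ _ | with_reducible exact UD.eq _ _
    | with_reducible exact UD.tru | with_reducible exact UD.fls
    | with_reducible apply UD.not | with_reducible apply UD.and | with_reducible apply UD.or
    | with_reducible apply UD.iff | with_reducible apply UD.imp
    | with_reducible apply UD.exu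
    | with_reducible apply UD.ex | with_reducible apply UD.all)

theorem ud_idi : UD (n := 1) (fun _ E v => ¬ IsFin E (v 0) ∧ ¬ ∃ o, IsOmega E o ∧ CardLe E o (v 0)) := by
  unfold IsFin CardEq CardLe IsInj IsFun IsOmega IsInductive App IsOPair IsUPair
  (repeat' first
    | with_reducible exact UD.mem _ _ | with_reducible exact UD.eq _ _
    | with_reducible exact UD.tru | with_reducible exact UD.fls
    | with_reducible apply UD.not | with_reducible apply UD.and | with_reducible apply UD.or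
    | with_reducible apply UD.iff | with_reducible apply UD.imp
    | with_reducible apply UD.exu
    | with_reducible apply UD.ex | with_reducible apply UD.all)

theorem frc_of_mod' (A₀ : Set HN.{0}) (hA : A₀.Countable) (𝒢 : ℕ → HN.{0} → Set BB) {p : Cond}
    {b : BB} (H : ∀ q ≤ p, ∀ 𝔐 : Mod 𝒢 q, (∀ a ∈ A₀, ∃ m : 𝔐.G.M, 𝔐.G.R m a) → b ∉ 𝔐.G.U) :
    ¬ Frc p b := fun hp => by
  obtain ⟨𝔐, h⟩ := exists_mod A₀ hA 𝒢 p
  exact H p le_rfl 𝔐 h (𝔐.gen b hp)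

/-- no families -/
def noG : ℕ → HN.{0} → Set BB := fun _ _ => ∅

theorem vec1 {α : Type*} {Q : α → HN.{0} → Prop} {x : α} {a : HN.{0}} (h : Q x a) :
    ∀ i : Fin 1, Q ((![x] : Fin 1 → α) i) ((![a] : Fin 1 → HN.{0}) i) := fun i => by
  fin_cases i
  exact h

theorem vec2 {α : Type*} {Q : α → HN.{0} → Prop} {x y : α} {a b : HN.{0}} (h : Q x a) (h' : Q y b) :
    ∀ i : Fin 2, Q ((![x, y] : Fin 2 → α) i) ((![a, b] : Fin 2 → HN.{0}) i) := fun i => by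
  fin_cases i
  · exact h
  · exact h'

/-- an element of finite set -/
theorem atMost_of_cardEq {q : Cond} {X : HN.{0}} {s : ℕ} (h : Frc q (ud_cardEq.val ![HN.nat s, X])) :
    Frc q (HN.atMost s X) := by
  unfold HN.atMost
  rw [frc_iInf]
  intro ξ
  refine frc_himp_intro fun q' hq' h1 => ?_
  rw [frc_iInf] at h1
  refine frc_of_mod (insert X (Set.range ξ)) ((Set.countable_range _).insert _) noG q' _
    fun q'' hq'' 𝔐 h𝔐 => ?_
  obtain ⟨x, hx⟩ := h𝔐 _ (Set.mem_insert _ _)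
  have hξ : ∀ i, ∃ m : 𝔐.G.M, 𝔐.G.R m (ξ i) := fun i => h𝔐 _ (Set.mem_insert_of_mem _ ⟨i, rfl⟩)
  choose y hy using hξ
  have h2 : CardEq 𝔐.G.E (𝔐.N s) x := (GModel.los_ud ud_cardEq (vec2 (Q := 𝔐.G.R) (𝔐.hN s) hx)).2
    (𝔐.gen _ (h.lower (hq''.trans hq')))
  obtain ⟨f, hf, hs⟩ := h2
  obtain ⟨hf, -⟩ := isInj_iff.1 hf
  have hyx : ∀ i, 𝔐.G.E (y i) x := fun i =>
    (GModel.R_mem (hy i) hx).2 (𝔐.gen _ ((h1 i).lower hq''))
  have h3 : ∀ i, ∃ k < s, ap f (𝔐.N k) = y i := by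
    intro i
    obtain ⟨t, ht⟩ := hs _ (hyx i)
    have ht' := app_iff.1 ht
    have htn := (hf.mem_dom ht').1
    obtain ⟨k, hk, rfl⟩ := (𝔐.std.NE _ _).1 htn
    exact ⟨k, hk, ((hf.mem_iff htn).1 ht').symm⟩
  choose k hk1 hk2 using h3
  obtain ⟨i, j, hij, hjs, he⟩ : ∃ i j, i < j ∧ j ≤ s ∧ k i = k j := by
    have := Finset.exists_ne_map_eq_of_card_lt_of_maps_to (s := Finset.range (s + 1))
      (t := Finset.range s) (by simp) (f := k) (fun i _ => by simpa using hk1 i)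
    obtain ⟨i, hi, j, hj, hne, he⟩ := this
    rw [Finset.mem_range] at hi hj
    rcases Nat.lt_or_gt_of_ne hne with h | h
    · exact ⟨i, j, h, by omega, he⟩
    · exact ⟨j, i, h, by omega, he.symm⟩
  have h4 : HN.eq (ξ i) (ξ j) ∈ 𝔐.G.U := by
    rw [← GModel.R_eq (hy i) (hy j), ← hk2 i, ← hk2 j, he]
  exact 𝔐.G.up _ h4 _ (bEx i (bEx j (bEx ⟨hij, hjs⟩ le_rfl)))

/-- the elements of a finite set are locally supported by the support -/
theorem fin_sub {X : HN.{0}} {E : Set Ix} (hE : IsSp E) (hX : HN.Supp E X) (ζ : HN.{0}) :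
    ud_isFin.val ![X] ⊓ HN.mem ζ X ≤ HN.inC (HN.We E) ζ := by
  refine le_of_frc fun p hp => ?_
  obtain ⟨h1, h2⟩ := frc_inf.1 hp
  obtain ⟨𝔐, h𝔐⟩ := exists_mod {X} (Set.countable_singleton X) noG p
  obtain ⟨x, hx⟩ := h𝔐 X rfl
  have h3 : IsFin 𝔐.G.E x := (GModel.los_ud ud_isFin (vec1 (Q := 𝔐.G.R) hx)).2 (𝔐.gen _ h1)
  obtain ⟨o, n, ho, hn, h4⟩ := h3
  have := 𝔐.omega_unique ho
  subst this
  obtain ⟨s, rfl⟩ := (𝔐.NO n).1 hn
  have h5 := (GModel.los_ud ud_cardEq (vec2 (Q := 𝔐.G.R) (𝔐.hN s) hx)).1 h4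
  obtain ⟨q, hq, h6⟩ := 𝔐.den _ h5
  refine ⟨q, hq, Frc.mono (HN.finite_lemma hE hX ζ s) (frc_inf.2 ⟨h2.lower hq, ?_⟩)⟩
  exact atMost_of_cardEq h6

/-- new elements of infinite sets -/
theorem exists_new {q : Cond} {Y : HN.{0}} {𝒞 : Set HN.{0}} (hY : ∀ w, HN.mem w Y ≤ HN.inC 𝒞 w)
    (h : Frc q (ud_isFin.val ![Y])ᶜ) (n : ℕ) (z : ℕ → HN.{0}) :
    ∃ q' ≤ q, ∃ ζ ∈ 𝒞, Frc q' (HN.mem ζ Y) ∧ ∀ i < n, Frc q' (HN.eq (z i) ζ)ᶜ := by
  obtain ⟨𝔐, h𝔐⟩ := exists_mod (insert Y (Set.range z)) ((Set.countable_range _).insert _) noG q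
  obtain ⟨y, hy⟩ := h𝔐 _ (Set.mem_insert _ _)
  have hz : ∀ i, ∃ m : 𝔐.G.M, 𝔐.G.R m (z i) := fun i => h𝔐 _ (Set.mem_insert_of_mem _ ⟨i, rfl⟩)
  choose x hx using hz
  have h1 : ¬ IsFin 𝔐.G.E y := fun h1 =>
    GModel.not_both ((GModel.los_ud ud_isFin (vec1 (Q := 𝔐.G.R) hy)).1 h1) (𝔐.gen _ h)
  have h1' : ¬ {z | 𝔐.G.E z y}.Finite := fun h2 => h1 (𝔐.std.isFin_iff.2 h2)
  have h2 : ∃ a, 𝔐.G.E a y ∧ ∀ i < n, x i ≠ a := by
    by_contra h2
    push Not at h2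
    refine h1' (((Set.finite_lt_nat n).image x).subset fun a ha => ?_)
    obtain ⟨i, hi, he⟩ := h2 a ha
    exact ⟨i, hi, he⟩
  obtain ⟨a, ha, hxa⟩ := h2
  have h3 : HN.mem (𝔐.G.rep a) Y ∈ 𝔐.G.U := (GModel.R_mem (GModel.R_refl a) hy).1 ha
  have h4 : (⨅ i : Fin n, (HN.eq (z i) (𝔐.G.rep a))ᶜ) ∈ 𝔐.G.U := GModel.inf_fin fun i =>
    GModel.dec_eq (hx i) (GModel.R_refl a) (hxa i i.2)
  obtain ⟨q', hq', h5⟩ := 𝔐.den _ (𝔐.G.inf _ h3 _ h4)
  obtain ⟨h5, h6⟩ := frc_inf.1 h5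
  obtain ⟨q'', hq'', ζ, h7⟩ := frc_iSup.1 (h5.mono (hY _)) q' le_rfl
  refine ⟨q'', hq''.trans hq', ζ.1, ζ.2, ?_, fun i hi => ?_⟩
  · exact Frc.mono (HN.bMemL inf_le_left inf_le_right) (frc_inf.2 ⟨h7, h5.lower hq''⟩)
  · rw [frc_iInf] at h6
    refine Frc.mono ?_ (frc_inf.2 ⟨h7, (h6 ⟨i, hi⟩).lower hq''⟩)
    exact bNot fun Δ h8 h9 => bAbs (bRight h8) (HN.bTrans h9 (HN.bSymm (bLeft h8)))

/-- common supports -/
theorem exists_common {l : ℕ} {z : ℕ → HN.{0}} (hz : ∀ n, z n ∈ HN.Wk l) :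
    ∃ E : Set Ix, E.Countable ∧ (∀ x ∈ E, x.1 < l) ∧ ∀ n, HN.Supp E (z n) := by
  choose e h1 h2 h3 using hz
  refine ⟨⋃ n, e n, Set.countable_iUnion h1, fun x hx => ?_, fun n => (h3 n).anti
    (Set.subset_iUnion e n)⟩
  obtain ⟨n, hn⟩ := Set.mem_iUnion.1 hx
  exact h2 n x hn

theorem bEqOfMem {Γ : BB} {X Y : HN.{0}} (h : ∀ ζ, Γ ⊓ HN.mem ζ X ≤ HN.mem ζ Y)
    (h' : ∀ ζ, Γ ⊓ HN.mem ζ Y ≤ HN.mem ζ X) : Γ ≤ HN.eq X Y :=
  HN.bExt (fun x _ hΔ h1 => (le_inf hΔ h1).trans (h x)) (fun x _ hΔ h1 => (le_inf hΔ h1).trans (h' x))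

theorem idi_frc (p : Cond) (A : HN.{0}) : ¬ Frc p (ud_idi.val ![A]) := by
  intro hp
  obtain ⟨E, hE, hA⟩ := HN.exists_supp A
  obtain ⟨hEc, k, hEk⟩ := hE
  have hE : IsSp E := ⟨hEc, k, hEk⟩
  have hY := fun l => HN.exists_Xk A E hE hA l
  choose Y hY1 hY2 using hY
  by_cases hcase : ∃ l, k ≤ l ∧ ∃ q ≤ p, Frc q (ud_isFin.val ![Y l])ᶜ
  · obtain ⟨l, -, q, hq, h1⟩ := hcase
    have hYC : ∀ w, HN.mem w (Y l) ≤ HN.inC (HN.Wk l) w := fun w => by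
      rw [hY1]; exact inf_le_right
    letI : Inhabited HN.{0} := ⟨emp0⟩
    obtain ⟨q', hq', z, hz⟩ := fusion_seq (α := HN.{0}) (fun n z q a => a ∈ HN.Wk l ∧
      Frc q (HN.mem a (Y l)) ∧ ∀ i < n, Frc q (HN.eq (z i) a)ᶜ) (by
        rintro n z z' r a hzz ⟨h2, h3, h4⟩
        exact ⟨h2, h3, fun i hi => by rw [← hzz i hi]; exact h4 i hi⟩) (by
        rintro n z r r' a hr ⟨h2, h3, h4⟩
        exact ⟨h2, h3.lower hr, fun i hi => (h4 i hi).lower hr⟩) q (by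
        intro n z r hr _
        obtain ⟨q', hq', ζ, h2, h3, h4⟩ := exists_new hYC (h1.lower hr) n z
        exact ⟨q', hq', ζ, h2, h3, h4⟩)
    obtain ⟨E', hE'c, hE'l, hE'⟩ := exists_common (fun n => (hz n).1)
    obtain ⟨F, hF1, hF2⟩ := HN.exists_seq z ⟨hE'c, l, hE'l⟩ hE'
    obtain ⟨𝔐, h𝔐⟩ := exists_mod {A, F} ((Set.countable_singleton F).insert A)
      (fun _ x => Set.range fun n => HN.eq x (HN.opair (HN.nat n) (z n))) q'
    obtain ⟨a, ha⟩ := h𝔐 A (Set.mem_insert _ _)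
    obtain ⟨f, hf⟩ := h𝔐 F (Set.mem_insert_of_mem _ rfl)
    have h2 : ∀ n y, 𝔐.G.R y (z n) → ZM.E y a := fun n y hy => by
      rw [Mod.E_def, GModel.R_mem hy ha]
      refine 𝔐.gen _ ((hz n).2.1.mono ?_)
      rw [hY1]
      exact inf_le_left
    obtain ⟨h3, h4⟩ := 𝔐.seq hF1 (k := 0) (fun _ => rfl) hf h2
    have h5 := (GModel.los_ud ud_idi (vec1 (Q := 𝔐.G.R) ha)).2 (𝔐.gen _ (hp.lower (hq'.trans hq)))
    refine h5.2 (𝔐.std.omega_le ⟨f, h3, fun i j hij => ?_⟩)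
    by_contra hne
    have key : ∀ i j, i < j → ap f (𝔐.N i) ≠ ap f (𝔐.N j) := by
      intro i j hij he
      rw [GModel.R_eq (h4 i) (h4 j)] at he
      exact GModel.not_both he (𝔐.gen _ ((hz j).2.2 i hij))
    rcases Nat.lt_or_gt_of_ne hne with h | h
    · exact key i j h hij
    · exact key j i h hij.symm
  · push Not at hcase
    have hfin : ∀ l, k ≤ l → Frc p (ud_isFin.val ![Y l]) := fun l hl => frc_dense fun q hq => by
      obtain ⟨r, hr, h | h⟩ := frc_decide q (ud_isFin.val ![Y l])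
      · exact ⟨r, hr, h⟩
      · exact (hcase l hl r (hr.trans hq) h).elim
    have h1 : ∀ ζ, pr p ⊓ HN.mem ζ A ≤ HN.mem ζ (Y k) := by
      intro ζ
      obtain ⟨l, hl⟩ := HN.exists_Wk ζ
      have h2 : HN.mem ζ A ≤ HN.mem ζ (Y (max k l)) := by
        rw [hY1, HN.inC_top (hl _ (le_max_right _ _)), inf_top_eq]
      have h3 := fin_sub hE (hY2 (max k l)) ζ
      rw [hY1]
      refine le_inf inf_le_right (le_trans ?_ (h3.trans
        (HN.inC_mono (HN.We_sub_Wk hEc hEk) ζ)))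
      exact inf_le_inf (pr_le (hfin _ (le_max_left _ _))) h2
    have h2 : pr p ≤ HN.eq (Y k) A := bEqOfMem (fun ζ => inf_le_right.trans (by
      rw [hY1]; exact inf_le_left)) h1
    have h3 : Frc p (ud_isFin.val ![A]) := by
      refine Frc.mono (ud_isFin.val_congr (a := ![Y k]) (vec1 (Q := fun x y => pr p ≤ HN.eq x y) h2)
        (pr_le (hfin k le_rfl))) (frc_pr_self p)
    refine frc_of_mod' {A} (Set.countable_singleton A) noG (fun q hq 𝔐 h𝔐 hb => ?_)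
      (frc_inf.2 ⟨hp, h3⟩)
    obtain ⟨a, ha⟩ := h𝔐 A rfl
    have h4 := (GModel.los_ud ud_idi (vec1 (Q := 𝔐.G.R) ha)).2 (𝔐.G.up _ hb _ inf_le_left)
    exact h4.1 ((GModel.los_ud ud_isFin (vec1 (Q := 𝔐.G.R) ha)).2 (𝔐.G.up _ hb _ inf_le_right))

/-- IDI holds in all the models -/
theorem Mod.idi {𝒢 : ℕ → HN.{0} → Set BB} {p : Cond} (𝔐 : Mod 𝒢 p) : IDI 𝔐.G.E := by
  intro A hA
  by_contra hc
  have h1 := (GModel.los_ud ud_idi (vec1 (Q := 𝔐.G.R) (GModel.R_refl A))).1 ⟨hA, hc⟩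
  obtain ⟨q, -, h2⟩ := 𝔐.den _ h1
  exact idi_frc q _ h2

end Pool.Agent.Helper23.SM
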