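import Pool.Agent.Helper23.SM.Fmla

set_option autoImplicit false

/-!
# Countable models from generic sequences of conditions
-/

universe u v w

namespace Pool.Agent.Helper23.SM

open WT (iffV bElim bOr bMP bImp bNot bAbs bAll bEx bIff bIff_mp bIff_mpr bLeft bRight bCases bContra eq_of_forall iffV_self iffV_eq_top)
open WT (Fm)

/-- the empty name -/
def emp0 : HN.{u} := ⟨Nm.mk PEmpty (fun i => i.elim) (fun i => i.elim),
  fun i => i.elim, ∅, isSp_empty, fun g _ => by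
    rw [Nm.act_mk, Nm.eq_mk]
    simp⟩

instance : Nonempty HN.{u} := ⟨emp0⟩

theorem exists_wit (F : HN.{u} → BB) (p : Cond) :
    ∃ r : Cond × HN.{u}, r.1 ≤ p ∧ (Frc r.1 (F r.2) ∨ Frc r.1 (⨆ x, F x)ᶜ) := by
  obtain ⟨q, hq, h | h⟩ := frc_decide p (⨆ x, F x)
  · obtain ⟨r, hr, x, hx⟩ := frc_iSup.1 h q le_rfl
    exact ⟨(r, x), hr.trans hq, Or.inl hx⟩
  · exact ⟨(q, emp0), hq, Or.inr h⟩

/-- the Skolem witnesses -/
noncomputable def wit (A : Set HN.{u}) (n : ℕ) (t : (Fm A (n + 1) × (Fin n → A)) × Cond) :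
    Cond × HN.{u} :=
  (exists_wit (fun x : HN.{u} =>
    vl (fun a : A => a.1) t.1.1 (Matrix.vecCons x (fun i => (t.1.2 i).1))) t.2).choose

theorem wit_spec (A : Set HN.{u}) (n : ℕ) (t : (Fm A (n + 1) × (Fin n → A)) × Cond) :
    (wit A n t).1 ≤ t.2 ∧ (Frc (wit A n t).1 (vl (fun a : A => a.1) t.1.1
      (Matrix.vecCons (wit A n t).2 (fun i => (t.1.2 i).1))) ∨
      Frc (wit A n t).1 (⨆ x, vl (fun a : A => a.1) t.1.1
        (Matrix.vecCons x (fun i => (t.1.2 i).1)))ᶜ) :=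
  (exists_wit (fun x : HN.{u} =>
    vl (fun a : A => a.1) t.1.1 (Matrix.vecCons x (fun i => (t.1.2 i).1))) t.2).choose_spec

theorem exists_fam (B : Set BB) (p : Cond) :
    ∃ q ≤ p, (∃ b ∈ B, Frc q b) ∨ Frc q (sSup B)ᶜ := by
  obtain ⟨q, hq, h | h⟩ := frc_decide p (sSup B)
  · rw [sSup_eq_iSup'] at h
    obtain ⟨r, hr, b, hb⟩ := frc_iSup.1 h q le_rfl
    exact ⟨r, hr.trans hq, Or.inl ⟨b.1, b.2, hb⟩⟩
  · exact ⟨q, hq, Or.inr h⟩

/-- meeting a family -/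
noncomputable def fam (𝓖 : ℕ → HN.{u} → HN.{u} → Set BB) (t : (ℕ × HN.{u} × HN.{u}) × Cond) : Cond :=
  (exists_fam (𝓖 t.1.1 t.1.2.1 t.1.2.2) t.2).choose

theorem fam_spec (𝓖 : ℕ → HN.{u} → HN.{u} → Set BB) (t : (ℕ × HN.{u} × HN.{u}) × Cond) :
    fam 𝓖 t ≤ t.2 ∧ ((∃ b ∈ 𝓖 t.1.1 t.1.2.1 t.1.2.2, Frc (fam 𝓖 t) b) ∨
      Frc (fam 𝓖 t) (sSup (𝓖 t.1.1 t.1.2.1 t.1.2.2))ᶜ) :=
  (exists_fam (𝓖 t.1.1 t.1.2.1 t.1.2.2) t.2).choose_spec

/-- decision -/
noncomputable def dec (A : Set HN.{u}) (n : ℕ) (t : (Fm A n × (Fin n → A)) × Cond) : Cond :=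
  (frc_decide t.2 (vl (fun a : A => a.1) t.1.1 (fun i => (t.1.2 i).1))).choose

theorem dec_spec (A : Set HN.{u}) (n : ℕ) (t : (Fm A n × (Fin n → A)) × Cond) :
    dec A n t ≤ t.2 ∧ (Frc (dec A n t) (vl (fun a : A => a.1) t.1.1 (fun i => (t.1.2 i).1)) ∨
      Frc (dec A n t) (vl (fun a : A => a.1) t.1.1 (fun i => (t.1.2 i).1))ᶜ) :=
  (frc_decide t.2 (vl (fun a : A => a.1) t.1.1 (fun i => (t.1.2 i).1))).choose_spec

/-- one step of the closure -/
noncomputable def stepQ (𝓖 : ℕ → HN.{u} → HN.{u} → Set BB) (A : Set HN.{u} × Set Cond) :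
    Set HN.{u} × Set Cond :=
  (A.1 ∪ ⋃ (n : ℕ), (fun t => (wit A.1 n t).2) '' (Set.univ ×ˢ A.2),
   A.2 ∪ (⋃ (n : ℕ), (fun t => (wit A.1 n t).1) '' (Set.univ ×ˢ A.2)) ∪
    (⋃ (n : ℕ), (fun t => dec A.1 n t) '' (Set.univ ×ˢ A.2)) ∪
    (fam 𝓖 '' ((Set.univ ×ˢ (A.1 ×ˢ A.1)) ×ˢ A.2)))

theorem stepQ_countable (𝓖 : ℕ → HN.{u} → HN.{u} → Set BB) {A : Set HN.{u} × Set Cond}
    (hA : A.1.Countable ∧ A.2.Countable) :
    (stepQ 𝓖 A).1.Countable ∧ (stepQ 𝓖 A).2.Countable := by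
  obtain ⟨h1, h2⟩ := hA
  have : Countable A.1 := h1.to_subtype
  constructor
  · refine h1.union (Set.countable_iUnion fun n => Set.Countable.image ?_ _)
    exact Set.countable_univ.prod h2
  · refine ((h2.union (Set.countable_iUnion fun n => Set.Countable.image ?_ _)).union
      (Set.countable_iUnion fun n => Set.Countable.image ?_ _)).union (Set.Countable.image ?_ _)
    · exact Set.countable_univ.prod h2
    · exact Set.countable_univ.prod h2
    · exact (Set.countable_univ.prod (h1.prod h1)).prod h2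

theorem exists_S (𝓖 : ℕ → HN.{u} → HN.{u} → Set BB) (A₀ : Set HN.{u}) (hA : A₀.Countable)
    (p₀ : Cond) : ∃ (S : Set HN.{u}) (Q : Set Cond), A₀ ⊆ S ∧ S.Countable ∧ p₀ ∈ Q ∧
    (∀ p ∈ Q, ∀ (n : ℕ) (f : Fm S (n + 1)) (v : Fin n → S), ∃ q ∈ Q, q ≤ p ∧
      ((∃ x ∈ S, Frc q (vl (fun a : S => a.1) f (Matrix.vecCons x (fun i => (v i).1)))) ∨
        Frc q (⨆ x, vl (fun a : S => a.1) f (Matrix.vecCons x (fun i => (v i).1)))ᶜ)) ∧
    (∀ p ∈ Q, ∀ (n : ℕ) (f : Fm S n) (v : Fin n → S), ∃ q ∈ Q, q ≤ p ∧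
      (Frc q (vl (fun a : S => a.1) f (fun i => (v i).1)) ∨
        Frc q (vl (fun a : S => a.1) f (fun i => (v i).1))ᶜ)) ∧
    (∀ p ∈ Q, ∀ (k : ℕ) (a a' : HN.{u}), a ∈ S → a' ∈ S → ∃ q ∈ Q, q ≤ p ∧
      ((∃ b ∈ 𝓖 k a a', Frc q b) ∨ Frc q (sSup (𝓖 k a a'))ᶜ)) := by
  let A : ℕ → Set HN.{u} × Set Cond := fun k => (stepQ 𝓖)^[k] (A₀, {p₀})
  have hA1 : ∀ k, A (k + 1) = stepQ 𝓖 (A k) := fun k => Function.iterate_succ_apply' _ _ _
  have hmono1 : Monotone (fun k => (A k).1) := monotone_nat_of_le_succ fun k => by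
    show (A k).1 ⊆ (A (k + 1)).1
    rw [hA1]; exact Set.subset_union_left
  have hmono2 : Monotone (fun k => (A k).2) := monotone_nat_of_le_succ fun k => by
    show (A k).2 ⊆ (A (k + 1)).2
    rw [hA1]
    exact (Set.subset_union_left.trans Set.subset_union_left).trans Set.subset_union_left
  have hc : ∀ k, (A k).1.Countable ∧ (A k).2.Countable := by
    intro k
    induction k with
    | zero => exact ⟨hA, Set.countable_singleton _⟩
    | succ k ih => rw [hA1]; exact stepQ_countable 𝓖 ih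
  refine ⟨⋃ k, (A k).1, ⋃ k, (A k).2, Set.subset_iUnion (fun k => (A k).1) 0,
    Set.countable_iUnion fun k => (hc k).1, Set.mem_iUnion.2 ⟨0, Set.mem_singleton _⟩, ?_, ?_, ?_⟩
  · intro p hp n f v
    obtain ⟨k0, hk0⟩ := Set.mem_iUnion.1 hp
    obtain ⟨k, hk⟩ := Fm.fin_params hmono1 f
    have hv : ∀ i, ∃ l, (v i).1 ∈ (A l).1 := fun i => Set.mem_iUnion.1 (v i).2
    choose l hl using hv
    let K := max k0 (max k (Finset.univ.sup l))
    have hK : ∀ i, (v i).1 ∈ (A K).1 := fun i =>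
      hmono1 ((Finset.le_sup (f := l) (Finset.mem_univ i)).trans
        ((le_max_right _ _).trans (le_max_right _ _))) (hl i)
    have hpK : p ∈ (A K).2 := hmono2 (le_max_left _ _) hk0
    obtain ⟨f', hf'⟩ := hk K ((le_max_left _ _).trans (le_max_right _ _))
    have hval : ∀ x : HN.{u}, vl (fun a : (⋃ k, (A k).1 : Set HN.{u}) => a.1) f
        (Matrix.vecCons x (fun i => (v i).1)) =
        vl (fun a : (A K).1 => a.1) f' (Matrix.vecCons x (fun i => (v i).1)) := by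
      intro x
      rw [hf', vl_map]
      rfl
    simp only [hval]
    have h := wit_spec (A K).1 n ((f', fun i => ⟨(v i).1, hK i⟩), p)
    refine ⟨(wit (A K).1 n ((f', fun i => ⟨(v i).1, hK i⟩), p)).1, ?_, h.1, ?_⟩
    · refine Set.mem_iUnion.2 ⟨K + 1, ?_⟩
      rw [hA1]
      exact Or.inl (Or.inl (Or.inr (Set.mem_iUnion.2 ⟨n, _, ⟨trivial, hpK⟩, rfl⟩)))
    · rcases h.2 with h | h
      · left
        refine ⟨_, ?_, h⟩
        refine Set.mem_iUnion.2 ⟨K + 1, ?_⟩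
        rw [hA1]
        exact Or.inr (Set.mem_iUnion.2 ⟨n, _, ⟨trivial, hpK⟩, rfl⟩)
      · exact Or.inr h
  · intro p hp n f v
    obtain ⟨k0, hk0⟩ := Set.mem_iUnion.1 hp
    obtain ⟨k, hk⟩ := Fm.fin_params hmono1 f
    have hv : ∀ i, ∃ l, (v i).1 ∈ (A l).1 := fun i => Set.mem_iUnion.1 (v i).2
    choose l hl using hv
    let K := max k0 (max k (Finset.univ.sup l))
    have hK : ∀ i, (v i).1 ∈ (A K).1 := fun i =>
      hmono1 ((Finset.le_sup (f := l) (Finset.mem_univ i)).trans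
        ((le_max_right _ _).trans (le_max_right _ _))) (hl i)
    have hpK : p ∈ (A K).2 := hmono2 (le_max_left _ _) hk0
    obtain ⟨f', hf'⟩ := hk K ((le_max_left _ _).trans (le_max_right _ _))
    have hval : vl (fun a : (⋃ k, (A k).1 : Set HN.{u}) => a.1) f (fun i => (v i).1) =
        vl (fun a : (A K).1 => a.1) f' (fun i => (v i).1) := by
      rw [hf', vl_map]
      rfl
    simp only [hval]
    have h := dec_spec (A K).1 n ((f', fun i => ⟨(v i).1, hK i⟩), p)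
    refine ⟨dec (A K).1 n ((f', fun i => ⟨(v i).1, hK i⟩), p), ?_, h.1, h.2⟩
    refine Set.mem_iUnion.2 ⟨K + 1, ?_⟩
    rw [hA1]
    exact Or.inl (Or.inr (Set.mem_iUnion.2 ⟨n, _, ⟨trivial, hpK⟩, rfl⟩))
  · intro p hp k a a' ha ha'
    obtain ⟨k0, hk0⟩ := Set.mem_iUnion.1 hp
    obtain ⟨k1, hk1⟩ := Set.mem_iUnion.1 ha
    obtain ⟨k2, hk2⟩ := Set.mem_iUnion.1 ha'
    let K := max k0 (max k1 k2)
    have hpK : p ∈ (A K).2 := hmono2 (le_max_left _ _) hk0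
    have haK : a ∈ (A K).1 := hmono1 ((le_max_left _ _).trans (le_max_right _ _)) hk1
    have haK' : a' ∈ (A K).1 := hmono1 ((le_max_right _ _).trans (le_max_right _ _)) hk2
    have h := fam_spec 𝓖 ((k, a, a'), p)
    refine ⟨fam 𝓖 ((k, a, a'), p), ?_, h.1, h.2⟩
    refine Set.mem_iUnion.2 ⟨K + 1, ?_⟩
    rw [hA1]
    exact Or.inr ⟨((k, a, a'), p), ⟨⟨trivial, haK, haK'⟩, hpK⟩, rfl⟩

/-- a model obtained from a generic sequence -/
structure GModel (𝓖 : ℕ → HN.{u} → HN.{u} → Set BB) where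
  M : Type
  rep : M → HN.{u}
  U : Set BB
  top : ⊤ ∈ U
  bot : ⊥ ∉ U
  up : ∀ a ∈ U, ∀ b, a ≤ b → b ∈ U
  inf : ∀ a ∈ U, ∀ b ∈ U, a ⊓ b ∈ U
  eq_iff : ∀ a b : M, a = b ↔ HN.eq (rep a) (rep b) ∈ U
  los : ∀ (n : ℕ) (f : Fm M n) (v : Fin n → M),
    f.Sat (fun a b => HN.mem (rep a) (rep b) ∈ U) id v ↔ vl rep f (fun i => rep (v i)) ∈ U
  gen : ∀ k (m m' : M), (∃ b ∈ 𝓖 k (rep m) (rep m'), b ∈ U) ∨ (sSup (𝓖 k (rep m) (rep m')))ᶜ ∈ U

theorem exists_model (A₀ : Set HN.{u}) (hA : A₀.Countable) (𝓖 : ℕ → HN.{u} → HN.{u} → Set BB)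
    (p₀ : Cond) : ∃ G : GModel 𝓖, (∀ a ∈ A₀, ∃ m : G.M, HN.eq (G.rep m) a ∈ G.U) ∧
      (∀ b, Frc p₀ b → b ∈ G.U) ∧ (∀ b ∈ G.U, ∃ q ≤ p₀, Frc q b) := by
  obtain ⟨S, Q, hS0, hSc, hpQ, hE, hD, hG⟩ := exists_S 𝓖 (insert emp0 A₀) (hA.insert _) p₀
  have hne : S.Nonempty := ⟨emp0, hS0 (Set.mem_insert _ _)⟩
  obtain ⟨r, hr⟩ := hSc.exists_eq_range hne
  have hrS : ∀ j, r j ∈ S := fun j => by rw [hr]; exact Set.mem_range_self j
  -- the tasks
  let I := (Σ n : ℕ, Fm ℕ n × (Fin n → ℕ)) ⊕ (Σ n : ℕ, Fm ℕ (n + 1) × (Fin n → ℕ)) ⊕ (ℕ × ℕ × ℕ)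
  have : Nonempty I := ⟨Sum.inr (Sum.inr (0, 0, 0))⟩
  obtain ⟨en, hen⟩ := exists_surjective_nat I
  let T : I → Cond → Prop := fun i q => match i with
    | Sum.inl ⟨n, t⟩ => Frc q (vl r t.1 (fun i => r (t.2 i))) ∨ Frc q (vl r t.1 (fun i => r (t.2 i)))ᶜ
    | Sum.inr (Sum.inl ⟨n, t⟩) =>
      (∃ j, Frc q (vl r t.1 (Matrix.vecCons (r j) (fun i => r (t.2 i))))) ∨
        Frc q (⨆ x, vl r t.1 (Matrix.vecCons x (fun i => r (t.2 i))))ᶜ
    | Sum.inr (Sum.inr t) => (∃ b ∈ 𝓖 t.1 (r t.2.1) (r t.2.2), Frc q b) ∨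
        Frc q (sSup (𝓖 t.1 (r t.2.1) (r t.2.2)))ᶜ
  have step : ∀ (k : ℕ) (p : Q), ∃ q : Q, q.1 ≤ p.1 ∧ T (en k) q.1 := by
    intro k p
    cases hi : en k with
    | inl t =>
      obtain ⟨n, t⟩ := t
      obtain ⟨q, hq, hqp, h⟩ := hD p.1 p.2 n (t.1.map (fun j : ℕ => (⟨r j, hrS j⟩ : S)))
        (fun i => ⟨r (t.2 i), hrS _⟩)
      simp only [vl_map] at h
      exact ⟨⟨q, hq⟩, hqp, h⟩
    | inr t =>
      cases t with
      | inl t =>
        obtain ⟨n, t⟩ := t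
        obtain ⟨q, hq, hqp, h⟩ := hE p.1 p.2 n (t.1.map (fun j : ℕ => (⟨r j, hrS j⟩ : S)))
          (fun i => ⟨r (t.2 i), hrS _⟩)
        simp only [vl_map] at h
        refine ⟨⟨q, hq⟩, hqp, ?_⟩
        rcases h with ⟨x, hx, h⟩ | h
        · rw [hr] at hx
          obtain ⟨j, rfl⟩ := hx
          exact Or.inl ⟨j, h⟩
        · exact Or.inr h
      | inr t =>
        obtain ⟨q, hq, hqp, h⟩ := hG p.1 p.2 t.1 (r t.2.1) (r t.2.2) (hrS _) (hrS _)
        exact ⟨⟨q, hq⟩, hqp, h⟩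
  choose nx hnx hnx' using step
  let p : ℕ → Q := fun n => Nat.rec ⟨p₀, hpQ⟩ (fun k q => nx k q) n
  have hp : ∀ n, p (n + 1) = nx n (p n) := fun n => rfl
  have hanti : ∀ n m, n ≤ m → (p m).1 ≤ (p n).1 := fun n m hnm =>
    antitone_nat_of_succ_le (f := fun n => (p n).1) (fun n => by
      show (p (n + 1)).1 ≤ _
      rw [hp]; exact hnx n (p n)) hnm
  let U : Set BB := {b | ∃ n, Frc (p n).1 b}
  have htop : (⊤ : BB) ∈ U := ⟨0, frc_top⟩
  have hbot : (⊥ : BB) ∉ U := fun ⟨n, hn⟩ => hn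
  have hup : ∀ a ∈ U, ∀ b, a ≤ b → b ∈ U := fun a ⟨n, hn⟩ b hab => ⟨n, hn.mono hab⟩
  have hinf : ∀ a ∈ U, ∀ b ∈ U, a ⊓ b ∈ U := fun a ⟨n, hn⟩ b ⟨m, hm⟩ =>
    ⟨max n m, frc_inf.2 ⟨hn.lower (hanti _ _ (le_max_left _ _)),
      hm.lower (hanti _ _ (le_max_right _ _))⟩⟩
  have hU' : ∀ i, ∃ n, T i (p n).1 := fun i => by
    obtain ⟨k, rfl⟩ := hen i
    exact ⟨k + 1, by rw [hp]; exact hnx' k (p k)⟩
  -- the quotient
  let st : Setoid ℕ :=
    { r := fun i j => HN.eq (r i) (r j) ∈ U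
      iseqv :=
        { refl := fun i => by
            show HN.eq (r i) (r i) ∈ U
            rw [HN.eq_refl]; exact htop
          symm := fun {i j} h => by
            show HN.eq (r j) (r i) ∈ U
            rw [HN.eq_symm]; exact h
          trans := fun {i j k} h h' => hup _ (hinf _ h _ h') _
            (HN.bTrans inf_le_left inf_le_right) } }
  let M := Quotient st
  let rep : M → HN.{u} := fun m => r m.out
  have hrep : ∀ j : ℕ, HN.eq (rep (Quotient.mk st j)) (r j) ∈ U := fun j =>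
    Quotient.exact (Quotient.out_eq (Quotient.mk st j))
  have heq : ∀ a b : M, a = b ↔ HN.eq (rep a) (rep b) ∈ U := by
    intro a b
    constructor
    · rintro rfl
      rw [HN.eq_refl]; exact htop
    · intro h
      rw [← Quotient.out_eq a, ← Quotient.out_eq b]
      exact Quotient.sound h
  have hvalrep : ∀ (n : ℕ) (f : Fm M n) (v : Fin n → HN.{u}),
      vl rep f v = vl r (f.map (fun m : M => m.out)) v := fun n f v => by
    rw [vl_map]; rfl
  have hdec : ∀ (n : ℕ) (f : Fm M n) (v : Fin n → M),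
      vl rep f (fun i => rep (v i)) ∈ U ∨ (vl rep f (fun i => rep (v i)))ᶜ ∈ U := by
    intro n f v
    obtain ⟨k, h⟩ := hU' (Sum.inl ⟨n, f.map (fun m : M => m.out), fun i => (v i).out⟩)
    rw [hvalrep]
    rcases h with h | h
    · exact Or.inl ⟨k, h⟩
    · exact Or.inr ⟨k, h⟩
  have hlos : ∀ (n : ℕ) (f : Fm M n) (v : Fin n → M),
      f.Sat (fun a b => HN.mem (rep a) (rep b) ∈ U) id v ↔ vl rep f (fun i => rep (v i)) ∈ U := by
    intro n f v
    have hterm : ∀ (n : ℕ) (v : Fin n → M) (s : Fin n ⊕ M),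
        Sum.elim (fun i => rep (v i)) rep s = rep (Sum.elim v id s) := by
      intro n v s
      cases s <;> rfl
    induction f with
    | mem s t => rw [Fm.sat_mem, vl_mem, hterm, hterm]
    | eq s t => rw [Fm.sat_eq, vl_eq, hterm, hterm, heq]
    | fls => simp [hbot]
    | imp f g hf hg =>
      rw [Fm.sat_imp, vl_imp]
      constructor
      · intro h
        rcases hdec _ f v with h1 | h1
        · exact hup _ ((hg v).1 (h ((hf v).2 h1))) _ (by rw [himp_eq]; exact le_sup_left)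
        · exact hup _ h1 _ (by rw [himp_eq]; exact le_sup_right)
      · intro h h1
        exact (hg v).2 (hup _ (hinf _ h _ ((hf v).1 h1)) _ himp_inf_le)
    | @all n f hf =>
      rw [Fm.sat_all, vl_all]
      constructor
      · intro h
        by_contra hc
        have h1 := (hdec n (Fm.all f) v).resolve_left (by rw [vl_all]; exact hc)
        rw [vl_all, compl_iInf] at h1
        obtain ⟨k, h2⟩ := hU' (Sum.inr (Sum.inl ⟨n, f.neg.map (fun m : M => m.out),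
          fun i => (v i).out⟩))
        have h3 : ∀ x : HN.{u}, (vl rep f (Matrix.vecCons x (fun i => rep (v i))))ᶜ =
            vl r (f.neg.map (fun m : M => m.out)) (Matrix.vecCons x (fun i => r ((v i).out))) := by
          intro x
          rw [← vl_neg, hvalrep]
        rcases h2 with ⟨j, h2⟩ | h2
        · simp only at h2
          rw [← h3] at h2
          have h6 := (hf (Matrix.vecCons (Quotient.mk st j) v)).1 (h (Quotient.mk st j))
          have h7 := hup _ (hinf _ h6 _ (hrep j)) _ (vl_congr f (e := rep) (e' := rep)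
            (v := fun i => rep (Matrix.vecCons (Quotient.mk st j) v i))
            (v' := Matrix.vecCons (r j) (fun i => rep (v i)))
            (fun c => HN.bRefl _) (fun i => by
              refine Fin.cases ?_ (fun i => ?_) i
              · exact inf_le_right
              · exact HN.bRefl _) inf_le_left)
          exact hbot (hup _ (hinf _ h7 _ ⟨k, h2⟩) _ inf_compl_eq_bot.le)
        · simp only [← h3] at h2
          exact hbot (hup _ (hinf _ h1 _ ⟨k, h2⟩) _ inf_compl_eq_bot.le)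
      · intro h x
        refine (hf _).2 (hup _ h _ ((iInf_le _ (rep x)).trans (le_of_eq ?_)))
        congr 1
        funext i
        refine Fin.cases ?_ (fun i => ?_) i <;> rfl
  refine ⟨⟨M, rep, U, htop, hbot, hup, hinf, heq, hlos, fun k m m' => ?_⟩, fun a ha => ?_,
    fun b hb => ⟨0, hb⟩, ?_⟩
  · obtain ⟨j, h⟩ := hU' (Sum.inr (Sum.inr (k, m.out, m'.out)))
    rcases h with ⟨b, hb, h⟩ | h
    · exact Or.inl ⟨b, hb, j, h⟩
    · exact Or.inr ⟨j, h⟩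
  · have ha' : a ∈ S := hS0 (Set.mem_insert_of_mem _ ha)
    rw [hr] at ha'
    obtain ⟨j, rfl⟩ := ha'
    exact ⟨Quotient.mk st j, hrep j⟩
  · rintro b ⟨n, hn⟩
    exact ⟨(p n).1, hanti 0 n (Nat.zero_le _), hn⟩

end Pool.Agent.Helper23.SM
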