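import Pool.Agent.Helper23.SM.Defs
import Pool.Agent.Helper23.WT.Sets

set_option autoImplicit false
set_option linter.unreachableTactic false
set_option linter.unusedTactic false

/-!
# Set theory in a model of ZF with standard natural numbers
-/

universe u v w

namespace Pool.Agent.Helper23.SM

open WT

/-- the natural numbers of the model are standard -/
structure Std (M : Type) [ZM M] (o : M) (N : ℕ → M) : Prop where
  om : IsOmega (ZM.E : M → M → Prop) o
  NO : ∀ z, ZM.E z o ↔ ∃ n, z = N n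
  NE : ∀ j z, ZM.E z (N j) ↔ ∃ i < j, z = N i
  inj : ∀ i j, N i = N j → i = j

variable {M : Type} [ZM M]

theorem exists_adj (x y : M) : ∃ c : M, ∀ w, ZM.E w c ↔ ZM.E w x ∨ w = y := by
  obtain ⟨c, hc⟩ := (ZM.zf : ZF (ZM.E : M → M → Prop)).union (upair x (upair y y))
  refine ⟨c, fun w => ?_⟩
  rw [hc]
  constructor
  · rintro ⟨z, hz, hw⟩
    rcases mem_upair.1 hz with rfl | rfl
    · exact Or.inl hw
    · rcases mem_upair.1 hw with h | h <;> exact Or.inr h
  · rintro (h | rfl)
    · exact ⟨x, mem_upair.2 (Or.inl rfl), h⟩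
    · exact ⟨upair w w, mem_upair.2 (Or.inr rfl), mem_upair.2 (Or.inl rfl)⟩

theorem exists_empty : ∃ c : M, ∀ w, ¬ ZM.E w c := by
  obtain ⟨x⟩ := inh M
  have h : D1 (fun _ : M => False) := Dfn.const False
  obtain ⟨c, hc⟩ := exists_sep h x
  exact ⟨c, fun w hw => ((hc w).1 hw).2⟩

/-- finite sets exist -/
theorem exists_fset (n : ℕ) (a : ℕ → M) : ∃ c : M, ∀ w, ZM.E w c ↔ ∃ i < n, w = a i := by
  induction n with
  | zero =>
    obtain ⟨c, hc⟩ := exists_empty (M := M)
    exact ⟨c, fun w => ⟨fun h => (hc w h).elim, fun ⟨i, hi, _⟩ => (Nat.not_lt_zero i hi).elim⟩⟩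
  | succ n ih =>
    obtain ⟨c, hc⟩ := ih
    obtain ⟨d, hd⟩ := exists_adj c (a n)
    refine ⟨d, fun w => ?_⟩
    rw [hd, hc]
    constructor
    · rintro (⟨i, hi, rfl⟩ | rfl)
      · exact ⟨i, by omega, rfl⟩
      · exact ⟨n, by omega, rfl⟩
    · rintro ⟨i, hi, rfl⟩
      rcases Nat.lt_succ_iff_lt_or_eq.1 hi with h | rfl
      · exact Or.inl ⟨i, h, rfl⟩
      · exact Or.inr rfl

theorem exists_finite {S : Set M} (hS : S.Finite) : ∃ c : M, ∀ w, ZM.E w c ↔ w ∈ S := by
  rcases S.eq_empty_or_nonempty with rfl | hne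
  · obtain ⟨c, hc⟩ := exists_empty (M := M)
    exact ⟨c, fun w => ⟨fun h => (hc w h).elim, fun h => h.elim⟩⟩
  · obtain ⟨n, a, ha⟩ : ∃ (n : ℕ) (a : ℕ → M), ∀ w, w ∈ S ↔ ∃ i < n, w = a i := by
      classical
      obtain ⟨s, rfl⟩ := hS.exists_finset_coe
      obtain ⟨x0, hx0⟩ := hne
      have e := s.equivFin
      refine ⟨s.card, fun i => if h : i < s.card then (e.symm ⟨i, h⟩ : M) else x0, fun w => ?_⟩
      constructor
      · intro hw
        refine ⟨(e ⟨w, hw⟩).1, (e ⟨w, hw⟩).2, ?_⟩
        simp only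
        rw [dif_pos (e ⟨w, hw⟩).2]
        simp
      · rintro ⟨i, hi, rfl⟩
        simp only
        rw [dif_pos hi]
        exact (e.symm ⟨i, hi⟩).2
    obtain ⟨c, hc⟩ := exists_fset n a
    exact ⟨c, fun w => by rw [hc, ha]⟩

/-- `f` is an injection from `A` to `B` -/
theorem isInj_iff {f A B : M} : IsInj ZM.E f A B ↔ IsFn f A B ∧
    ∀ x x', ZM.E x A → ZM.E x' A → ap f x = ap f x' → x = x' := by
  unfold IsInj
  rw [isFun_iff]
  simp only [app_iff]
  constructor
  · rintro ⟨hf, h⟩
    exact ⟨hf, fun x x' hx hx' he => h x x' (ap f x) ((hf.mem_iff hx).2 rfl)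
      ((hf.mem_iff hx').2 he)⟩
  · rintro ⟨hf, h⟩
    refine ⟨hf, fun x x' y h1 h2 => ?_⟩
    have hx := (hf.mem_dom h1).1
    have hx' := (hf.mem_dom h2).1
    rw [hf.mem_iff hx] at h1
    rw [hf.mem_iff hx'] at h2
    exact h x x' hx hx' (h1.symm.trans h2)

namespace Std

variable {o : M} {N : ℕ → M} (S : Std M o N)

include S

theorem omega_unique {o' : M} (h : IsOmega (ZM.E : M → M → Prop) o') : o' = o :=
  WT.ext fun z => ⟨fun hz => h.2 _ S.om.1 z hz, fun hz => S.om.2 _ h.1 z hz⟩

theorem N_mem (n : ℕ) : ZM.E (N n) o := (S.NO _).2 ⟨n, rfl⟩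

/-- a function on `ω` or on a natural number given by a finite list of values -/
theorem exists_seq (n : ℕ) (a : ℕ → M) : ∃ f : M, ∀ p, ZM.E p f ↔ ∃ i < n, p = opair (N i) (a i) :=
  exists_fset n fun i => opair (N i) (a i)

theorem isFin_iff {A : M} : IsFin ZM.E A ↔ {z | ZM.E z A}.Finite := by
  constructor
  · rintro ⟨o', n, ho', hn, f, hf, hs⟩
    have e := S.omega_unique ho'
    subst e
    obtain ⟨k, rfl⟩ := (S.NO n).1 hn
    obtain ⟨hf, -⟩ := isInj_iff.1 hf
    refine ((Set.finite_lt_nat k).image (fun i => ap f (N i))).subset fun z hz => ?_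
    obtain ⟨x, hx⟩ := hs z hz
    rw [app_iff] at hx
    have hxn := (hf.mem_dom hx).1
    rw [hf.mem_iff hxn] at hx
    obtain ⟨i, hi, rfl⟩ := (S.NE k x).1 hxn
    exact ⟨i, hi, hx.symm⟩
  · intro hfin
    classical
    obtain ⟨s, hs⟩ := hfin.exists_finset_coe
    have e := s.equivFin
    have hsA : ∀ z, z ∈ s ↔ ZM.E z A := fun z => by
      rw [← Finset.mem_coe, hs]; rfl
    obtain ⟨x0⟩ := inh M
    let a : ℕ → M := fun i => if h : i < s.card then (e.symm ⟨i, h⟩ : M) else x0
    have ha : ∀ i (h : i < s.card), a i = (e.symm ⟨i, h⟩ : M) := fun i h => dif_pos h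
    obtain ⟨f, hf⟩ := S.exists_seq s.card a
    have hfn : IsFn f (N s.card) A := by
      refine ⟨fun p hp => ?_, fun x hx => ?_⟩
      · obtain ⟨i, hi, rfl⟩ := (hf p).1 hp
        exact ⟨N i, a i, (S.NE _ _).2 ⟨i, hi, rfl⟩, (hsA _).1 (by rw [ha i hi]; exact (e.symm ⟨i, hi⟩).2), rfl⟩
      · obtain ⟨i, hi, rfl⟩ := (S.NE _ _).1 hx
        refine ⟨a i, (hf _).2 ⟨i, hi, rfl⟩, fun y hy => ?_⟩
        obtain ⟨j, hj, h⟩ := (hf _).1 hy
        obtain ⟨h1, h2⟩ := opair_inj.1 h
        rw [h2, S.inj _ _ h1]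
    have hap : ∀ i (h : i < s.card), ap f (N i) = a i := fun i h =>
      ((hfn.mem_iff ((S.NE _ _).2 ⟨i, h, rfl⟩)).1 ((hf _).2 ⟨i, h, rfl⟩)).symm
    refine ⟨o, N s.card, S.om, S.N_mem _, f, isInj_iff.2 ⟨hfn, fun x x' hx hx' h => ?_⟩,
      fun y hy => ?_⟩
    · obtain ⟨i, hi, rfl⟩ := (S.NE _ _).1 hx
      obtain ⟨j, hj, rfl⟩ := (S.NE _ _).1 hx'
      rw [hap i hi, hap j hj, ha i hi, ha j hj] at h
      have := e.symm.injective (Subtype.ext h)
      rw [Fin.mk.injEq] at this
      rw [this]
    · have hy' := (hsA y).2 hy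
      refine ⟨N (e ⟨y, hy'⟩).1, ?_⟩
      rw [app_iff]
      refine (hf _).2 ⟨(e ⟨y, hy'⟩).1, (e ⟨y, hy'⟩).2, ?_⟩
      rw [ha _ (e ⟨y, hy'⟩).2]
      simp

theorem cardLe_iff {A B : M} : CardLe ZM.E A B ↔ ∃ f : M, IsFn f A B ∧
    ∀ x x', ZM.E x A → ZM.E x' A → ap f x = ap f x' → x = x' := by
  unfold CardLe
  simp only [isInj_iff]

theorem omega_le {A : M} (h : ∃ f : M, IsFn f o A ∧
    ∀ i j, ap f (N i) = ap f (N j) → i = j) : ∃ o', IsOmega ZM.E o' ∧ CardLe ZM.E o' A := by
  obtain ⟨f, hf, h⟩ := h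
  refine ⟨o, S.om, S.cardLe_iff.2 ⟨f, hf, fun x x' hx hx' he => ?_⟩⟩
  obtain ⟨i, rfl⟩ := (S.NO _).1 hx
  obtain ⟨j, rfl⟩ := (S.NO _).1 hx'
  rw [h i j he]

/-- a set which is the range of a function on `ω` is countable -/
theorem isCnt_of_surj {A f : M} (hf : IsFn f o A) (hs : ∀ y, ZM.E y A → ∃ i, ap f (N i) = y) :
    IsCnt ZM.E A := by
  classical
  by_cases hfin : {z | ZM.E z A}.Finite
  · exact Or.inl (S.isFin_iff.2 hfin)
  · right
    -- the first occurrences
    let P : ℕ → Prop := fun i => ∀ j < i, ap f (N j) ≠ ap f (N i)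
    have hP : (setOf P).Infinite := by
      intro hP
      refine hfin ((hP.image fun i => ap f (N i)).subset fun y hy => ?_)
      obtain ⟨i, hi⟩ := hs y hy
      have hex : ∃ i, ap f (N i) = y := ⟨i, hi⟩
      refine ⟨Nat.find hex, fun j hj he => ?_, Nat.find_spec hex⟩
      exact Nat.find_min hex hj (he.trans (Nat.find_spec hex))
    -- the number of first occurrences below i
    let c : ℕ → ℕ := Nat.count P
    -- the set of pairs (c i, f i) for P i
    have hD : D1 (fun p : M => ∃ i y, ZM.E i o ∧ p = opair i y ∧ ∃ k, ZM.E k o ∧ y = ap f k ∧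
        (∀ j, ZM.E j k → ¬ ap f j = ap f k) ∧ ∃ g, IsFn g i k ∧
        (∀ x x', ZM.E x i → ZM.E x' i → ap g x = ap g x' → x = x') ∧
        ∀ j, ZM.E j k → ((∀ l, ZM.E l j → ¬ ap f l = ap f j) ↔ ∃ x, ZM.E x i ∧ ap g x = j)) := by
      (repeat' first
    | with_reducible apply DF.lam | with_reducible apply DF.ap
    | with_reducible apply Dfn.isFn | with_reducible apply DF.prod
    | with_reducible apply DF.funs
    | with_reducible apply DF.pow | with_reducible apply DF.opair
    | with_reducible apply DF.upair | with_reducible assumption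
    | with_reducible exact DF.var _ | with_reducible exact DF.const _
    | with_reducible exact Dfn.const _ | with_reducible apply DF.the
    | with_reducible apply DF.mkS | with_reducible apply Dfn.mem
    | with_reducible apply Dfn.eq | with_reducible apply Dfn.and
    | with_reducible apply Dfn.or | with_reducible apply Dfn.iff
    | with_reducible apply Dfn.imp | with_reducible apply Dfn.not
    | with_reducible apply Dfn.exu | with_reducible apply Dfn.ex
    | with_reducible apply Dfn.all)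
    obtain ⟨h, hh⟩ := exists_sep hD (prod o A)
    have key : ∀ i y, ZM.E (opair (N i) y) h ↔ ∃ k, P k ∧ c k = i ∧ y = ap f (N k) := by
      intro i y
      rw [hh]
      constructor
      · rintro ⟨-, i', y', hi', he, k, hk, rfl, h1, g, hg, hg', h2⟩
        obtain ⟨rfl, rfl⟩ := opair_inj.1 he
        obtain ⟨k, rfl⟩ := (S.NO k).1 hk
        have hPk : P k := fun j hj => h1 (N j) ((S.NE _ _).2 ⟨j, hj, rfl⟩)
        refine ⟨k, hPk, ?_, rfl⟩
        -- count
        have hgv : ∀ x < i, ∃ j < k, ap g (N x) = N j := fun x hx =>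
          (S.NE _ _).1 (hg.ap_mem ((S.NE _ _).2 ⟨x, hx, rfl⟩))
        choose! G hG1 hG2 using hgv
        have hcard : (Finset.filter P (Finset.range k)) = (Finset.range i).image G := by
          ext j
          rw [Finset.mem_filter, Finset.mem_range, Finset.mem_image]
          constructor
          · rintro ⟨hj, hPj⟩
            have h3 := (h2 (N j) ((S.NE _ _).2 ⟨j, hj, rfl⟩)).1 (fun l hl => by
              obtain ⟨l, hl', rfl⟩ := (S.NE _ _).1 hl
              exact hPj l hl')
            obtain ⟨x, hx, hxj⟩ := h3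
            obtain ⟨x, hx', rfl⟩ := (S.NE _ _).1 hx
            refine ⟨x, Finset.mem_range.2 hx', ?_⟩
            rw [hG2 x hx'] at hxj
            exact S.inj _ _ hxj
          · rintro ⟨x, hx, rfl⟩
            rw [Finset.mem_range] at hx
            refine ⟨hG1 x hx, fun l hl => ?_⟩
            exact (h2 (N (G x)) ((S.NE _ _).2 ⟨_, hG1 x hx, rfl⟩)).2
              ⟨N x, (S.NE _ _).2 ⟨x, hx, rfl⟩, hG2 x hx⟩ (N l) ((S.NE _ _).2 ⟨l, hl, rfl⟩)
        show Nat.count P k = i
        rw [Nat.count_eq_card_filter_range, hcard, Finset.card_image_of_injOn, Finset.card_range]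
        intro x hx x' hx' he
        rw [Finset.mem_coe, Finset.mem_range] at hx hx'
        have := hg' (N x) (N x') ((S.NE _ _).2 ⟨x, hx, rfl⟩) ((S.NE _ _).2 ⟨x', hx', rfl⟩)
          (by rw [hG2 x hx, hG2 x' hx', he])
        exact S.inj _ _ this
      · rintro ⟨k, hPk, rfl, rfl⟩
        refine ⟨opair_mem_prod.2 ⟨S.N_mem _, hf.ap_mem (S.N_mem _)⟩, N (c k), _, S.N_mem _, rfl,
          N k, S.N_mem _, rfl, fun j hj => ?_, ?_⟩
        · obtain ⟨j, hj', rfl⟩ := (S.NE _ _).1 hj
          exact hPk j hj'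
        · obtain ⟨g, hg⟩ := S.exists_seq (c k) (fun x => N (Nat.nth P x))
          have hlt : ∀ x < c k, Nat.nth P x < k := fun x hx => Nat.nth_lt_of_lt_count hx
          have hgf : IsFn g (N (c k)) (N k) := by
            refine ⟨fun p hp => ?_, fun x hx => ?_⟩
            · obtain ⟨x, hx, rfl⟩ := (hg p).1 hp
              exact ⟨_, _, (S.NE _ _).2 ⟨x, hx, rfl⟩, (S.NE _ _).2 ⟨_, hlt x hx, rfl⟩, rfl⟩
            · obtain ⟨x, hx', rfl⟩ := (S.NE _ _).1 hx
              refine ⟨_, (hg _).2 ⟨x, hx', rfl⟩, fun y hy => ?_⟩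
              obtain ⟨x', _, h⟩ := (hg _).1 hy
              obtain ⟨h1, h2⟩ := opair_inj.1 h
              rw [h2, S.inj _ _ h1]
          have hgap : ∀ x < c k, ap g (N x) = N (Nat.nth P x) := fun x hx =>
            ((hgf.mem_iff ((S.NE _ _).2 ⟨x, hx, rfl⟩)).1 ((hg _).2 ⟨x, hx, rfl⟩)).symm
          refine ⟨g, hgf, fun x x' hx hx' he => ?_, fun j hj => ?_⟩
          · obtain ⟨x, hx1, rfl⟩ := (S.NE _ _).1 hx
            obtain ⟨x', hx2, rfl⟩ := (S.NE _ _).1 hx'
            rw [hgap x hx1, hgap x' hx2] at he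
            rw [Nat.nth_injective hP (S.inj _ _ he)]
          · obtain ⟨j, hj', rfl⟩ := (S.NE _ _).1 hj
            constructor
            · intro h1
              have hPj : P j := fun l hl => h1 (N l) ((S.NE _ _).2 ⟨l, hl, rfl⟩)
              have hcj : Nat.count P j < c k := Nat.count_strict_mono hPj hj'
              refine ⟨N (Nat.count P j), (S.NE _ _).2 ⟨_, hcj, rfl⟩, ?_⟩
              rw [hgap _ hcj, Nat.nth_count hPj]
            · rintro ⟨x, hx, hxj⟩ l hl
              obtain ⟨x, hx', rfl⟩ := (S.NE _ _).1 hx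
              obtain ⟨l, hl', rfl⟩ := (S.NE _ _).1 hl
              rw [hgap x hx'] at hxj
              have hPj : P j := by
                rw [← S.inj _ _ hxj]
                exact Nat.nth_mem_of_infinite hP x
              exact hPj l hl'
    have hhf : IsFn h o A := by
      refine ⟨fun p hp => ?_, fun x hx => ?_⟩
      · obtain ⟨h1, _⟩ := (hh p).1 hp
        exact mem_prod.1 h1
      · obtain ⟨i, rfl⟩ := (S.NO _).1 hx
        refine ⟨ap f (N (Nat.nth P i)), (key _ _).2 ⟨_, Nat.nth_mem_of_infinite hP i,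
          Nat.count_nth_of_infinite hP i, rfl⟩, fun y hy => ?_⟩
        obtain ⟨k, hPk, hck, rfl⟩ := (key _ _).1 hy
        rw [← hck, Nat.nth_count hPk]
    have hhap : ∀ i, ap h (N i) = ap f (N (Nat.nth P i)) := fun i =>
      ((hhf.mem_iff (S.N_mem i)).1 ((key _ _).2 ⟨_, Nat.nth_mem_of_infinite hP i,
          Nat.count_nth_of_infinite hP i, rfl⟩)).symm
    refine ⟨o, S.om, h, isInj_iff.2 ⟨hhf, fun x x' hx hx' he => ?_⟩, fun y hy => ?_⟩
    · obtain ⟨i, rfl⟩ := (S.NO _).1 hx
      obtain ⟨j, rfl⟩ := (S.NO _).1 hx'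
      rw [hhap, hhap] at he
      have h1 : Nat.nth P i = Nat.nth P j := by
        rcases lt_trichotomy (Nat.nth P i) (Nat.nth P j) with hlt | heq | hgt
        · exact (Nat.nth_mem_of_infinite hP j _ hlt he).elim
        · exact heq
        · exact (Nat.nth_mem_of_infinite hP i _ hgt he.symm).elim
      rw [Nat.nth_injective hP h1]
    · obtain ⟨i, hi⟩ := hs y hy
      have hex : ∃ i, ap f (N i) = y := ⟨i, hi⟩
      have hPk : P (Nat.find hex) := fun j hj he =>
        Nat.find_min hex hj (he.trans (Nat.find_spec hex))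
      refine ⟨N (Nat.count P (Nat.find hex)), ?_⟩
      rw [app_iff]
      exact (key _ _).2 ⟨_, hPk, rfl, (Nat.find_spec hex).symm⟩

end Std

/-- the set of isolated points -/
theorem exists_isoSet (d v n : M) : ∃ F : M, ∀ z, ZM.E z F ↔ ZM.E z d ∧
    ∀ z', ZM.E z' d → ZM.E (opair n (opair z z')) v → z = z' := by
  have hD1 : D1 (fun z : M => ∀ z', ZM.E z' d → ZM.E (opair n (opair z z')) v → z = z') := by
    (repeat' first
    | with_reducible apply DF.lam | with_reducible apply DF.ap
    | with_reducible apply Dfn.isFn | with_reducible apply DF.prod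
    | with_reducible apply DF.funs
    | with_reducible apply DF.pow | with_reducible apply DF.opair
    | with_reducible apply DF.upair | with_reducible assumption
    | with_reducible exact DF.var _ | with_reducible exact DF.const _
    | with_reducible exact Dfn.const _ | with_reducible apply DF.the
    | with_reducible apply DF.mkS | with_reducible apply Dfn.mem
    | with_reducible apply Dfn.eq | with_reducible apply Dfn.and
    | with_reducible apply Dfn.or | with_reducible apply Dfn.iff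
    | with_reducible apply Dfn.imp | with_reducible apply Dfn.not
    | with_reducible apply Dfn.exu | with_reducible apply Dfn.ex
    | with_reducible apply Dfn.all)
  obtain ⟨F, hF⟩ := exists_sep hD1 d
  exact ⟨F, fun z => by rw [hF]⟩

/-- the sequence of the topologies -/
theorem exists_tops {o X w Z : M} (hX : ∀ i, ZM.E i o → ∀ t, ZM.E t (ap X i) → ZM.E t Z) :
    ∃ T : M, IsFn T o (pow (pow Z)) ∧ ∀ i, ZM.E i o → ∀ U, ZM.E U (ap T i) ↔
      (∀ t, ZM.E t U → ZM.E t (ap X i)) ∧ ∀ t, ZM.E t U → ∃ m, ZM.E m o ∧ ∀ y, ZM.E y (ap X i) →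
        ZM.E (opair m (opair t y)) w → ZM.E y U := by
  let F : M → M := fun i => mkS (fun U => (∀ t, ZM.E t U → ZM.E t (ap X i)) ∧
    ∀ t, ZM.E t U → ∃ m, ZM.E m o ∧ ∀ y, ZM.E y (ap X i) →
        ZM.E (opair m (opair t y)) w → ZM.E y U)
  have hF : F1 F := by
    show DF (fun v : Fin 1 → M => mkS (fun U => (∀ t, ZM.E t U → ZM.E t (ap X (v 0))) ∧
      ∀ t, ZM.E t U → ∃ m, ZM.E m o ∧ ∀ y, ZM.E y (ap X (v 0)) →
        ZM.E (opair m (opair t y)) w → ZM.E y U))
    (repeat' first
    | with_reducible apply DF.lam | with_reducible apply DF.ap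
    | with_reducible apply Dfn.isFn | with_reducible apply DF.prod
    | with_reducible apply DF.funs
    | with_reducible apply DF.pow | with_reducible apply DF.opair
    | with_reducible apply DF.upair | with_reducible assumption
    | with_reducible exact DF.var _ | with_reducible exact DF.const _
    | with_reducible exact Dfn.const _ | with_reducible apply DF.the
    | with_reducible apply DF.mkS | with_reducible apply Dfn.mem
    | with_reducible apply Dfn.eq | with_reducible apply Dfn.and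
    | with_reducible apply Dfn.or | with_reducible apply Dfn.iff
    | with_reducible apply Dfn.imp | with_reducible apply Dfn.not
    | with_reducible apply Dfn.exu | with_reducible apply Dfn.ex
    | with_reducible apply Dfn.all)
  have hmem : ∀ i U, ZM.E U (F i) ↔ (∀ t, ZM.E t U → ZM.E t (ap X i)) ∧
      ∀ t, ZM.E t U → ∃ m, ZM.E m o ∧ ∀ y, ZM.E y (ap X i) →
        ZM.E (opair m (opair t y)) w → ZM.E y U := by
    intro i U
    refine mem_mkS ?_ U
    have hD : D1 (fun U => ∀ t, ZM.E t U → ∃ m, ZM.E m o ∧ ∀ y, ZM.E y (ap X i) →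
        ZM.E (opair m (opair t y)) w → ZM.E y U) := by
      (repeat' first
    | with_reducible apply DF.lam | with_reducible apply DF.ap
    | with_reducible apply Dfn.isFn | with_reducible apply DF.prod
    | with_reducible apply DF.funs
    | with_reducible apply DF.pow | with_reducible apply DF.opair
    | with_reducible apply DF.upair | with_reducible assumption
    | with_reducible exact DF.var _ | with_reducible exact DF.const _
    | with_reducible exact Dfn.const _ | with_reducible apply DF.the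
    | with_reducible apply DF.mkS | with_reducible apply Dfn.mem
    | with_reducible apply Dfn.eq | with_reducible apply Dfn.and
    | with_reducible apply Dfn.or | with_reducible apply Dfn.iff
    | with_reducible apply Dfn.imp | with_reducible apply Dfn.not
    | with_reducible apply Dfn.exu | with_reducible apply Dfn.ex
    | with_reducible apply Dfn.all)
    obtain ⟨c, hc⟩ := exists_sep hD (pow (ap X i))
    exact ⟨c, fun U => by rw [hc, mem_pow]⟩
  have hB : ∀ i, ZM.E i o → ZM.E (F i) (pow (pow Z)) := by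
    intro i hi
    rw [mem_pow]
    intro U hU
    rw [mem_pow]
    intro t ht
    exact hX i hi t (((hmem i U).1 hU).1 t ht)
  refine ⟨lam o F, lam_isFn hF hB, fun i hi U => ?_⟩
  rw [ap_lam hF hB hi]
  exact hmem i U

end Pool.Agent.Helper23.SM
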