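import Pool.Agent.Helper23.SM.Un5

set_option autoImplicit false
set_option linter.unreachableTactic false
set_option linter.unusedTactic false

/-!
# Metrizable spaces
-/

universe u v w

namespace Pool.Agent.Helper23.SM

open WT

variable {M : Type} [ZM M] {o : M} {N : ℕ → M}

/-- compact spaces are totally bounded and complete -/
theorem eu_of_comp (S : Std M o N) {X τ V : M}
    (refl : ∀ n x, ZM.E x X → vv N V n x x)
    (symm : ∀ n x y, ZM.E x X → ZM.E y X → vv N V n x y → vv N V n y x)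
    (comp : ∀ n x y z, ZM.E x X → ZM.E y X → ZM.E z X → vv N V (n + 1) x y → vv N V (n + 1) y z →
      vv N V n x z)
    (sep : ∀ x y, ZM.E x X → ZM.E y X → (∀ n, vv N V n x y) → x = y)
    (hτ : ∀ U, ZM.E U τ ↔ Sub ZM.E U X ∧ ∀ x, ZM.E x U → ∃ n, ∀ y, ZM.E y X → vv N V n x y → ZM.E y U)
    (hball : ∀ n x, ZM.E x X → ∀ U, (∀ y, ZM.E y U ↔ ZM.E y X ∧ vv N V n x y) → ZM.E U τ)
    (hc : IsComp ZM.E X τ) : EU o N X V := by
  classical
  have mono1 : ∀ n x y, ZM.E x X → ZM.E y X → vv N V (n + 1) x y → vv N V n x y :=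
    fun n x y hx hy h => comp n x y y hx hy hy h (refl _ y hy)
  refine ⟨refl, symm, comp, sep, fun n => ?_, fun f hf hfast => ?_⟩
  · -- totally bounded
    have hD1 : D1 (fun U : M => ∃ x, ZM.E x X ∧ ∀ y, ZM.E y U ↔ ZM.E y X ∧
        ZM.E (opair (N n) (opair x y)) V) := by
      (repeat' first
    | with_reducible apply DF.lam | with_reducible apply DF.ap
    | with_reducible apply Dfn.isFn | with_reducible apply DF.prod
    | with_reducible apply DF.funs
    | with_reducible apply DF.pow | with_reducible apply DF.opair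
    | with_reducible apply DF.upair | with_reducible assumption
    | with_reducible exact DF.var _ | with_reducible exact DF.const _
    | with_reducible exact Dfn.const _ | with_reducible apply DF.the
    | with_reducible apply DF.mkS | with_reducible apply Dfn.mem
    | with_reducible apply Dfn.eq | with_reducible apply Dfn.and
    | with_reducible apply Dfn.or | with_reducible apply Dfn.iff
    | with_reducible apply Dfn.imp | with_reducible apply Dfn.not
    | with_reducible apply Dfn.exu | with_reducible apply Dfn.ex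
    | with_reducible apply Dfn.all)
    obtain ⟨C, hC⟩ := exists_sep hD1 τ
    obtain ⟨D, hD1, hD2, hD3⟩ := hc C (fun U hU => ((hC U).1 hU).1) (fun x hx => by
      have hB : D1 (fun y : M => ZM.E (opair (N n) (opair x y)) V) := by
        (repeat' first
    | with_reducible apply DF.lam | with_reducible apply DF.ap
    | with_reducible apply Dfn.isFn | with_reducible apply DF.prod
    | with_reducible apply DF.funs
    | with_reducible apply DF.pow | with_reducible apply DF.opair
    | with_reducible apply DF.upair | with_reducible assumption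
    | with_reducible exact DF.var _ | with_reducible exact DF.const _
    | with_reducible exact Dfn.const _ | with_reducible apply DF.the
    | with_reducible apply DF.mkS | with_reducible apply Dfn.mem
    | with_reducible apply Dfn.eq | with_reducible apply Dfn.and
    | with_reducible apply Dfn.or | with_reducible apply Dfn.iff
    | with_reducible apply Dfn.imp | with_reducible apply Dfn.not
    | with_reducible apply Dfn.exu | with_reducible apply Dfn.ex
    | with_reducible apply Dfn.all)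
      obtain ⟨B, hB⟩ := exists_sep hB X
      exact ⟨B, (hC B).2 ⟨hball n x hx B hB, x, hx, hB⟩, (hB x).2 ⟨hx, refl n x hx⟩⟩)
    rw [S.isFin_iff] at hD2
    let g : M → M := fun U => if h : ∃ x, ZM.E x X ∧ ∀ y, ZM.E y U ↔ ZM.E y X ∧
      ZM.E (opair (N n) (opair x y)) V then h.choose else U
    have hg : ∀ U, ZM.E U D → ZM.E (g U) X ∧ ∀ y, ZM.E y U ↔ ZM.E y X ∧ vv N V n (g U) y := by
      intro U hU
      have hex := ((hC U).1 (hD1 U hU)).2
      have : g U = hex.choose := dif_pos hex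
      rw [this]
      exact hex.choose_spec
    refine ⟨g '' {U | ZM.E U D}, hD2.image g, ?_, fun x hx => ?_⟩
    · rintro _ ⟨U, hU, rfl⟩
      exact (hg U hU).1
    · obtain ⟨U, hU, hxU⟩ := hD3 x hx
      exact ⟨g U, ⟨U, hU, rfl⟩, symm _ _ _ (hg U hU).1 hx (((hg U hU).2 x).1 hxU).2⟩
  · -- complete
    by_contra hcon
    push Not at hcon
    -- the complement of the closure of the ball
    have hD1 : D1 (fun U : M => ∃ n, ZM.E n o ∧ ∀ x, ZM.E x U ↔ ZM.E x X ∧ ∃ m, ZM.E m o ∧
        ∀ y, ZM.E y X → ZM.E (opair m (opair x y)) V → ¬ ZM.E (opair n (opair y (ap f n))) V) := by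
      (repeat' first
    | with_reducible apply DF.lam | with_reducible apply DF.ap
    | with_reducible apply Dfn.isFn | with_reducible apply DF.prod
    | with_reducible apply DF.funs
    | with_reducible apply DF.pow | with_reducible apply DF.opair
    | with_reducible apply DF.upair | with_reducible assumption
    | with_reducible exact DF.var _ | with_reducible exact DF.const _
    | with_reducible exact Dfn.const _ | with_reducible apply DF.the
    | with_reducible apply DF.mkS | with_reducible apply Dfn.mem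
    | with_reducible apply Dfn.eq | with_reducible apply Dfn.and
    | with_reducible apply Dfn.or | with_reducible apply Dfn.iff
    | with_reducible apply Dfn.imp | with_reducible apply Dfn.not
    | with_reducible apply Dfn.exu | with_reducible apply Dfn.ex
    | with_reducible apply Dfn.all)
    obtain ⟨C, hC⟩ := exists_sep hD1 τ
    have hU : ∀ n : ℕ, ∃ U, ZM.E U τ ∧ ∀ x, ZM.E x U ↔ ZM.E x X ∧ ∃ m, ZM.E m o ∧
        ∀ y, ZM.E y X → ZM.E (opair m (opair x y)) V →
          ¬ ZM.E (opair (N n) (opair y (ap f (N n)))) V := by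
      intro n
      have hB : D1 (fun x : M => ∃ m, ZM.E m o ∧
        ∀ y, ZM.E y X → ZM.E (opair m (opair x y)) V →
          ¬ ZM.E (opair (N n) (opair y (ap f (N n)))) V) := by
        (repeat' first
    | with_reducible apply DF.lam | with_reducible apply DF.ap
    | with_reducible apply Dfn.isFn | with_reducible apply DF.prod
    | with_reducible apply DF.funs
    | with_reducible apply DF.pow | with_reducible apply DF.opair
    | with_reducible apply DF.upair | with_reducible assumption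
    | with_reducible exact DF.var _ | with_reducible exact DF.const _
    | with_reducible exact Dfn.const _ | with_reducible apply DF.the
    | with_reducible apply DF.mkS | with_reducible apply Dfn.mem
    | with_reducible apply Dfn.eq | with_reducible apply Dfn.and
    | with_reducible apply Dfn.or | with_reducible apply Dfn.iff
    | with_reducible apply Dfn.imp | with_reducible apply Dfn.not
    | with_reducible apply Dfn.exu | with_reducible apply Dfn.ex
    | with_reducible apply Dfn.all)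
      obtain ⟨B, hB⟩ := exists_sep hB X
      refine ⟨B, (hτ B).2 ⟨fun x hx => ((hB x).1 hx).1, fun x hx => ?_⟩, hB⟩
      obtain ⟨hx, m, hm, h⟩ := (hB x).1 hx
      obtain ⟨m, rfl⟩ := (S.NO m).1 hm
      refine ⟨m + 1, fun y hy hxy => (hB y).2 ⟨hy, N (m + 1), S.N_mem _, fun z hz hyz => ?_⟩⟩
      exact h z hz (comp m x y z hx hy hz hxy hyz)
    obtain ⟨D, hD1, hD2, hD3⟩ := hc C (fun U hU => ((hC U).1 hU).1) (fun x hx => by
      obtain ⟨n, hn⟩ := hcon x hx
      obtain ⟨U, hU1, hU2⟩ := hU (n + 1)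
      refine ⟨U, (hC U).2 ⟨hU1, N (n + 1), S.N_mem _, hU2⟩, (hU2 x).2 ⟨hx, N (n + 1), S.N_mem _,
        fun y hy hxy hyf => hn ?_⟩⟩
      exact comp n _ _ _ hx hy (hf.ap_mem (S.N_mem _)) hxy hyf)
    rw [S.isFin_iff] at hD2
    have hidx : ∀ U, ∃ n : ℕ, ZM.E U D → ∀ x, ZM.E x U ↔ ZM.E x X ∧ ∃ m, ZM.E m o ∧
        ∀ y, ZM.E y X → ZM.E (opair m (opair x y)) V →
          ¬ ZM.E (opair (N n) (opair y (ap f (N n)))) V := by
      intro U
      by_cases hUD : ZM.E U D
      · obtain ⟨-, n, hn, h⟩ := (hC U).1 (hD1 U hUD)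
        obtain ⟨n, rfl⟩ := (S.NO n).1 hn
        exact ⟨n, fun _ => h⟩
      · exact ⟨0, fun h => (hUD h).elim⟩
    choose idx hidx using hidx
    obtain ⟨K, hK⟩ := (hD2.image idx).bddAbove
    obtain ⟨U, hUD, hU⟩ := hD3 (ap f (N K)) (hf.ap_mem (S.N_mem _))
    obtain ⟨hx, m, hm, h⟩ := (hidx U hUD _).1 hU
    obtain ⟨m, rfl⟩ := (S.NO m).1 hm
    have hle : idx U ≤ K := hK ⟨U, hUD, rfl⟩
    exact h _ hx (refl m _ hx) (symm _ _ _ (hf.ap_mem (S.N_mem _)) hx (hfast _ _ hle))

theorem app2_iff {f x y z : M} : App2 ZM.E f x y z ↔ ZM.E (opair (opair x y) z) f := by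
  unfold App2
  simp only [isOPair_iff, app_iff, exists_eq_left]

/-- `f` is the sequence `1, 1/2, 1/4, ...` of length `n + 1` -/
def HS' (R a e f n : M) : Prop :=
  ∃ n', (∀ z, ZM.E z n' ↔ ZM.E z n ∨ z = n) ∧ IsFn f n' R ∧
    (∀ z, (∀ w, ¬ ZM.E w z) → ZM.E (opair z e) f) ∧
    ∀ i i' u, ZM.E i n → (∀ z, ZM.E z i' ↔ ZM.E z i ∨ z = i) → ZM.E (opair i' u) f →
      ∃ t, ZM.E (opair i t) f ∧ ZM.E (opair (opair u u) t) a

theorem Dfn.hS' {n : ℕ} {R a e : M} {s t : (Fin n → M) → M} (hs : DF s) (ht : DF t) :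
    Dfn (fun v => HS' R a e (s v) (t v)) :=
  Dfn.comp2 (R := fun f n => HS' R a e f n) (by
    unfold HS'
    (repeat' first
    | with_reducible apply DF.lam | with_reducible apply DF.ap
    | with_reducible apply Dfn.isFn | with_reducible apply DF.prod
    | with_reducible apply DF.funs
    | with_reducible apply DF.pow | with_reducible apply DF.opair
    | with_reducible apply DF.upair | with_reducible assumption
    | with_reducible exact DF.var _ | with_reducible exact DF.const _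
    | with_reducible exact Dfn.const _ | with_reducible apply DF.the
    | with_reducible apply DF.mkS | with_reducible apply Dfn.mem
    | with_reducible apply Dfn.eq | with_reducible apply Dfn.and
    | with_reducible apply Dfn.or | with_reducible apply Dfn.iff
    | with_reducible apply Dfn.imp | with_reducible apply Dfn.not
    | with_reducible apply Dfn.exu | with_reducible apply Dfn.ex
    | with_reducible apply Dfn.all)) hs ht

theorem exists_V (S : Std M o N) {X τ : M} (hm : IsMetrizable ZM.E X τ) : ∃ V : M,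
    (∀ n x, ZM.E x X → vv N V n x x) ∧
    (∀ n x y, ZM.E x X → ZM.E y X → vv N V n x y → vv N V n y x) ∧
    (∀ n x y z, ZM.E x X → ZM.E y X → ZM.E z X → vv N V (n + 1) x y → vv N V (n + 1) y z →
      vv N V n x z) ∧
    (∀ x y, ZM.E x X → ZM.E y X → (∀ n, vv N V n x y) → x = y) ∧
    (∀ U, ZM.E U τ ↔ Sub ZM.E U X ∧ ∀ x, ZM.E x U → ∃ n, ∀ y, ZM.E y X → vv N V n x y → ZM.E y U) ∧
    (∀ n x, ZM.E x X → ∀ U, (∀ y, ZM.E y U ↔ ZM.E y X ∧ vv N V n x y) → ZM.E U τ) := by
  obtain ⟨R, a, m, l, d, iF, iL, δ, iS, ha, -, hl, hcpl, hd, hδ0, hδs, hδt, hτ⟩ := hm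
  simp only [app2_iff, app_iff] at ha hl hd
  let ε : ℕ → El (ZM.E : M → M → Prop) R := fun n => (2 ^ n)⁻¹
  have hε0 : ε 0 = 1 := by simp [ε]
  have hεs : ∀ n, ε (n + 1) + ε (n + 1) = ε n := by
    intro n
    simp only [ε, pow_succ]
    field_simp
    norm_num
  have hεp : ∀ n, 0 < ε n := fun n => by positivity
  set e : M := (1 : El (ZM.E : M → M → Prop) R).1 with he
  -- the sequences
  have hA : ∀ k, ∃ f : M, HS' R a e f (N k) ∧ ZM.E (opair (N k) (ε k).1) f := by
    intro k
    obtain ⟨f, hf⟩ := S.exists_seq (k + 1) (fun i => (ε i).1)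
    have hfn : IsFn f (N (k + 1)) R := by
      refine ⟨fun q hq => ?_, fun x hx => ?_⟩
      · obtain ⟨i, hi, rfl⟩ := (hf q).1 hq
        exact ⟨_, _, (S.NE _ _).2 ⟨i, hi, rfl⟩, (ε i).2, rfl⟩
      · obtain ⟨i, hi, rfl⟩ := (S.NE _ _).1 hx
        refine ⟨(ε i).1, (hf _).2 ⟨i, hi, rfl⟩, fun y hy => ?_⟩
        obtain ⟨j, _, h⟩ := (hf _).1 hy
        obtain ⟨h1, h2⟩ := opair_inj.1 h
        rw [h2, S.inj _ _ h1]
    refine ⟨f, ⟨N (k + 1), S.isSucc_iff.2 rfl, hfn, fun z hz => ?_, fun i i' u hi hi' hu => ?_⟩,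
      (hf _).2 ⟨k, by omega, rfl⟩⟩
    · have : z = N 0 := WT.ext fun w => ⟨fun h => (hz w h).elim, fun h => by
        obtain ⟨j, hj, _⟩ := (S.NE _ _).1 h
        omega⟩
      rw [this]
      exact (hf _).2 ⟨0, by omega, by rw [hε0]⟩
    · obtain ⟨i, hi1, rfl⟩ := (S.NE _ _).1 hi
      obtain rfl := S.isSucc_iff.1 hi'
      obtain ⟨j, _, h⟩ := (hf _).1 hu
      obtain ⟨h1, h2⟩ := opair_inj.1 h
      obtain rfl := S.inj _ _ h1
      refine ⟨(ε i).1, (hf _).2 ⟨i, by omega, rfl⟩, ?_⟩
      rw [h2]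
      exact (ha _ _ _).2 (hεs i)
  have hB : ∀ k f, HS' R a e f (N k) → ∀ i ≤ k, ∀ t, ZM.E (opair (N i) t) f → t = (ε i).1 := by
    rintro k f ⟨n', hn', hf, h0, hs⟩ i hi
    obtain rfl := S.isSucc_iff.1 hn'
    induction i with
    | zero =>
      intro t ht
      have h1 := h0 (N 0) (fun w hw => by
        obtain ⟨j, hj, _⟩ := (S.NE _ _).1 hw
        omega)
      have hN0 : ZM.E (N 0) (N (k + 1)) := (S.NE _ _).2 ⟨0, by omega, rfl⟩
      rw [hf.mem_iff hN0] at h1 ht
      rw [ht, ← h1, hε0]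
    | succ i ih =>
      intro t ht
      obtain ⟨t', ht', h1⟩ := hs (N i) (N (i + 1)) t ((S.NE _ _).2 ⟨i, by omega, rfl⟩)
        (S.isSucc_iff.2 rfl) ht
      have h2 := ih (by omega) t' ht'
      have htR := (hf.mem_dom ht).2
      subst h2
      have h3 := (ha ⟨t, htR⟩ ⟨t, htR⟩ (ε i)).1 h1
      have h4 : (⟨t, htR⟩ : El (ZM.E : M → M → Prop) R) = ε (i + 1) := by
        have := hεs i
        linarith
      exact congrArg Subtype.val h4
  -- the entourages
  have hD : D1 (fun p : M => ∃ n x y f r s, p = opair n (opair x y) ∧ HS' R a e f n ∧ ZM.E r R ∧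
      ZM.E (opair (opair x y) r) d ∧ ZM.E (opair n s) f ∧ ZM.E (opair r s) l ∧ ¬ r = s) := by
    (repeat' first
      | with_reducible apply Dfn.hS'
      | with_reducible apply DF.opair
      | with_reducible assumption
      | with_reducible exact DF.var _ | with_reducible exact DF.const _
      | with_reducible exact Dfn.const _
      | with_reducible apply Dfn.mem
      | with_reducible apply Dfn.eq | with_reducible apply Dfn.and
      | with_reducible apply Dfn.not
      | with_reducible apply Dfn.ex)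
  obtain ⟨V, hV⟩ := exists_sep hD (prod o (prod X X))
  have hvv : ∀ n (x y : El (ZM.E : M → M → Prop) X), vv N V n x y ↔ δ x y < ε n := by
    intro n x y
    unfold vv
    rw [hV, opair_mem_prod, opair_mem_prod]
    constructor
    · rintro ⟨-, n', x', y', f, r, s, he', hf, hr, h1, h2, h3, h4⟩
      obtain ⟨rfl, he''⟩ := opair_inj.1 he'
      obtain ⟨rfl, rfl⟩ := opair_inj.1 he''
      have hs : s = (ε n).1 := hB n f hf n le_rfl s h2
      subst hs
      have h5 := (hd x y ⟨r, hr⟩).1 h1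
      have h6 := (hl ⟨r, hr⟩ (ε n)).1 h3
      rw [h5]
      refine lt_of_le_of_ne h6 fun h => h4 ?_
      exact congrArg Subtype.val h
    · intro h
      obtain ⟨f, hf, hf'⟩ := hA n
      refine ⟨⟨S.N_mem _, x.2, y.2⟩, N n, x, y, f, (δ x y).1, (ε n).1, rfl, hf, (δ x y).2,
        (hd _ _ _).2 rfl, hf', (hl _ _).2 h.le, fun h' => h.ne (Subtype.ext h')⟩
  -- archimedean
  have harch : ∀ r : El (ZM.E : M → M → Prop) R, 0 < r → ∃ n, ε n ≤ r := by
    intro r hr
    by_contra hcon
    push Not at hcon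
    have hD : D1 (fun s : M => ∀ n f t, ZM.E n o → HS' R a e f n → ZM.E (opair n t) f →
        ZM.E (opair s t) l) := by
      (repeat' first
      | with_reducible apply Dfn.hS'
      | with_reducible apply DF.opair
      | with_reducible assumption
      | with_reducible exact DF.var _ | with_reducible exact DF.const _
      | with_reducible exact Dfn.const _
      | with_reducible apply Dfn.mem
      | with_reducible apply Dfn.imp
      | with_reducible apply Dfn.all)
    obtain ⟨T, hT⟩ := exists_sep hD R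
    have hT' : ∀ s : El (ZM.E : M → M → Prop) R, ZM.E s.1 T ↔ ∀ n, s ≤ ε n := by
      intro s
      rw [hT]
      constructor
      · rintro ⟨-, h⟩ n
        obtain ⟨f, hf, hf'⟩ := hA n
        exact (hl _ _).1 (h _ f _ (S.N_mem n) hf hf')
      · intro h
        refine ⟨s.2, fun n f t hn hf ht => ?_⟩
        obtain ⟨n, rfl⟩ := (S.NO n).1 hn
        rw [hB n f hf n le_rfl t ht]
        exact (hl _ _).2 (h n)
    obtain ⟨b, hb1, hb2⟩ := hcpl T (fun x hx => ((hT x).1 hx).1) ⟨r.1, (hT' r).2 fun n => (hcon n).le⟩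
      ⟨1, fun x hx => by rw [← hε0]; exact (hT' x).1 hx 0⟩
    have h1 : r ≤ b := hb1 r ((hT' r).2 fun n => (hcon n).le)
    have h2 : b ≤ b / 2 := hb2 _ fun x hx => by
      have h3 : x + x ≤ b := hb1 _ ((hT' _).2 fun n => by
        have h4 := (hT' x).1 hx (n + 1)
        have h5 := hεs n
        linarith)
      linarith
    linarith
  refine ⟨V, fun n x hx => ?_, fun n x y hx hy h => ?_, fun n x y z hx hy hz h h' => ?_,
    fun x y hx hy h => ?_, fun U => ?_, fun n x hx U hU => ?_⟩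
  · rw [hvv n ⟨x, hx⟩ ⟨x, hx⟩, (hδ0 _ _).2 rfl]
    exact hεp n
  · rw [hvv n ⟨x, hx⟩ ⟨y, hy⟩] at h
    rw [hvv n ⟨y, hy⟩ ⟨x, hx⟩, hδs]
    exact h
  · rw [hvv (n + 1) ⟨x, hx⟩ ⟨y, hy⟩] at h
    rw [hvv (n + 1) ⟨y, hy⟩ ⟨z, hz⟩] at h'
    rw [hvv n ⟨x, hx⟩ ⟨z, hz⟩]
    have h1 := hδt ⟨x, hx⟩ ⟨y, hy⟩ ⟨z, hz⟩
    have h2 := hεs n
    linarith
  · by_contra hne
    have h1 : 0 < δ ⟨x, hx⟩ ⟨y, hy⟩ := by
      have h2 : 0 ≤ δ ⟨x, hx⟩ ⟨y, hy⟩ := by
        have h3 := hδt ⟨x, hx⟩ ⟨y, hy⟩ ⟨x, hx⟩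
        rw [(hδ0 _ _).2 rfl, hδs ⟨y, hy⟩ ⟨x, hx⟩] at h3
        linarith
      refine lt_of_le_of_ne h2 fun h3 => hne ?_
      exact congrArg Subtype.val ((hδ0 _ _).1 h3.symm)
    obtain ⟨n, hn⟩ := harch _ h1
    exact absurd ((hvv n ⟨x, hx⟩ ⟨y, hy⟩).1 (h n)) (not_lt.2 hn)
  · rw [hτ]
    constructor
    · rintro ⟨h1, h2⟩
      refine ⟨h1, fun x hxU => ?_⟩
      obtain ⟨r, hr, h3⟩ := h2 ⟨x, h1 x hxU⟩ hxU
      obtain ⟨n, hn⟩ := harch r hr
      exact ⟨n, fun y hy hxy => h3 ⟨y, hy⟩
        (lt_of_lt_of_le ((hvv n ⟨x, h1 x hxU⟩ ⟨y, hy⟩).1 hxy) hn)⟩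
    · rintro ⟨h1, h2⟩
      refine ⟨h1, fun x hxU => ?_⟩
      obtain ⟨n, hn⟩ := h2 x.1 hxU
      exact ⟨ε n, hεp n, fun y hxy => hn y.1 y.2 ((hvv n x y).2 hxy)⟩
  · rw [hτ]
    refine ⟨fun y hy => ((hU y).1 hy).1, fun y hyU => ?_⟩
    obtain ⟨-, h1⟩ := (hU y).1 hyU
    have h2 := (hvv n ⟨x, hx⟩ y).1 h1
    refine ⟨ε n - δ ⟨x, hx⟩ y, by linarith, fun z hz => (hU z).2 ⟨z.2, (hvv n ⟨x, hx⟩ z).2 ?_⟩⟩
    have := hδt ⟨x, hx⟩ y z
    linarith

/-- uncountable compact metrizable spaces contain a copy of the power set of `ω` -/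
theorem Mod.mcuncountable {𝒢 : ℕ → HN.{0} → Set BB} {p : Cond} (𝔐 : Mod 𝒢 p) :
    MCuncountable 𝔐.G.E := by
  intro X τ hm hc hX
  obtain ⟨V, h1, h2, h3, h4, h5, h6⟩ := exists_V 𝔐.std hm
  obtain ⟨P, hP, hP'⟩ := 𝔐.muc (eu_of_comp 𝔐.std h1 h2 h3 h4 h5 h6 hc) hX
  exact ⟨𝔐.o, P, 𝔐.isOmega, hP, hP'⟩

end Pool.Agent.Helper23.SM
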