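import Pool.Agent.Helper23.SM.UD
import Pool.Agent.Helper23.SM.Fin2
import Pool.Agent.Helper23.WT.Sets

set_option autoImplicit false

/-!
# The countable models
-/

universe u v w

namespace Pool.Agent.Helper23.SM

open WT (iffV bElim bOr bMP bImp bNot bAbs bAll bEx bIff bIff_mp bIff_mpr bLeft bRight bCases bContra eq_of_forall iffV_self iffV_eq_top)
open WT (Fm ZF IsUPair IsOPair App IsFun IsOmega IsInductive ZM)

theorem sat_map {κ : Type v} {κ' : Type w} {M : Type u} {n : ℕ} (r : κ → κ') (E : M → M → Prop)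
    (e : κ' → M) (f : Fm κ n) (v : Fin n → M) :
    (f.map r).Sat E e v ↔ f.Sat E (e ∘ r) v := by
  induction f with
  | mem s t => cases s <;> cases t <;> rfl
  | eq s t => cases s <;> cases t <;> rfl
  | fls => rfl
  | imp f g hf hg => simp only [Fm.map, Fm.sat_imp, hf, hg]
  | all f hf => simp only [Fm.map, Fm.sat_all, hf]

namespace UD

variable {n : ℕ} {P : ∀ (M : Type) (_ : M → M → Prop), (Fin n → M) → Prop}

/-- the Boolean value of a uniformly definable property -/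
noncomputable def val (h : UD P) (a : Fin n → HN.{0}) : BB := vl (fun x : Empty => x.elim) h.choose a

theorem val_act (h : UD P) (g : Gp) (a : Fin n → HN.{0}) :
    h.val (fun i => HN.act g (a i)) = ρ g (h.val a) :=
  vl_act_of _ (E := ∅) (fun c => c.elim) _ (fun x hx => hx.elim) a

theorem val_congr (h : UD P) {Γ : BB} {a b : Fin n → HN.{0}} (hab : ∀ i, Γ ≤ HN.eq (a i) (b i))
    (h' : Γ ≤ h.val a) : Γ ≤ h.val b := vl_congr _ (fun c => c.elim) hab h'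

theorem val_dep (h : UD P) {E : Set Ix} {a : Fin n → HN.{0}} (ha : ∀ i, HN.Supp E (a i)) :
    Dep E (h.val a) := by
  intro g hg
  rw [← h.val_act]
  refine eq_of_forall fun Γ => ⟨fun h1 => h.val_congr (fun i => ?_) h1,
    fun h1 => h.val_congr (fun i => ?_) h1⟩
  · exact le_top.trans (ha i g hg).ge
  · exact HN.bSymm (le_top.trans (ha i g hg).ge)

end UD

namespace GModel

variable {𝓖 : ℕ → HN.{0} → HN.{0} → Set BB} (G : GModel.{0} 𝓖)

/-- `x` is the value of the name `a` -/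
def R (x : G.M) (a : HN.{0}) : Prop := HN.eq (G.rep x) a ∈ G.U

variable {G}

theorem up2 {a b c : BB} (ha : a ∈ G.U) (hb : b ∈ G.U) (h : a ⊓ b ≤ c) : c ∈ G.U :=
  G.up _ (G.inf _ ha _ hb) _ h

theorem up3 {a b c d : BB} (ha : a ∈ G.U) (hb : b ∈ G.U) (hc : c ∈ G.U) (h : a ⊓ b ⊓ c ≤ d) :
    d ∈ G.U := up2 (G.inf _ ha _ hb) hc h

theorem up4 {a b c d e : BB} (ha : a ∈ G.U) (hb : b ∈ G.U) (hc : c ∈ G.U) (hd : d ∈ G.U)
    (h : a ⊓ b ⊓ c ⊓ d ≤ e) : e ∈ G.U := up2 (G.inf _ (G.inf _ ha _ hb) _ hc) hd h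

theorem not_both {a : BB} (h : a ∈ G.U) (h' : aᶜ ∈ G.U) : False :=
  G.bot (up2 h h' inf_compl_eq_bot.le)

theorem R_refl (x : G.M) : G.R x (G.rep x) := by
  unfold R
  rw [HN.eq_refl]
  exact G.top

theorem R_trans {x : G.M} {a b : HN.{0}} (hx : G.R x a) (h : HN.eq a b ∈ G.U) : G.R x b :=
  up2 hx h (HN.bTrans inf_le_left inf_le_right)

theorem R_top {x : G.M} {a b : HN.{0}} (hx : G.R x a) (h : HN.eq a b = ⊤) : G.R x b :=
  R_trans hx (by rw [h]; exact G.top)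

theorem inf_fin {n : ℕ} {f : Fin n → BB} (h : ∀ i, f i ∈ G.U) : (⨅ i, f i) ∈ G.U := by
  induction n with
  | zero =>
    rw [iInf_of_empty]
    exact G.top
  | succ n ih =>
    refine G.up _ (G.inf _ (h 0) _ (ih (f := fun i => f i.succ) fun i => h i.succ)) _ ?_
    refine le_iInf fun i => Fin.cases inf_le_left (fun j => ?_) i
    exact inf_le_right.trans (iInf_le _ j)

/-- Łoś -/
theorem los_fm {n : ℕ} (f : Fm Empty n) {v : Fin n → G.M} {a : Fin n → HN.{0}}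
    (hv : ∀ i, G.R (v i) (a i)) :
    f.Sat G.E (fun x : Empty => x.elim) v ↔ vl (fun x : Empty => x.elim) f a ∈ G.U := by
  have h2 := G.los_iff (f.map (fun x : Empty => (x.elim : G.M))) v
  rw [sat_map, vl_map] at h2
  have e1 : (id ∘ fun x : Empty => (x.elim : G.M)) = fun x : Empty => (x.elim : G.M) :=
    funext fun x => x.elim
  have e2 : (G.rep ∘ fun x : Empty => (x.elim : G.M)) = fun x : Empty => (x.elim : HN.{0}) :=
    funext fun x => x.elim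
  rw [e1, e2] at h2
  rw [h2]
  have h3 := inf_fin hv
  constructor
  · intro h4
    exact up2 h3 h4 (vl_congr f (fun c => c.elim) (fun i => inf_le_left.trans (iInf_le _ i))
      inf_le_right)
  · intro h4
    exact up2 h3 h4 (vl_congr f (fun c => c.elim)
      (fun i => HN.bSymm (inf_le_left.trans (iInf_le _ i))) inf_le_right)

/-- Łoś -/
theorem los_ud {n : ℕ} {P : ∀ (M : Type) (_ : M → M → Prop), (Fin n → M) → Prop} (h : UD P)
    {v : Fin n → G.M} {a : Fin n → HN.{0}} (hv : ∀ i, G.R (v i) (a i)) :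
    P G.M G.E v ↔ h.val a ∈ G.U :=
  (h.choose_spec G.M G.E v).symm.trans (los_fm h.choose hv)

theorem R_mem {x y : G.M} {a b : HN.{0}} (hx : G.R x a) (hy : G.R y b) :
    G.E x y ↔ HN.mem a b ∈ G.U := by
  constructor
  · intro h
    exact up3 hx hy h (HN.bMemL (bLeft (bLeft le_rfl)) (HN.bMemR (bRight (bLeft le_rfl))
      (bRight le_rfl)))
  · intro h
    exact up3 hx hy h (HN.bMemL (HN.bSymm (bLeft (bLeft le_rfl)))
      (HN.bMemR (HN.bSymm (bRight (bLeft le_rfl))) (bRight le_rfl)))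

theorem R_eq {x y : G.M} {a b : HN.{0}} (hx : G.R x a) (hy : G.R y b) :
    x = y ↔ HN.eq a b ∈ G.U := by
  rw [G.eq_iff]
  constructor
  · intro h
    exact up3 hx hy h (HN.bTrans (HN.bSymm (bLeft (bLeft le_rfl)))
      (HN.bTrans (bRight le_rfl) (bRight (bLeft le_rfl))))
  · intro h
    exact up3 hx hy h (HN.bTrans (bLeft (bLeft le_rfl))
      (HN.bTrans (bRight le_rfl) (HN.bSymm (bRight (bLeft le_rfl)))))

theorem dec_mem {x y : G.M} {a b : HN.{0}} (hx : G.R x a) (hy : G.R y b) (h : ¬ G.E x y) :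
    (HN.mem a b)ᶜ ∈ G.U := by
  have h0 := (G.los_iff ((Fm.mem (.inr x) (.inr y)).neg : Fm G.M 0) ![]).1 h
  simp only [vl_neg, vl_mem, Sum.elim_inr] at h0
  refine up3 hx hy h0 (bNot fun Δ h1 h2 => bAbs (bRight h1) ?_)
  exact HN.bMemL (HN.bSymm (bLeft (bLeft h1))) (HN.bMemR (HN.bSymm (bRight (bLeft h1))) h2)

theorem dec_eq {x y : G.M} {a b : HN.{0}} (hx : G.R x a) (hy : G.R y b) (h : ¬ x = y) :
    (HN.eq a b)ᶜ ∈ G.U := by
  have h0 := (G.los_iff ((Fm.eq (.inr x) (.inr y)).neg : Fm G.M 0) ![]).1 h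
  simp only [vl_neg, vl_eq, Sum.elim_inr] at h0
  refine up3 hx hy h0 (bNot fun Δ h1 h2 => bAbs (bRight h1) ?_)
  exact HN.bTrans (bLeft (bLeft h1)) (HN.bTrans h2 (HN.bSymm (bRight (bLeft h1))))

theorem dec_ud {n : ℕ} {P : ∀ (M : Type) (_ : M → M → Prop), (Fin n → M) → Prop} (h : UD P)
    {v : Fin n → G.M} {a : Fin n → HN.{0}} (hv : ∀ i, G.R (v i) (a i)) (hP : ¬ P G.M G.E v) :
    (h.val a)ᶜ ∈ G.U := by
  have h1 := (los_ud h.not hv).1 hP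
  -- both are the value of a negation
  have h2 : ∀ f f' : Fm Empty n, (∀ (M : Type) (E : M → M → Prop) (v : Fin n → M),
      f.Sat E (fun x : Empty => x.elim) v ↔ ¬ f'.Sat E (fun x : Empty => x.elim) v) →
      vl (fun x : Empty => x.elim) f a ∈ G.U → (vl (fun x : Empty => x.elim) f' a)ᶜ ∈ G.U := by
    intro f f' hff hf
    have h3 : vl (fun x : Empty => x.elim) f'.neg a ∈ G.U := by
      have h4 : UD (fun M E v => f.Sat E (fun x : Empty => (x.elim : M)) v) := ⟨f, fun _ _ _ => Iff.rfl⟩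
      have h5 := G.los_iff (f.map (fun x : Empty => (x.elim : G.M))) v
      have h6 := G.los_iff (f'.neg.map (fun x : Empty => (x.elim : G.M))) v
      rw [sat_map, vl_map] at h5 h6
      have e1 : (id ∘ fun x : Empty => (x.elim : G.M)) = fun x : Empty => (x.elim : G.M) :=
        funext fun x => x.elim
      have e2 : (G.rep ∘ fun x : Empty => (x.elim : G.M)) = fun x : Empty => (x.elim : HN.{0}) :=
        funext fun x => x.elim
      rw [e1, e2] at h5 h6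
      have h7 := inf_fin hv
      have h8 : vl (fun x : Empty => x.elim) f (fun i => G.rep (v i)) ∈ G.U :=
        up2 h7 hf (vl_congr f (fun c => c.elim)
          (fun i => HN.bSymm (inf_le_left.trans (iInf_le _ i))) inf_le_right)
      have h9 := h6.1 ((hff _ _ _).1 (h5.2 h8))
      exact up2 h7 h9 (vl_congr f'.neg (fun c => c.elim)
        (fun i => inf_le_left.trans (iInf_le _ i)) inf_le_right)
    rwa [vl_neg] at h3
  exact h2 _ _ (fun M E v => by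
    rw [h.not.choose_spec M E v, h.choose_spec M E v]) h1

end GModel

/-- the families: the first one is for the natural numbers -/
def stdF (𝒢 : ℕ → HN.{0} → Set BB) : ℕ → HN.{0} → HN.{0} → Set BB
  | 0, x, _ => Set.range fun n => HN.eq x (HN.nat n)
  | k + 1, x, _ => 𝒢 k x

/-- a countable model with the standard natural numbers which is generic above `p` -/
structure Mod (𝒢 : ℕ → HN.{0} → Set BB) (p : Cond) where
  G : GModel (stdF 𝒢)
  gen : ∀ c, Frc p c → c ∈ G.U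
  den : ∀ c ∈ G.U, ∃ q ≤ p, Frc q c
  o : G.M
  ho : G.R o HN.omg
  N : ℕ → G.M
  hN : ∀ n, G.R (N n) (HN.nat n)

theorem exists_mod (A₀ : Set HN.{0}) (hA : A₀.Countable) (𝒢 : ℕ → HN.{0} → Set BB) (p : Cond) :
    ∃ 𝔐 : Mod 𝒢 p, ∀ a ∈ A₀, ∃ m : 𝔐.G.M, 𝔐.G.R m a := by
  obtain ⟨G, h1, h2, h3⟩ := exists_model (insert HN.omg (Set.range HN.nat ∪ A₀))
    (((Set.countable_range _).union hA).insert _) (stdF 𝒢) p
  obtain ⟨o, ho⟩ := h1 _ (Set.mem_insert _ _)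
  have hN : ∀ n, ∃ m : G.M, G.R m (HN.nat n) := fun n =>
    h1 _ (Set.mem_insert_of_mem _ (Or.inl ⟨n, rfl⟩))
  choose N hN using hN
  exact ⟨⟨G, h2, h3, o, ho, N, hN⟩, fun a ha => h1 _ (Set.mem_insert_of_mem _ (Or.inr ha))⟩

namespace Mod

variable {𝒢 : ℕ → HN.{0} → Set BB} {p : Cond} (𝔐 : Mod 𝒢 p)

/-- the underlying type -/
abbrev M : Type := 𝔐.G.M

noncomputable instance : ZM 𝔐.G.M := ⟨𝔐.G.E, 𝔐.G.zf⟩

theorem E_def : (ZM.E : 𝔐.G.M → 𝔐.G.M → Prop) = 𝔐.G.E := rfl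

theorem gen' (k : ℕ) (m : 𝔐.M) : (∃ b ∈ 𝒢 k (𝔐.G.rep m), b ∈ 𝔐.G.U) ∨
    (sSup (𝒢 k (𝔐.G.rep m)))ᶜ ∈ 𝔐.G.U := 𝔐.G.gen (k + 1) m m

/-- using a family of equalities -/
theorem gen_range {I : Type*} {k : ℕ} {a : I → HN.{0}} (hk : ∀ x, 𝒢 k x = Set.range fun i => HN.eq x (a i))
    {m : 𝔐.M} {b : HN.{0}} (hm : 𝔐.G.R m b) (h : (⨆ i, HN.eq b (a i)) ∈ 𝔐.G.U) :
    ∃ i, 𝔐.G.R m (a i) := by
  rcases 𝔐.gen' k m with ⟨c, hc, hcU⟩ | h1
  · rw [hk] at hc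
    obtain ⟨i, rfl⟩ := hc
    exact ⟨i, hcU⟩
  · rw [hk] at h1
    refine (GModel.not_both (GModel.up2 hm h ?_) h1).elim
    exact bElim inf_le_right fun i Δ h2 h3 => bEx i (HN.bTrans (bLeft h2) h3)

theorem N0 (y : 𝔐.M) : ¬ 𝔐.G.E y (𝔐.N 0) := fun h => by
  rw [GModel.R_mem (GModel.R_refl y) (𝔐.hN 0)] at h
  change HN.mem (𝔐.G.rep y) HN.emp ∈ 𝔐.G.U at h
  rw [HN.mem_emp] at h
  exact 𝔐.G.bot h

theorem NS (n : ℕ) (z : 𝔐.M) : 𝔐.G.E z (𝔐.N (n + 1)) ↔ 𝔐.G.E z (𝔐.N n) ∨ z = 𝔐.N n := by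
  rw [GModel.R_mem (GModel.R_refl z) (𝔐.hN (n + 1)), HN.mem_nat_succ]
  constructor
  · intro h
    by_cases h1 : z = 𝔐.N n
    · exact Or.inr h1
    · left
      rw [GModel.R_mem (GModel.R_refl z) (𝔐.hN n)]
      refine GModel.up2 h (GModel.dec_eq (GModel.R_refl z) (𝔐.hN n) h1) ?_
      rw [inf_sup_right, inf_compl_eq_bot, bot_sup_eq]
      exact inf_le_left
  · rintro (h | h)
    · rw [GModel.R_mem (GModel.R_refl z) (𝔐.hN n)] at h
      exact 𝔐.G.up _ h _ le_sup_right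
    · rw [GModel.R_eq (GModel.R_refl z) (𝔐.hN n)] at h
      exact 𝔐.G.up _ h _ le_sup_left

theorem NO (z : 𝔐.M) : 𝔐.G.E z 𝔐.o ↔ ∃ n, z = 𝔐.N n := by
  rw [GModel.R_mem (GModel.R_refl z) 𝔐.ho, HN.mem_omg]
  constructor
  · intro h
    rcases 𝔐.G.gen 0 z z with ⟨b, ⟨n, rfl⟩, hb⟩ | h1
    · exact ⟨n, (GModel.R_eq (GModel.R_refl z) (𝔐.hN n)).2 hb⟩
    · exact (GModel.not_both h h1).elim
  · rintro ⟨n, rfl⟩
    exact 𝔐.G.up _ (𝔐.hN n) _ (le_iSup (fun n => HN.eq (𝔐.G.rep (𝔐.N _)) (HN.nat n)) n)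

theorem Ninj {i j : ℕ} : 𝔐.N i = 𝔐.N j ↔ i = j := by
  refine ⟨fun h => ?_, fun h => by rw [h]⟩
  by_contra hij
  rw [GModel.R_eq (𝔐.hN i) (𝔐.hN j), HN.nat_ne hij] at h
  exact 𝔐.G.bot h

theorem Nlt (i j : ℕ) : 𝔐.G.E (𝔐.N i) (𝔐.N j) ↔ i < j := by
  rw [GModel.R_mem (𝔐.hN i) (𝔐.hN j), HN.mem_nat_nat]
  split_ifs with h
  · simp [h, 𝔐.G.top]
  · simp [h, 𝔐.G.bot]

theorem NE (j : ℕ) (z : 𝔐.M) : 𝔐.G.E z (𝔐.N j) ↔ ∃ i < j, z = 𝔐.N i := by
  induction j with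
  | zero => simp [𝔐.N0]
  | succ j ih =>
    rw [𝔐.NS, ih]
    constructor
    · rintro (⟨i, hi, rfl⟩ | rfl)
      · exact ⟨i, by omega, rfl⟩
      · exact ⟨j, by omega, rfl⟩
    · rintro ⟨i, hi, rfl⟩
      rcases Nat.lt_succ_iff_lt_or_eq.1 hi with h | rfl
      · exact Or.inl ⟨i, h, rfl⟩
      · exact Or.inr rfl

theorem isOmega : IsOmega 𝔐.G.E 𝔐.o := by
  refine ⟨⟨⟨𝔐.N 0, 𝔐.N0, (𝔐.NO _).2 ⟨0, rfl⟩⟩, fun y hy => ?_⟩, fun w hw x hx => ?_⟩
  · obtain ⟨n, rfl⟩ := (𝔐.NO y).1 hy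
    exact ⟨𝔐.N (n + 1), (𝔐.NO _).2 ⟨n + 1, rfl⟩, 𝔐.NS n⟩
  · obtain ⟨n, rfl⟩ := (𝔐.NO x).1 hx
    clear hx
    induction n with
    | zero =>
      obtain ⟨e, he, hew⟩ := hw.1
      have : e = 𝔐.N 0 := 𝔐.G.zf.ext _ _ fun z =>
        ⟨fun h => (he z h).elim, fun h => (𝔐.N0 z h).elim⟩
      rwa [← this]
    | succ n ih =>
      obtain ⟨t, ht, ht'⟩ := hw.2 _ ih
      have : t = 𝔐.N (n + 1) := 𝔐.G.zf.ext _ _ fun z => by rw [ht', 𝔐.NS]
      rwa [← this]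

theorem omega_unique {o' : 𝔐.M} (h : IsOmega 𝔐.G.E o') : o' = 𝔐.o :=
  𝔐.G.zf.ext _ _ fun z => ⟨fun hz => h.2 _ 𝔐.isOmega.1 z hz, fun hz => 𝔐.isOmega.2 _ h.1 z hz⟩

end Mod

/-- forcing via models -/
theorem frc_of_mod (A₀ : Set HN.{0}) (hA : A₀.Countable) (𝒢 : ℕ → HN.{0} → Set BB) (p : Cond)
    (b : BB) (H : ∀ q ≤ p, ∀ 𝔐 : Mod 𝒢 q, (∀ a ∈ A₀, ∃ m : 𝔐.G.M, 𝔐.G.R m a) → b ∈ 𝔐.G.U) :
    Frc p b := by
  by_contra hc
  have h1 : ∃ q ≤ p, Frc q bᶜ := by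
    by_contra h2
    push Not at h2
    refine hc (frc_dense fun q hq => ?_)
    obtain ⟨r, hr, h | h⟩ := frc_decide q b
    · exact ⟨r, hr, h⟩
    · exact (h2 r (hr.trans hq) h).elim
  obtain ⟨q, hq, h1⟩ := h1
  obtain ⟨𝔐, h𝔐⟩ := exists_mod A₀ hA 𝒢 q
  exact GModel.not_both (H q hq 𝔐 h𝔐) (𝔐.gen _ h1)

end Pool.Agent.Helper23.SM
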