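import Pool.Agent.Helper23.SM.Mod
import Pool.Agent.Helper23.SM.ML
import Pool.Agent.Helper23.WT.Univ

set_option autoImplicit false

/-!
# Pairs and sequences of names
-/

universe u v w

namespace Pool.Agent.Helper23.SM

open WT (iffV bElim bOr bMP bImp bNot bAbs bAll bEx bIff bIff_mp bIff_mpr bLeft bRight bCases bContra eq_of_forall iffV_self iffV_eq_top)
open WT (Fm ZF IsUPair IsOPair App IsFun IsOmega IsInductive ZM)
open WT.Fm (sh elim_sh fUPair fPair fApp sat_fUPair sat_fPair sat_fApp)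

section
variable {κ : Type w} {n : ℕ} (e : κ → HN.{0})

@[simp] lemma vl_fUPair (z x y : Fin n ⊕ κ) (v : Fin n → HN.{0}) :
    vl e (fUPair z x y) v =
      HN.eq (Sum.elim v e z) (HN.upair (Sum.elim v e x) (Sum.elim v e y)) := by
  simp [fUPair, HN.eq_eq_iInf, HN.mem_upair]

@[simp] lemma vl_fPair (p x y : Fin n ⊕ κ) (v : Fin n → HN.{0}) :
    vl e (fPair p x y) v =
      HN.eq (Sum.elim v e p) (HN.opair (Sum.elim v e x) (Sum.elim v e y)) := by
  simp only [fPair, HN.opair, vl_all, vl_iff, vl_mem, vl_or, vl_fUPair, elim_sh,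
    Sum.elim_inl, Matrix.cons_val_zero]
  rw [HN.eq_eq_iInf]
  simp only [HN.mem_upair]

@[simp] lemma vl_fApp (f x y : Fin n ⊕ κ) (v : Fin n → HN.{0}) :
    vl e (fApp f x y) v =
      HN.mem (HN.opair (Sum.elim v e x) (Sum.elim v e y)) (Sum.elim v e f) := by
  simp only [fApp, vl_ex, vl_and, vl_mem, vl_fPair, elim_sh,
    Sum.elim_inl, Matrix.cons_val_zero]
  refine le_antisymm (iSup_le fun p => ?_) ?_
  · exact HN.bMemL inf_le_left inf_le_right
  · exact bEx _ (le_inf (HN.bRefl _) le_rfl)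

end

namespace HN

theorem act_upair (g : Gp) (x y : HN.{0}) :
    eq (act g (upair x y)) (upair (act g x) (act g y)) = ⊤ := by
  have key : ∀ w : HN.{0}, mem (act g w) (act g (upair x y)) =
      mem (act g w) (upair (act g x) (act g y)) := by
    intro w
    rw [mem_act, mem_upair, mem_upair, map_sup, eq_act, eq_act]
  rw [eq_top_iff]
  refine bExt (fun w Δ _ h1 => ?_) (fun w Δ _ h1 => ?_)
  · obtain ⟨w, rfl⟩ := act_surj g w
    rw [← key]; exact h1
  · obtain ⟨w, rfl⟩ := act_surj g w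
    rw [key]; exact h1

theorem act_opair (g : Gp) (x y : HN.{0}) :
    eq (act g (opair x y)) (opair (act g x) (act g y)) = ⊤ := by
  rw [eq_top_iff]
  refine bTrans (le_top.trans (act_upair g _ _).ge) (bUpairCongr ?_ ?_)
  · exact le_top.trans (act_upair g _ _).ge
  · exact le_top.trans (act_upair g _ _).ge

theorem opair_congr_top {x y x' y' : HN.{0}} (h : eq x x' = ⊤) (h' : eq y y' = ⊤) :
    eq (opair x y) (opair x' y') = ⊤ :=
  eq_top_iff.2 (bOpairCongr (le_top.trans h.ge) (le_top.trans h'.ge))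

theorem trans_top {x y z : HN.{0}} (h : eq x y = ⊤) (h' : eq y z = ⊤) : eq x z = ⊤ :=
  eq_top_iff.2 (bTrans (le_top.trans h.ge) (le_top.trans h'.ge))

/-- names of sequences -/
theorem exists_seq (z : ℕ → HN.{0}) {E : Set Ix} (hE : IsSp E) (hz : ∀ n, Supp E (z n)) :
    ∃ f : HN.{0}, (∀ w, mem w f = ⨆ n, eq w (opair (nat n) (z n))) ∧ Supp E f :=
  exists_family' (fun n => opair (nat n) (z n)) E hE fun n => (supp_nat E n).opair (hz n)

theorem mem_seq {z : ℕ → HN.{0}} {f : HN.{0}} (hf : ∀ w, mem w f = ⨆ n, eq w (opair (nat n) (z n)))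
    (n : ℕ) (y : HN.{0}) : mem (opair (nat n) y) f = eq y (z n) := by
  rw [hf]
  refine le_antisymm (iSup_le fun m => ?_) (bEx n (bOpairCongr (bRefl _) le_rfl))
  by_cases h : n = m
  · rw [h]
    exact bOpairSnd le_rfl
  · exact ((bOpairFst le_rfl).trans (le_of_eq (nat_ne h))).trans bot_le

end HN

namespace GModel

variable {𝓖 : ℕ → HN.{0} → HN.{0} → Set BB} {G : GModel.{0} 𝓖}

noncomputable instance (G : GModel.{0} 𝓖) : ZM G.M := ⟨G.E, G.zf⟩

theorem R_upair {x y : G.M} {a b : HN.{0}} (hx : G.R x a) (hy : G.R y b) :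
    G.R (WT.upair x y) (HN.upair a b) := by
  have h0 := (G.los_iff (fUPair (.inr (WT.upair x y)) (.inr x) (.inr y) : Fm G.M 0) ![]).1 (by
    rw [sat_fUPair]
    exact WT.isUPair_iff.2 rfl)
  simp only [vl_fUPair, Sum.elim_inr] at h0
  exact up3 h0 hx hy (HN.bTrans (bLeft (bLeft le_rfl))
    (HN.bUpairCongr (bRight (bLeft le_rfl)) (bRight le_rfl)))

theorem R_opair {x y : G.M} {a b : HN.{0}} (hx : G.R x a) (hy : G.R y b) :
    G.R (WT.opair x y) (HN.opair a b) := R_upair (R_upair hx hx) (R_upair hx hy)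

/-- a value of a function -/
theorem exists_app {f x : G.M} {F a : HN.{0}} (hf : G.R f F) (hx : G.R x a)
    (h : (⨆ y, HN.mem (HN.opair a y) F) ∈ G.U) : ∃ y : G.M, ZM.E (WT.opair x y) f := by
  have h0 := (G.los_iff (Fm.ex (fApp (.inr f) (.inr x) (.inl 0)) : Fm G.M 0) ![]).2 (by
    simp only [vl_ex, vl_fApp, Sum.elim_inl, Sum.elim_inr, Matrix.cons_val_zero]
    refine up3 hf hx h (bElim (bRight le_rfl) fun y Δ h1 h2 => bEx y ?_)
    exact HN.bMemR (HN.bSymm (bLeft (bLeft h1)))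
      (HN.bMemL (HN.bOpairCongr (HN.bSymm (bRight (bLeft h1))) (HN.bRefl _)) h2))
  rw [Fm.sat_ex] at h0
  obtain ⟨y, hy⟩ := h0
  rw [sat_fApp] at hy
  exact ⟨y, WT.app_iff.1 hy⟩

end GModel

namespace Mod

variable {𝒢 : ℕ → HN.{0} → Set BB} {p : Cond} (𝔐 : Mod 𝒢 p)

theorem std : Std 𝔐.G.M 𝔐.o 𝔐.N :=
  ⟨𝔐.isOmega, 𝔐.NO, 𝔐.NE, fun _ _ h => 𝔐.Ninj.1 h⟩

/-- sequences in the model -/
theorem seq {z : ℕ → HN.{0}} {F : HN.{0}}
    (hF : ∀ w, HN.mem w F = ⨆ n, HN.eq w (HN.opair (HN.nat n) (z n))) {k : ℕ}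
    (hk : ∀ x, 𝒢 k x = Set.range fun n => HN.eq x (HN.opair (HN.nat n) (z n)))
    {f A : 𝔐.G.M} (hf : 𝔐.G.R f F) (hA : ∀ n y, 𝔐.G.R y (z n) → ZM.E y A) :
    WT.IsFn f 𝔐.o A ∧ ∀ n, 𝔐.G.R (WT.ap f (𝔐.N n)) (z n) := by
  have h1 : ∀ n y, ZM.E (WT.opair (𝔐.N n) y) f ↔ 𝔐.G.R y (z n) := by
    intro n y
    rw [E_def, GModel.R_mem (GModel.R_opair (𝔐.hN n) (GModel.R_refl y)) hf, HN.mem_seq hF]
    rfl
  have h2 : ∀ n, ∃ y, 𝔐.G.R y (z n) := by
    intro n
    obtain ⟨y, hy⟩ := GModel.exists_app hf (𝔐.hN n) (𝔐.G.up _ 𝔐.G.top _ (bEx (z n) (by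
      rw [HN.mem_seq hF]
      exact HN.bRefl _)))
    exact ⟨y, (h1 n y).1 hy⟩
  have hfn : WT.IsFn f 𝔐.o A := by
    refine ⟨fun q hq => ?_, fun x hx => ?_⟩
    · have h3 : (⨆ n, HN.eq (𝔐.G.rep q) (HN.opair (HN.nat n) (z n))) ∈ 𝔐.G.U := by
        rw [← hF]
        exact (GModel.R_mem (GModel.R_refl q) hf).1 hq
      obtain ⟨n, hn⟩ := 𝔐.gen_range hk (GModel.R_refl q) h3
      obtain ⟨y, hy⟩ := h2 n
      refine ⟨𝔐.N n, y, 𝔐.std.N_mem n, hA n y hy, ?_⟩
      refine (GModel.R_eq hn (GModel.R_opair (𝔐.hN n) hy)).2 ?_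
      rw [HN.eq_refl]
      exact 𝔐.G.top
    · obtain ⟨n, rfl⟩ := (𝔐.std.NO x).1 hx
      obtain ⟨y, hy⟩ := h2 n
      refine ⟨y, (h1 n y).2 hy, fun y' hy' => ?_⟩
      have h4 := (h1 n y').1 hy'
      refine (GModel.R_eq h4 hy).2 ?_
      rw [HN.eq_refl]
      exact 𝔐.G.top
  refine ⟨hfn, fun n => ?_⟩
  rw [← h1]
  exact (hfn.mem_iff (𝔐.std.N_mem n)).2 rfl

end Mod

/-- fusion with dependent choices -/
theorem fusion_seq {α : Type*} [Inhabited α] (Q : ℕ → (ℕ → α) → Cond → α → Prop)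
    (hQ : ∀ n z z' q a, (∀ i < n, z i = z' i) → Q n z q a → Q n z' q a)
    (hl : ∀ n z q q' a, q' ≤ q → Q n z q a → Q n z q' a) (p : Cond)
    (step : ∀ n z, ∀ q ≤ p, (∀ i < n, Q i z q (z i)) → ∃ q' ≤ q, ∃ a, Q n z q' a) :
    ∃ q ≤ p, ∃ z : ℕ → α, ∀ n, Q n z q (z n) := by
  classical
  let St : ℕ → Type _ := fun n => {s : Cond × (ℕ → α) // s.1 ≤ p ∧ ∀ i < n, Q i s.2 s.1 (s.2 i)}
  have step' : ∀ (n : ℕ) (s : St n), ∃ s' : St (n + 1), s'.1.1 ≤ s.1.1 ∧ ∀ i < n, s'.1.2 i = s.1.2 i := by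
    rintro n ⟨⟨q, z⟩, hq, hz⟩
    obtain ⟨q', hq', a, ha⟩ := step n z q hq hz
    refine ⟨⟨(q', Function.update z n a), hq'.trans hq, fun i hi => ?_⟩, hq', fun i hi => ?_⟩
    · simp only
      rcases Nat.lt_succ_iff_lt_or_eq.1 hi with h | rfl
      · rw [Function.update_of_ne (by omega)]
        refine hQ i z _ q' _ (fun j hj => by rw [Function.update_of_ne (by omega)]) ?_
        exact hl i z q q' _ hq' (hz i h)
      · rw [Function.update_self]
        exact hQ i z _ q' _ (fun j hj => by rw [Function.update_of_ne (by omega)]) ha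
    · simp only
      rw [Function.update_of_ne (by omega)]
  choose nx h1 h2 using step'
  let s : ∀ n, St n := fun n => Nat.rec ⟨(p, fun _ => default), le_rfl, fun i hi => (Nat.not_lt_zero i hi).elim⟩
    (fun n s => nx n s) n
  have hs : ∀ n, s (n + 1) = nx n (s n) := fun n => rfl
  obtain ⟨q, hq⟩ := Cond.exists_limit (fun n => (s n).1.1) (fun n => by
    show (s (n + 1)).1.1 ≤ (s n).1.1
    rw [hs]
    exact h1 _ _)
  have hst : ∀ i m, i < m → (s m).1.2 i = (s (i + 1)).1.2 i := by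
    intro i m him
    induction m with
    | zero => omega
    | succ m ih =>
      rcases Nat.lt_succ_iff_lt_or_eq.1 him with h | rfl
      · rw [hs, h2 m (s m) i h, ih h]
      · rfl
  refine ⟨q, (hq 0).trans (s 0).2.1, fun n => (s (n + 1)).1.2 n, fun n => ?_⟩
  have h3 := (s (n + 1)).2.2 n (Nat.lt_succ_self n)
  refine hQ n (s (n + 1)).1.2 _ q _ (fun i hi => ?_) (hl n _ _ q _ (hq (n + 1)) h3)
  exact hst i (n + 1) (by omega)

end Pool.Agent.Helper23.SM
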