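import Pool.Agent.Helper23.SM.Gr

set_option autoImplicit false
set_option linter.unreachableTactic false
set_option linter.unusedTactic false

/-!
# The real numbers of the models
-/

universe u v w

namespace Pool.Agent.Helper23.SM

open WT (iffV bElim bOr bMP bImp bNot bAbs bAll bEx bIff bIff_mp bIff_mpr bLeft bRight bCases bContra eq_of_forall iffV_self iffV_eq_top)
open WT (Fm ZF IsUPair IsOPair App IsFun IsOmega IsInductive ZM IsFn isFun_iff app_iff opair ap)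

section
variable {M : Type} [ZM M]

/-- a criterion -/
theorem isMetrizable_of {R a m l d X τ : M} (K : Subfield ℝ) (e : El (ZM.E : M → M → Prop) R ≃ K)
    (ha : ∀ x y z : El (ZM.E : M → M → Prop) R, ZM.E (opair (opair x.1 y.1) z.1) a ↔
      (e x : ℝ) + e y = e z)
    (hm : ∀ x y z : El (ZM.E : M → M → Prop) R, ZM.E (opair (opair x.1 y.1) z.1) m ↔
      (e x : ℝ) * e y = e z)
    (hl : ∀ x y : El (ZM.E : M → M → Prop) R, ZM.E (opair x.1 y.1) l ↔ (e x : ℝ) ≤ e y)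
    (hsup : ∀ S, Sub ZM.E S R → (∃ x, ZM.E x S) →
      (∃ b : El (ZM.E : M → M → Prop) R, ∀ x : El (ZM.E : M → M → Prop) R, ZM.E x.1 S →
        (e x : ℝ) ≤ e b) →
      ∃ b : El (ZM.E : M → M → Prop) R, (∀ x : El (ZM.E : M → M → Prop) R, ZM.E x.1 S →
        (e x : ℝ) ≤ e b) ∧ ∀ c : El (ZM.E : M → M → Prop) R,
          (∀ x : El (ZM.E : M → M → Prop) R, ZM.E x.1 S → (e x : ℝ) ≤ e c) → (e b : ℝ) ≤ e c)
    (δ : El (ZM.E : M → M → Prop) X → El (ZM.E : M → M → Prop) X → ℝ)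
    (hδR : ∀ x y, δ x y ∈ K)
    (hd : ∀ (x y : El (ZM.E : M → M → Prop) X) (r : El (ZM.E : M → M → Prop) R),
      ZM.E (opair (opair x.1 y.1) r.1) d ↔ δ x y = e r)
    (h0 : ∀ x y, δ x y = 0 ↔ x = y) (hs : ∀ x y, δ x y = δ y x)
    (ht : ∀ x y z, δ x z ≤ δ x y + δ y z)
    (hτ : ∀ U, ZM.E U τ ↔ Sub ZM.E U X ∧ ∀ x : El (ZM.E : M → M → Prop) X, ZM.E x.1 U →
      ∃ ε : K, 0 < (ε : ℝ) ∧ ∀ y : El (ZM.E : M → M → Prop) X, δ x y < ε → ZM.E y.1 U) :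
    IsMetrizable ZM.E X τ := by
  letI iF : Field (El (ZM.E : M → M → Prop) R) := e.field
  letI iL : LinearOrder (El (ZM.E : M → M → Prop) R) := LinearOrder.lift' e e.injective
  have eadd : ∀ x y, e (x + y) = e x + e y := fun x y => (e.ringEquiv).map_add x y
  have emul : ∀ x y, e (x * y) = e x * e y := fun x y => (e.ringEquiv).map_mul x y
  have ezero : e 0 = 0 := map_zero (e.ringEquiv)
  have eone : e 1 = 1 := map_one (e.ringEquiv)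
  have hle : ∀ x y : El (ZM.E : M → M → Prop) R, x ≤ y ↔ (e x : ℝ) ≤ e y := fun x y => Iff.rfl
  have hlt : ∀ x y : El (ZM.E : M → M → Prop) R, x < y ↔ (e x : ℝ) < e y := fun x y => Iff.rfl
  have iS : IsStrictOrderedRing (El (ZM.E : M → M → Prop) R) :=
    Function.Injective.isStrictOrderedRing e ezero eone eadd emul (fun {x y} => Iff.rfl)
      (fun {x y} => Iff.rfl)
  refine ⟨R, a, m, l, d, iF, iL, fun x y => e.symm ⟨δ x y, hδR x y⟩, iS, fun x y z => ?_,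
    fun x y z => ?_, fun x y => ?_, fun S h1 h2 h3 => ?_, fun x y r => ?_, fun x y => ?_,
    fun x y => ?_, fun x y z => ?_, fun U => ?_⟩
  · rw [app2_iff, ha, ← e.injective.eq_iff, eadd, Subtype.ext_iff]
    rfl
  · rw [app2_iff, hm, ← e.injective.eq_iff, emul, Subtype.ext_iff]
    rfl
  · rw [app_iff, hl, hle]
  · exact hsup S h1 h2 h3
  · rw [app2_iff, hd]
    rw [Equiv.symm_apply_eq, Subtype.ext_iff]
  · rw [Equiv.symm_apply_eq, ezero, Subtype.ext_iff]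
    exact h0 x y
  · simp only [hs x y]
  · rw [hle, eadd]
    simp only [Equiv.apply_symm_apply]
    exact ht x y z
  · rw [hτ]
    refine and_congr Iff.rfl (forall_congr' fun x => imp_congr Iff.rfl ⟨?_, ?_⟩)
    · rintro ⟨ε, h1, h2⟩
      refine ⟨e.symm ε, ?_, fun y hy => h2 y ?_⟩
      · show (0 : El (ZM.E : M → M → Prop) R) < _
        rw [hlt, ezero, Equiv.apply_symm_apply]
        exact h1
      · rw [hlt] at hy
        simpa using hy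
    · rintro ⟨ε, h1, h2⟩
      refine ⟨e ε, ?_, fun y hy => h2 y ?_⟩
      · change (0 : El (ZM.E : M → M → Prop) R) < _ at h1
        rw [hlt, ezero] at h1
        exact h1
      · rw [hlt]
        simpa using hy

end

/-- the names needed for the real numbers -/
def AR : Set HN.{0} := {HN.RR, HN.gr2 (fun r s => r + s), HN.gr2 (fun r s => r * s),
  HN.gr2 (fun r _ => - r), HN.gr2 (fun r _ => r⁻¹), HN.LE, HN.rn 0, HN.rn 1}

/-- a model with the real numbers of the ground model -/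
structure RS {𝒢 : ℕ → HN.{0} → Set BB} {p : Cond} (𝔐 : Mod 𝒢 p) : Prop where
  h0 : ∀ x, 𝒢 0 x = Set.range fun r : ℝ => HN.eq x (HN.rn r)
  hall : ∀ a ∈ AR, ∃ m : 𝔐.G.M, 𝔐.G.R m a

section

variable {𝒢 : ℕ → HN.{0} → Set BB} {p : Cond} {𝔐 : Mod 𝒢 p}

theorem Mod.R_rn_inj {z : 𝔐.G.M} {r s : ℝ} (h : 𝔐.G.R z (HN.rn r)) (h' : 𝔐.G.R z (HN.rn s)) :
    r = s := by
  by_contra hrs
  have := (GModel.R_eq h h').1 rfl
  rw [HN.rn_ne hrs] at this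
  exact 𝔐.G.bot this

theorem Mod.R_eq_of {z z' : 𝔐.G.M} {a : HN.{0}} (h : 𝔐.G.R z a) (h' : 𝔐.G.R z' a) : z = z' :=
  (GModel.R_eq h h').2 (by rw [HN.eq_refl]; exact 𝔐.G.top)

theorem Mod.mem_gr2_iff {f : ℝ → ℝ → ℝ} {F x y z : 𝔐.G.M} (hF : 𝔐.G.R F (HN.gr2 f)) {r s : ℝ}
    (hx : 𝔐.G.R x (HN.rn r)) (hy : 𝔐.G.R y (HN.rn s)) :
    ZM.E (opair (opair x y) z) F ↔ 𝔐.G.R z (HN.rn (f r s)) := by
  rw [Mod.E_def, GModel.R_mem (GModel.R_opair (GModel.R_opair hx hy) (GModel.R_refl z)) hF,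
    HN.mem_gr2]
  rfl

theorem Mod.clos {f : ℝ → ℝ → ℝ} {F x y : 𝔐.G.M} (hF : 𝔐.G.R F (HN.gr2 f)) {r s : ℝ}
    (hx : 𝔐.G.R x (HN.rn r)) (hy : 𝔐.G.R y (HN.rn s)) : ∃ z : 𝔐.G.M, 𝔐.G.R z (HN.rn (f r s)) := by
  obtain ⟨z, hz⟩ := GModel.exists_app hF (GModel.R_opair hx hy) (𝔐.G.up _ 𝔐.G.top _
    (bEx (HN.rn (f r s)) (by rw [HN.mem_gr2]; exact HN.bRefl _)))
  exact ⟨z, (Mod.mem_gr2_iff hF hx hy).1 hz⟩

theorem Mod.mem_LE_iff {l x y : 𝔐.G.M} (hl : 𝔐.G.R l HN.LE) {r s : ℝ}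
    (hx : 𝔐.G.R x (HN.rn r)) (hy : 𝔐.G.R y (HN.rn s)) : ZM.E (opair x y) l ↔ r ≤ s := by
  classical
  rw [Mod.E_def, GModel.R_mem (GModel.R_opair hx hy) hl, HN.mem_LE]
  split_ifs with h
  · exact ⟨fun _ => h, fun _ => 𝔐.G.top⟩
  · exact ⟨fun h' => (𝔐.G.bot h').elim, fun h' => (h h').elim⟩

theorem Mod.mem_RR_iff (h0 : ∀ x, 𝒢 0 x = Set.range fun r : ℝ => HN.eq x (HN.rn r)) {R z : 𝔐.G.M}
    (hR : 𝔐.G.R R HN.RR) : ZM.E z R ↔ ∃ r, 𝔐.G.R z (HN.rn r) := by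
  rw [Mod.E_def, GModel.R_mem (GModel.R_refl z) hR, HN.mem_RR]
  constructor
  · intro h
    exact 𝔐.gen_range h0 (GModel.R_refl z) h
  · rintro ⟨r, hr⟩
    exact 𝔐.G.up _ hr _ (bEx r le_rfl)

/-- the real numbers which are in the model -/
noncomputable def RS.K (H : RS 𝔐) : Subfield ℝ where
  carrier := {r | ∃ m : 𝔐.G.M, 𝔐.G.R m (HN.rn r)}
  mul_mem' := by
    rintro r s ⟨x, hx⟩ ⟨y, hy⟩
    obtain ⟨F, hF⟩ := H.hall (HN.gr2 (fun r s => r * s)) (by simp [AR])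
    exact Mod.clos hF hx hy
  one_mem' := H.hall (HN.rn 1) (by simp [AR])
  add_mem' := by
    rintro r s ⟨x, hx⟩ ⟨y, hy⟩
    obtain ⟨F, hF⟩ := H.hall (HN.gr2 (fun r s => r + s)) (by simp [AR])
    exact Mod.clos hF hx hy
  zero_mem' := H.hall (HN.rn 0) (by simp [AR])
  neg_mem' := by
    rintro r ⟨x, hx⟩
    obtain ⟨F, hF⟩ := H.hall (HN.gr2 (fun r _ => - r)) (by simp [AR])
    exact Mod.clos hF hx hx
  inv_mem' := by
    rintro r ⟨x, hx⟩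
    obtain ⟨F, hF⟩ := H.hall (HN.gr2 (fun r _ => r⁻¹)) (by simp [AR])
    exact Mod.clos hF hx hx

theorem RS.mem_K (H : RS 𝔐) {r : ℝ} : r ∈ H.K ↔ ∃ m : 𝔐.G.M, 𝔐.G.R m (HN.rn r) := Iff.rfl

/-- the real numbers of the model -/
theorem RS.exists_e (H : RS 𝔐) {R : 𝔐.G.M} (hR : 𝔐.G.R R HN.RR) :
    ∃ e : El (ZM.E : 𝔐.G.M → 𝔐.G.M → Prop) R ≃ H.K, ∀ z, 𝔐.G.R z.1 (HN.rn (e z)) := by
  have h1 : ∀ z : El (ZM.E : 𝔐.G.M → 𝔐.G.M → Prop) R, ∃ r, 𝔐.G.R z.1 (HN.rn r) := fun z =>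
    (Mod.mem_RR_iff H.h0 hR).1 z.2
  choose f hf using h1
  refine ⟨Equiv.ofBijective (fun z => ⟨f z, z.1, hf z⟩) ⟨fun z z' h => ?_, fun r => ?_⟩, hf⟩
  · have h2 : f z = f z' := congrArg Subtype.val h
    have h3 := hf z'
    rw [← h2] at h3
    exact Subtype.ext (Mod.R_eq_of (hf z) h3)
  · obtain ⟨r, m, hm⟩ := r
    have hmR : ZM.E m R := (Mod.mem_RR_iff H.h0 hR).2 ⟨r, hm⟩
    exact ⟨⟨m, hmR⟩, Subtype.ext (Mod.R_rn_inj (hf ⟨m, hmR⟩) hm)⟩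

end

/-- a non-empty bounded set without a supremum -/
theorem ud_gap : UD (n := 3) (fun _ E v => Sub E (v 0) (v 1) ∧ (∃ x, E x (v 0)) ∧
    (∃ b, E b (v 1) ∧ ∀ x, E x (v 0) → App E (v 2) x b) ∧
    ¬ ∃ b, E b (v 1) ∧ (∀ x, E x (v 0) → App E (v 2) x b) ∧
      ∀ c, E c (v 1) → (∀ x, E x (v 0) → App E (v 2) x c) → App E (v 2) b c) := by
  unfold Sub App IsOPair IsUPair
  (repeat' first
    | with_reducible exact UD.mem _ _ | with_reducible exact UD.eq _ _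
    | with_reducible exact UD.tru | with_reducible exact UD.fls
    | with_reducible apply UD.not | with_reducible apply UD.and | with_reducible apply UD.or
    | with_reducible apply UD.iff | with_reducible apply UD.imp
    | with_reducible apply UD.exu
    | with_reducible apply UD.ex | with_reducible apply UD.all)

theorem ud_ub : UD (n := 3) (fun _ E v => ∀ x, E x (v 0) → App E (v 1) x (v 2)) := by
  unfold App IsOPair IsUPair
  (repeat' first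
    | with_reducible exact UD.mem _ _ | with_reducible exact UD.eq _ _
    | with_reducible exact UD.tru | with_reducible exact UD.fls
    | with_reducible apply UD.not | with_reducible apply UD.and | with_reducible apply UD.or
    | with_reducible apply UD.iff | with_reducible apply UD.imp
    | with_reducible apply UD.exu
    | with_reducible apply UD.ex | with_reducible apply UD.all)

/-- the real numbers are complete -/
theorem gap_frc (q : Cond) (S : HN.{0}) : ¬ Frc q (ud_gap.val ![S, HN.RR, HN.LE]) := by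
  intro hq
  obtain ⟨en, hen⟩ := exists_surjective_nat ℚ
  obtain ⟨q', hq', h1⟩ := fusion (fun n q => Frc q (ud_ub.val ![S, HN.LE, HN.rn (en n : ℝ)]) ∨
      Frc q (ud_ub.val ![S, HN.LE, HN.rn (en n : ℝ)])ᶜ)
    (fun n p q hqp h => h.imp (fun h => h.lower hqp) (fun h => h.lower hqp)) q
    (fun n q _ => frc_decide q _)
  set B : Set ℝ := {t | ∃ s : ℚ, (s : ℝ) = t ∧ Frc q' (ud_ub.val ![S, HN.LE, HN.rn t])} with hB
  obtain ⟨𝔐, h𝔐⟩ := exists_mod (({S, HN.RR, HN.LE, HN.rn (sInf B)} : Set HN.{0}) ∪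
    Set.range fun t : ℚ => HN.rn (t : ℝ)) ((Set.to_countable _).union (Set.countable_range _))
    (fun _ x => Set.range fun r : ℝ => HN.eq x (HN.rn r)) q'
  obtain ⟨s, hs⟩ := h𝔐 S (by simp)
  obtain ⟨R, hR⟩ := h𝔐 HN.RR (by simp)
  obtain ⟨l, hl⟩ := h𝔐 HN.LE (by simp)
  obtain ⟨b, hb⟩ := h𝔐 (HN.rn (sInf B)) (by simp)
  have ht : ∀ t : ℚ, ∃ m : 𝔐.G.M, 𝔐.G.R m (HN.rn (t : ℝ)) := fun t => h𝔐 _ (Or.inr ⟨t, rfl⟩)
  choose tt htt using ht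
  obtain ⟨g1, ⟨x0, g2⟩, ⟨b0, g3, g4⟩, g5⟩ := (GModel.los_ud ud_gap (vec3 (Q := 𝔐.G.R) hs hR hl)).2
    (𝔐.gen _ (hq.lower hq'))
  have hRel : ∀ z, ZM.E z R ↔ ∃ r, 𝔐.G.R z (HN.rn r) := fun z => Mod.mem_RR_iff (fun _ => rfl) hR
  -- upper bounds
  have hub : ∀ t : ℚ, (∀ x, ZM.E x s → App ZM.E l x (tt t)) ↔
      Frc q' (ud_ub.val ![S, HN.LE, HN.rn (t : ℝ)]) := by
    intro t
    obtain ⟨n, rfl⟩ := hen t
    have h2 := GModel.los_ud ud_ub (vec3 (Q := 𝔐.G.R) hs hl (htt (en n)))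
    refine h2.trans ?_
    rcases h1 n with h3 | h3
    · exact ⟨fun _ => h3, fun _ => 𝔐.gen _ h3⟩
    · exact ⟨fun h4 => (GModel.not_both h4 (𝔐.gen _ h3)).elim,
        fun h4 => (frc_absurd h4 h3).elim⟩
  have hle : ∀ {x y r s}, 𝔐.G.R x (HN.rn r) → 𝔐.G.R y (HN.rn s) → (App ZM.E l x y ↔ r ≤ s) := by
    intro x y r s hx hy
    rw [app_iff]
    exact Mod.mem_LE_iff hl hx hy
  obtain ⟨r0, hr0⟩ := (hRel x0).1 (g1 x0 g2)
  obtain ⟨s0, hs0⟩ := (hRel b0).1 g3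
  have hBne : B.Nonempty := by
    obtain ⟨t, ht⟩ := exists_rat_gt s0
    refine ⟨t, t, rfl, (hub t).1 fun x hx => ?_⟩
    obtain ⟨r, hr⟩ := (hRel x).1 (g1 x hx)
    exact (hle hr (htt t)).2 (((hle hr hs0).1 (g4 x hx)).trans ht.le)
  have hBb : ∀ x r, ZM.E x s → 𝔐.G.R x (HN.rn r) → ∀ t ∈ B, r ≤ t := by
    rintro x r hx hr _ ⟨t, rfl, ht⟩
    exact (hle hr (htt t)).1 ((hub t).2 ht x hx)
  refine g5 ⟨b, (hRel b).2 ⟨_, hb⟩, fun x hx => ?_, fun c hc hc' => ?_⟩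
  · obtain ⟨r, hr⟩ := (hRel x).1 (g1 x hx)
    exact (hle hr hb).2 (le_csInf hBne (hBb x r hx hr))
  · obtain ⟨u, hu⟩ := (hRel c).1 hc
    refine (hle hb hu).2 ?_
    by_contra hcon
    obtain ⟨t, ht1, ht2⟩ := exists_rat_btwn (not_le.1 hcon)
    have h2 : (t : ℝ) ∈ B := by
      refine ⟨t, rfl, (hub t).1 fun x hx => ?_⟩
      obtain ⟨r, hr⟩ := (hRel x).1 (g1 x hx)
      exact (hle hr (htt t)).2 (((hle hr hu).1 (hc' x hx)).trans ht1.le)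
    exact absurd (csInf_le ⟨r0, hBb x0 r0 g2 hr0⟩ h2) (not_le.2 ht2)

/-- suprema in the models -/
theorem Mod.sup {𝒢 : ℕ → HN.{0} → Set BB} {p : Cond} (𝔐 : Mod 𝒢 p) {R l S : 𝔐.G.M}
    (hR : 𝔐.G.R R HN.RR) (hl : 𝔐.G.R l HN.LE) (h1 : Sub 𝔐.G.E S R) (h2 : ∃ x, 𝔐.G.E x S)
    (h3 : ∃ b, 𝔐.G.E b R ∧ ∀ x, 𝔐.G.E x S → App 𝔐.G.E l x b) :
    ∃ b, 𝔐.G.E b R ∧ (∀ x, 𝔐.G.E x S → App 𝔐.G.E l x b) ∧
      ∀ c, 𝔐.G.E c R → (∀ x, 𝔐.G.E x S → App 𝔐.G.E l x c) → App 𝔐.G.E l b c := by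
  by_contra h4
  have h5 := (GModel.los_ud ud_gap (vec3 (Q := 𝔐.G.R) (GModel.R_refl S) hR hl)).1 ⟨h1, h2, h3, h4⟩
  obtain ⟨q, -, h6⟩ := 𝔐.den _ h5
  exact gap_frc q _ h6

end Pool.Agent.Helper23.SM
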