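import Pool.Agent.Helper23.SM.Cp

set_option autoImplicit false
set_option linter.unreachableTactic false
set_option linter.unusedTactic false

/-!
# Multiple choice fails
-/

universe u v w

namespace Pool.Agent.Helper23.SM

open WT (iffV bElim bOr bMP bImp bNot bAbs bAll bEx bIff bIff_mp bIff_mpr bLeft bRight bCases bContra eq_of_forall iffV_self iffV_eq_top)
open WT (Fm ZF IsUPair IsOPair App IsFun IsOmega IsInductive ZM IsFn isFun_iff app_iff opair ap)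
open HN (TT un RI WW DD xn tn)

/-- copies of a condition shifted in the block `k` -/
theorem exists_shift {E : Set Ix} (hE : E.Countable) {k : ℕ} (hk : ∀ x ∈ E, x.1 < k) (p : Cond) :
    ∃ (g : ℕ → Gp) (q : Cond), ∀ i, g i ∈ Gp.Fix E ∧ (g i).tr k = i ∧ q ≤ (g i).onC p := by
  obtain ⟨g, h1, h2⟩ := exists_copies hE (A := p.dI \ E) (p.dI_countable.mono Set.sdiff_subset)
    Set.disjoint_sdiff_left (fun i m => if m = k then (i : ℚ) else 0) (fun i x hx => by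
      have := hk x hx
      rw [if_neg (by omega)])
  obtain ⟨q, hq⟩ := exists_lower p g (fun i => (h1 i).2) h2
  exact ⟨g, q, fun i => ⟨(h1 i).2, by rw [(h1 i).1]; exact if_pos rfl, hq i⟩⟩

theorem shift_val {n : ℕ} {P : ∀ (M : Type) (_ : M → M → Prop), (Fin n → M) → Prop} (h : UD P)
    {a b : Fin n → HN.{0}} {g : Gp} (hab : ∀ i, HN.eq (HN.act g (a i)) (b i) = ⊤) {p : Cond}
    (hp : Frc p (h.val a)) : Frc (g.onC p) (h.val b) := by
  have h1 : Frc (g.onC p) (ρ g (h.val a)) := frc_ρ'.2 hp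
  rw [← h.val_act] at h1
  refine Frc.mono (h.val_congr (a := fun i => HN.act g (a i)) (fun i => ?_) le_rfl) h1
  exact le_top.trans (hab i).ge

/-- the circle -/
def C₁ : Set ℂ := Metric.sphere 0 1

/-- the circle and an isolated point -/
def C₂ : Set ℂ := insert 0 (Metric.sphere 0 1)

theorem hC₁ : RI C₁ := fun q a ha => by
  have h : ‖a‖ = 1 := by simpa [C₁] using ha
  simp [C₁, HN.norm_rot, h]

theorem hC₂ : RI C₂ := fun q a ha => by
  rcases Set.mem_insert_iff.1 ha with rfl | ha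
  · rw [mul_zero]
    exact Set.mem_insert _ _
  · exact Set.mem_insert_of_mem _ (hC₁ q a ha)

theorem compact_C₁ : IsCompact C₁ := isCompact_sphere _ _

theorem compact_C₂ : IsCompact C₂ := (isCompact_sphere _ _).insert _

/-- an enumeration of the rational numbers -/
noncomputable def en : ℕ ≃ ℚ := (Denumerable.eqv ℚ).symm

/-- the families -/
noncomputable def FG : ℕ → HN.{0} → Set BB := fun k x =>
  match k with
  | 0 => Set.range fun r : ℝ => HN.eq x (HN.rn r)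
  | 1 => Set.range fun p : ℕ × ℂ => HN.eq x (un p.1 p.2)
  | 2 => Set.range fun p : ℕ × ℚ => HN.eq x (xn p.1 p.2)
  | 3 => Set.range fun n => HN.eq x (HN.opair (HN.nat n) (tn n))
  | 4 => Set.range fun n => HN.eq x (HN.opair (HN.nat n) (TT hC₁ n))
  | 5 => Set.range fun n => HN.eq x (HN.opair (HN.nat n) (TT hC₂ n))
  | 6 => Set.range fun n => HN.eq x (HN.opair (HN.nat n) (un n 0))
  | 7 => Set.range fun n => HN.eq x (tn n)
  | n + 8 => Set.range fun i => HN.eq x (HN.opair (HN.nat i) (xn n (en i)))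

/-- the enumeration of `t_n` -/
noncomputable def SX (n : ℕ) : HN.{0} := (HN.exists_SX en n).choose

theorem mem_SX (n : ℕ) (w : HN.{0}) : HN.mem w (SX n) = ⨆ i, HN.eq w (HN.opair (HN.nat i) (xn n (en i))) :=
  (HN.exists_SX en n).choose_spec.1 w

/-- the names -/
def FA : Set HN.{0} := AR ∪ ({WW, DD, HN.ZZ, HN.sq (TT hC₁) (fun n => HN.supp_TT hC₁ n ∅),
  HN.sq (TT hC₂) (fun n => HN.supp_TT hC₂ n ∅), HN.sq tn (fun n => HN.supp_tn n ∅),
  HN.sq (fun n => un n 0) (fun n => HN.supp_un_zero n ∅), HN.fam tn (fun n => HN.supp_tn n ∅)} ∪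
    (Set.range SX ∪ (Set.range tn ∪ Set.range fun n => un n 1)))

theorem FA_countable : FA.Countable := by
  unfold FA
  refine Set.Countable.union ?_ ((Set.to_countable _).union ((Set.countable_range _).union
    ((Set.countable_range _).union (Set.countable_range _))))
  unfold AR
  exact Set.to_countable _

section

variable {𝒢 : ℕ → HN.{0} → Set BB} {p : Cond} {𝔐 : Mod 𝒢 p}

theorem Mod.R_xn_inj {z : 𝔐.G.M} {n m : ℕ} {a b : ℚ} (h : 𝔐.G.R z (xn n a)) (h' : 𝔐.G.R z (xn m b)) :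
    n = m ∧ a = b := by
  by_contra hrs
  have := (GModel.R_eq h h').1 rfl
  rw [HN.xn_ne hrs] at this
  exact 𝔐.G.bot this

theorem Mod.R_tn_inj {z : 𝔐.G.M} {n m : ℕ} (h : 𝔐.G.R z (tn n)) (h' : 𝔐.G.R z (tn m)) :
    n = m := by
  by_contra hrs
  have := (GModel.R_eq h h').1 rfl
  rw [HN.tn_ne hrs] at this
  exact 𝔐.G.bot this

theorem Mod.mem_tn_iff (h2 : ∀ x, 𝒢 2 x = Set.range fun p : ℕ × ℚ => HN.eq x (xn p.1 p.2)) {n : ℕ}
    {t z : 𝔐.G.M} (ht : 𝔐.G.R t (tn n)) : ZM.E z t ↔ ∃ q, 𝔐.G.R z (xn n q) := by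
  constructor
  · intro h
    rw [Mod.E_def, GModel.R_mem (GModel.R_refl z) ht, HN.mem_tn] at h
    obtain ⟨⟨m, a⟩, hp⟩ := 𝔐.gen_range h2 (GModel.R_refl z) (𝔐.G.up _ h _ (by
      refine iSup_le fun a => ?_
      exact bEx (n, a) le_rfl))
    simp only at hp
    have h1 : HN.mem (xn m a) (tn n) ∈ 𝔐.G.U := by
      rw [← GModel.R_mem hp ht, GModel.R_mem (GModel.R_refl z) ht, HN.mem_tn]
      exact h
    by_cases hmn : m = n
    · subst hmn
      exact ⟨a, hp⟩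
    · rw [HN.mem_tn] at h1
      have : (⨆ q, HN.eq (xn m a) (xn n q)) ≤ ⊥ := iSup_le fun q => (HN.xn_ne (by
        rintro ⟨rfl, _⟩
        exact hmn rfl)).le
      exact (𝔐.G.bot (𝔐.G.up _ h1 _ this)).elim
  · rintro ⟨q, hq⟩
    rw [Mod.E_def, GModel.R_mem (GModel.R_refl z) ht, HN.mem_tn]
    exact 𝔐.G.up _ hq _ (bEx q le_rfl)

end

theorem ud_mc : UD (n := 3) (fun _ E v => ∃ y, App E (v 0) (v 1) y ∧ (∀ y', App E (v 0) (v 1) y' → y' = y) ∧
    IsFin E y ∧ E (v 2) y) := by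
  unfold IsFin CardEq IsInj IsFun IsOmega IsInductive App IsOPair IsUPair
  (repeat' first
    | with_reducible exact UD.mem _ _ | with_reducible exact UD.eq _ _
    | with_reducible exact UD.tru | with_reducible exact UD.fls
    | with_reducible apply UD.not | with_reducible apply UD.and | with_reducible apply UD.or
    | with_reducible apply UD.iff | with_reducible apply UD.imp
    | with_reducible apply UD.exu
    | with_reducible apply UD.ex | with_reducible apply UD.all)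

theorem Mod.not_cmc {p : Cond} (𝔐 : Mod FG p) (hall : ∀ a ∈ FA, ∃ m : 𝔐.G.M, 𝔐.G.R m a) :
    ¬ CMComega 𝔐.G.E := by
  intro hC
  obtain ⟨F, hF⟩ := hall (HN.fam tn (fun n => HN.supp_tn n ∅)) (by simp [FA])
  obtain ⟨ft, hft⟩ := hall (HN.sq tn (fun n => HN.supp_tn n ∅)) (by simp [FA])
  have h2 : ∀ x, FG 2 x = Set.range fun p : ℕ × ℚ => HN.eq x (xn p.1 p.2) := fun _ => rfl
  have htF : ∀ n y, 𝔐.G.R y (tn n) → ZM.E y F := fun n y hy => by
    rw [Mod.E_def, GModel.R_mem hy hF, HN.mem_fam]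
    exact 𝔐.G.up _ 𝔐.G.top _ (bEx n (HN.bRefl _))
  have hFt : ∀ y, ZM.E y F → ∃ n, 𝔐.G.R y (tn n) := fun y hy => by
    rw [Mod.E_def, GModel.R_mem (GModel.R_refl y) hF, HN.mem_fam] at hy
    exact 𝔐.gen_range (k := 7) (a := tn) (fun _ => rfl) (GModel.R_refl y) hy
  obtain ⟨h3, h4⟩ := 𝔐.seq (HN.mem_sq _ _) (k := 3) (fun _ => rfl) hft htF
  have hFden : IsDen 𝔐.G.E F := by
    refine ⟨𝔐.o, 𝔐.isOmega, ft, isInj_iff.2 ⟨h3, fun x x' hx hx' he => ?_⟩, fun y hy => ?_⟩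
    · obtain ⟨i, rfl⟩ := (𝔐.std.NO x).1 hx
      obtain ⟨j, rfl⟩ := (𝔐.std.NO x').1 hx'
      have h5 := h4 i
      rw [he] at h5
      rw [Mod.R_tn_inj h5 (h4 j)]
    · obtain ⟨n, hn⟩ := hFt y hy
      refine ⟨𝔐.N n, app_iff.2 ((h3.mem_iff (𝔐.std.N_mem n)).2 (Mod.R_eq_of hn (h4 n)))⟩
  have htden : ∀ x, 𝔐.G.E x F → IsDen 𝔐.G.E x := by
    intro x hx
    obtain ⟨n, hn⟩ := hFt x hx
    obtain ⟨s, hs⟩ := hall (SX n) (by simp [FA])
    obtain ⟨h5, h6⟩ := 𝔐.seq (mem_SX n) (k := n + 8) (fun _ => rfl) hs (A := x) (fun i y hy =>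
      (Mod.mem_tn_iff h2 hn).2 ⟨_, hy⟩)
    refine ⟨𝔐.o, 𝔐.isOmega, s, isInj_iff.2 ⟨h5, fun x x' hx hx' he => ?_⟩, fun y hy => ?_⟩
    · obtain ⟨i, rfl⟩ := (𝔐.std.NO x).1 hx
      obtain ⟨j, rfl⟩ := (𝔐.std.NO x').1 hx'
      have h7 := h6 i
      rw [he] at h7
      have h8 := (Mod.R_xn_inj h7 (h6 j)).2
      rw [en.injective h8]
    · obtain ⟨q, hq⟩ := (Mod.mem_tn_iff h2 hn).1 hy
      refine ⟨𝔐.N (en.symm q), app_iff.2 ((h5.mem_iff (𝔐.std.N_mem _)).2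
        (Mod.R_eq_of (a := xn n q) hq ?_))⟩
      have := h6 (en.symm q)
      rwa [Equiv.apply_symm_apply] at this
  obtain ⟨f, hf, hf'⟩ := hC F hFden htden
  -- the support of f
  obtain ⟨E, ⟨hEc, k, hEk⟩, hfE⟩ := HN.exists_supp (𝔐.G.rep f)
  have htk : 𝔐.G.E (ap ft (𝔐.N k)) F := h3.ap_mem (𝔐.std.N_mem k)
  obtain ⟨y, hy, hyu⟩ := hf _ htk
  obtain ⟨hy1, ⟨z, hz⟩, hy2⟩ := hf' _ y htk hy
  obtain ⟨q, hq⟩ := (Mod.mem_tn_iff h2 (h4 k)).1 (hy2 z hz)
  have h5 := (GModel.los_ud ud_mc (vec3 (Q := 𝔐.G.R) (GModel.R_refl f) (h4 k) hq)).1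
    ⟨y, hy, hyu, hy1, hz⟩
  obtain ⟨p', -, h6⟩ := 𝔐.den _ h5
  obtain ⟨g, q', hg⟩ := exists_shift hEc hEk p'
  have h7 : ∀ i : ℕ, Frc q' (ud_mc.val ![𝔐.G.rep f, tn k, xn k (q + i)]) := by
    intro i
    obtain ⟨h8, h9, h10⟩ := hg i
    refine (shift_val ud_mc (vec3 (Q := fun x y => HN.eq (HN.act (g i) x) y = ⊤)
      (hfE _ h8) (HN.supp_tn k ∅ _ fun x hx => hx.elim) ?_) h6).lower h10
    have := HN.act_xn (g i) k q
    rwa [h9] at this
  refine frc_of_mod' (({𝔐.G.rep f, tn k} : Set HN.{0}) ∪ Set.range fun i : ℕ => xn k (q + i))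
    ((Set.to_countable _).union (Set.countable_range _)) noG (fun r hr 𝔐' h𝔐' _ => ?_) (h7 0)
  obtain ⟨f', hf'⟩ := h𝔐' (𝔐.G.rep f) (by simp)
  obtain ⟨t', ht'⟩ := h𝔐' (tn k) (by simp)
  have hz : ∀ i : ℕ, ∃ m : 𝔐'.G.M, 𝔐'.G.R m (xn k (q + i)) := fun i => h𝔐' _ (Or.inr ⟨i, rfl⟩)
  choose zz hzz using hz
  have h8 : ∀ i, ∃ y, App 𝔐'.G.E f' t' y ∧ (∀ y', App 𝔐'.G.E f' t' y' → y' = y) ∧
      IsFin 𝔐'.G.E y ∧ 𝔐'.G.E (zz i) y := fun i =>
    (GModel.los_ud ud_mc (vec3 (Q := 𝔐'.G.R) hf' ht' (hzz i))).2 (𝔐'.gen _ ((h7 i).lower hr))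
  obtain ⟨y, hy1, hy2, hy3, hy4⟩ := h8 0
  have h9 : ∀ i, 𝔐'.G.E (zz i) y := by
    intro i
    obtain ⟨y', hy1', hy2', hy3', hy4'⟩ := h8 i
    rw [← hy2 y' hy1']
    exact hy4'
  have h10 : Function.Injective zz := by
    intro i j hij
    have h11 := hzz i
    rw [hij] at h11
    have := (Mod.R_xn_inj h11 (hzz j)).2
    have h12 : (i : ℚ) = j := by linarith
    exact_mod_cast h12
  have h11 := 𝔐'.std.isFin_iff.1 hy3
  exact Set.infinite_of_injective_forall_mem h10 h9 h11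

end Pool.Agent.Helper23.SM
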