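import Pool.Agent.Helper23.SM.Defs
import Pool.Agent.Helper23.SM.ZFm

set_option autoImplicit false
set_option linter.unreachableTactic false
set_option linter.unusedTactic false

/-!
# Uniformly definable properties
-/

universe u v w

namespace Pool.Agent.Helper23.SM

open WT (Fm ZF IsUPair IsOPair App IsFun IsOmega IsInductive)

/-- uniformly definable properties -/
def UD {n : ℕ} (P : ∀ (M : Type) (_ : M → M → Prop), (Fin n → M) → Prop) : Prop :=
  ∃ f : Fm Empty n, ∀ (M : Type) (E : M → M → Prop) (v : Fin n → M),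
    f.Sat E (fun x : Empty => x.elim) v ↔ P M E v

namespace UD

variable {n m : ℕ} {P Q : ∀ (M : Type) (_ : M → M → Prop), (Fin n → M) → Prop}

theorem tru : UD (n := n) (fun _ _ _ => True) := ⟨Fm.fls.imp .fls, fun _ _ _ => by simp⟩

theorem fls : UD (n := n) (fun _ _ _ => False) := ⟨Fm.fls, fun _ _ _ => by simp⟩

theorem mem (i j : Fin n) : UD (fun _ E v => E (v i) (v j)) :=
  ⟨Fm.mem (.inl i) (.inl j), fun _ _ _ => Iff.rfl⟩

theorem eq (i j : Fin n) : UD (fun _ _ v => v i = v j) :=
  ⟨Fm.eq (.inl i) (.inl j), fun _ _ _ => Iff.rfl⟩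

theorem not (hP : UD P) : UD (fun M E v => ¬ P M E v) := by
  obtain ⟨f, hf⟩ := hP
  exact ⟨f.neg, fun M E v => by simp [hf]⟩

theorem and (hP : UD P) (hQ : UD Q) : UD (fun M E v => P M E v ∧ Q M E v) := by
  obtain ⟨f, hf⟩ := hP
  obtain ⟨g, hg⟩ := hQ
  exact ⟨f.and g, fun M E v => by simp [hf, hg]⟩

theorem or (hP : UD P) (hQ : UD Q) : UD (fun M E v => P M E v ∨ Q M E v) := by
  obtain ⟨f, hf⟩ := hP
  obtain ⟨g, hg⟩ := hQ
  exact ⟨f.or g, fun M E v => by simp [hf, hg]⟩

theorem imp (hP : UD P) (hQ : UD Q) : UD (fun M E v => P M E v → Q M E v) := by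
  obtain ⟨f, hf⟩ := hP
  obtain ⟨g, hg⟩ := hQ
  exact ⟨f.imp g, fun M E v => by simp [hf, hg]⟩

theorem iff (hP : UD P) (hQ : UD Q) : UD (fun M E v => P M E v ↔ Q M E v) := by
  obtain ⟨f, hf⟩ := hP
  obtain ⟨g, hg⟩ := hQ
  exact ⟨f.iff g, fun M E v => by simp [hf, hg]⟩

theorem ex {P : ∀ (M : Type) (_ : M → M → Prop), (Fin n → M) → M → Prop}
    (h : UD (n := n + 1) (fun M E w => P M E (fun i => w i.succ) (w 0))) :
    UD (fun M E v => ∃ x, P M E v x) := by
  obtain ⟨f, hf⟩ := h
  exact ⟨f.ex, fun M E v => by simp [hf]⟩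

theorem all {P : ∀ (M : Type) (_ : M → M → Prop), (Fin n → M) → M → Prop}
    (h : UD (n := n + 1) (fun M E w => P M E (fun i => w i.succ) (w 0))) :
    UD (fun M E v => ∀ x, P M E v x) := by
  obtain ⟨f, hf⟩ := h
  exact ⟨f.all, fun M E v => by simp [hf]⟩

theorem ren (h : UD P) (r : Fin n → Fin m) : UD (fun M E (v : Fin m → M) => P M E (fun i => v (r i))) := by
  obtain ⟨f, hf⟩ := h
  exact ⟨f.ren r, fun M E v => by simp [hf]⟩

theorem exu {P : ∀ (M : Type) (_ : M → M → Prop), (Fin n → M) → M → Prop}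
    (h : UD (n := n + 1) (fun M E w => P M E (fun i => w i.succ) (w 0))) :
    UD (fun M E v => ∃! x, P M E v x) := by
  refine ex (P := fun M E v x => P M E v x ∧ ∀ y, P M E v y → y = x) (and h (all (imp ?_ (eq _ _))))
  exact h.ren (fun i : Fin (n + 1) => Fin.cases 0 (fun j => j.succ.succ) i)

end UD

theorem ud_isFin : UD (n := 1) (fun _ E v => IsFin E (v 0)) := by
  unfold IsFin CardEq IsInj IsFun IsOmega IsInductive App IsOPair IsUPair
  (repeat' first
    | with_reducible exact UD.mem _ _ | with_reducible exact UD.eq _ _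
    | with_reducible exact UD.tru | with_reducible exact UD.fls
    | with_reducible apply UD.not | with_reducible apply UD.and | with_reducible apply UD.or
    | with_reducible apply UD.iff | with_reducible apply UD.imp
    | with_reducible apply UD.exu
    | with_reducible apply UD.ex | with_reducible apply UD.all)

end Pool.Agent.Helper23.SM
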