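import Pool.Agent.Helper23.SM.Wo

set_option autoImplicit false
set_option linter.unreachableTactic false
set_option linter.unusedTactic false

/-!
# Uniformities with a countable base inside a model
-/

universe u v w

namespace Pool.Agent.Helper23.SM

open WT (iffV bElim bOr bMP bImp bNot bAbs bAll bEx bIff bIff_mp bIff_mpr bLeft bRight bCases bContra eq_of_forall iffV_self iffV_eq_top)
open WT (Fm ZF IsUPair IsOPair App IsFun IsOmega IsInductive ZM IsFn isFun_iff app_iff opair ap)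

section
variable {M : Type} (E : M → M → Prop)

/-- `(n, (x, y)) ∈ V` -/
def Vr (V n x y : M) : Prop := ∃ p q, IsOPair E q x y ∧ IsOPair E p n q ∧ E p V

/-- `m = n ∪ {n}` -/
def IsSucc (m n : M) : Prop := ∀ z, E z m ↔ E z n ∨ z = n

/-- the totally bounded complete uniformities with a countable base -/
def UnifP (o X V : M) : Prop :=
  (∀ n x, E n o → E x X → Vr E V n x x) ∧
  (∀ n x y, E n o → E x X → E y X → Vr E V n x y → Vr E V n y x) ∧
  (∀ n m x y z, E n o → IsSucc E m n → E x X → E y X → E z X → Vr E V m x y → Vr E V m y z →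
    Vr E V n x z) ∧
  (∀ x y, E x X → E y X → (∀ n, E n o → Vr E V n x y) → x = y) ∧
  (∀ n, E n o → ∃ S, IsFin E S ∧ Sub E S X ∧ ∀ x, E x X → ∃ s, E s S ∧ Vr E V n x s) ∧
  (∀ s, IsFun E s o X → (∀ n m x y, E n o → E m o → (n = m ∨ E n m) → App E s n x →
    App E s m y → Vr E V n x y) →
    ∃ x, E x X ∧ ∀ n m y, E n o → IsSucc E m n → App E s m y → Vr E V n x y)

end

theorem ud_unifP : UD (n := 3) (fun _ E v => UnifP E (v 0) (v 1) (v 2)) := by
  unfold UnifP Vr IsSucc IsFin CardEq IsInj IsFun IsOmega IsInductive Sub App IsOPair IsUPair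
  (repeat' first
    | with_reducible exact UD.mem _ _ | with_reducible exact UD.eq _ _
    | with_reducible exact UD.tru | with_reducible exact UD.fls
    | with_reducible apply UD.not | with_reducible apply UD.and | with_reducible apply UD.or
    | with_reducible apply UD.iff | with_reducible apply UD.imp
    | with_reducible apply UD.exu
    | with_reducible apply UD.ex | with_reducible apply UD.all)

variable {M : Type} [ZM M]

theorem vr_iff {V n x y : M} : Vr ZM.E V n x y ↔ ZM.E (opair n (opair x y)) V := by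
  unfold Vr
  simp only [WT.isOPair_iff, exists_and_left, exists_eq_left]

/-- the relations -/
def vv (N : ℕ → M) (V : M) (n : ℕ) (x y : M) : Prop := ZM.E (opair (N n) (opair x y)) V

/-- external form -/
structure EU (o : M) (N : ℕ → M) (X V : M) : Prop where
  refl : ∀ n x, ZM.E x X → vv N V n x x
  symm : ∀ n x y, ZM.E x X → ZM.E y X → vv N V n x y → vv N V n y x
  comp : ∀ n x y z, ZM.E x X → ZM.E y X → ZM.E z X → vv N V (n + 1) x y → vv N V (n + 1) y z →
    vv N V n x z
  sep : ∀ x y, ZM.E x X → ZM.E y X → (∀ n, vv N V n x y) → x = y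
  tb : ∀ n, ∃ S : Set M, S.Finite ∧ (∀ s ∈ S, ZM.E s X) ∧ ∀ x, ZM.E x X → ∃ s ∈ S, vv N V n x s
  cpl : ∀ f, IsFn f o X → (∀ n m, n ≤ m → vv N V n (ap f (N n)) (ap f (N m))) →
    ∃ x, ZM.E x X ∧ ∀ n, vv N V n x (ap f (N (n + 1)))

namespace Std

variable {o : M} {N : ℕ → M} (S : Std M o N)

include S

theorem isSucc_iff {n : ℕ} {m : M} : IsSucc ZM.E m (N n) ↔ m = N (n + 1) := by
  have h1 : IsSucc ZM.E (N (n + 1)) (N n) := by
    intro z
    rw [S.NE, S.NE]
    constructor
    · rintro ⟨i, hi, rfl⟩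
      rcases Nat.lt_succ_iff_lt_or_eq.1 hi with h | rfl
      · exact Or.inl ⟨i, h, rfl⟩
      · exact Or.inr rfl
    · rintro (⟨i, hi, rfl⟩ | rfl)
      · exact ⟨i, by omega, rfl⟩
      · exact ⟨n, by omega, rfl⟩
  constructor
  · intro h
    exact WT.ext fun z => by rw [h z, h1 z]
  · rintro rfl
    exact h1

theorem lt_iff {i j : ℕ} : ZM.E (N i) (N j) ↔ i < j := by
  rw [S.NE]
  constructor
  · rintro ⟨k, hk, h⟩
    rw [S.inj _ _ h]
    exact hk
  · intro h
    exact ⟨i, h, rfl⟩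

theorem unifP_iff {X V : M} : UnifP ZM.E o X V ↔ EU o N X V := by
  unfold UnifP
  simp only [vr_iff, isFun_iff, app_iff]
  constructor
  · rintro ⟨h1, h2, h3, h4, h5, h6⟩
    refine ⟨fun n x hx => h1 _ x (S.N_mem n) hx, fun n x y hx hy h => h2 _ x y (S.N_mem n) hx hy h,
      fun n x y z hx hy hz h h' => h3 _ _ x y z (S.N_mem n) (S.isSucc_iff.2 rfl) hx hy hz h h',
      fun x y hx hy h => h4 x y hx hy fun n hn => ?_, fun n => ?_, fun f hf h => ?_⟩
    · obtain ⟨n, rfl⟩ := (S.NO n).1 hn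
      exact h n
    · obtain ⟨T, hT1, hT2, hT3⟩ := h5 _ (S.N_mem n)
      exact ⟨{z | ZM.E z T}, S.isFin_iff.1 hT1, hT2, hT3⟩
    · obtain ⟨x, hx, h'⟩ := h6 f hf (fun n m x y hn hm hnm hx hy => by
        obtain ⟨n, rfl⟩ := (S.NO n).1 hn
        obtain ⟨m, rfl⟩ := (S.NO m).1 hm
        rw [hf.mem_iff hn] at hx
        rw [hf.mem_iff hm] at hy
        rw [hx, hy]
        refine h n m ?_
        rcases hnm with h | h
        · exact (S.inj _ _ h).le
        · exact (S.lt_iff.1 h).le)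
      refine ⟨x, hx, fun n => h' _ _ _ (S.N_mem n) (S.isSucc_iff.2 rfl) ?_⟩
      exact (hf.mem_iff (S.N_mem _)).2 rfl
  · rintro ⟨h1, h2, h3, h4, h5, h6⟩
    refine ⟨fun n x hn hx => ?_, fun n x y hn hx hy h => ?_, fun n m x y z hn hm hx hy hz h h' => ?_,
      fun x y hx hy h => h4 x y hx hy fun n => h _ (S.N_mem n), fun n hn => ?_, fun f hf h => ?_⟩
    · obtain ⟨n, rfl⟩ := (S.NO n).1 hn
      exact h1 n x hx
    · obtain ⟨n, rfl⟩ := (S.NO n).1 hn
      exact h2 n x y hx hy h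
    · obtain ⟨n, rfl⟩ := (S.NO n).1 hn
      obtain rfl := S.isSucc_iff.1 hm
      exact h3 n x y z hx hy hz h h'
    · obtain ⟨n, rfl⟩ := (S.NO n).1 hn
      obtain ⟨T, hT1, hT2, hT3⟩ := h5 n
      obtain ⟨c, hc⟩ := exists_finite hT1
      refine ⟨c, S.isFin_iff.2 (by simpa [hc] using hT1), fun z hz => hT2 z ((hc z).1 hz),
        fun x hx => ?_⟩
      obtain ⟨s, hs, h⟩ := hT3 x hx
      exact ⟨s, (hc s).2 hs, h⟩
    · obtain ⟨x, hx, h'⟩ := h6 f hf (fun n m hnm => by
        refine h (N n) (N m) _ _ (S.N_mem _) (S.N_mem _) ?_ ((hf.mem_iff (S.N_mem _)).2 rfl)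
          ((hf.mem_iff (S.N_mem _)).2 rfl)
        rcases hnm.lt_or_eq with h | h
        · exact Or.inr (S.lt_iff.2 h)
        · exact Or.inl (by rw [h]))
      refine ⟨x, hx, fun n m y hn hm hy => ?_⟩
      obtain ⟨n, rfl⟩ := (S.NO n).1 hn
      obtain rfl := S.isSucc_iff.1 hm
      rw [hf.mem_iff (S.N_mem _)] at hy
      rw [hy]
      exact h' n

end Std

namespace EU

variable {o X V : M} {N : ℕ → M} (H : EU o N X V)

include H

theorem mono1 {n : ℕ} {x y : M} (hx : ZM.E x X) (hy : ZM.E y X) (h : vv N V (n + 1) x y) :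
    vv N V n x y := H.comp n x y y hx hy hy h (H.refl _ y hy)

theorem mono {n m : ℕ} (hnm : n ≤ m) {x y : M} (hx : ZM.E x X) (hy : ZM.E y X)
    (h : vv N V m x y) : vv N V n x y := by
  induction m, hnm using Nat.le_induction with
  | base => exact h
  | succ m _ ih => exact ih (H.mono1 hx hy h)

/-- limits -/
theorem lim_unique {f : M} {x y : M} (hf : IsFn f o X) (S : Std M o N) (hx : ZM.E x X)
    (hy : ZM.E y X) (h : ∀ n, vv N V n x (ap f (N (n + 1)))) (h' : ∀ n, vv N V n y (ap f (N (n + 1)))) :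
    x = y := by
  refine H.sep x y hx hy fun n => ?_
  have hz := hf.ap_mem (S.N_mem (n + 2))
  exact H.comp n _ _ _ hx hz hy (h (n + 1)) (H.symm _ _ _ hy hz (h' (n + 1)))

end EU

end Pool.Agent.Helper23.SM
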