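import Pool.Agent.Helper23.SM.Un

set_option autoImplicit false
set_option linter.unreachableTactic false
set_option linter.unusedTactic false

/-!
# Dense sequences of names
-/

universe u v w

namespace Pool.Agent.Helper23.SM

open WT (iffV bElim bOr bMP bImp bNot bAbs bAll bEx bIff bIff_mp bIff_mpr bLeft bRight bCases bContra eq_of_forall iffV_self iffV_eq_top)
open WT (Fm ZF IsUPair IsOPair App IsFun IsOmega IsInductive ZM IsFn isFun_iff app_iff opair ap)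

theorem vec4 {α : Type*} {Q : α → HN.{0} → Prop} {x y z t : α} {a b c d : HN.{0}} (h : Q x a)
    (h' : Q y b) (h'' : Q z c) (h3 : Q t d) :
    ∀ i : Fin 4, Q ((![x, y, z, t] : Fin 4 → α) i) ((![a, b, c, d] : Fin 4 → HN.{0}) i) := fun i => by
  fin_cases i
  · exact h
  · exact h'
  · exact h''
  · exact h3

/-- `T` is an `n`-net of `Y` -/
theorem ud_net : UD (n := 4) (fun _ E v => Sub E (v 3) (v 0) ∧
    ∀ y, E y (v 0) → ∃ t, E t (v 3) ∧ Vr E (v 1) (v 2) y t) := by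
  unfold Vr Sub IsOPair IsUPair
  (repeat' first
    | with_reducible exact UD.mem _ _ | with_reducible exact UD.eq _ _
    | with_reducible exact UD.tru | with_reducible exact UD.fls
    | with_reducible apply UD.not | with_reducible apply UD.and | with_reducible apply UD.or
    | with_reducible apply UD.iff | with_reducible apply UD.imp
    | with_reducible apply UD.exu
    | with_reducible apply UD.ex | with_reducible apply UD.all)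

/-- the name of a finite set -/
noncomputable def lst : List HN.{0} → HN.{0}
  | [] => HN.emp
  | a :: L => HN.ins a (lst L)

theorem exists_R_emp {𝓖 : ℕ → HN.{0} → HN.{0} → Set BB} {G : GModel.{0} 𝓖} :
    ∃ c : G.M, G.R c HN.emp ∧ ∀ w, ¬ G.E w c := by
  obtain ⟨c, hc⟩ := exists_empty (M := G.M)
  refine ⟨c, ?_, hc⟩
  have h1 := (G.los_iff (Fm.all (Fm.mem (.inl 0) (.inr c)).neg : Fm G.M 0) ![]).1 (by
    rw [Fm.sat_all]
    intro x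
    rw [Fm.sat_neg]
    exact hc x)
  simp only [vl_all, vl_neg, vl_mem, Sum.elim_inl, Sum.elim_inr, Matrix.cons_val_zero] at h1
  show HN.eq (G.rep c) HN.emp ∈ G.U
  refine G.up _ h1 _ (HN.bExt (fun x Δ h2 h3 => ?_) (fun x Δ h2 h3 => ?_))
  · exact (bAbs (bAll h2 x) h3).trans bot_le
  · rw [HN.mem_emp] at h3
    exact h3.trans bot_le

theorem exists_R_ins {𝓖 : ℕ → HN.{0} → HN.{0} → Set BB} {G : GModel.{0} 𝓖} {a z : G.M}
    {b y : HN.{0}} (ha : G.R a b) (hz : G.R z y) :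
    ∃ c : G.M, G.R c (HN.ins b y) ∧ ∀ w, G.E w c ↔ G.E w z ∨ w = a := by
  obtain ⟨c, hc⟩ := exists_adj z a
  refine ⟨c, ?_, hc⟩
  have h1 := (G.los_iff (Fm.all ((Fm.mem (.inl 0) (.inr c)).iff
    ((Fm.mem (.inl 0) (.inr z)).or (Fm.eq (.inl 0) (.inr a)))) : Fm G.M 0) ![]).1 (by
      rw [Fm.sat_all]
      intro x
      rw [Fm.sat_iff, Fm.sat_or]
      exact hc x)
  simp only [vl_all, vl_iff, vl_or, vl_eq, vl_mem, Sum.elim_inl, Sum.elim_inr,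
    Matrix.cons_val_zero] at h1
  show HN.eq (G.rep c) (HN.ins b y) ∈ G.U
  refine GModel.up3 h1 ha hz (HN.bExt (fun x Δ h2 h3 => ?_) (fun x Δ h2 h3 => ?_))
  · rw [HN.mem_ins]
    refine bOr (bIff_mp (bAll (bLeft (bLeft h2)) x) h3) (fun Δ' h4 h5 => ?_) (fun Δ' h4 h5 => ?_)
    · exact (HN.bMemR (bRight (h4.trans h2)) h5).trans le_sup_right
    · exact (HN.bTrans h5 (bRight (bLeft (h4.trans h2)))).trans le_sup_left
  · rw [HN.mem_ins] at h3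
    refine bIff_mpr (bAll (bLeft (bLeft h2)) x) ?_
    refine bOr h3 (fun Δ' h4 h5 => ?_) (fun Δ' h4 h5 => ?_)
    · exact (HN.bTrans h5 (HN.bSymm (bRight (bLeft (h4.trans h2))))).trans le_sup_right
    · exact (HN.bMemR (HN.bSymm (bRight (h4.trans h2))) h5).trans le_sup_left

theorem exists_R_lst {𝓖 : ℕ → HN.{0} → HN.{0} → Set BB} {G : GModel.{0} 𝓖} (L : List G.M) :
    ∃ z : G.M, G.R z (lst (L.map G.rep)) ∧ ∀ w, G.E w z ↔ w ∈ L := by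
  induction L with
  | nil =>
    obtain ⟨c, hc, hc'⟩ := exists_R_emp (G := G)
    exact ⟨c, hc, fun w => ⟨fun h => (hc' w h).elim, fun h => by simp at h⟩⟩
  | cons a L ih =>
    obtain ⟨z, hz, hz'⟩ := ih
    obtain ⟨c, hc, hc'⟩ := exists_R_ins (GModel.R_refl a) hz
    exact ⟨c, hc, fun w => by rw [hc', hz', List.mem_cons, or_comm]⟩

theorem exists_R_lst' {𝓖 : ℕ → HN.{0} → HN.{0} → Set BB} {G : GModel.{0} 𝓖} {z : ℕ → HN.{0}}
    {zz : ℕ → G.M} (hz : ∀ i, G.R (zz i) (z i)) (L : List HN.{0}) (hL : ∀ a ∈ L, ∃ i, a = z i) :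
    ∃ c : G.M, G.R c (lst L) ∧ ∀ w, G.E w c → ∃ i, w = zz i := by
  induction L with
  | nil =>
    obtain ⟨c, hc, hc'⟩ := exists_R_emp (G := G)
    exact ⟨c, hc, fun w h => (hc' w h).elim⟩
  | cons a L ih =>
    obtain ⟨y, hy, hy'⟩ := ih (fun a ha => hL a (by simp [ha]))
    obtain ⟨i, rfl⟩ := hL a (by simp)
    obtain ⟨c, hc, hc'⟩ := exists_R_ins (hz i) hy
    refine ⟨c, hc, fun w hw => ?_⟩
    rcases (hc' w).1 hw with h | h
    · exact hy' w h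
    · exact ⟨i, h⟩

/-- replace names by names of the class -/
theorem exists_lst {q : Cond} {𝒞 : Set HN.{0}} (L : List HN.{0}) (h : ∀ a ∈ L, Frc q (HN.inC 𝒞 a)) :
    ∃ q' ≤ q, ∃ L' : List HN.{0}, (∀ a ∈ L', a ∈ 𝒞) ∧ Frc q' (HN.eq (lst L) (lst L')) := by
  induction L generalizing q with
  | nil => exact ⟨q, le_rfl, [], by simp, by rw [HN.eq_refl]; exact frc_top⟩
  | cons a L ih =>
    obtain ⟨q1, hq1, ζ, hζ⟩ := frc_iSup.1 (h a (by simp)) q le_rfl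
    obtain ⟨q2, hq2, L', h1, h2⟩ := ih (q := q1) (fun a ha => (h a (by simp [ha])).lower hq1)
    refine ⟨q2, hq2.trans hq1, ζ.1 :: L', ?_, ?_⟩
    · intro b hb
      rcases List.mem_cons.1 hb with rfl | hb
      · exact ζ.2
      · exact h1 b hb
    · refine Frc.mono ?_ (frc_inf.2 ⟨hζ.lower hq2, h2⟩)
      show _ ≤ HN.eq (HN.ins a (lst L)) (HN.ins ζ.1 (lst L'))
      refine HN.bExt (fun x Δ h2 h3 => ?_) (fun x Δ h2 h3 => ?_)
      · rw [HN.mem_ins] at h3 ⊢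
        refine bOr h3 (fun Δ' h4 h5 => ?_) (fun Δ' h4 h5 => ?_)
        · exact (HN.bTrans h5 (bLeft (h4.trans h2))).trans le_sup_left
        · exact (HN.bMemR (bRight (h4.trans h2)) h5).trans le_sup_right
      · rw [HN.mem_ins] at h3 ⊢
        refine bOr h3 (fun Δ' h4 h5 => ?_) (fun Δ' h4 h5 => ?_)
        · exact (HN.bTrans h5 (HN.bSymm (bLeft (h4.trans h2)))).trans le_sup_left
        · exact (HN.bMemR (HN.bSymm (bRight (h4.trans h2))) h5).trans le_sup_right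

theorem mem_lst {a : HN.{0}} {L : List HN.{0}} (h : a ∈ L) : HN.mem a (lst L) = ⊤ := by
  induction L with
  | nil => simp at h
  | cons b L ih =>
    show HN.mem a (HN.ins b (lst L)) = ⊤
    rw [HN.mem_ins]
    rcases List.mem_cons.1 h with rfl | h
    · rw [HN.eq_refl, top_sup_eq]
    · rw [ih h, sup_top_eq]

variable {X V Y : HN.{0}} {p : Cond} {𝒞 : Set HN.{0}}

theorem exists_net (hp : Frc p (ud_unifP.val ![HN.omg, X, V])) (hYX : ∀ w, HN.mem w Y ≤ HN.mem w X)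
    (hY : ∀ w, HN.mem w Y ≤ HN.inC 𝒞 w) (n : ℕ) : ∃ q ≤ p, ∃ L : List HN.{0}, (∀ a ∈ L, a ∈ 𝒞) ∧
      Frc q (ud_net.val ![Y, V, HN.nat n, lst L]) := by
  classical
  obtain ⟨𝔐, h𝔐⟩ := exists_mod {X, V, Y} (Set.to_countable _) noG p
  obtain ⟨x, hx⟩ := h𝔐 X (by simp)
  obtain ⟨v, hv⟩ := h𝔐 V (by simp)
  obtain ⟨y, hy⟩ := h𝔐 Y (by simp)
  have h1 := (GModel.los_ud ud_unifP (vec3 (Q := 𝔐.G.R) 𝔐.ho hx hv)).2 (𝔐.gen _ hp)
  have H : EU 𝔐.o 𝔐.N x v := 𝔐.std.unifP_iff.1 h1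
  have hyx : ∀ w, ZM.E w y → ZM.E w x := fun w hw => by
    have h2 := (GModel.R_mem (GModel.R_refl w) hy).1 hw
    exact (GModel.R_mem (GModel.R_refl w) hx).2 (𝔐.G.up _ h2 _ (hYX _))
  obtain ⟨S, hS1, hS2, hS3⟩ := H.tb (n + 1)
  -- choose representatives
  let f : 𝔐.G.M → 𝔐.G.M := fun s => if h : ∃ w, ZM.E w y ∧ vv 𝔐.N v (n + 1) w s then h.choose else s
  let T : Set 𝔐.G.M := f '' {s ∈ S | ∃ w, ZM.E w y ∧ vv 𝔐.N v (n + 1) w s}
  have hT : T.Finite := (hS1.subset fun s hs => hs.1).image f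
  have hf : ∀ s, (∃ w, ZM.E w y ∧ vv 𝔐.N v (n + 1) w s) → ZM.E (f s) y ∧ vv 𝔐.N v (n + 1) (f s) s := by
    intro s hs
    have : f s = hs.choose := dif_pos hs
    rw [this]
    exact hs.choose_spec
  have hT1 : ∀ t ∈ T, ZM.E t y := by
    rintro _ ⟨s, hs, rfl⟩
    exact (hf s hs.2).1
  have hT2 : ∀ w, ZM.E w y → ∃ t ∈ T, vv 𝔐.N v n w t := by
    intro w hw
    obtain ⟨s, hs, hws⟩ := hS3 w (hyx w hw)
    have hex : ∃ w, ZM.E w y ∧ vv 𝔐.N v (n + 1) w s := ⟨w, hw, hws⟩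
    refine ⟨f s, ⟨s, ⟨hs, hex⟩, rfl⟩, ?_⟩
    exact H.comp n w s (f s) (hyx w hw) (hS2 s hs) (hyx _ (hf s hex).1) hws
      (H.symm _ _ _ (hyx _ (hf s hex).1) (hS2 s hs) (hf s hex).2)
  obtain ⟨c, hc, hc'⟩ := exists_R_lst (G := 𝔐.G) hT.toFinset.toList
  have hcT : ∀ w, 𝔐.G.E w c ↔ w ∈ T := fun w => by simp [hc']
  have h2 : Sub 𝔐.G.E c y ∧ ∀ w, 𝔐.G.E w y → ∃ t, 𝔐.G.E t c ∧ Vr 𝔐.G.E v (𝔐.N n) w t := by
    refine ⟨fun w hw => hT1 w ((hcT w).1 hw), fun w hw => ?_⟩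
    obtain ⟨t, ht, h⟩ := hT2 w hw
    exact ⟨t, (hcT t).2 ht, vr_iff.2 h⟩
  have h3 := (GModel.los_ud ud_net (vec4 (Q := 𝔐.G.R) hy hv (𝔐.hN n) hc)).1 h2
  have h4 : ∀ a ∈ hT.toFinset.toList.map 𝔐.G.rep, HN.inC 𝒞 a ∈ 𝔐.G.U := by
    intro a ha
    obtain ⟨t, ht, rfl⟩ := List.mem_map.1 ha
    have ht' : t ∈ T := by simpa using ht
    exact 𝔐.G.up _ ((GModel.R_mem (GModel.R_refl t) hy).1 (hT1 t ht')) _ (hY _)
  have h5 : ∀ L : List HN.{0}, (∀ a ∈ L, HN.inC 𝒞 a ∈ 𝔐.G.U) → ∃ b ∈ 𝔐.G.U, ∀ a ∈ L, b ≤ HN.inC 𝒞 a := by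
    intro L hL
    induction L with
    | nil => exact ⟨⊤, 𝔐.G.top, by simp⟩
    | cons a L ih =>
      obtain ⟨b, hb, hb'⟩ := ih (fun a ha => hL a (by simp [ha]))
      refine ⟨b ⊓ HN.inC 𝒞 a, 𝔐.G.inf _ hb _ (hL a (by simp)), fun c hc => ?_⟩
      rcases List.mem_cons.1 hc with rfl | hc
      · exact inf_le_right
      · exact inf_le_left.trans (hb' c hc)
  obtain ⟨b, hb, hb'⟩ := h5 _ h4
  obtain ⟨q, hq, h6⟩ := 𝔐.den _ (𝔐.G.inf _ h3 _ hb)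
  obtain ⟨h6, h7⟩ := frc_inf.1 h6
  obtain ⟨q', hq', L', h8, h9⟩ := exists_lst _ (fun a ha => h7.mono (hb' a ha))
  refine ⟨q', hq'.trans hq, L', h8, ?_⟩
  refine Frc.mono (ud_net.val_congr (vec4 (Q := fun x y => _ ≤ HN.eq x y) (HN.bRefl _)
    (HN.bRefl _) (HN.bRefl _) inf_le_left) inf_le_right) (frc_inf.2 ⟨h9, h6.lower hq'⟩)

/-- dense sequences of names -/
theorem exists_dense (hp : Frc p (ud_unifP.val ![HN.omg, X, V])) (hYX : ∀ w, HN.mem w Y ≤ HN.mem w X)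
    (hY : ∀ w, HN.mem w Y ≤ HN.inC 𝒞 w) {z₀ : HN.{0}} (hz₀ : z₀ ∈ 𝒞) (hz₀' : Frc p (HN.mem z₀ Y)) :
    ∃ q ≤ p, ∃ z : ℕ → HN.{0}, (∀ i, z i ∈ 𝒞) ∧ (∀ i, Frc q (HN.mem (z i) Y)) ∧
      ∀ n, ∃ L : List HN.{0}, (∀ a ∈ L, ∃ i, a = z i) ∧ Frc q (ud_net.val ![Y, V, HN.nat n, lst L]) := by
  obtain ⟨q, hq, L, hL⟩ := fusion_seq (α := List HN.{0}) (fun n _ q L => (∀ a ∈ L, a ∈ 𝒞) ∧
    Frc q (ud_net.val ![Y, V, HN.nat n, lst L])) (fun _ _ _ _ _ _ h => h)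
    (fun _ _ _ _ _ h h' => ⟨h'.1, h'.2.lower h⟩) p (fun n _ q hq _ => by
      obtain ⟨q', hq', L, h1, h2⟩ := exists_net (hp.lower hq) hYX hY n
      exact ⟨q', hq', L, h1, h2⟩)
  have hmem : ∀ n, ∀ a ∈ L n, Frc q (HN.mem a Y) := by
    intro n a ha
    refine frc_of_mod {Y, V, a, lst (L n)} (Set.to_countable _) noG q _ fun q' hq' 𝔐 h𝔐 => ?_
    obtain ⟨y, hy⟩ := h𝔐 Y (by simp)
    obtain ⟨v, hv⟩ := h𝔐 V (by simp)
    obtain ⟨t, ht⟩ := h𝔐 a (by simp)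
    obtain ⟨c, hc⟩ := h𝔐 (lst (L n)) (by simp)
    have h1 := (GModel.los_ud ud_net (vec4 (Q := 𝔐.G.R) hy hv (𝔐.hN n) hc)).2
      (𝔐.gen _ ((hL n).2.lower hq'))
    refine (GModel.R_mem ht hy).1 (h1.1 t ((GModel.R_mem ht hc).2 ?_))
    rw [mem_lst ha]
    exact 𝔐.G.top
  refine ⟨q, hq, fun i => ((L (Nat.unpair i).1)[(Nat.unpair i).2]?).getD z₀, fun i => ?_, fun i => ?_,
    fun n => ⟨L n, fun a ha => ?_, (hL n).2⟩⟩
  · cases h : (L (Nat.unpair i).1)[(Nat.unpair i).2]? with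
    | none => simp [h, hz₀]
    | some a => 
      simp only [h, Option.getD_some]
      exact (hL _).1 a (List.mem_of_getElem? h)
  · cases h : (L (Nat.unpair i).1)[(Nat.unpair i).2]? with
    | none => simp only [h, Option.getD_none]; exact hz₀'.lower hq
    | some a => 
      simp only [h, Option.getD_some]
      exact hmem _ a (List.mem_of_getElem? h)
  · obtain ⟨k, hk, rfl⟩ := List.getElem_of_mem ha
    refine ⟨Nat.pair n k, ?_⟩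
    simp [hk]

/-- the value of `(n, (a, b)) ∈ V` -/
noncomputable def VV (V : HN.{0}) (n : ℕ) (a b : HN.{0}) : BB :=
  HN.mem (HN.opair (HN.nat n) (HN.opair a b)) V

/-- a dense sequence of names of elements of `Y`, all of whose relations are decided -/
structure Dns (X V Y : HN.{0}) (p : Cond) (z : ℕ → HN.{0}) : Prop where
  hp : Frc p (ud_unifP.val ![HN.omg, X, V])
  sub : ∀ w, HN.mem w Y ≤ HN.mem w X
  mem : ∀ i, Frc p (HN.mem (z i) Y)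
  net : ∀ n, ∃ L : List HN.{0}, (∀ a ∈ L, ∃ i, a = z i) ∧ Frc p (ud_net.val ![Y, V, HN.nat n, lst L])
  dec : ∀ n i j, Frc p (VV V n (z i) (z j)) ∨ Frc p (VV V n (z i) (z j))ᶜ

theorem exists_dns (hp : Frc p (ud_unifP.val ![HN.omg, X, V])) (hYX : ∀ w, HN.mem w Y ≤ HN.mem w X)
    (hY : ∀ w, HN.mem w Y ≤ HN.inC 𝒞 w) {z₀ : HN.{0}} (hz₀ : z₀ ∈ 𝒞) (hz₀' : Frc p (HN.mem z₀ Y)) :
    ∃ q ≤ p, ∃ z : ℕ → HN.{0}, (∀ i, z i ∈ 𝒞) ∧ Dns X V Y q z := by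
  obtain ⟨q, hq, z, h1, h2, h3⟩ := exists_dense hp hYX hY hz₀ hz₀'
  obtain ⟨r, hr, h4⟩ := fusion (fun c q => Frc q (VV V (Nat.unpair c).1 (z (Nat.unpair (Nat.unpair c).2).1)
      (z (Nat.unpair (Nat.unpair c).2).2)) ∨ Frc q (VV V (Nat.unpair c).1
      (z (Nat.unpair (Nat.unpair c).2).1) (z (Nat.unpair (Nat.unpair c).2).2))ᶜ)
    (fun c p q hqp h => h.imp (fun h => h.lower hqp) (fun h => h.lower hqp)) q
    (fun c q _ => frc_decide q _)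
  refine ⟨r, hr.trans hq, z, h1, hp.lower (hr.trans hq), hYX, fun i => (h2 i).lower hr, fun n => ?_,
    fun n i j => ?_⟩
  · obtain ⟨L, hL, hL'⟩ := h3 n
    exact ⟨L, hL, hL'.lower hr⟩
  · have := h4 (Nat.pair n (Nat.pair i j))
    simpa using this

/-- a model with a dense sequence -/
structure DM {𝒢 : ℕ → HN.{0} → Set BB} {q : Cond} (𝔐 : Mod 𝒢 q) (x v y : 𝔐.G.M) (zz : ℕ → 𝔐.G.M)
    (w : ℕ → ℕ → ℕ → Prop) : Prop where
  eu : EU 𝔐.o 𝔐.N x v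
  sub : ∀ t, ZM.E t y → ZM.E t x
  mem : ∀ i, ZM.E (zz i) y
  dense : ∀ t, ZM.E t y → ∀ n, ∃ i, vv 𝔐.N v n t (zz i)
  dec : ∀ n i j, vv 𝔐.N v n (zz i) (zz j) ↔ w n i j

theorem Dns.model {z : ℕ → HN.{0}} (h : Dns X V Y p z) {𝒢 : ℕ → HN.{0} → Set BB} {q : Cond}
    (hq : q ≤ p) (𝔐 : Mod 𝒢 q) {x v y : 𝔐.G.M} {zz : ℕ → 𝔐.G.M} (hx : 𝔐.G.R x X) (hv : 𝔐.G.R v V)
    (hy : 𝔐.G.R y Y) (hz : ∀ i, 𝔐.G.R (zz i) (z i)) :
    DM 𝔐 x v y zz (fun n i j => Frc p (VV V n (z i) (z j))) := by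
  have h1 := (GModel.los_ud ud_unifP (vec3 (Q := 𝔐.G.R) 𝔐.ho hx hv)).2 (𝔐.gen _ (h.hp.lower hq))
  have H : EU 𝔐.o 𝔐.N x v := 𝔐.std.unifP_iff.1 h1
  refine ⟨H, fun t ht => ?_, fun i => ?_, fun t ht n => ?_, fun n i j => ?_⟩
  · have h2 := (GModel.R_mem (GModel.R_refl t) hy).1 ht
    exact (GModel.R_mem (GModel.R_refl t) hx).2 (𝔐.G.up _ h2 _ (h.sub _))
  · exact (GModel.R_mem (hz i) hy).2 (𝔐.gen _ ((h.mem i).lower hq))
  · obtain ⟨L, hL, hL'⟩ := h.net n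
    obtain ⟨c, hc, hc'⟩ := exists_R_lst' hz L hL
    have h2 := (GModel.los_ud ud_net (vec4 (Q := 𝔐.G.R) hy hv (𝔐.hN n) hc)).2
      (𝔐.gen _ (hL'.lower hq))
    obtain ⟨s, hs, hs'⟩ := h2.2 t ht
    obtain ⟨i, rfl⟩ := hc' s hs
    exact ⟨i, vr_iff.1 hs'⟩
  · have h2 : vv 𝔐.N v n (zz i) (zz j) ↔ VV V n (z i) (z j) ∈ 𝔐.G.U :=
      GModel.R_mem (GModel.R_opair (𝔐.hN n) (GModel.R_opair (hz i) (hz j))) hv
    rw [h2]
    rcases h.dec n i j with h3 | h3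
    · exact ⟨fun _ => h3, fun _ => 𝔐.gen _ (h3.lower hq)⟩
    · exact ⟨fun h4 => (GModel.not_both h4 (𝔐.gen _ (h3.lower hq))).elim,
        fun h4 => (frc_absurd h4 h3).elim⟩

end Pool.Agent.Helper23.SM
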