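import Pool.Agent.Helper23.SM.Un2
import Pool.Agent.Helper44.Misc.GroundDichotomy

set_option autoImplicit false
set_option linter.unreachableTactic false
set_option linter.unusedTactic false

/-!
# Limits; the power set of `ω`
-/

universe u v w

namespace Pool.Agent.Helper23.SM

open WT (iffV bElim bOr bMP bImp bNot bAbs bAll bEx bIff bIff_mp bIff_mpr bLeft bRight bCases bContra eq_of_forall iffV_self iffV_eq_top)
open WT (Fm ZF IsUPair IsOPair App IsFun IsOmega IsInductive ZM IsFn isFun_iff app_iff opair ap)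

/-! ### names of sets of natural numbers -/

namespace HN

theorem exists_sub (a : Set ℕ) : ∃ z : HN.{0}, (∀ w, mem w z = ⨆ n : a, eq w (nat n.1)) ∧ Supp ∅ z :=
  exists_family' (fun n : a => nat n.1) ∅ isSp_empty (fun _ => supp_nat ∅ _)

/-- the name of a set of natural numbers -/
noncomputable def sub (a : Set ℕ) : HN.{0} := (exists_sub a).choose

theorem mem_sub (a : Set ℕ) (w : HN.{0}) : mem w (sub a) = ⨆ n : a, eq w (nat n.1) :=
  (exists_sub a).choose_spec.1 w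

theorem supp_sub (a : Set ℕ) (E : Set Ix) : Supp E (sub a) :=
  (exists_sub a).choose_spec.2.anti (Set.empty_subset E)

theorem mem_nat_sub (a : Set ℕ) (n : ℕ) [Decidable (n ∈ a)] :
    mem (nat n : HN.{0}) (sub a) = if n ∈ a then ⊤ else ⊥ := by
  rw [mem_sub]
  split_ifs with h
  · exact eq_top_iff.2 (bEx ⟨n, h⟩ (bRefl _))
  · rw [eq_bot_iff]
    refine iSup_le fun m => ?_
    have hne : n ≠ m.1 := fun e => h (e ▸ m.2)
    rw [nat_ne hne]

theorem sub_ne {a b : Set ℕ} (h : a ≠ b) : eq (sub a) (sub b) = ⊥ := by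
  classical
  rw [eq_bot_iff]
  have key : ∀ a b : Set ℕ, (∃ n ∈ a, n ∉ b) → eq (sub a) (sub b) ≤ ⊥ := by
    rintro a b ⟨n, h1, h2⟩
    have h3 : eq (sub a) (sub b) ≤ mem (nat n) (sub b) :=
      bMemR le_rfl (by rw [mem_nat_sub, if_pos h1]; exact le_top)
    rwa [mem_nat_sub, if_neg h2] at h3
  by_cases h' : ∃ n ∈ a, n ∉ b
  · exact key a b h'
  · push Not at h'
    rw [eq_symm]
    refine key b a ?_
    by_contra h2
    push Not at h2
    exact h (Set.Subset.antisymm h' h2)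

end HN

namespace Mod

variable {𝒢 : ℕ → HN.{0} → Set BB} {p : Cond} (𝔐 : Mod 𝒢 p)

theorem mem_sub_iff {x : 𝔐.G.M} {a : Set ℕ} (hx : 𝔐.G.R x (HN.sub a)) (w : 𝔐.G.M) :
    ZM.E w x ↔ ∃ n ∈ a, w = 𝔐.N n := by
  classical
  constructor
  · intro hw
    rw [E_def, GModel.R_mem (GModel.R_refl w) hx] at hw
    have h1 : ZM.E w 𝔐.o := by
      rw [E_def, GModel.R_mem (GModel.R_refl w) 𝔐.ho]
      refine 𝔐.G.up _ hw _ ?_
      rw [HN.mem_sub, HN.mem_omg]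
      exact iSup_le fun n => bEx n.1 le_rfl
    obtain ⟨n, rfl⟩ := (𝔐.std.NO w).1 h1
    rw [← GModel.R_mem (GModel.R_refl _) hx, GModel.R_mem (𝔐.hN n) hx, HN.mem_nat_sub] at hw
    by_cases hn : n ∈ a
    · exact ⟨n, hn, rfl⟩
    · rw [if_neg hn] at hw
      exact (𝔐.G.bot hw).elim
  · rintro ⟨n, hn, rfl⟩
    rw [E_def, GModel.R_mem (𝔐.hN n) hx, HN.mem_nat_sub, if_pos hn]
    exact 𝔐.G.top

end Mod

theorem ud_sub : UD (n := 2) (fun _ E v => Sub E (v 0) (v 1)) := by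
  unfold Sub
  (repeat' first
    | with_reducible exact UD.mem _ _ | with_reducible exact UD.eq _ _
    | with_reducible exact UD.tru | with_reducible exact UD.fls
    | with_reducible apply UD.not | with_reducible apply UD.and | with_reducible apply UD.or
    | with_reducible apply UD.iff | with_reducible apply UD.imp
    | with_reducible apply UD.exu
    | with_reducible apply UD.ex | with_reducible apply UD.all)

/-- there are no new sets of natural numbers -/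
theorem sub_omg (w : HN.{0}) : ud_sub.val ![w, HN.omg] ≤ ⨆ a : Set ℕ, HN.eq w (HN.sub a) := by
  refine le_of_frc fun p hp => ?_
  obtain ⟨q, hq, h⟩ := fusion (fun n q => Frc q (HN.mem (HN.nat n) w) ∨ Frc q (HN.mem (HN.nat n) w)ᶜ)
    (fun n p q hqp h => h.imp (fun h => h.lower hqp) (fun h => h.lower hqp)) p
    (fun n q _ => frc_decide q _)
  refine ⟨q, hq, Frc.mono (le_iSup (fun a => HN.eq w (HN.sub a)) {n | Frc q (HN.mem (HN.nat n) w)}) ?_⟩
  refine frc_of_mod {w, HN.sub {n | Frc q (HN.mem (HN.nat n) w)}} (Set.to_countable _) noG q _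
    fun r hr 𝔐 h𝔐 => ?_
  obtain ⟨x, hx⟩ := h𝔐 w (by simp)
  obtain ⟨y, hy⟩ := h𝔐 (HN.sub {n | Frc q (HN.mem (HN.nat n) w)}) (by simp)
  refine (GModel.R_eq hx hy).1 (WT.ext fun t => ?_)
  have h1 : Sub 𝔐.G.E x 𝔐.o := (GModel.los_ud ud_sub (vec2 (Q := 𝔐.G.R) hx 𝔐.ho)).2
    (𝔐.gen _ (hp.lower (hr.trans hq)))
  rw [𝔐.mem_sub_iff hy]
  have h2 : ∀ n, ZM.E (𝔐.N n) x ↔ Frc q (HN.mem (HN.nat n) w) := by
    intro n
    rw [Mod.E_def, GModel.R_mem (𝔐.hN n) hx]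
    rcases h n with h3 | h3
    · exact ⟨fun _ => h3, fun _ => 𝔐.gen _ (h3.lower hr)⟩
    · exact ⟨fun h4 => (GModel.not_both h4 (𝔐.gen _ (h3.lower hr))).elim,
        fun h4 => (frc_absurd h4 h3).elim⟩
  constructor
  · intro ht
    obtain ⟨n, rfl⟩ := (𝔐.std.NO t).1 (h1 t ht)
    exact ⟨n, (h2 n).1 ht, rfl⟩
  · rintro ⟨n, hn, rfl⟩
    exact (h2 n).2 hn

/-! ### limits -/

/-- `y` is the limit of the sequence `f` -/
def IsLim {M : Type} (E : M → M → Prop) (y o X V f : M) : Prop :=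
  E y X ∧ ∀ n m t, E n o → IsSucc E m n → App E f m t → Vr E V n y t

theorem ud_lim : UD (n := 5) (fun _ E v => IsLim E (v 0) (v 1) (v 2) (v 3) (v 4)) := by
  unfold IsLim Vr IsSucc App IsOPair IsUPair
  (repeat' first
    | with_reducible exact UD.mem _ _ | with_reducible exact UD.eq _ _
    | with_reducible exact UD.tru | with_reducible exact UD.fls
    | with_reducible apply UD.not | with_reducible apply UD.and | with_reducible apply UD.or
    | with_reducible apply UD.iff | with_reducible apply UD.imp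
    | with_reducible apply UD.exu
    | with_reducible apply UD.ex | with_reducible apply UD.all)

theorem isLim_iff {M : Type} [ZM M] {o : M} {N : ℕ → M} (S : Std M o N) {y X V f : M} (hf : IsFn f o X) :
    IsLim ZM.E y o X V f ↔ ZM.E y X ∧ ∀ n, vv N V n y (ap f (N (n + 1))) := by
  unfold IsLim
  simp only [vr_iff, app_iff]
  refine and_congr Iff.rfl ⟨fun h n => h _ _ _ (S.N_mem n) (S.isSucc_iff.2 rfl)
    ((hf.mem_iff (S.N_mem _)).2 rfl), fun h n m t hn hm ht => ?_⟩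
  obtain ⟨n, rfl⟩ := (S.NO n).1 hn
  obtain rfl := S.isSucc_iff.1 hm
  rw [hf.mem_iff (S.N_mem _)] at ht
  rw [ht]
  exact h n

variable {X V Y : HN.{0}} {p : Cond} {z : ℕ → HN.{0}}

theorem Dns.exists_lim (h : Dns X V Y p z) {E : Set Ix} (hE : IsSp E) (hX : HN.Supp E X)
    (hV : HN.Supp E V) (hz : ∀ i, HN.Supp E (z i)) (t : ℕ → ℕ)
    (ht : ∀ n m, n ≤ m → Frc p (VV V n (z (t n)) (z (t m)))) :
    ∃ η : HN.{0}, HN.Supp E η ∧ Frc p (HN.mem η X) ∧ ∀ n, Frc p (VV V n η (z (t (n + 1)))) := by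
  obtain ⟨F, hF, hFs⟩ := HN.exists_seq (fun n => z (t n)) hE (fun n => hz _)
  obtain ⟨η, h1, h2⟩ := ud_lim.exists_def hE (a := ![HN.omg, X, V, F])
    (vec4 (Q := fun _ x => HN.Supp E x) (x := ()) (y := ()) (z := ()) (t := ()) (HN.supp_omg E)
      hX hV hFs)
  let 𝒢 : ℕ → HN.{0} → Set BB := fun _ x => Set.range fun n => HN.eq x (HN.opair (HN.nat n) (z (t n)))
  have key : ∀ q ≤ p, ∀ 𝔐 : Mod 𝒢 q, (∀ a ∈ ({X, V, Y, F, η} : Set HN.{0}) ∪ Set.range z,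
      ∃ m : 𝔐.G.M, 𝔐.G.R m a) → ∃ (x v f y : 𝔐.G.M) (zz : ℕ → 𝔐.G.M), 𝔐.G.R x X ∧ 𝔐.G.R v V ∧
      𝔐.G.R f F ∧ 𝔐.G.R y Y ∧ (∀ i, 𝔐.G.R (zz i) (z i)) ∧
      DM 𝔐 x v y zz (fun n i j => Frc p (VV V n (z i) (z j))) ∧ IsFn f 𝔐.o x ∧
      ∀ n, ap f (𝔐.N n) = zz (t n) := by
    intro q hq 𝔐 h𝔐
    obtain ⟨x, hx⟩ := h𝔐 X (by simp)
    obtain ⟨v, hv⟩ := h𝔐 V (by simp)
    obtain ⟨y, hy⟩ := h𝔐 Y (by simp)
    obtain ⟨f, hf⟩ := h𝔐 F (by simp)
    have hzz : ∀ i, ∃ m : 𝔐.G.M, 𝔐.G.R m (z i) := fun i => h𝔐 _ (Or.inr ⟨i, rfl⟩)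
    choose zz hzz using hzz
    have hD := h.model hq 𝔐 hx hv hy hzz
    obtain ⟨h3, h4⟩ := 𝔐.seq hF (k := 0) (fun _ => rfl) hf (A := x) (fun n w hw => by
      have : w = zz (t n) := (GModel.R_eq hw (hzz _)).2 (by rw [HN.eq_refl]; exact 𝔐.G.top)
      rw [this]
      exact hD.sub _ (hD.mem _))
    refine ⟨x, v, f, y, zz, hx, hv, hf, hy, hzz, hD, h3, fun n => ?_⟩
    exact (GModel.R_eq (h4 n) (hzz _)).2 (by rw [HN.eq_refl]; exact 𝔐.G.top)
  have hex : Frc p (ud_lim.val ![η, HN.omg, X, V, F]) := by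
    refine frc_of_mod _ (((Set.to_countable ({X, V, Y, F, η} : Set HN.{0}))).union
      (Set.countable_range z)) 𝒢 p _ fun q hq 𝔐 h𝔐 => ?_
    obtain ⟨x, v, f, y, zz, hx, hv, hf, hy, hzz, hD, h3, h4⟩ := key q hq 𝔐 h𝔐
    refine 𝔐.G.up _ ((exuV_mem_iff ud_lim (vec4 (Q := 𝔐.G.R) 𝔐.ho hx hv hf)).1 ?_) _ h2
    obtain ⟨l, hl, hl'⟩ := hD.eu.cpl f h3 (fun n m hnm => by
      rw [h4, h4, hD.dec]
      exact ht n m hnm)
    refine ⟨l, (isLim_iff 𝔐.std h3).2 ⟨hl, hl'⟩, fun l' h5 => ?_⟩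
    obtain ⟨h6, h7⟩ := (isLim_iff 𝔐.std h3).1 h5
    exact hD.eu.lim_unique h3 𝔐.std h6 hl h7 hl'
  refine ⟨η, h1, ?_, fun n => ?_⟩
  · refine frc_of_mod _ (((Set.to_countable ({X, V, Y, F, η} : Set HN.{0}))).union
      (Set.countable_range z)) 𝒢 p _ fun q hq 𝔐 h𝔐 => ?_
    obtain ⟨x, v, f, y, zz, hx, hv, hf, hy, hzz, hD, h3, h4⟩ := key q hq 𝔐 h𝔐
    obtain ⟨e, he⟩ := h𝔐 η (by simp)
    have h5 := (GModel.los_ud ud_lim (v := ![e, 𝔐.o, x, v, f]) (a := ![η, HN.omg, X, V, F]) (by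
      intro i
      refine Fin.cases he (fun i => vec4 (Q := 𝔐.G.R) 𝔐.ho hx hv hf i) i)).2
      (𝔐.gen _ (hex.lower hq))
    exact (GModel.R_mem he hx).1 h5.1
  · refine frc_of_mod _ (((Set.to_countable ({X, V, Y, F, η} : Set HN.{0}))).union
      (Set.countable_range z)) 𝒢 p _ fun q hq 𝔐 h𝔐 => ?_
    obtain ⟨x, v, f, y, zz, hx, hv, hf, hy, hzz, hD, h3, h4⟩ := key q hq 𝔐 h𝔐
    obtain ⟨e, he⟩ := h𝔐 η (by simp)
    have h5 := (GModel.los_ud ud_lim (v := ![e, 𝔐.o, x, v, f]) (a := ![η, HN.omg, X, V, F]) (by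
      intro i
      refine Fin.cases he (fun i => vec4 (Q := 𝔐.G.R) 𝔐.ho hx hv hf i) i)).2
      (𝔐.gen _ (hex.lower hq))
    have h6 := ((isLim_iff 𝔐.std h3).1 h5).2 n
    rw [h4] at h6
    exact (GModel.R_mem (GModel.R_opair (𝔐.hN n) (GModel.R_opair he (hzz _))) hv).1 h6

end Pool.Agent.Helper23.SM
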