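import Pool.Agent.Helper23.SM.Un3

set_option autoImplicit false
set_option linter.unreachableTactic false
set_option linter.unusedTactic false

/-!
# The dichotomy
-/

universe u v w

namespace Pool.Agent.Helper23.SM

open WT (iffV bElim bOr bMP bImp bNot bAbs bAll bEx bIff bIff_mp bIff_mpr bLeft bRight bCases bContra eq_of_forall iffV_self iffV_eq_top)
open WT (Fm ZF IsUPair IsOPair App IsFun IsOmega IsInductive ZM IsFn isFun_iff app_iff opair ap)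

section model

variable {𝒢 : ℕ → HN.{0} → Set BB} {q : Cond} {𝔐 : Mod 𝒢 q} {x v y : 𝔐.G.M} {zz : ℕ → 𝔐.G.M}
  {w : ℕ → ℕ → ℕ → Prop} (H : DM 𝔐 x v y zz w)

include H

theorem DM.mem' (i : ℕ) : ZM.E (zz i) x := H.sub _ (H.mem i)

theorem DM.refl (n i : ℕ) : w n i i := by
  rw [← H.dec]
  exact H.eu.refl _ _ (H.mem' i)

theorem DM.symm (n i j : ℕ) (h : w n i j) : w n j i := by
  rw [← H.dec] at h ⊢
  exact H.eu.symm _ _ _ (H.mem' i) (H.mem' j) h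

theorem DM.comp (n i j k : ℕ) (h : w (n + 1) i j) (h' : w (n + 1) j k) : w n i k := by
  rw [← H.dec] at h h' ⊢
  exact H.eu.comp _ _ _ _ (H.mem' i) (H.mem' j) (H.mem' k) h h'

/-- equal limits -/
theorem DM.eq_of {d d' : 𝔐.G.M} (hd : ZM.E d x) (hd' : ZM.E d' x) {t t' : ℕ → ℕ}
    (ht : ∀ n, vv 𝔐.N v n d (zz (t (n + 1)))) (ht' : ∀ n, vv 𝔐.N v n d' (zz (t' (n + 1))))
    (h : ∀ n, ∃ N, ∀ m ≥ N, w n (t m) (t' m)) : d = d' := by
  refine H.eu.sep d d' hd hd' fun n => ?_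
  obtain ⟨N, hN⟩ := h (n + 2)
  have h1 := hN (max N (n + 2) + 1) (by omega)
  rw [← H.dec] at h1
  have h2 : vv 𝔐.N v (n + 2) d (zz (t (max N (n + 2) + 1))) :=
    H.eu.mono (by omega) hd (H.mem' _) (ht (max N (n + 2)))
  have h3 : vv 𝔐.N v (n + 1) d' (zz (t' (max N (n + 2) + 1))) :=
    H.eu.mono (by omega) hd' (H.mem' _) (ht' (max N (n + 2)))
  have h4 := H.eu.comp _ _ _ _ hd (H.mem' _) (H.mem' _) h2 h1
  exact H.eu.comp _ _ _ _ hd (H.mem' _) hd' h4 (H.eu.symm _ _ _ hd' (H.mem' _) h3)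

/-- close limits -/
theorem DM.close_of {d d' : 𝔐.G.M} (hd : ZM.E d x) (hd' : ZM.E d' x) {t t' : ℕ → ℕ}
    (ht : ∀ n, vv 𝔐.N v n d (zz (t (n + 1)))) (ht' : ∀ n, vv 𝔐.N v n d' (zz (t' (n + 1)))) {n : ℕ}
    (h : vv 𝔐.N v (n + 2) d d') (m : ℕ) (hm : n + 3 ≤ m) : w n (t m) (t' m) := by
  rw [← H.dec]
  obtain ⟨m, rfl⟩ : ∃ k, m = k + 1 := ⟨m - 1, by omega⟩
  have h2 : vv 𝔐.N v (n + 2) d (zz (t (m + 1))) := H.eu.mono (by omega) hd (H.mem' _) (ht m)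
  have h3 : vv 𝔐.N v (n + 1) d' (zz (t' (m + 1))) := H.eu.mono (by omega) hd' (H.mem' _) (ht' m)
  have h4 := H.eu.comp _ _ _ _ (H.mem' _) hd hd' (H.eu.symm _ _ _ hd (H.mem' _) h2) h
  exact H.eu.comp _ _ _ _ (H.mem' _) hd' (H.mem' _) h4 h3

/-- sequences converging to a point -/
theorem DM.exists_seq {d : 𝔐.G.M} (hd : ZM.E d y) : ∃ t : ℕ → ℕ,
    (∀ n, vv 𝔐.N v n d (zz (t (n + 1)))) ∧ ∀ n m, n ≤ m → w n (t n) (t m) := by
  have h := fun n => H.dense d hd (n + 1)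
  choose t ht using h
  refine ⟨t, fun n => H.eu.mono (by omega) (H.sub _ hd) (H.mem' _) (ht (n + 1)), fun n m hnm => ?_⟩
  rw [← H.dec]
  exact H.eu.comp _ _ _ _ (H.mem' _) (H.sub _ hd) (H.mem' _)
    (H.eu.symm _ _ _ (H.sub _ hd) (H.mem' _) (ht n))
    (H.eu.mono (by omega) (H.sub _ hd) (H.mem' _) (ht m))

end model

/-- the power set of `ω` injects into `X` -/
theorem ud_big : UD (n := 2) (fun _ E v => ∃ P, (∀ w, E w P ↔ Sub E w (v 0)) ∧ CardLe E P (v 1)) := by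
  unfold CardLe IsInj IsFun Sub App IsOPair IsUPair
  (repeat' first
    | with_reducible exact UD.mem _ _ | with_reducible exact UD.eq _ _
    | with_reducible exact UD.tru | with_reducible exact UD.fls
    | with_reducible apply UD.not | with_reducible apply UD.and | with_reducible apply UD.or
    | with_reducible apply UD.iff | with_reducible apply UD.imp
    | with_reducible apply UD.exu
    | with_reducible apply UD.ex | with_reducible apply UD.all)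

variable {X V Y : HN.{0}} {p : Cond} {z : ℕ → HN.{0}}

theorem Dns.big (h : Dns X V Y p z) {E : Set Ix} (hE : IsSp E) (hX : HN.Supp E X)
    (hV : HN.Supp E V) (hz : ∀ i, HN.Supp E (z i)) (s : Set ℕ → ℕ → ℕ)
    (hs : ∀ a n m, n ≤ m → Frc p (VV V n (z (s a n)) (z (s a m))))
    (hs' : ∀ a b, a ≠ b → ∃ n N, ∀ m ≥ N, ¬ Frc p (VV V n (z (s a m)) (z (s b m)))) :
    Frc p (ud_big.val ![HN.omg, X]) := by
  have h1 := fun a => h.exists_lim hE hX hV hz (s a) (hs a)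
  choose η hη1 hη2 hη3 using h1
  obtain ⟨F, hF, hFs⟩ := HN.exists_family' (fun a : Set ℕ => HN.opair (HN.sub a) (η a)) E hE
    (fun a => (HN.supp_sub a E).opair (hη1 a))
  let 𝒢 : ℕ → HN.{0} → Set BB := fun k x =>
    match k with
    | 0 => Set.range fun a : Set ℕ => HN.eq x (HN.sub a)
    | _ => Set.range fun a : Set ℕ => HN.eq x (HN.opair (HN.sub a) (η a))
  refine frc_of_mod ({X, F} : Set HN.{0}) (Set.to_countable _) 𝒢 p _ fun q hq 𝔐 h𝔐 => ?_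
  obtain ⟨x, hx⟩ := h𝔐 X (by simp)
  obtain ⟨f, hf⟩ := h𝔐 F (by simp)
  refine (GModel.los_ud ud_big (vec2 (Q := 𝔐.G.R) 𝔐.ho hx)).1 ?_
  -- elements of the power set
  have hP : ∀ w, ZM.E w (WT.pow 𝔐.o) → ∃ a, 𝔐.G.R w (HN.sub a) := by
    intro w hw
    rw [WT.mem_pow] at hw
    have h2 := (GModel.los_ud ud_sub (vec2 (Q := 𝔐.G.R) (GModel.R_refl w) 𝔐.ho)).1 hw
    exact 𝔐.gen_range (k := 0) (a := HN.sub) (fun _ => rfl) (GModel.R_refl w)
      (𝔐.G.up _ h2 _ (sub_omg _))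
  have hfel : ∀ w t, ZM.E (opair w t) f → ∃ a, 𝔐.G.R w (HN.sub a) ∧ 𝔐.G.R t (η a) := by
    intro w t h2
    rw [Mod.E_def, GModel.R_mem (GModel.R_refl _) hf, hF] at h2
    obtain ⟨a, ha⟩ := 𝔐.gen_range (k := 1) (a := fun a => HN.opair (HN.sub a) (η a)) (fun _ => rfl)
      (GModel.R_refl _) h2
    obtain ⟨x1, w1, h7, h8, h9⟩ := GModel.R_opair_cases ha
    obtain ⟨rfl, rfl⟩ := WT.opair_inj.1 h7
    exact ⟨a, h8, h9⟩
  have hsubeq : ∀ (w : 𝔐.G.M) a b, 𝔐.G.R w (HN.sub a) → 𝔐.G.R w (HN.sub b) → a = b := by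
    intro w a b h2 h3
    by_contra hab
    have h4 := (GModel.R_eq h2 h3).1 rfl
    rw [HN.sub_ne hab] at h4
    exact 𝔐.G.bot h4
  have hηX : ∀ (t : 𝔐.G.M) a, 𝔐.G.R t (η a) → ZM.E t x := fun t a ht =>
    (GModel.R_mem ht hx).2 (𝔐.gen _ ((hη2 a).lower hq))
  have hfn : IsFn f (WT.pow 𝔐.o) x := by
    refine ⟨fun c hc => ?_, fun w hw => ?_⟩
    · rw [Mod.E_def, GModel.R_mem (GModel.R_refl _) hf, hF] at hc
      obtain ⟨a, ha⟩ := 𝔐.gen_range (k := 1) (a := fun a => HN.opair (HN.sub a) (η a)) (fun _ => rfl)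
        (GModel.R_refl _) hc
      obtain ⟨x1, w1, h7, h8, h9⟩ := GModel.R_opair_cases ha
      refine ⟨x1, w1, ?_, hηX _ _ h9, h7⟩
      rw [WT.mem_pow]
      intro t ht
      obtain ⟨n, _, rfl⟩ := (𝔐.mem_sub_iff h8 t).1 ht
      exact 𝔐.std.N_mem n
    · obtain ⟨a, ha⟩ := hP w hw
      obtain ⟨t, ht⟩ := GModel.exists_app hf ha (𝔐.G.up _ 𝔐.G.top _ (bEx (η a) (by
        rw [hF]
        exact bEx a (HN.bRefl _))))
      refine ⟨t, ht, fun t' ht' => ?_⟩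
      obtain ⟨b, hb, hb'⟩ := hfel _ _ ht
      obtain ⟨b', hb1, hb1'⟩ := hfel _ _ ht'
      have e1 := hsubeq _ _ _ hb ha
      have e2 := hsubeq _ _ _ hb1 ha
      subst e1 e2
      refine (GModel.R_eq hb1' hb').2 ?_
      rw [HN.eq_refl]
      exact 𝔐.G.top
  refine ⟨WT.pow 𝔐.o, fun w => (WT.mem_pow (a := 𝔐.o) (w := w) :), f, isInj_iff.2 ⟨hfn, fun w w' hw hw' he => ?_⟩⟩
  obtain ⟨a, ha, ha'⟩ := hfel _ _ ((hfn.mem_iff hw).2 rfl)
  obtain ⟨b, hb, hb'⟩ := hfel _ _ ((hfn.mem_iff hw').2 rfl)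
  by_cases hab : a = b
  · subst hab
    refine (GModel.R_eq ha hb).2 ?_
    rw [HN.eq_refl]
    exact 𝔐.G.top
  · exfalso
    -- the limits are different
    have h2 : HN.eq (η a) (η b) ∈ 𝔐.G.U := by
      have := (GModel.R_eq ha' hb').1 he
      exact this
    obtain ⟨r, hr, h3⟩ := 𝔐.den _ h2
    refine frc_of_mod' (({X, V, Y, η a, η b} : Set HN.{0}) ∪ Set.range z)
      ((Set.to_countable _).union (Set.countable_range _)) noG (fun r' hr' 𝔐' h𝔐' h4 => ?_) h3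
    obtain ⟨x, hx⟩ := h𝔐' X (by simp)
    obtain ⟨v, hv⟩ := h𝔐' V (by simp)
    obtain ⟨y, hy⟩ := h𝔐' Y (by simp)
    obtain ⟨ea, hea⟩ := h𝔐' (η a) (by simp)
    obtain ⟨eb, heb⟩ := h𝔐' (η b) (by simp)
    have hzz : ∀ i, ∃ m : 𝔐'.G.M, 𝔐'.G.R m (z i) := fun i => h𝔐' _ (Or.inr ⟨i, rfl⟩)
    choose zz hzz using hzz
    have hle : r' ≤ p := hr'.trans (hr.trans hq)
    have H := h.model hle 𝔐' hx hv hy hzz
    have hlim : ∀ c e, 𝔐'.G.R e (η c) → ZM.E e x ∧ ∀ n, vv 𝔐'.N v n e (zz (s c (n + 1))) := by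
      intro c e he
      refine ⟨(GModel.R_mem he hx).2 (𝔐'.gen _ ((hη2 c).lower hle)), fun n => ?_⟩
      exact (GModel.R_mem (GModel.R_opair (𝔐'.hN n) (GModel.R_opair he (hzz _))) hv).2
        (𝔐'.gen _ ((hη3 c n).lower hle))
    have heq : ea = eb := (GModel.R_eq hea heb).2 h4
    obtain ⟨n, N, hN⟩ := hs' a b hab
    refine hN (max N (n + 3)) (le_max_left _ _) ?_
    exact H.close_of (hlim a ea hea).1 (hlim b eb heb).1 (hlim a ea hea).2 (hlim b eb heb).2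
      (by rw [heq]; exact H.eu.refl _ _ (hlim b eb heb).1) _ (le_max_right _ _)

theorem ud_isCnt : UD (n := 1) (fun _ E v => IsCnt E (v 0)) := by
  unfold IsCnt IsDen IsFin CardEq IsInj IsFun IsOmega IsInductive App IsOPair IsUPair
  (repeat' first
    | with_reducible exact UD.mem _ _ | with_reducible exact UD.eq _ _
    | with_reducible exact UD.tru | with_reducible exact UD.fls
    | with_reducible apply UD.not | with_reducible apply UD.and | with_reducible apply UD.or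
    | with_reducible apply UD.iff | with_reducible apply UD.imp
    | with_reducible apply UD.exu
    | with_reducible apply UD.ex | with_reducible apply UD.all)

theorem Dns.cnt (h : Dns X V Y p z) {E : Set Ix} (hE : IsSp E) (hX : HN.Supp E X)
    (hV : HN.Supp E V) (hz : ∀ i, HN.Supp E (z i)) (hY : ∀ η, HN.Supp E η → HN.mem η X ≤ HN.mem η Y)
    (s : ℕ → ℕ → ℕ) (hs : ∀ i n m, n ≤ m → Frc p (VV V n (z (s i n)) (z (s i m))))
    (hs' : ∀ t : ℕ → ℕ, (∀ n m, n ≤ m → Frc p (VV V n (z (t n)) (z (t m)))) →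
      ∃ i, ∀ n, ∃ N, ∀ m ≥ N, Frc p (VV V n (z (t m)) (z (s i m)))) :
    Frc p (ud_isCnt.val ![Y]) := by
  have h1 := fun a => h.exists_lim hE hX hV hz (s a) (hs a)
  choose η hη1 hη2 hη3 using h1
  obtain ⟨F, hF, hFs⟩ := HN.exists_seq η hE hη1
  refine frc_of_mod (({X, V, Y, F} : Set HN.{0}) ∪ Set.range z)
    ((Set.to_countable _).union (Set.countable_range _))
    (fun _ x => Set.range fun n => HN.eq x (HN.opair (HN.nat n) (η n))) p _ fun q hq 𝔐 h𝔐 => ?_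
  obtain ⟨x, hx⟩ := h𝔐 X (by simp)
  obtain ⟨v, hv⟩ := h𝔐 V (by simp)
  obtain ⟨y, hy⟩ := h𝔐 Y (by simp)
  obtain ⟨f, hf⟩ := h𝔐 F (by simp)
  have hzz : ∀ i, ∃ m : 𝔐.G.M, 𝔐.G.R m (z i) := fun i => h𝔐 _ (Or.inr ⟨i, rfl⟩)
  choose zz hzz using hzz
  have H := h.model hq 𝔐 hx hv hy hzz
  refine (GModel.los_ud ud_isCnt (vec1 (Q := 𝔐.G.R) hy)).1 ?_
  obtain ⟨h3, h4⟩ := 𝔐.seq hF (k := 0) (fun _ => rfl) hf (A := y) (fun n w hw =>
    (GModel.R_mem hw hy).2 (𝔐.gen _ (((hη2 n).lower hq).mono (hY _ (hη1 n)))))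
  refine 𝔐.std.isCnt_of_surj h3 fun t ht => ?_
  obtain ⟨a, ha, ha'⟩ := H.exists_seq ht
  obtain ⟨i, hi⟩ := hs' a ha'
  refine ⟨i, (H.eq_of (H.sub _ ht) (H.sub _ (h3.ap_mem (𝔐.std.N_mem i))) ha (fun n => ?_) hi).symm⟩
  exact (GModel.R_mem (GModel.R_opair (𝔐.hN n) (GModel.R_opair (h4 i) (hzz _))) hv).2
    (𝔐.gen _ ((hη3 i n).lower hq))

/-- `F` is the set of the `n`-isolated points of `D` -/
theorem ud_iso : UD (n := 4) (fun _ E v => ∀ z, E z (v 0) ↔ E z (v 1) ∧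
    ∀ z', E z' (v 1) → Vr E (v 2) (v 3) z z' → z = z') := by
  unfold Vr IsOPair IsUPair
  (repeat' first
    | with_reducible exact UD.mem _ _ | with_reducible exact UD.eq _ _
    | with_reducible exact UD.tru | with_reducible exact UD.fls
    | with_reducible apply UD.not | with_reducible apply UD.and | with_reducible apply UD.or
    | with_reducible apply UD.iff | with_reducible apply UD.imp
    | with_reducible apply UD.exu
    | with_reducible apply UD.ex | with_reducible apply UD.all)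

theorem Dns.scat (h : Dns X V Y p z) {E : Set Ix} (hE : IsSp E)
    (hV : HN.Supp E V) (hYE : HN.Supp E Y)
    (hs : ∀ A : Set (ℕ → ℕ), A.Nonempty → (∀ t ∈ A, ∀ n m, n ≤ m → Frc p (VV V n (z (t n)) (z (t m)))) →
      ∃ t ∈ A, ∃ n, ∀ t' ∈ A, (∃ N, ∀ m ≥ N, Frc p (VV V n (z (t m)) (z (t' m)))) →
        ∀ n', ∃ N, ∀ m ≥ N, Frc p (VV V n' (z (t m)) (z (t' m)))) (ζ : HN.{0}) :
    Frc p (HN.mem ζ Y ⇨ HN.inC (HN.We E) ζ) := by
  refine frc_himp_intro fun q hq hζ => ?_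
  obtain ⟨D, hD, hDs⟩ := HN.exists_Xn Y E hE hYE
  -- names of the sets of isolated points
  have hI := fun n => ud_iso.exists_def hE (a := ![D, V, HN.nat n])
    (vec3 (Q := fun _ x => HN.Supp E x) (x := ()) (y := ()) (z := ()) hDs hV (HN.supp_nat E n))
  choose I hI1 hI2 using hI
  by_contra hcon
  obtain ⟨r, hr, hrζ⟩ : ∃ r ≤ q, Frc r (HN.inC (HN.We E) ζ)ᶜ := by
    by_contra h1
    push Not at h1
    refine hcon (frc_dense fun r hr => ?_)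
    obtain ⟨r', hr', h2 | h2⟩ := frc_decide r (HN.inC (HN.We E) ζ)
    · exact ⟨r', hr', h2⟩
    · exact (h1 r' (hr'.trans hr) h2).elim
  obtain ⟨𝔐, h𝔐⟩ := exists_mod (({X, V, Y, D, ζ} : Set HN.{0}) ∪ (Set.range z ∪ Set.range I))
    ((Set.to_countable _).union ((Set.countable_range _).union (Set.countable_range _))) noG r
  obtain ⟨x, hx⟩ := h𝔐 X (by simp)
  obtain ⟨v, hv⟩ := h𝔐 V (by simp)
  obtain ⟨y, hy⟩ := h𝔐 Y (by simp)
  obtain ⟨d, hd⟩ := h𝔐 D (by simp)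
  obtain ⟨e, he⟩ := h𝔐 ζ (by simp)
  have hzz : ∀ i, ∃ m : 𝔐.G.M, 𝔐.G.R m (z i) := fun i => h𝔐 _ (Or.inr (Or.inl ⟨i, rfl⟩))
  choose zz hzz using hzz
  have hII : ∀ i, ∃ m : 𝔐.G.M, 𝔐.G.R m (I i) := fun i => h𝔐 _ (Or.inr (Or.inr ⟨i, rfl⟩))
  choose ii hii using hII
  have H := h.model (hr.trans hq) 𝔐 hx hv hy hzz
  have hdy : ∀ t, ZM.E t d → ZM.E t y := fun t ht => by
    have h1 := (GModel.R_mem (GModel.R_refl t) hd).1 ht
    rw [hD] at h1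
    exact (GModel.R_mem (GModel.R_refl t) hy).2 (𝔐.G.up _ h1 _ inf_le_left)
  have hed : ZM.E e d := by
    refine (GModel.R_mem he hd).2 (𝔐.gen _ ?_)
    rw [hD]
    exact frc_inf.2 ⟨hζ.lower hr, hrζ⟩
  let A : Set (ℕ → ℕ) := {t | (∃ c, ZM.E c d ∧ ∀ n, vv 𝔐.N v n c (zz (t (n + 1)))) ∧
    ∀ n m, n ≤ m → Frc p (VV V n (z (t n)) (z (t m)))}
  have hseq : ∀ c, ZM.E c d → ∃ t ∈ A, ∀ n, vv 𝔐.N v n c (zz (t (n + 1))) := by
    intro c hc
    obtain ⟨t, ht, ht'⟩ := H.exists_seq (hdy c hc)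
    exact ⟨t, ⟨⟨c, hc, ht⟩, ht'⟩, ht⟩
  obtain ⟨t0, ht0, -⟩ := hseq e hed
  obtain ⟨t, htA, n, hn⟩ := hs A ⟨t0, ht0⟩ (fun t ht => ht.2)
  obtain ⟨⟨c, hc, hct⟩, htf⟩ := htA
  -- c is isolated
  have hiso : ∀ c', ZM.E c' d → vv 𝔐.N v (n + 2) c c' → c = c' := by
    intro c' hc' hcc
    obtain ⟨t', ht', hct'⟩ := hseq c' hc'
    have h1 := hn t' ht' ⟨n + 3, fun m hm => H.close_of (H.sub _ (hdy _ hc)) (H.sub _ (hdy _ hc')) hct
      hct' hcc m hm⟩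
    exact H.eq_of (H.sub _ (hdy _ hc)) (H.sub _ (hdy _ hc')) hct hct' h1
  -- the set of isolated points
  have hex : ∃ F : 𝔐.G.M, ∀ z, ZM.E z F ↔ ZM.E z d ∧
      ∀ z', ZM.E z' d → Vr ZM.E v (𝔐.N (n + 2)) z z' → z = z' := by
    simp only [vr_iff]
    exact exists_isoSet d v _
  obtain ⟨F, hF⟩ := hex
  have hFi : ud_iso.val ![I (n + 2), D, V, HN.nat (n + 2)] ∈ 𝔐.G.U := by
    refine 𝔐.G.up _ ?_ _ (hI2 (n + 2))
    refine (exuV_mem_iff ud_iso (vec3 (Q := 𝔐.G.R) hd hv (𝔐.hN (n + 2)))).1 ⟨F, ?_, fun F' hF' => ?_⟩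
    · exact hF
    · exact WT.ext fun z => ((hF' z).trans (hF z).symm)
  have hFi' := (GModel.los_ud ud_iso (vec4 (Q := 𝔐.G.R) (hii (n + 2)) hd hv (𝔐.hN (n + 2)))).2 hFi
  have hcF : ZM.E c (ii (n + 2)) := (hFi' c).2 ⟨hc, fun z' hz' h1 => hiso z' hz' (vr_iff.1 h1)⟩
  -- it is finite
  have hfin : IsFin 𝔐.G.E (ii (n + 2)) := by
    rw [show (𝔐.G.E) = ZM.E from rfl, 𝔐.std.isFin_iff]
    obtain ⟨S, hS1, hS2, hS3⟩ := H.eu.tb (n + 3)
    have hel : ∀ z, ZM.E z (ii (n + 2)) → ZM.E z d ∧ ∀ z', ZM.E z' d → vv 𝔐.N v (n + 2) z z' → z = z' :=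
      fun z hz => ⟨((hFi' z).1 hz).1, fun z' hz' h1 => ((hFi' z).1 hz).2 z' hz' (vr_iff.2 h1)⟩
    have h2 : ∀ z : {z | ZM.E z (ii (n + 2))}, ∃ s : S, vv 𝔐.N v (n + 3) z.1 s.1 := by
      rintro ⟨z, hz⟩
      obtain ⟨s, hs, h3⟩ := hS3 z (H.sub _ (hdy _ (hel z hz).1))
      exact ⟨⟨s, hs⟩, h3⟩
    choose g hg using h2
    have : Finite S := hS1
    have hinj : Function.Injective g := by
      rintro ⟨z, hz⟩ ⟨z', hz'⟩ hzz'
      have h3 := hg ⟨z, hz⟩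
      have h4 := hg ⟨z', hz'⟩
      rw [← hzz'] at h4
      have hzx := H.sub _ (hdy _ (hel z hz).1)
      have hzx' := H.sub _ (hdy _ (hel z' hz').1)
      have hsx := hS2 _ (g ⟨z, hz⟩).2
      exact Subtype.ext ((hel z hz).2 z' (hel z' hz').1
        (H.eu.comp _ _ _ _ hzx hsx hzx' h3 (H.eu.symm _ _ _ hzx' hsx h4)))
    have := Finite.of_injective g hinj
    exact Set.toFinite _
  have h5 := (GModel.los_ud ud_isFin (vec1 (Q := 𝔐.G.R) (hii (n + 2)))).1 hfin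
  have h6 := (GModel.R_mem (GModel.R_refl c) (hii (n + 2))).1 hcF
  have h7 := GModel.up2 h5 h6 (fin_sub hE (hI1 (n + 2)) (𝔐.G.rep c))
  have h8 := (GModel.R_mem (GModel.R_refl c) hd).1 hc
  rw [hD] at h8
  exact GModel.not_both h7 (𝔐.G.up _ h8 _ inf_le_right)

end Pool.Agent.Helper23.SM
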