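import Pool.Agent.Helper23.SM.Un4

set_option autoImplicit false
set_option linter.unreachableTactic false
set_option linter.unusedTactic false

/-!
# Uncountable totally bounded complete uniform spaces contain the power set of `ω`
-/

universe u v w

namespace Pool.Agent.Helper23.SM

open WT (iffV bElim bOr bMP bImp bNot bAbs bAll bEx bIff bIff_mp bIff_mpr bLeft bRight bCases bContra eq_of_forall iffV_self iffV_eq_top)
open WT (Fm ZF IsUPair IsOPair App IsFun IsOmega IsInductive ZM IsFn isFun_iff app_iff opair ap)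

theorem frc_of_not_compl {p : Cond} {b : BB} (h : ∀ q ≤ p, ¬ Frc q bᶜ) : Frc p b :=
  frc_dense fun q hq => by
    obtain ⟨r, hr, h1 | h1⟩ := frc_decide q b
    · exact ⟨r, hr, h1⟩
    · exact (h r (hr.trans hq) h1).elim

theorem muc_step {X V : HN.{0}} {E : Set Ix} {l : ℕ} {Y z₀ : HN.{0}} {q : Cond} (hE : IsSp E)
    (hEl : ∀ x ∈ E, x.1 < l) (hX : HN.Supp E X) (hV : HN.Supp E V)
    (hp : Frc q (ud_unifP.val ![HN.omg, X, V])) (hbig : Frc q (ud_big.val ![HN.omg, X])ᶜ)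
    (hY : ∀ w, HN.mem w Y = HN.mem w X ⊓ HN.inC (HN.Wk l) w) (hYE : HN.Supp E Y)
    (hz₀ : z₀ ∈ HN.Wk l) (hz₀' : Frc q (HN.mem z₀ X)) :
    ∃ r ≤ q, Frc r (ud_isCnt.val ![Y]) ∧ ∀ ζ, Frc r (HN.mem ζ Y ⇨ HN.inC (HN.We E) ζ) := by
  obtain ⟨r, hr, z, hz, H⟩ := exists_dns (Y := Y) (𝒞 := HN.Wk l) hp (fun w => by rw [hY]; exact inf_le_left)
    (fun w => by rw [hY]; exact inf_le_right) hz₀ (by
      rw [hY, HN.inC_top hz₀, inf_top_eq]; exact hz₀')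
  refine ⟨r, hr, ?_⟩
  obtain ⟨E1, hE1, hE1l, hE1z⟩ := exists_common hz
  have hEE : IsSp (E ∪ E1) := hE.union ⟨hE1, l, hE1l⟩
  have hX' : HN.Supp (E ∪ E1) X := hX.anti Set.subset_union_left
  have hV' : HN.Supp (E ∪ E1) V := hV.anti Set.subset_union_left
  have hz' : ∀ i, HN.Supp (E ∪ E1) (z i) := fun i => (hE1z i).anti Set.subset_union_right
  have hYY : ∀ η, HN.Supp (E ∪ E1) η → HN.mem η X ≤ HN.mem η Y := by
    intro η hη
    have : η ∈ HN.Wk l := ⟨E ∪ E1, hEE.1, fun x hx => hx.elim (hEl x) (hE1l x), hη⟩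
    rw [hY, HN.inC_top this, inf_top_eq]
  -- a model
  obtain ⟨𝔐, h𝔐⟩ := exists_mod (({X, V, Y} : Set HN.{0}) ∪ Set.range z)
    ((Set.to_countable _).union (Set.countable_range _)) noG r
  obtain ⟨x, hx⟩ := h𝔐 X (by simp)
  obtain ⟨v, hv⟩ := h𝔐 V (by simp)
  obtain ⟨y, hy⟩ := h𝔐 Y (by simp)
  have hzz : ∀ i, ∃ m : 𝔐.G.M, 𝔐.G.R m (z i) := fun i => h𝔐 _ (Or.inr ⟨i, rfl⟩)
  choose zz hzz using hzz
  have hD := H.model le_rfl 𝔐 hx hv hy hzz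
  rcases Pool.Agent.Helper44.Misc.ground_dichotomy (fun n i j => Frc r (VV V n (z i) (z j)))
    hD.refl hD.symm hD.comp with ⟨s, h1, h2⟩ | ⟨⟨s, h1, h2⟩, h3⟩
  · exact (frc_absurd (H.big hEE hX' hV' hz' s h1 h2) (hbig.lower hr)).elim
  · exact ⟨H.cnt hEE hX' hV' hz' hYY s h1 h2, H.scat hE hV hYE h3⟩

theorem muc_frc {X V : HN.{0}} {p : Cond} (hp : Frc p (ud_unifP.val ![HN.omg, X, V]))
    (hc : Frc p (ud_isCnt.val ![X])ᶜ) (hbig : Frc p (ud_big.val ![HN.omg, X])ᶜ) : False := by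
  obtain ⟨e1, he1, hX⟩ := HN.exists_supp X
  obtain ⟨e2, he2, hV⟩ := HN.exists_supp V
  obtain ⟨E, hE, hX, hV⟩ : ∃ E, IsSp E ∧ HN.Supp E X ∧ HN.Supp E V :=
    ⟨e1 ∪ e2, he1.union he2, hX.anti Set.subset_union_left, hV.anti Set.subset_union_right⟩
  obtain ⟨hEc, k, hEk⟩ := hE
  have hE : IsSp E := ⟨hEc, k, hEk⟩
  -- an element
  obtain ⟨z₀, q, hq, hz₀⟩ : ∃ z₀, ∃ q ≤ p, Frc q (HN.mem z₀ X) := by
    obtain ⟨𝔐, h𝔐⟩ := exists_mod {X} (Set.countable_singleton X) noG p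
    obtain ⟨x, hx⟩ := h𝔐 X rfl
    have h1 : ¬ IsCnt 𝔐.G.E x := fun h =>
      GModel.not_both ((GModel.los_ud ud_isCnt (vec1 (Q := 𝔐.G.R) hx)).1 h) (𝔐.gen _ hc)
    have h2 : ∃ t, 𝔐.G.E t x := by
      by_contra h2
      push Not at h2
      refine h1 (Or.inl (𝔐.std.isFin_iff.2 ?_))
      have : {z | ZM.E z x} = ∅ := by
        ext t
        exact ⟨fun h => (h2 t h).elim, fun h => h.elim⟩
      rw [this]
      exact Set.finite_empty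
    obtain ⟨t, ht⟩ := h2
    obtain ⟨q, hq, h3⟩ := 𝔐.den _ ((GModel.R_mem (GModel.R_refl t) hx).1 ht)
    exact ⟨𝔐.G.rep t, q, hq, h3⟩
  obtain ⟨l₁, hl₁⟩ := HN.exists_Wk z₀
  have hY := fun l => HN.exists_Xk X E hE hX l
  choose Y hY1 hY2 using hY
  have hcl : ∀ l ≥ max k l₁, ∀ r ≤ q, ∃ s ≤ r, Frc s (ud_isCnt.val ![Y l]) ∧
      ∀ ζ, Frc s (HN.mem ζ (Y l) ⇨ HN.inC (HN.We E) ζ) := fun l hl r hr =>
    muc_step hE (fun x hx => lt_of_lt_of_le (hEk x hx) ((le_max_left _ _).trans hl)) hX hV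
      (hp.lower (hr.trans hq)) (hbig.lower (hr.trans hq)) (hY1 l) (hY2 l)
      (hl₁ l ((le_max_right _ _).trans hl)) (hz₀.lower hr)
  have hcl1 : ∀ l ≥ max k l₁, Frc q (ud_isCnt.val ![Y l]) := fun l hl => frc_dense fun r hr => by
    obtain ⟨s, hs, h, -⟩ := hcl l hl r hr
    exact ⟨s, hs, h⟩
  have hcl2 : ∀ l ≥ max k l₁, ∀ ζ, Frc q (HN.mem ζ (Y l) ⇨ HN.inC (HN.We E) ζ) :=
    fun l hl ζ => frc_dense fun r hr => by
      obtain ⟨s, hs, -, h⟩ := hcl l hl r hr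
      exact ⟨s, hs, h ζ⟩
  have h1 : pr q ≤ HN.eq (Y (max k l₁)) X := bEqOfMem (fun ζ => inf_le_right.trans (by
    rw [hY1]; exact inf_le_left)) (fun ζ => by
      obtain ⟨l, hl⟩ := HN.exists_Wk ζ
      have h2 : HN.mem ζ X ≤ HN.mem ζ (Y (max (max k l₁) l)) := by
        rw [hY1, HN.inC_top (hl _ (le_max_right _ _)), inf_top_eq]
      rw [hY1]
      refine le_inf inf_le_right ?_
      have h3 := pr_le (hcl2 (max (max k l₁) l) (le_max_left _ _) ζ)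
      have h4 : pr q ⊓ HN.mem ζ X ≤ HN.inC (HN.We E) ζ := bMP (inf_le_left.trans h3)
        (inf_le_right.trans h2)
      exact h4.trans (HN.inC_mono (HN.We_sub_Wk hEc fun x hx =>
        lt_of_lt_of_le (hEk x hx) (le_max_left _ _)) ζ))
  refine frc_absurd ?_ (hc.lower hq)
  exact Frc.mono (ud_isCnt.val_congr (a := ![Y (max k l₁)]) (vec1 (Q := fun x y => pr q ≤ HN.eq x y) h1)
    (pr_le (hcl1 _ le_rfl))) (frc_pr_self q)

/-- in the models -/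
theorem Mod.muc {𝒢 : ℕ → HN.{0} → Set BB} {p : Cond} (𝔐 : Mod 𝒢 p) {X V : 𝔐.G.M}
    (h : EU 𝔐.o 𝔐.N X V) (hc : ¬ IsCnt 𝔐.G.E X) :
    ∃ P, (∀ w, 𝔐.G.E w P ↔ Sub 𝔐.G.E w 𝔐.o) ∧ CardLe 𝔐.G.E P X := by
  by_contra hbig
  have h1 := (GModel.los_ud ud_unifP (vec3 (Q := 𝔐.G.R) 𝔐.ho (GModel.R_refl X) (GModel.R_refl V))).1
    (𝔐.std.unifP_iff.2 h)
  have h2 := GModel.dec_ud ud_isCnt (vec1 (Q := 𝔐.G.R) (GModel.R_refl X)) hc
  have h3 := GModel.dec_ud ud_big (vec2 (Q := 𝔐.G.R) 𝔐.ho (GModel.R_refl X)) hbig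
  obtain ⟨q, -, h4⟩ := 𝔐.den _ (𝔐.G.inf _ (𝔐.G.inf _ h1 _ h2) _ h3)
  obtain ⟨h4, h5⟩ := frc_inf.1 h4
  obtain ⟨h4, h6⟩ := frc_inf.1 h4
  exact muc_frc h4 h6 h5

end Pool.Agent.Helper23.SM
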