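import Pool.Agent.Helper23.SM.Idi

set_option autoImplicit false
set_option linter.unreachableTactic false
set_option linter.unusedTactic false

/-!
# Well-ordered sets, choice for well-ordered families of finite sets
-/

universe u v w

namespace Pool.Agent.Helper23.SM

open WT (iffV bElim bOr bMP bImp bNot bAbs bAll bEx bIff bIff_mp bIff_mpr bLeft bRight bCases bContra eq_of_forall iffV_self iffV_eq_top)
open WT (Fm ZF IsUPair IsOPair App IsFun IsOmega IsInductive ZM IsFn isFun_iff app_iff opair ap)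

/-- unique existence -/
def fexu {κ : Type w} {n : ℕ} (f : Fm κ (n + 1)) : Fm κ n :=
  Fm.ex (f.and (Fm.all ((f.ren (Fin.cases 0 fun j => j.succ.succ)).imp (Fm.eq (.inl 0) (.inl 1)))))

theorem vl_fexu {κ : Type w} {n : ℕ} (e : κ → HN.{0}) (f : Fm κ (n + 1)) (a : Fin n → HN.{0}) :
    vl e (fexu f) a = HN.exuV fun x => vl e f (Matrix.vecCons x a) := by
  unfold fexu HN.exuV
  rw [vl_ex]
  refine iSup_congr fun x => ?_
  rw [vl_and, vl_all]
  congr 1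
  refine iInf_congr fun y => ?_
  rw [vl_imp, vl_ren]
  congr 1
  congr 1
  funext i
  refine Fin.cases ?_ (fun i => ?_) i <;> simp

theorem sat_fexu {κ : Type w} {n : ℕ} {M : Type v} (E : M → M → Prop) (e : κ → M) (f : Fm κ (n + 1))
    (v : Fin n → M) : (fexu f).Sat E e v ↔ ∃! x, f.Sat E e (Matrix.vecCons x v) := by
  unfold fexu
  rw [Fm.sat_ex]
  refine exists_congr fun x => ?_
  rw [Fm.sat_and, Fm.sat_all]
  refine and_congr Iff.rfl (forall_congr' fun y => ?_)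
  rw [Fm.sat_imp, Fm.sat_ren]
  have : (fun i : Fin (n + 1) => Matrix.vecCons y (Matrix.vecCons x v)
      ((Fin.cases 0 (fun j => j.succ.succ) i : Fin (n + 2)))) = Matrix.vecCons y v := by
    funext i
    refine Fin.cases ?_ (fun i => ?_) i <;> simp
  rw [this]
  simp

section
variable {n : ℕ} {P : ∀ (M : Type) (_ : M → M → Prop), (Fin (n + 1) → M) → Prop}

theorem UD.exists_def (h : UD P) {E : Set Ix} (hE : IsSp E) {a : Fin n → HN.{0}}
    (ha : ∀ i, HN.Supp E (a i)) : ∃ η : HN.{0}, HN.Supp E η ∧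
      HN.exuV (fun x => h.val (Matrix.vecCons x a)) ≤ h.val (Matrix.vecCons η a) := by
  refine HN.exists_defF (fun x => h.val (Matrix.vecCons x a)) (fun {Γ x y} h1 h2 => ?_) hE
    (fun g hg x => ?_)
  · refine h.val_congr (fun i => ?_) h2
    refine Fin.cases ?_ (fun i => ?_) i
    · exact h1
    · exact HN.bRefl _
  · rw [← h.val_act]
    refine eq_of_forall fun Γ => ⟨fun h1 => h.val_congr (fun i => ?_) h1,
      fun h1 => h.val_congr (fun i => ?_) h1⟩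
    · refine Fin.cases ?_ (fun i => ?_) i
      · exact HN.bRefl _
      · exact HN.bSymm (le_top.trans (ha i g hg).ge)
    · refine Fin.cases ?_ (fun i => ?_) i
      · exact HN.bRefl _
      · exact le_top.trans (ha i g hg).ge

theorem exuV_mem_iff {𝓖 : ℕ → HN.{0} → HN.{0} → Set BB} {G : GModel.{0} 𝓖} (h : UD P)
    {v : Fin n → G.M} {a : Fin n → HN.{0}} (hv : ∀ i, G.R (v i) (a i)) :
    (∃! x, P G.M G.E (Matrix.vecCons x v)) ↔
      HN.exuV (fun x => h.val (Matrix.vecCons x a)) ∈ G.U := by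
  have h1 := GModel.los_fm (fexu h.choose) hv
  rw [vl_fexu, sat_fexu] at h1
  change _ ↔ HN.exuV (fun x => vl (fun x : Empty => x.elim) h.choose (Matrix.vecCons x a)) ∈ G.U
  rw [← h1]
  refine exists_congr fun x => and_congr ?_ (forall_congr' fun y => ?_)
  · exact (h.choose_spec _ _ _).symm
  · exact imp_congr (h.choose_spec _ _ _).symm Iff.rfl

end

theorem ud_isWO : UD (n := 2) (fun _ E v => IsWO E (v 0) (v 1)) := by
  unfold IsWO Sub App IsOPair IsUPair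
  (repeat' first
    | with_reducible exact UD.mem _ _ | with_reducible exact UD.eq _ _
    | with_reducible exact UD.tru | with_reducible exact UD.fls
    | with_reducible apply UD.not | with_reducible apply UD.and | with_reducible apply UD.or
    | with_reducible apply UD.iff | with_reducible apply UD.imp
    | with_reducible apply UD.exu
    | with_reducible apply UD.ex | with_reducible apply UD.all)

/-- being the least element -/
def IsLeast' {M : Type} (E : M → M → Prop) (x R Z : M) : Prop := E x Z ∧ ∀ y, E y Z → App E R x y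

theorem ud_least : UD (n := 3) (fun _ E v => IsLeast' E (v 0) (v 1) (v 2)) := by
  unfold IsLeast' App IsOPair IsUPair
  (repeat' first
    | with_reducible exact UD.mem _ _ | with_reducible exact UD.eq _ _
    | with_reducible exact UD.tru | with_reducible exact UD.fls
    | with_reducible apply UD.not | with_reducible apply UD.and | with_reducible apply UD.or
    | with_reducible apply UD.iff | with_reducible apply UD.imp
    | with_reducible apply UD.exu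
    | with_reducible apply UD.ex | with_reducible apply UD.all)

theorem vec3 {α : Type*} {Q : α → HN.{0} → Prop} {x y z : α} {a b c : HN.{0}} (h : Q x a)
    (h' : Q y b) (h'' : Q z c) :
    ∀ i : Fin 3, Q ((![x, y, z] : Fin 3 → α) i) ((![a, b, c] : Fin 3 → HN.{0}) i) := fun i => by
  fin_cases i
  · exact h
  · exact h'
  · exact h''

/-- elements of well-ordered sets are locally supported by the support -/
theorem wo_sub {X R : HN.{0}} {E : Set Ix} (hE : IsSp E) (hX : HN.Supp E X) (hR : HN.Supp E R)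
    (ζ : HN.{0}) : ud_isWO.val ![R, X] ⊓ HN.mem ζ X ≤ HN.inC (HN.We E) ζ := by
  refine le_of_frc fun p hp => ?_
  obtain ⟨h1, h2⟩ := frc_inf.1 hp
  -- the orbit of ζ
  obtain ⟨Z, hZ, hZs⟩ := HN.exists_of_char (ι := Gp.Fix E) (fun g => HN.act g.1 ζ)
    (fun g => ρ g.1 (pr p)) (fun w => ⨆ g : Gp.Fix E, ρ g.1 (pr p) ⊓ HN.eq w (HN.act g.1 ζ))
    (fun w => rfl) E hE (fun g hg w => by
      rw [OrderIso.map_iSup]
      have hs : Function.Surjective (fun h : Gp.Fix E => (⟨g * h.1, Gp.Fix_mul hg h.2⟩ : Gp.Fix E)) :=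
        fun h => ⟨⟨g⁻¹ * h.1, Gp.Fix_mul (Gp.Fix_inv hg) h.2⟩, Subtype.ext (by
          show g * (g⁻¹ * h.1) = h.1
          group)⟩
      rw [← hs.iSup_comp]
      refine iSup_congr fun h => ?_
      rw [map_inf, ρ_mul, ← HN.eq_act, HN.act_act])
  -- the least element
  obtain ⟨η, hη1, hη2⟩ := ud_least.exists_def hE (a := ![R, Z]) (by
    intro i
    fin_cases i
    · exact hR
    · exact hZs)
  have hZX : ∀ w, HN.mem w Z ≤ HN.mem w X := fun w => by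
    rw [hZ]
    refine iSup_le fun g => ?_
    have h3 : pr p ≤ HN.mem ζ X := pr_le h2
    have h4 : ρ g.1 (pr p) ≤ HN.mem (HN.act g.1 ζ) X := by
      rw [hX.mem_act g.2]
      exact (ρ g.1).monotone h3
    exact HN.bMemL (HN.bSymm inf_le_right) (inf_le_left.trans h4)
  have hζZ : Frc p (HN.mem ζ Z) := by
    rw [hZ]
    refine Frc.mono ?_ (frc_pr_self p)
    refine bEx ⟨1, Gp.Fix_one E⟩ (le_inf ?_ ?_)
    · rw [ρ_one]
    · rw [HN.act_one]
      exact HN.bRefl _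
  have h3 : Frc p (ud_least.val ![η, R, Z]) := by
    refine frc_of_mod {X, R, Z, ζ} (Set.to_countable _) noG p _ fun q hq 𝔐 h𝔐 => ?_
    obtain ⟨x, hx⟩ := h𝔐 X (by simp)
    obtain ⟨r, hr⟩ := h𝔐 R (by simp)
    obtain ⟨z, hz⟩ := h𝔐 Z (by simp)
    obtain ⟨t, ht⟩ := h𝔐 ζ (by simp)
    have h4 : IsWO 𝔐.G.E r x := (GModel.los_ud ud_isWO (vec2 (Q := 𝔐.G.R) hr hx)).2
      (𝔐.gen _ (h1.lower hq))
    have h5 : Sub 𝔐.G.E z x := fun w hw => by
      rw [GModel.R_mem (GModel.R_refl w) hz] at hw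
      rw [GModel.R_mem (GModel.R_refl w) hx]
      exact 𝔐.G.up _ hw _ (hZX _)
    have h6 : 𝔐.G.E t z := (GModel.R_mem ht hz).2 (𝔐.gen _ (hζZ.lower hq))
    obtain ⟨m, hm, hm'⟩ := h4.2.2 z h5 ⟨t, h6⟩
    have h7 : ∃! x, IsLeast' 𝔐.G.E x r z := ⟨m, ⟨hm, hm'⟩, fun y hy =>
      h4.1 y m (h5 _ hy.1) (h5 _ hm) (hy.2 m hm) (hm' y hy.1)⟩
    exact 𝔐.G.up _ ((exuV_mem_iff ud_least (vec2 (Q := 𝔐.G.R) hr hz)).1 h7) _ hη2
  have h4 : Frc p (HN.mem η Z) := by
    refine frc_of_mod {R, Z, η} (Set.to_countable _) noG p _ fun q hq 𝔐 h𝔐 => ?_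
    obtain ⟨r, hr⟩ := h𝔐 R (by simp)
    obtain ⟨z, hz⟩ := h𝔐 Z (by simp)
    obtain ⟨t, ht⟩ := h𝔐 η (by simp)
    have h4 := (GModel.los_ud ud_least (vec3 (Q := 𝔐.G.R) ht hr hz)).2 (𝔐.gen _ (h3.lower hq))
    exact (GModel.R_mem ht hz).1 h4.1
  rw [hZ] at h4
  obtain ⟨q, hq, ⟨g, hg⟩, h5⟩ := frc_iSup.1 h4 p le_rfl
  obtain ⟨h5, h6⟩ := frc_inf.1 h5
  rw [ρ_pr, frc_pr] at h5
  obtain ⟨r, hr, hrp⟩ := h5 q le_rfl
  refine ⟨g⁻¹.onC r, ?_, ?_⟩
  · have := (g⁻¹.onC).monotone hrp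
    simp only [Gp.inv_onC_onC] at this
    exact this
  · have h7 : Frc (g⁻¹.onC r) (HN.eq (HN.act g⁻¹ η) (HN.act g⁻¹ (HN.act g ζ))) :=
      HN.frc_eq_act g⁻¹ (h6.lower hr)
    rw [HN.inv_act_act] at h7
    refine Frc.mono ?_ h7
    exact bEx ⟨η, hη1⟩ (HN.bTrans (HN.bSymm le_rfl) (le_top.trans (hη1 _ (Gp.Fix_inv hg)).ge))

/-- a list of the elements of `X` in the class `𝒞` -/
theorem exists_list (X : HN.{0}) (𝒞 : Set HN.{0}) (h𝒞 : emp0 ∈ 𝒞) : ∃ (J : Type) (y : J → HN.{0}),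
    (∀ j, y j ∈ 𝒞) ∧ ∀ w, HN.mem w X ⊓ HN.inC 𝒞 w ≤ ⨆ j, HN.eq w (y j) := by
  classical
  obtain ⟨ι, a, v, h⟩ := HN.cases_name X
  refine ⟨ι × BB, fun p => if h : ∃ ζ ∈ 𝒞, HN.eq (a p.1) ζ = p.2 then h.choose else emp0,
    fun p => ?_, fun w => ?_⟩
  · simp only
    split_ifs with h1
    · exact h1.choose_spec.1
    · exact h𝒞
  · have h1 : HN.mem w X ⊓ HN.inC 𝒞 w ≤ ⨆ i, v i ⊓ HN.eq w (a i) := by rw [← h]; exact inf_le_left
    refine bElim h1 fun i Δ h2 h3 => ?_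
    refine bElim (bRight h2) fun ζ Δ' h4 h5 => ?_
    have hex : ∃ ζ' ∈ 𝒞, HN.eq (a i) ζ' = HN.eq (a i) ζ.1 := ⟨ζ.1, ζ.2, rfl⟩
    have h6 : Δ' ≤ HN.eq (a i) ζ.1 := HN.bTrans (HN.bSymm (bRight (h4.trans h3))) h5
    refine bEx (i, HN.eq (a i) ζ.1) ?_
    simp only
    rw [dif_pos hex]
    refine HN.bTrans (bRight (h4.trans h3)) ?_
    rw [hex.choose_spec.2]
    exact h6

theorem emp0_We (E : Set Ix) : emp0 ∈ HN.We E := HN.supp_emp E

open Classical in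
/-- least witnesses -/
theorem iSup_least {J : Type} (r : J → J → Prop) (hr : WellFounded r) (b : J → BB) :
    ⨆ j, b j ≤ ⨆ j, b j ⊓ ⨅ (j' : J) (_ : r j' j), (b j')ᶜ := by
  refine iSup_le fun j => ?_
  induction j using hr.induction with
  | _ j ih =>
    refine le_trans ?_ (sup_le (le_iSup (fun j => b j ⊓ ⨅ (j' : J) (_ : r j' j), (b j')ᶜ) j)
      (iSup_le fun j' => iSup_le fun h : r j' j => ih j' h))
    rw [← compl_compl (⨆ (j' : J) (_ : r j' j), b j')]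
    simp only [compl_iSup]
    rw [sup_comm, sup_inf_left]
    refine le_inf le_sup_right ?_
    rw [compl_sup_eq_top]
    exact le_top

theorem ud_woac : UD (n := 2) (fun _ E v => (∀ x, E x (v 0) → IsFin E x ∧ ∃ y, E y x) ∧
    IsWO E (v 1) (v 0) ∧ ¬ ∃ f, IsChoice E f (v 0)) := by
  unfold IsFin CardEq IsInj IsFun IsOmega IsInductive IsWO IsChoice Sub App IsOPair IsUPair
  (repeat' first
    | with_reducible exact UD.mem _ _ | with_reducible exact UD.eq _ _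
    | with_reducible exact UD.tru | with_reducible exact UD.fls
    | with_reducible apply UD.not | with_reducible apply UD.and | with_reducible apply UD.or
    | with_reducible apply UD.iff | with_reducible apply UD.imp
    | with_reducible apply UD.exu
    | with_reducible apply UD.ex | with_reducible apply UD.all)

theorem GModel.R_opair_cases {𝓖 : ℕ → HN.{0} → HN.{0} → Set BB} {G : GModel.{0} 𝓖} {q : G.M}
    {a b : HN.{0}} (h : G.R q (HN.opair a b)) : ∃ x w, q = WT.opair x w ∧ G.R x a ∧ G.R w b := by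
  have h4 := (G.los_iff (Fm.ex (Fm.ex (WT.Fm.fPair (.inr q) (.inl 1) (.inl 0))) : Fm G.M 0) ![]).2 (by
    simp only [vl_ex, vl_fPair, Sum.elim_inl, Sum.elim_inr, Matrix.cons_val_zero, Matrix.cons_val_one]
    exact G.up _ h _ (bEx a (bEx b le_rfl)))
  rw [Fm.sat_ex] at h4
  obtain ⟨x, h4⟩ := h4
  rw [Fm.sat_ex] at h4
  obtain ⟨w, h4⟩ := h4
  rw [WT.Fm.sat_fPair] at h4
  have h5 := WT.isOPair_iff.1 h4
  simp only [Sum.elim_inl, Sum.elim_inr, Matrix.cons_val_zero, Matrix.cons_val_one, id] at h5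
  have h6 : HN.eq (HN.opair (G.rep x) (G.rep w)) (HN.opair a b) ∈ G.U := by
    rw [← GModel.R_eq (GModel.R_opair (GModel.R_refl x) (GModel.R_refl w)) h, ← h5]
  exact ⟨x, w, h5, G.up _ h6 _ (HN.bOpairFst le_rfl), G.up _ h6 _ (HN.bOpairSnd le_rfl)⟩

theorem woac_frc (p : Cond) (F R : HN.{0}) : ¬ Frc p (ud_woac.val ![F, R]) := by
  intro hp
  obtain ⟨E1, hE1, hF⟩ := HN.exists_supp F
  obtain ⟨E2, hE2, hR⟩ := HN.exists_supp R
  have hE := hE1.union hE2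
  replace hF := hF.anti (f := E1 ∪ E2) Set.subset_union_left
  replace hR := hR.anti (f := E1 ∪ E2) Set.subset_union_right
  generalize E1 ∪ E2 = E at hE hF hR
  obtain ⟨J, y, hy1, hy2⟩ := exists_list F (HN.We E) (emp0_We E)
  obtain ⟨Z1, hZ1⟩ := HN.exists_union F
  obtain ⟨K, z, hz1, hz2⟩ := exists_list Z1 (HN.We E) (emp0_We E)
  obtain ⟨r, hr⟩ : ∃ r : K → K → Prop, IsWellOrder K r := ⟨WellOrderingRel, inferInstance⟩
  -- the values
  let b : J → K → BB := fun i j => HN.mem (z j) (y i) ⊓ ⨅ (j' : K) (_ : r j' j), (HN.mem (z j') (y i))ᶜ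
  let u : J × K → BB := fun c => HN.mem (y c.1) F ⊓ b c.1 c.2
  have hmem : ∀ i j, ∀ g ∈ Gp.Fix E, ρ g (HN.mem (z j) (y i)) = HN.mem (z j) (y i) := by
    intro i j g hg
    rw [← HN.Supp.mem_act (hy1 i) hg]
    exact HN.mem_congr_top' (hz1 j g hg)
  have hu : ∀ c, ∀ g ∈ Gp.Fix E, ρ g (u c) = u c := by
    intro c g hg
    simp only [u, b, map_inf, OrderIso.map_iInf, map_compl', hmem _ _ g hg]
    rw [← hF.mem_act hg, HN.mem_congr_top' (hy1 _ g hg)]
  obtain ⟨f, hf, hfs⟩ := HN.exists_of_char (ι := J × K) (fun c => HN.opair (y c.1) (z c.2)) u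
    (fun w => ⨆ c, u c ⊓ HN.eq w (HN.opair (y c.1) (z c.2))) (fun w => rfl) E hE (fun g hg w => by
      rw [OrderIso.map_iSup]
      refine iSup_congr fun c => ?_
      rw [map_inf, hu c g hg, ← (HN.Supp.opair (hy1 c.1) (hz1 c.2)).eq_act hg])
  -- the model
  let 𝒢 : ℕ → HN.{0} → Set BB := fun k x =>
    match k with
    | 0 => Set.range fun i => HN.eq x (y i)
    | 1 => Set.range fun j => HN.eq x (z j)
    | 2 => Set.range fun c => u c ⊓ HN.eq x (HN.opair (y c.1) (z c.2))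
    | _ => Set.range fun j => HN.mem (z j) x ⊓ ⨅ (j' : K) (_ : r j' j), (HN.mem (z j') x)ᶜ
  obtain ⟨𝔐, h𝔐⟩ := exists_mod {F, R, f} (Set.to_countable _) 𝒢 p
  obtain ⟨mF, hmF⟩ := h𝔐 F (by simp)
  obtain ⟨mR, hmR⟩ := h𝔐 R (by simp)
  obtain ⟨mf, hmf⟩ := h𝔐 f (by simp)
  obtain ⟨h1, h2, h3⟩ := (GModel.los_ud ud_woac (vec2 (Q := 𝔐.G.R) hmF hmR)).2 (𝔐.gen _ hp)
  -- elements of the elements are supported by E
  have hxE : ∀ x, 𝔐.G.E x mF → HN.inC (HN.We E) (𝔐.G.rep x) ∈ 𝔐.G.U := by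
    intro x hx
    have h4 := (GModel.R_mem (GModel.R_refl x) hmF).1 hx
    have h5 := (GModel.los_ud ud_isWO (vec2 (Q := 𝔐.G.R) hmR hmF)).1 h2
    exact GModel.up2 h5 h4 (wo_sub hE hF hR _)
  have hwE : ∀ x w, 𝔐.G.E x mF → 𝔐.G.E w x → HN.inC (HN.We E) (𝔐.G.rep w) ∈ 𝔐.G.U := by
    intro x w hx hw
    have h4 := hxE x hx
    have h5 := (GModel.los_ud ud_isFin (vec1 (Q := 𝔐.G.R) (GModel.R_refl x))).1 (h1 x hx).1
    have h6 := (GModel.R_mem (GModel.R_refl w) (GModel.R_refl x)).1 hw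
    refine GModel.up3 h4 h5 h6 ?_
    refine bElim (bLeft (bLeft le_rfl)) fun ζ Δ h7 h8 => ?_
    refine le_trans (le_inf ?_ ?_) (fin_sub hE ζ.2 (𝔐.G.rep w))
    · exact ud_isFin.val_congr (vec1 (Q := fun x y => Δ ≤ HN.eq x y) h8) (bRight (bLeft h7))
    · exact HN.bMemR h8 (bRight h7)
  have hxJ : ∀ x, 𝔐.G.E x mF → ∃ i, 𝔐.G.R x (y i) := by
    intro x hx
    refine 𝔐.gen_range (k := 0) (a := y) (fun _ => rfl) (GModel.R_refl x) ?_
    exact GModel.up2 ((GModel.R_mem (GModel.R_refl x) hmF).1 hx) (hxE x hx) (hy2 _)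
  have hwK : ∀ x w, 𝔐.G.E x mF → 𝔐.G.E w x → ∃ j, 𝔐.G.R w (z j) := by
    intro x w hx hw
    refine 𝔐.gen_range (k := 1) (a := z) (fun _ => rfl) (GModel.R_refl w) ?_
    refine GModel.up3 ((GModel.R_mem (GModel.R_refl x) hmF).1 hx)
      ((GModel.R_mem (GModel.R_refl w) (GModel.R_refl x)).1 hw) (hwE x w hx hw) ?_
    refine le_trans (le_inf ?_ inf_le_right) (hz2 _)
    rw [hZ1]
    exact bEx (𝔐.G.rep x) inf_le_left
  -- elements of f
  have hfel : ∀ q, 𝔐.G.E q mf → ∃ c : J × K, u c ∈ 𝔐.G.U ∧ 𝔐.G.R q (HN.opair (y c.1) (z c.2)) := by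
    intro q hq
    have h4 := (GModel.R_mem (GModel.R_refl q) hmf).1 hq
    rw [hf] at h4
    rcases 𝔐.gen' 2 q with ⟨_, ⟨c, rfl⟩, hc⟩ | h5
    · exact ⟨c, 𝔐.G.up _ hc _ inf_le_left, 𝔐.G.up _ hc _ inf_le_right⟩
    · exact (GModel.not_both h4 h5).elim
  have hfmk : ∀ c : J × K, u c ∈ 𝔐.G.U → ∀ x w, 𝔐.G.R x (y c.1) → 𝔐.G.R w (z c.2) →
      𝔐.G.E (WT.opair x w) mf := by
    intro c hc x w hx hw
    rw [GModel.R_mem (GModel.R_opair hx hw) hmf, hf]
    exact 𝔐.G.up _ hc _ (bEx c (le_inf le_rfl (HN.bRefl _)))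
  refine h3 ⟨mf, fun q hq => ?_, fun x hx => ?_⟩
  · obtain ⟨c, hc, hqc⟩ := hfel q hq
    have hc1 : HN.mem (y c.1) F ∈ 𝔐.G.U := 𝔐.G.up _ hc _ inf_le_left
    have hc2 : HN.mem (z c.2) (y c.1) ∈ 𝔐.G.U := 𝔐.G.up _ hc _ (inf_le_right.trans inf_le_left)
    obtain ⟨x, w, rfl, hx, hw⟩ := GModel.R_opair_cases hqc
    refine ⟨x, w, (GModel.R_mem hx hmF).2 hc1, (GModel.R_mem hw hx).2 hc2, ?_⟩
    exact WT.isOPair_iff.2 rfl
  · obtain ⟨i, hi⟩ := hxJ x hx
    -- existence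
    obtain ⟨w0, hw0⟩ := (h1 x hx).2
    obtain ⟨j0, hj0⟩ := hwK x w0 hx hw0
    have h4 : (⨆ j, HN.mem (z j) (𝔐.G.rep x)) ∈ 𝔐.G.U :=
      𝔐.G.up _ ((GModel.R_mem hj0 (GModel.R_refl x)).1 hw0) _ (bEx j0 le_rfl)
    obtain ⟨j, hj⟩ : ∃ j, HN.mem (z j) (𝔐.G.rep x) ⊓
        ⨅ (j' : K) (_ : r j' j), (HN.mem (z j') (𝔐.G.rep x))ᶜ ∈ 𝔐.G.U := by
      rcases 𝔐.gen' 3 x with ⟨_, ⟨j, rfl⟩, hc⟩ | h5
      · exact ⟨j, hc⟩
      · exact (GModel.not_both (𝔐.G.up _ h4 _ (iSup_least r hr.wf _)) h5).elim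
    have hj1 : HN.mem (z j) (𝔐.G.rep x) ∈ 𝔐.G.U := 𝔐.G.up _ hj _ inf_le_left
    have hb : u (i, j) ∈ 𝔐.G.U := by
      have h5 := (GModel.R_mem hi hmF).1 hx
      refine GModel.up3 h5 hi hj (le_inf (bLeft (bLeft le_rfl)) (le_inf ?_ ?_))
      · exact HN.bMemR (bRight (bLeft le_rfl)) (bLeft (bRight le_rfl))
      · refine le_iInf fun j' => le_iInf fun hj' => bNot fun Δ h6 h7 => ?_
        refine bAbs ?_ (HN.bMemR (HN.bSymm (bRight (bLeft h6))) h7)
        exact (bRight (bRight h6)).trans ((iInf_le _ j').trans (iInf_le _ hj'))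
    obtain ⟨w, hw⟩ : ∃ w, ZM.E (WT.opair x w) mf := by
      refine GModel.exists_app hmf hi (𝔐.G.up _ hb _ (bEx (z j) ?_))
      rw [hf]
      exact bEx (i, j) (le_inf le_rfl (HN.bRefl _))
    have hfel' : ∀ w, 𝔐.G.E (WT.opair x w) mf → ∃ c : J × K, u c ∈ 𝔐.G.U ∧
        𝔐.G.R x (y c.1) ∧ 𝔐.G.R w (z c.2) := by
      intro w hw
      obtain ⟨c, h5, h6⟩ := hfel _ hw
      obtain ⟨x1, w1, h7, h8, h9⟩ := GModel.R_opair_cases h6
      obtain ⟨rfl, rfl⟩ := WT.opair_inj.1 h7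
      exact ⟨c, h5, h8, h9⟩
    have key : ∀ c c' : J × K, u c ∈ 𝔐.G.U → u c' ∈ 𝔐.G.U → 𝔐.G.R x (y c.1) → 𝔐.G.R x (y c'.1) →
        ¬ r c.2 c'.2 := by
      intro c c' h5 h6 h7 h8 h9
      have h10 : (HN.mem (z c.2) (y c'.1))ᶜ ∈ 𝔐.G.U := 𝔐.G.up _ h6 _
        (inf_le_right.trans (inf_le_right.trans ((iInf_le _ c.2).trans (iInf_le _ h9))))
      have h11 : HN.mem (z c.2) (y c.1) ∈ 𝔐.G.U := 𝔐.G.up _ h5 _ (inf_le_right.trans inf_le_left)
      refine GModel.not_both (GModel.up3 h11 h7 h8 ?_) h10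
      exact HN.bMemR (HN.bTrans (HN.bSymm (bRight (bLeft le_rfl))) (bRight le_rfl)) (bLeft (bLeft le_rfl))
    refine ⟨w, WT.app_iff.2 hw, fun w' hw' => ?_⟩
    obtain ⟨c, h5, h6, h7⟩ := hfel' w hw
    obtain ⟨c', h5', h6', h7'⟩ := hfel' w' (WT.app_iff.1 hw')
    have hcc : c.2 = c'.2 := by
      haveI := hr
      rcases trichotomous_of r c.2 c'.2 with h | h | h
      · exact (key c c' h5 h5' h6 h6' h).elim
      · exact h
      · exact (key c' c h5' h5 h6' h6 h).elim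
    rw [← hcc] at h7'
    refine (GModel.R_eq h7' h7).2 ?_
    rw [HN.eq_refl]
    exact 𝔐.G.top

/-- choice for well-ordered families of finite sets holds in all the models -/
theorem Mod.woac {𝒢 : ℕ → HN.{0} → Set BB} {p : Cond} (𝔐 : Mod 𝒢 p) : WOACfin 𝔐.G.E := by
  rintro F - hF ⟨R, hR⟩
  by_contra hc
  have h1 := (GModel.los_ud ud_woac (vec2 (Q := 𝔐.G.R) (GModel.R_refl F) (GModel.R_refl R))).1
    ⟨hF, hR, hc⟩
  obtain ⟨q, -, h2⟩ := 𝔐.den _ h1
  exact woac_frc q _ _ h2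

end Pool.Agent.Helper23.SM
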